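import Mathlib

/-!
# Gridded sets of points

A finite set `V` of points with a column, a row, a position in the column and a position in
the row for every point.
-/

namespace PPI

/-- columns, rows and positions -/
structure Keys (α : Type) where
  col : α → ℕ
  row : α → ℕ
  kx : α → ℕ
  ky : α → ℕ

variable {α : Type} [DecidableEq α]

/-- the positions separate the points of `V` -/
structure Keys.Inj (k : Keys α) (V : Finset α) : Prop where
  x : ∀ a ∈ V, ∀ b ∈ V, k.col a = k.col b → k.kx a = k.kx b → a = b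
  y : ∀ a ∈ V, ∀ b ∈ V, k.row a = k.row b → k.ky a = k.ky b → a = b

/-- `θ` is a gridded isomorphism of `V \ Q` onto `V \ Q'` -/
structure GI (k : Keys α) (V Q Q' : Finset α) (θ : α → α) : Prop where
  bij : Set.BijOn θ (V \ Q : Finset α) (V \ Q' : Finset α)
  col : ∀ a ∈ V \ Q, k.col (θ a) = k.col a
  row : ∀ a ∈ V \ Q, k.row (θ a) = k.row a
  x : ∀ a ∈ V \ Q, ∀ b ∈ V \ Q, k.col a = k.col b →
    (k.kx a < k.kx b ↔ k.kx (θ a) < k.kx (θ b))
  y : ∀ a ∈ V \ Q, ∀ b ∈ V \ Q, k.row a = k.row b →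
    (k.ky a < k.ky b ↔ k.ky (θ a) < k.ky (θ b))

/-- the location (box) of `p` with respect to `V \ D` -/
def loc (k : Keys α) (V D : Finset α) (p : α) : ℕ × ℕ × ℕ × ℕ :=
  (k.col p, k.row p,
    ((V \ D).filter fun a => k.col a = k.col p ∧ k.kx a < k.kx p).card,
    ((V \ D).filter fun a => k.row a = k.row p ∧ k.ky a < k.ky p).card)

/-- `p` and `q` are in the same cell, `q` is the next point after `p` in its column and in
its row -/
structure Twin (k : Keys α) (V : Finset α) (p q : α) : Prop where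
  ne : p ≠ q
  col : k.col p = k.col q
  row : k.row p = k.row q
  kx : k.kx p < k.kx q
  ky : k.ky p < k.ky q
  x : ∀ a ∈ V, k.col a = k.col p → a = p ∨ a = q ∨ k.kx a < k.kx p ∨ k.kx q < k.kx a
  y : ∀ a ∈ V, k.row a = k.row p → a = p ∨ a = q ∨ k.ky a < k.ky p ∨ k.ky q < k.ky a

variable {k : Keys α} {V : Finset α}

theorem GI.refl (Q : Finset α) : GI k V Q Q id := by
  refine ⟨Set.bijOn_id _, ?_, ?_, ?_, ?_⟩ <;> simp

theorem GI.symm (hk : k.Inj V) {Q Q' : Finset α} {θ : α → α} (h : GI k V Q Q' θ) :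
    ∃ θ', GI k V Q' Q θ' ∧ (∀ a ∈ V \ Q, θ' (θ a) = a) ∧ ∀ a ∈ V \ Q', θ (θ' a) = a := by
  classical
  have hs : ∀ b ∈ V \ Q', ∃ a ∈ V \ Q, θ a = b := by
    intro b hb
    obtain ⟨a, ha, e⟩ := h.bij.surjOn (Finset.mem_coe.2 hb)
    exact ⟨a, Finset.mem_coe.1 ha, e⟩
  let θ' : α → α := fun b => if hb : b ∈ V \ Q' then (hs b hb).choose else b
  have h1 : ∀ b ∈ V \ Q', θ' b ∈ V \ Q ∧ θ (θ' b) = b := by
    intro b hb
    have := (hs b hb).choose_spec
    simp only [θ', dif_pos hb]
    exact this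
  have hinj : ∀ a ∈ V \ Q, ∀ b ∈ V \ Q, θ a = θ b → a = b := fun a ha b hb e =>
    h.bij.injOn (Finset.mem_coe.2 ha) (Finset.mem_coe.2 hb) e
  have hmaps : ∀ a ∈ V \ Q, θ a ∈ V \ Q' := fun a ha =>
    Finset.mem_coe.1 (h.bij.mapsTo (Finset.mem_coe.2 ha))
  have h2 : ∀ a ∈ V \ Q, θ' (θ a) = a := by
    intro a ha
    have := h1 _ (hmaps a ha)
    exact hinj _ this.1 _ ha this.2
  refine ⟨θ', ⟨⟨?_, ?_, ?_⟩, ?_, ?_, ?_, ?_⟩, h2, fun a ha => (h1 a ha).2⟩
  · intro b hb
    exact Finset.mem_coe.2 (h1 b (Finset.mem_coe.1 hb)).1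
  · intro b hb c hc e
    have hb' := h1 b (Finset.mem_coe.1 hb)
    have hc' := h1 c (Finset.mem_coe.1 hc)
    rw [← hb'.2, ← hc'.2, e]
  · intro a ha
    exact ⟨θ a, Finset.mem_coe.2 (hmaps a (Finset.mem_coe.1 ha)), h2 a (Finset.mem_coe.1 ha)⟩
  · intro b hb
    obtain ⟨h3, h4⟩ := h1 b hb
    have := h.col _ h3
    rw [h4] at this
    exact this.symm
  · intro b hb
    obtain ⟨h3, h4⟩ := h1 b hb
    have := h.row _ h3
    rw [h4] at this
    exact this.symm
  · intro b hb c hc e
    obtain ⟨h3, h4⟩ := h1 b hb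
    obtain ⟨h5, h6⟩ := h1 c hc
    have e1 := h.col _ h3
    have e2 := h.col _ h5
    rw [h4] at e1
    rw [h6] at e2
    have := h.x _ h3 _ h5 (by rw [← e1, ← e2, e])
    rw [h4, h6] at this
    exact this.symm
  · intro b hb c hc e
    obtain ⟨h3, h4⟩ := h1 b hb
    obtain ⟨h5, h6⟩ := h1 c hc
    have e1 := h.row _ h3
    have e2 := h.row _ h5
    rw [h4] at e1
    rw [h6] at e2
    have := h.y _ h3 _ h5 (by rw [← e1, ← e2, e])
    rw [h4, h6] at this
    exact this.symm

theorem GI.trans {Q Q' Q'' : Finset α} {θ θ' : α → α} (h : GI k V Q Q' θ)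
    (h' : GI k V Q' Q'' θ') : GI k V Q Q'' (θ' ∘ θ) := by
  have hmaps : ∀ a ∈ V \ Q, θ a ∈ V \ Q' := fun a ha =>
    Finset.mem_coe.1 (h.bij.mapsTo (Finset.mem_coe.2 ha))
  refine ⟨h'.bij.comp h.bij, ?_, ?_, ?_, ?_⟩
  · intro a ha
    rw [Function.comp_apply, h'.col _ (hmaps a ha), h.col a ha]
  · intro a ha
    rw [Function.comp_apply, h'.row _ (hmaps a ha), h.row a ha]
  · intro a ha b hb e
    rw [h.x a ha b hb e, h'.x _ (hmaps a ha) _ (hmaps b hb) (by rw [h.col a ha, h.col b hb, e])]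
    rfl
  · intro a ha b hb e
    rw [h.y a ha b hb e, h'.y _ (hmaps a ha) _ (hmaps b hb) (by rw [h.row a ha, h.row b hb, e])]
    rfl

theorem GI.maps {Q Q' : Finset α} {θ : α → α} (h : GI k V Q Q' θ) :
    ∀ a ∈ V \ Q, θ a ∈ V \ Q' := fun a ha =>
  Finset.mem_coe.1 (h.bij.mapsTo (Finset.mem_coe.2 ha))

theorem GI.image_eq {Q Q' : Finset α} {θ : α → α} (h : GI k V Q Q' θ) :
    (V \ Q).image θ = V \ Q' := by
  apply Finset.coe_injective
  rw [Finset.coe_image]
  exact h.bij.image_eq

/-- the number of points before `θ p` -/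
theorem GI.rank_x {Q Q' R : Finset α} {θ : α → α} (h : GI k V Q Q' θ) (hR : Q ⊆ R) {p : α}
    (hp : p ∈ V \ Q) :
    (((V \ R).image θ).filter fun a => k.col a = k.col (θ p) ∧ k.kx a < k.kx (θ p)).card =
      ((V \ R).filter fun a => k.col a = k.col p ∧ k.kx a < k.kx p).card := by
  have hsub : V \ R ⊆ V \ Q := Finset.sdiff_subset_sdiff (Finset.Subset.refl V) hR
  rw [Finset.filter_image, Finset.card_image_of_injOn]
  · apply congrArg Finset.card
    apply Finset.filter_congr
    intro a ha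
    have ha' := hsub ha
    rw [h.col a ha', h.col p hp]
    constructor
    · rintro ⟨e, l⟩
      exact ⟨e, (h.x a ha' p hp e).2 l⟩
    · rintro ⟨e, l⟩
      exact ⟨e, (h.x a ha' p hp e).1 l⟩
  · intro a ha b hb e
    have ha' := hsub (Finset.mem_filter.1 (Finset.mem_coe.1 ha)).1
    have hb' := hsub (Finset.mem_filter.1 (Finset.mem_coe.1 hb)).1
    exact h.bij.injOn (Finset.mem_coe.2 ha') (Finset.mem_coe.2 hb') e

theorem GI.rank_y {Q Q' R : Finset α} {θ : α → α} (h : GI k V Q Q' θ) (hR : Q ⊆ R) {p : α}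
    (hp : p ∈ V \ Q) :
    (((V \ R).image θ).filter fun a => k.row a = k.row (θ p) ∧ k.ky a < k.ky (θ p)).card =
      ((V \ R).filter fun a => k.row a = k.row p ∧ k.ky a < k.ky p).card := by
  have hsub : V \ R ⊆ V \ Q := Finset.sdiff_subset_sdiff (Finset.Subset.refl V) hR
  rw [Finset.filter_image, Finset.card_image_of_injOn]
  · apply congrArg Finset.card
    apply Finset.filter_congr
    intro a ha
    have ha' := hsub ha
    rw [h.row a ha', h.row p hp]
    constructor
    · rintro ⟨e, l⟩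
      exact ⟨e, (h.y a ha' p hp e).2 l⟩
    · rintro ⟨e, l⟩
      exact ⟨e, (h.y a ha' p hp e).1 l⟩
  · intro a ha b hb e
    have ha' := hsub (Finset.mem_filter.1 (Finset.mem_coe.1 ha)).1
    have hb' := hsub (Finset.mem_filter.1 (Finset.mem_coe.1 hb)).1
    exact h.bij.injOn (Finset.mem_coe.2 ha') (Finset.mem_coe.2 hb') e

/-- the rank in the column determines the point -/
theorem Keys.Inj.rank (hk : k.Inj V) {Q : Finset α} {a b : α} (ha : a ∈ V \ Q) (hb : b ∈ V \ Q)
    (e : k.col a = k.col b)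
    (hr : ((V \ Q).filter fun c => k.col c = k.col a ∧ k.kx c < k.kx a).card =
      ((V \ Q).filter fun c => k.col c = k.col b ∧ k.kx c < k.kx b).card) : a = b := by
  have key : ∀ a ∈ V \ Q, ∀ b, k.col a = k.col b → k.kx a < k.kx b →
      ((V \ Q).filter fun c => k.col c = k.col a ∧ k.kx c < k.kx a).card <
      ((V \ Q).filter fun c => k.col c = k.col b ∧ k.kx c < k.kx b).card := by
    intro a ha b e l
    apply Finset.card_lt_card
    refine ⟨?_, ?_⟩
    · intro c hc
      rw [Finset.mem_filter] at hc ⊢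
      exact ⟨hc.1, hc.2.1.trans e, hc.2.2.trans l⟩
    · intro hss
      have : a ∈ (V \ Q).filter fun c => k.col c = k.col b ∧ k.kx c < k.kx b :=
        Finset.mem_filter.2 ⟨ha, e, l⟩
      have := (Finset.mem_filter.1 (hss this)).2.2
      exact lt_irrefl _ this
  rcases lt_trichotomy (k.kx a) (k.kx b) with h1 | h1 | h1
  · exact absurd hr (key a ha b e h1).ne
  · exact hk.x a (Finset.mem_sdiff.1 ha).1 b (Finset.mem_sdiff.1 hb).1 e h1
  · exact absurd hr (key b hb a e.symm h1).ne'

/-- gridded isomorphisms are unique -/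
theorem GI.unique (hk : k.Inj V) {Q Q' : Finset α} {θ θ' : α → α} (h : GI k V Q Q' θ)
    (h' : GI k V Q Q' θ') : ∀ a ∈ V \ Q, θ a = θ' a := by
  intro a ha
  apply hk.rank (h.maps a ha) (h'.maps a ha)
  · rw [h.col a ha, h'.col a ha]
  · have h1 := h.rank_x (Finset.Subset.refl Q) ha
    have h2 := h'.rank_x (Finset.Subset.refl Q) ha
    rw [h.image_eq] at h1
    rw [h'.image_eq] at h2
    rw [h1, h2]

theorem sdiff_sdiff_image {Q Q' R : Finset α} {θ : α → α} (h : GI k V Q Q' θ) (hR : Q ⊆ R) :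
    V \ (V \ (V \ R).image θ) = (V \ R).image θ := by
  apply Finset.sdiff_sdiff_eq_self
  intro b hb
  obtain ⟨a, ha, rfl⟩ := Finset.mem_image.1 hb
  have ha' : a ∈ V \ Q := Finset.sdiff_subset_sdiff (Finset.Subset.refl V) hR ha
  exact (Finset.mem_sdiff.1 (h.maps a ha')).1

/-- restriction: delete more points -/
theorem GI.restrict {Q Q' R : Finset α} {θ : α → α} (h : GI k V Q Q' θ) (hR : Q ⊆ R) :
    GI k V R (V \ (V \ R).image θ) θ := by
  have hsub : V \ R ⊆ V \ Q := Finset.sdiff_subset_sdiff (Finset.Subset.refl V) hR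
  refine ⟨?_, fun a ha => h.col a (hsub ha), fun a ha => h.row a (hsub ha),
    fun a ha b hb => h.x a (hsub ha) b (hsub hb), fun a ha b hb => h.y a (hsub ha) b (hsub hb)⟩
  rw [sdiff_sdiff_image h hR, Finset.coe_image]
  apply Set.InjOn.bijOn_image
  intro a ha b hb e
  exact h.bij.injOn (Finset.mem_coe.2 (hsub (Finset.mem_coe.1 ha)))
    (Finset.mem_coe.2 (hsub (Finset.mem_coe.1 hb))) e

/-- transport of locations -/
theorem GI.loc {Q Q' R : Finset α} {θ : α → α} (h : GI k V Q Q' θ) (hR : Q ⊆ R) {p : α}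
    (hp : p ∈ V \ Q) :
    PPI.loc k V (V \ (V \ R).image θ) (θ p) = PPI.loc k V R p := by
  unfold PPI.loc
  rw [sdiff_sdiff_image h hR, h.rank_x hR hp, h.rank_y hR hp, h.col p hp, h.row p hp]

theorem GI.card {Q Q' : Finset α} {θ : α → α} (h : GI k V Q Q' θ) (hQ : Q ⊆ V)
    (hQ' : Q' ⊆ V) : Q.card = Q'.card := by
  have h1 : (V \ Q).card = (V \ Q').card := by
    rw [← h.image_eq, Finset.card_image_of_injOn h.bij.injOn]
  have h2 := Finset.card_sdiff_add_card_eq_card hQ
  have h3 := Finset.card_sdiff_add_card_eq_card hQ'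
  omega

/-- exchanging twins -/
theorem Twin.swap {p q : α} (t : Twin k V p q) (hp : p ∈ V) (hq : q ∈ V) {Q : Finset α}
    (hQ : q ∈ Q) (hpQ : p ∉ Q) : ∃ θ, GI k V Q (insert p (Q.erase q)) θ ∧ θ p = q ∧
      ∀ a, a ≠ p → θ a = a := by
  classical
  have hT : ∀ a, a ∈ V \ insert p (Q.erase q) ↔ a = q ∨ (a ∈ V \ Q ∧ a ≠ p) := by
    intro a
    simp only [Finset.mem_sdiff, Finset.mem_insert, Finset.mem_erase]
    constructor
    · rintro ⟨h1, h2⟩
      by_cases e : a = q
      · exact Or.inl e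
      · refine Or.inr ⟨⟨h1, fun h3 => h2 (Or.inr ⟨e, h3⟩)⟩, fun h3 => h2 (Or.inl h3)⟩
    · rintro (rfl | ⟨⟨h1, h2⟩, h3⟩)
      · exact ⟨hq, fun h => h.elim (fun h => t.ne h.symm) fun h => h.1 rfl⟩
      · exact ⟨h1, fun h => h.elim (fun h => h3 h) fun h => h2 h.2⟩
  refine ⟨fun a => if a = p then q else a, ⟨⟨?_, ?_, ?_⟩, ?_, ?_, ?_, ?_⟩, if_pos rfl,
    fun a ha => if_neg ha⟩
  · intro a ha
    rw [Finset.mem_coe] at ha ⊢
    rw [hT]
    by_cases e : a = p
    · exact Or.inl (if_pos e)
    · refine Or.inr ?_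
      show (if a = p then q else a) ∈ V \ Q ∧ (if a = p then q else a) ≠ p
      rw [if_neg e]
      exact ⟨ha, e⟩
  · intro a ha b hb e
    rw [Finset.mem_coe, Finset.mem_sdiff] at ha hb
    have e' : (if a = p then q else a) = if b = p then q else b := e
    split_ifs at e' with h1 h2 h2
    · rw [h1, h2]
    · exact absurd (e' ▸ hQ) hb.2
    · exact absurd (e'.symm ▸ hQ) ha.2
    · exact e'
  · intro a ha
    rw [Finset.mem_coe, hT] at ha
    rcases ha with rfl | ⟨h1, h2⟩
    · exact ⟨p, Finset.mem_coe.2 (Finset.mem_sdiff.2 ⟨hp, hpQ⟩), if_pos rfl⟩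
    · exact ⟨a, Finset.mem_coe.2 h1, if_neg h2⟩
  · intro a ha
    show k.col (if a = p then q else a) = k.col a
    split_ifs with h1
    · rw [h1, t.col]
    · rfl
  · intro a ha
    show k.row (if a = p then q else a) = k.row a
    split_ifs with h1
    · rw [h1, t.row]
    · rfl
  · intro a ha b hb e
    show k.kx a < k.kx b ↔ k.kx (if a = p then q else a) < k.kx (if b = p then q else b)
    have ht := t.kx
    rw [Finset.mem_sdiff] at ha hb
    split_ifs with h1 h2 h2
    · subst h1; subst h2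
      exact ⟨fun h => absurd h (lt_irrefl _), fun h => absurd h (lt_irrefl _)⟩
    · subst h1
      rcases t.x b hb.1 e.symm with h | h | h | h
      · exact absurd h h2
      · exact absurd (h ▸ hQ) hb.2
      · constructor
        · intro h3; omega
        · intro h3; omega
      · constructor
        · intro h3; omega
        · intro h3; omega
    · subst h2
      rcases t.x a ha.1 e with h | h | h | h
      · exact absurd h h1
      · exact absurd (h ▸ hQ) ha.2
      · constructor
        · intro h3; omega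
        · intro h3; omega
      · constructor
        · intro h3; omega
        · intro h3; omega
    · exact Iff.rfl
  · intro a ha b hb e
    show k.ky a < k.ky b ↔ k.ky (if a = p then q else a) < k.ky (if b = p then q else b)
    have ht := t.ky
    rw [Finset.mem_sdiff] at ha hb
    split_ifs with h1 h2 h2
    · subst h1; subst h2
      exact ⟨fun h => absurd h (lt_irrefl _), fun h => absurd h (lt_irrefl _)⟩
    · subst h1
      rcases t.y b hb.1 e.symm with h | h | h | h
      · exact absurd h h2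
      · exact absurd (h ▸ hQ) hb.2
      · constructor
        · intro h3; omega
        · intro h3; omega
      · constructor
        · intro h3; omega
        · intro h3; omega
    · subst h2
      rcases t.y a ha.1 e with h | h | h | h
      · exact absurd h h1
      · exact absurd (h ▸ hQ) ha.2
      · constructor
        · intro h3; omega
        · intro h3; omega
      · constructor
        · intro h3; omega
        · intro h3; omega
    · exact Iff.rfl

/-- twins which are deleted have the same location -/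
theorem Twin.loc {p q : α} (t : Twin k V p q) {D : Finset α} (hp : p ∈ D) (hq : q ∈ D) :
    PPI.loc k V D p = PPI.loc k V D q := by
  unfold PPI.loc
  have hx : ((V \ D).filter fun a => k.col a = k.col p ∧ k.kx a < k.kx p) =
      (V \ D).filter fun a => k.col a = k.col q ∧ k.kx a < k.kx q := by
    apply Finset.filter_congr
    intro a ha
    rw [Finset.mem_sdiff] at ha
    rw [← t.col]
    constructor
    · rintro ⟨e, l⟩
      exact ⟨e, l.trans t.kx⟩
    · rintro ⟨e, l⟩
      refine ⟨e, ?_⟩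
      rcases t.x a ha.1 e with h | h | h | h
      · exact absurd (h.symm ▸ hp) ha.2
      · exact absurd (h.symm ▸ hq) ha.2
      · exact h
      · omega
  have hy : ((V \ D).filter fun a => k.row a = k.row p ∧ k.ky a < k.ky p) =
      (V \ D).filter fun a => k.row a = k.row q ∧ k.ky a < k.ky q := by
    apply Finset.filter_congr
    intro a ha
    rw [Finset.mem_sdiff] at ha
    rw [← t.row]
    constructor
    · rintro ⟨e, l⟩
      exact ⟨e, l.trans t.ky⟩
    · rintro ⟨e, l⟩
      refine ⟨e, ?_⟩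
      rcases t.y a ha.1 e with h | h | h | h
      · exact absurd (h.symm ▸ hp) ha.2
      · exact absurd (h.symm ▸ hq) ha.2
      · exact h
      · omega
  rw [hx, hy, t.col, t.row]

end PPI
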