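import Mathlib
import Pool.Agent.PPI.Grid
import Pool.Agent.CT.Defs

/-!
# Rigid families of embeddings: definitions

For the states `s ∈ E` the complements of the sets `D s` are all the copies of one gridded
set of points.
-/

namespace PPI

variable {α ι P : Type} [DecidableEq α] [PartialOrder P]

/-- the hypotheses of the nerve theorem for intervals -/
structure Rig (k : Keys α) (V : Finset α) (E : Finset ι) (D : ι → Finset α) (G : Set α) :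
    Prop where
  inj : k.Inj V
  sub : ∀ s ∈ E, D s ⊆ V
  /-- the complements of the `D s` are exactly the copies of one gridded set -/
  emb : ∀ s ∈ E, ∀ Q ⊆ V, (∃ θ, GI k V (D s) Q θ) ↔ ∃ t ∈ E, Q = D t
  /-- good points do not share their boxes -/
  good : ∀ g ∈ G, ∀ s ∈ E, g ∈ D s → ∀ t ∈ E, ∀ q ∈ D t,
    loc k V (D t) q = loc k V (D s) g → q = g
  /-- states with a common box have a common point -/
  box : ∀ s ∈ E, ∀ p ∈ D s, ∃ q, ∀ t ∈ E,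
    (∃ p' ∈ D t, loc k V (D t) p' = loc k V (D s) p) → q ∈ D t
  /-- states with a common point have a common good point which moves -/
  sep : ∀ S ⊆ E, 2 ≤ S.card → (∃ q, ∀ s ∈ S, q ∈ D s) → ∃ g ∈ G, (∀ s ∈ S, g ∈ D s) ∧
    ∃ s ∈ S, ∃ t ∈ S, loc k V (D s) g ≠ loc k V (D t) g
  /-- every state omits two twins -/
  twin : ∀ s ∈ E, ∃ p ∈ D s, ∃ q ∈ D s, Twin k V p q ∧
    ∀ t ∈ E, ∀ p' ∈ D t, loc k V (D t) p' = loc k V (D s) p → p' = p ∨ p' = q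

/-- `pd Q` is the element of the poset `P` given by the points `V \ Q` -/
structure PD (k : Keys α) (V : Finset α) (E : Finset ι) (D : ι → Finset α)
    (pd : Finset α → P) : Prop where
  eq : ∀ s ∈ E, ∀ Q ⊆ D s, ∀ Q' ⊆ V, pd Q = pd Q' ↔ ∃ θ, GI k V Q Q' θ
  anti : ∀ Q Q', Q ⊆ Q' → Q' ⊆ V → pd Q' ≤ pd Q
  ex : ∀ s ∈ E, ∀ Q ⊆ V, ∀ τ, pd (D s) ≤ τ → τ ≤ pd Q → ∃ Q', Q ⊆ Q' ∧ Q' ⊆ V ∧ pd Q' = τ

/-- the nerve: sets of states which omit a common point -/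
def nerveE (E : Finset ι) (D : ι → Finset α) : Set (Finset ι) :=
  {S | S.Nonempty ∧ S ⊆ E ∧ ∃ q, ∀ s ∈ S, q ∈ D s}

/-- the chains which are realised inside of the simplex of the state `s` -/
def Ks (E : Finset ι) (D : ι → Finset α) (pd : Finset α → P) (s : ι) : Set (Finset P) :=
  {c | s ∈ E ∧ c.Nonempty ∧ IsChain (· ≤ ·) (c : Set P) ∧ ∃ φ : P → Finset α,
    (∀ τ ∈ c, (φ τ).Nonempty ∧ φ τ ⊂ D s ∧ pd (φ τ) = τ) ∧
    ∀ τ ∈ c, ∀ τ' ∈ c, τ ≤ τ' → φ τ' ⊆ φ τ}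

variable {k : Keys α} {V : Finset α} {E : Finset ι} {D : ι → Finset α} {G : Set α}
  {pd : Finset α → P}

/-- **transport of states and boxes along isomorphisms** -/
theorem Rig.transport (R : Rig k V E D G) {s : ι} (hs : s ∈ E) {Q Q' : Finset α}
    (hQ : Q ⊆ D s) (hQ' : Q' ⊆ V) {θ : α → α} (h : GI k V Q Q' θ) :
    ∃ t ∈ E, Q' ⊆ D t ∧ (∀ a ∈ V \ Q, a ∈ D s ↔ θ a ∈ D t) ∧
      ∀ p ∈ D s, p ∉ Q → θ p ∈ D t ∧ θ p ∉ Q' ∧
        loc k V (D t) (θ p) = loc k V (D s) p := by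
  have h1 := h.restrict hQ
  obtain ⟨t, ht, hDt⟩ := (R.emb s hs _ Finset.sdiff_subset).1 ⟨θ, h1⟩
  have hmem : ∀ a, a ∈ D t ↔ a ∈ V ∧ ∀ b ∈ V, b ∉ D s → θ b ≠ a := by
    intro a
    rw [← hDt]
    simp only [Finset.mem_sdiff, Finset.mem_image, not_exists, not_and]
    constructor
    · rintro ⟨h1, h2⟩
      exact ⟨h1, fun b hb hb' => h2 b ⟨hb, hb'⟩⟩
    · rintro ⟨h1, h2⟩
      exact ⟨h1, fun b hb => h2 b hb.1 hb.2⟩
  have hmaps : ∀ b ∈ V, b ∉ Q → θ b ∈ V ∧ θ b ∉ Q' := by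
    intro b hb hbQ
    have := h.bij.mapsTo (show b ∈ ((V \ Q : Finset α) : Set α) by
      simpa using ⟨hb, hbQ⟩)
    simpa using this
  have hiff : ∀ a ∈ V \ Q, a ∈ D s ↔ θ a ∈ D t := by
    intro a ha
    have ha' := ha
    rw [Finset.mem_sdiff] at ha'
    constructor
    · intro has
      rw [hmem]
      refine ⟨(hmaps a ha'.1 ha'.2).1, fun b hb hbs hba => hbs ?_⟩
      have hbQ : b ∉ Q := fun hq => hbs (hQ hq)
      have : b = a := h.bij.injOn (by simpa using ⟨hb, hbQ⟩) (by simpa using ha') hba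
      rwa [this]
    · intro hat
      by_contra has
      exact ((hmem _).1 hat).2 a ha'.1 has rfl
  refine ⟨t, ht, ?_, hiff, ?_⟩
  · intro a ha
    rw [hmem]
    refine ⟨hQ' ha, fun b hb hbs hba => ?_⟩
    exact (hmaps b hb (fun hq => hbs (hQ hq))).2 (hba ▸ ha)
  · intro p hp hpQ
    have hpV : p ∈ V := R.sub s hs hp
    have hpVQ : p ∈ V \ Q := Finset.mem_sdiff.2 ⟨hpV, hpQ⟩
    refine ⟨(hiff p hpVQ).1 hp, (hmaps p hpV hpQ).2, ?_⟩
    have := h.loc hQ hpVQ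
    rwa [hDt] at this

theorem nerveE_isCx : CT.IsCx (nerveE E D) where
  ne := fun _ hs => hs.1
  down := fun _ hs _ hts ht =>
    ⟨ht, hts.trans hs.2.1, hs.2.2.imp fun _ hq u hu => hq u (hts hu)⟩

theorem ks_isCx (s : ι) : CT.IsCx (Ks E D pd s) where
  ne := fun _ hs => hs.2.1
  down := fun _ hs _ hts ht =>
    ⟨hs.1, ht, hs.2.2.1.mono (Finset.coe_subset.2 hts), hs.2.2.2.imp fun _ hφ =>
      ⟨fun τ hτ => hφ.1 τ (hts hτ), fun τ hτ τ' hτ' => hφ.2 τ (hts hτ) τ' (hts hτ')⟩⟩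

/-- deletion sets above `pd (D s)` are contained in some `D t` -/
theorem PD.sub (R : Rig k V E D G) (B : PD k V E D pd) {s : ι} (hs : s ∈ E) {Q : Finset α}
    (hQ : Q ⊆ V) (h : pd (D s) ≤ pd Q) : ∃ t ∈ E, Q ⊆ D t := by
  obtain ⟨Q', h1, h2, h3⟩ := B.ex s hs Q hQ (pd (D s)) le_rfl h
  obtain ⟨t, ht, htD⟩ := (R.emb s hs Q' h2).1
    ((B.eq s hs (D s) subset_rfl Q' h2).1 h3.symm)
  exact ⟨t, ht, htD ▸ h1⟩

theorem PD.strict (R : Rig k V E D G) (B : PD k V E D pd) {s : ι} (hs : s ∈ E)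
    {Q Q' : Finset α} (hQ : Q ⊂ Q') (hQ' : Q' ⊆ D s) : pd Q' < pd Q := by
  have hV : Q' ⊆ V := hQ'.trans (R.sub s hs)
  refine lt_of_le_of_ne (B.anti Q Q' hQ.1 hV) fun he => ?_
  obtain ⟨θ, hθ⟩ := (B.eq s hs Q (hQ.1.trans hQ') Q' hV).1 he.symm
  have h1 := hθ.card (hQ.1.trans hV) hV
  exact absurd h1 (ne_of_lt (Finset.card_lt_card hQ))

theorem PD.finite (R : Rig k V E D G) (B : PD k V E D pd) {s : ι} (hs : s ∈ E) :
    (Set.Ioo (pd (D s)) (pd ∅)).Finite := by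
  refine ((V.powerset.finite_toSet).image pd).subset ?_
  intro τ hτ
  obtain ⟨Q', _, h2, h3⟩ := B.ex s hs ∅ (Finset.empty_subset _) τ hτ.1.le hτ.2.le
  exact ⟨Q', by simpa using h2, h3⟩

theorem ks_finite (R : Rig k V E D G) (B : PD k V E D pd) (s : ι) :
    (Ks E D pd s).Finite := by
  classical
  refine ((V.powerset.image pd).powerset.finite_toSet).subset ?_
  rintro c ⟨hs, _, _, φ, hφ, _⟩
  simp only [Finset.coe_powerset, Set.mem_preimage, Set.mem_powerset_iff]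
  intro τ hτ
  have h1 := hφ τ hτ
  simp only [Finset.coe_image, Set.mem_image, Finset.mem_coe, Finset.mem_powerset]
  exact ⟨φ τ, h1.2.1.1.trans (R.sub s hs), h1.2.2⟩

end PPI
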