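import Mathlib
import Pool.Agent.PPI.Rig

/-!
# Networks of hubs and the gridded set of a network: definitions

A network has hubs `h` with `N h` points each and columns; a column is a duplicate-free list
of entries `(h, b, p)` (a copy of the point `p` of the hub `h` in the row `b` of this hub).
The gridded set of the network consists of

* main points `mn h a p`, `a < 5`, which form the square

    `3 | 4`      (row `2 i + 1`)
    `2 | 0 1`    (row `2 i`)

  of the `i`-th hub (columns `2 i + 1`, `2 i`), see `pk`,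
* link points `lk k (h, b, p)` for the entries of the `k`-th column.
-/

namespace PPI

/-- entries of columns: hub, row of the hub, point -/
abbrev Ent (H : Type) : Type := H × Bool × ℕ

/-- the points of a network -/
abbrev Pt (H : Type) : Type := (H × ℕ × ℕ) ⊕ (ℕ × Ent H)

instance instDecPt {H : Type} [DecidableEq H] : DecidableEq (Pt H) :=
  @instDecidableEqSum (H × ℕ × ℕ) (ℕ × Ent H) inferInstance inferInstance

/-- main points -/
abbrev mn {H : Type} (h : H) (a p : ℕ) : Pt H := Sum.inl (h, a, p)
/-- link points -/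
abbrev lk {H : Type} (k : ℕ) (e : Ent H) : Pt H := Sum.inr (k, e)

/-- networks -/
structure Net (H : Type) where
  hubs : List H
  N : H → ℕ
  cols : List (List (Ent H))

namespace Net

variable {H : Type} [DecidableEq H] (n : Net H)

/-- the list of all points -/
def pts : List (Pt H) :=
  (n.hubs.flatMap fun h => (List.range 5).flatMap fun a =>
    (List.range (n.N h)).map fun p => mn h a p) ++
  (List.range n.cols.length).flatMap fun k => (n.cols.getD k []).map fun e => lk k e

/-- the set of all points -/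
def V : Finset (Pt H) := n.pts.toFinset

/-- columns, rows and positions -/
def pk : Keys (Pt H) where
  col
    | Sum.inl (h, a, _) =>
        if a = 2 ∨ a = 3 then 2 * n.hubs.idxOf h + 1 else 2 * n.hubs.idxOf h
    | Sum.inr (k, _) => 2 * n.hubs.length + k
  row
    | Sum.inl (h, a, _) =>
        if a = 3 ∨ a = 4 then 2 * n.hubs.idxOf h + 1 else 2 * n.hubs.idxOf h
    | Sum.inr (_, h, b, _) => if b then 2 * n.hubs.idxOf h + 1 else 2 * n.hubs.idxOf h
  kx
    | Sum.inl (_, a, p) =>
        3 * p + (if a = 4 ∨ a = 2 then 0 else if a = 0 ∨ a = 3 then 1 else 2)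
    | Sum.inr (k, e) => (n.cols.getD k []).idxOf e
  ky
    | Sum.inl (_, a, p) => (n.cols.length + 3) * p +
        (if a = 0 ∨ a = 3 then 0 else if a = 1 then 1 else n.cols.length + 2)
    | Sum.inr (k, _, _, p) => (n.cols.length + 3) * p + 2 + k

end Net

/-! ### states -/

section states

variable {H ι : Type}

/-- the number of points of the hub before `p` which are not omitted -/
def gap (Ds : Finset ℕ) (p : ℕ) : ℕ := ((Finset.range p).filter (· ∉ Ds)).card

/-- is the entry kept? (`Ds h` = the omitted points of the hub `h`) -/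
def keepE (Ds : H → Finset ℕ) (e : Ent H) : Bool := decide (e.2.2 ∉ Ds e.1)

/-- the pattern of a column -/
def pat (Ds : H → Finset ℕ) (c : List (Ent H)) : List (Ent H) :=
  (c.filter (keepE Ds)).map fun e => (e.1, e.2.1, gap (Ds e.1) e.2.2)

/-- number of kept entries before the entry `e` -/
def cgap [DecidableEq H] (Ds : H → Finset ℕ) (c : List (Ent H)) (e : Ent H) : ℕ :=
  ((c.takeWhile (· ≠ e)).filter (keepE Ds)).length

/-- `y` maps the ranks of each hub increasingly to points of the hub -/
def Incr (N L : ℕ) (y : ℕ → ℕ) : Prop :=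
  (∀ l < L, y l < N) ∧ ∀ l l', l < l' → l' < L → y l < y l'

/-- the pattern is mapped by `y` into the column -/
def Fits (y : H → ℕ → ℕ) (pt c : List (Ent H)) : Prop :=
  (pt.map fun e => (e.1, e.2.1, y e.1 e.2.2)).Sublist c

/-- the omitted points of a state -/
def Om (Ds : H → Finset ℕ) : Pt H → Bool
  | Sum.inl (h, _, p) => decide (p ∈ Ds h)
  | Sum.inr (_, h, _, p) => decide (p ∈ Ds h)

/-- the points omitted by a state -/
def DP [DecidableEq H] (n : Net H) (Ds : H → Finset ℕ) : Finset (Pt H) :=
  n.V.filter fun a => Om Ds a = true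

/-- the hypotheses on a network with states `s ∈ E`, omitted sets `D s h` of size `r h` -/
structure NetOK [DecidableEq H] (n : Net H) (E : Finset ι) (D : ι → H → Finset ℕ)
    (r : H → ℕ) : Prop where
  ne : E.Nonempty
  hn : n.hubs.Nodup
  cn : ∀ c ∈ n.cols, c.Nodup
  ce : ∀ c ∈ n.cols, ∀ e ∈ c, e.1 ∈ n.hubs ∧ e.2.2 < n.N e.1
  Dsub : ∀ s ∈ E, ∀ h ∈ n.hubs, ∀ p ∈ D s h, p < n.N h
  Dcard : ∀ s ∈ E, ∀ h ∈ n.hubs, (D s h).card = r h
  rlt : ∀ h ∈ n.hubs, r h < n.N h
  /-- the pattern of each column does not depend on the state -/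
  pc : ∀ s ∈ E, ∀ t ∈ E, ∀ c ∈ n.cols, pat (D s) c = pat (D t) c
  /-- all solutions come from states -/
  sol : ∀ s ∈ E, ∀ y : H → ℕ → ℕ, (∀ h ∈ n.hubs, Incr (n.N h) (n.N h - r h) (y h)) →
    (∀ c ∈ n.cols, Fits y (pat (D s) c) c) →
    ∃ t ∈ E, ∀ h ∈ n.hubs, ∀ l < n.N h - r h, y h l ∉ D t h
  /-- states with a common gap have a common point -/
  box : ∀ h ∈ n.hubs, ∀ s ∈ E, ∀ p ∈ D s h, ∃ h' ∈ n.hubs, ∃ p', ∀ t ∈ E,
    (∃ q ∈ D t h, gap (D t h) q = gap (D s h) p) → p' ∈ D t h'
  /-- states with a common point have a common point of a hub with `r = 1` which moves in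
  some column -/
  sep : ∀ S ⊆ E, 2 ≤ S.card → (∃ h ∈ n.hubs, ∃ p, ∀ s ∈ S, p ∈ D s h) →
    ∃ c ∈ n.cols, ∃ e ∈ c, r e.1 = 1 ∧ (∀ s ∈ S, e.2.2 ∈ D s e.1) ∧
      ∃ s ∈ S, ∃ t ∈ S, cgap (D s) c e ≠ cgap (D t) c e
  /-- there is a hub with `r = 1` -/
  one : ∃ h ∈ n.hubs, r h = 1

/-- the nerve of the states of a network -/
def netNerve (n : Net H) (E : Finset ι) (D : ι → H → Finset ℕ) : Set (Finset ι) :=
  {S | S.Nonempty ∧ S ⊆ E ∧ ∃ h ∈ n.hubs, ∃ p, ∀ s ∈ S, p ∈ D s h}

end states

/-! ### the set of points and the keys -/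

section basic

variable {H ι : Type} [DecidableEq H] {n : Net H} {E : Finset ι} {D : ι → H → Finset ℕ}
  {r : H → ℕ}

theorem mem_V_mn {h : H} {a p : ℕ} : mn h a p ∈ n.V ↔ h ∈ n.hubs ∧ a < 5 ∧ p < n.N h := by
  unfold Net.V Net.pts
  rw [List.mem_toFinset, List.mem_append]
  simp only [List.mem_flatMap, List.mem_map, List.mem_range]
  constructor
  · rintro (⟨h', hh, a', ha, p', hp, e⟩ | ⟨k, _, e', _, e⟩)
    · simp only [mn, Sum.inl.injEq, Prod.mk.injEq] at e
      obtain ⟨rfl, rfl, rfl⟩ := e
      exact ⟨hh, ha, hp⟩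
    · exact absurd e (by simp [mn, lk])
  · rintro ⟨hh, ha, hp⟩
    exact Or.inl ⟨h, hh, a, ha, p, hp, rfl⟩

theorem mem_V_lk {k : ℕ} {e : Ent H} :
    lk k e ∈ n.V ↔ k < n.cols.length ∧ e ∈ n.cols.getD k [] := by
  unfold Net.V Net.pts
  rw [List.mem_toFinset, List.mem_append]
  simp only [List.mem_flatMap, List.mem_map, List.mem_range]
  constructor
  · rintro (⟨h', hh, a', ha, p', hp, e⟩ | ⟨k', hk, e', he, e⟩)
    · exact absurd e (by simp [mn, lk])
    · simp only [lk, Sum.inr.injEq, Prod.mk.injEq] at e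
      obtain ⟨rfl, rfl⟩ := e
      exact ⟨hk, he⟩
  · rintro ⟨hk, he⟩
    exact Or.inr ⟨k, hk, e, he, rfl⟩

theorem NetA.getD_mem {k : ℕ} (hk : k < n.cols.length) : n.cols.getD k [] ∈ n.cols := by
  rw [List.getD_eq_getElem _ _ hk]
  exact List.getElem_mem hk

theorem pts_nodup (ok : NetOK n E D r) : n.pts.Nodup := by
  unfold Net.pts
  rw [List.nodup_append]
  refine ⟨?_, ?_, ?_⟩
  · rw [List.nodup_flatMap]
    refine ⟨?_, ?_⟩
    · intro h _
      rw [List.nodup_flatMap]
      refine ⟨?_, ?_⟩
      · intro a _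
        apply List.Nodup.map _ List.nodup_range
        intro p q e
        simp only [mn, Sum.inl.injEq, Prod.mk.injEq, true_and] at e
        exact e
      · apply List.Pairwise.imp _ List.nodup_range
        intro a b hab
        show List.Disjoint _ _
        intro x hx hy
        rw [List.mem_map] at hx hy
        obtain ⟨p, _, rfl⟩ := hx
        obtain ⟨q, _, e⟩ := hy
        simp only [mn, Sum.inl.injEq, Prod.mk.injEq, true_and] at e
        exact hab e.1.symm
    · apply List.Pairwise.imp _ ok.hn
      intro a b hab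
      show List.Disjoint _ _
      intro x hx hy
      simp only [List.mem_flatMap, List.mem_map] at hx hy
      obtain ⟨a1, _, p, _, rfl⟩ := hx
      obtain ⟨a2, _, q, _, e⟩ := hy
      simp only [mn, Sum.inl.injEq, Prod.mk.injEq] at e
      exact hab e.1.symm
  · rw [List.nodup_flatMap]
    refine ⟨?_, ?_⟩
    · intro k hk
      rw [List.mem_range] at hk
      apply List.Nodup.map _ (ok.cn _ (NetA.getD_mem hk))
      intro p q e
      simp only [lk, Sum.inr.injEq, Prod.mk.injEq, true_and] at e
      exact e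
    · apply List.Pairwise.imp _ List.nodup_range
      intro a b hab
      show List.Disjoint _ _
      intro x hx hy
      rw [List.mem_map] at hx hy
      obtain ⟨p, _, rfl⟩ := hx
      obtain ⟨q, _, e⟩ := hy
      simp only [lk, Sum.inr.injEq, Prod.mk.injEq] at e
      exact hab e.1.symm
  · intro x hx y hy e
    subst e
    simp only [List.mem_flatMap, List.mem_map] at hx hy
    obtain ⟨h, _, a, _, p, _, rfl⟩ := hx
    obtain ⟨k, _, e, _, he⟩ := hy
    exact absurd he (by simp [mn, lk])

theorem NetA.divmod {m p q a b : ℕ} (ha : a < m) (hb : b < m) (h : m * p + a = m * q + b) :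
    p = q ∧ a = b := by
  have hm : 0 < m := lt_of_le_of_lt (Nat.zero_le a) ha
  have h1 : (m * p + a) / m = p := by
    rw [Nat.mul_add_div hm, Nat.div_eq_of_lt ha, Nat.add_zero]
  have h2 : (m * q + b) / m = q := by
    rw [Nat.mul_add_div hm, Nat.div_eq_of_lt hb, Nat.add_zero]
  have h3 : p = q := by rw [← h1, ← h2, h]
  refine ⟨h3, ?_⟩
  subst h3
  omega

theorem NetA.idx {l : List H} {a b : H} (ha : a ∈ l) (h : l.idxOf a = l.idxOf b) : a = b :=
  (List.idxOf_inj ha).1 h

theorem pk_inj (ok : NetOK n E D r) : n.pk.Inj n.V := by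
  constructor
  · rintro (⟨h, a, p⟩ | ⟨k, e⟩) ha (⟨h', a', p'⟩ | ⟨k', e'⟩) hb hc hx
    · have ha' := mem_V_mn.1 ha
      have hb' := mem_V_mn.1 hb
      have hc' : (if a = 2 ∨ a = 3 then 2 * n.hubs.idxOf h + 1 else 2 * n.hubs.idxOf h) =
        if a' = 2 ∨ a' = 3 then 2 * n.hubs.idxOf h' + 1 else 2 * n.hubs.idxOf h' := hc
      have hx' : 3 * p + (if a = 4 ∨ a = 2 then 0 else if a = 0 ∨ a = 3 then 1 else 2) =
        3 * p' + (if a' = 4 ∨ a' = 2 then 0 else if a' = 0 ∨ a' = 3 then 1 else 2) := hx
      have h1 : n.hubs.idxOf h = n.hubs.idxOf h' := by split_ifs at hc' <;> omega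
      have h2 : h = h' := NetA.idx ha'.1 h1
      subst h2
      have h3 : (a = 2 ∨ a = 3) ↔ (a' = 2 ∨ a' = 3) := by
        split_ifs at hc' with c1 c2 c2 <;> first | (simp only [c1, c2]; done) | omega
      have h4 : p = p' ∧ a = a' := by
        have := ha'.2.1
        have := hb'.2.1
        split_ifs at hx' <;> omega
      rw [h4.1, h4.2]
    · exfalso
      have ha' := mem_V_mn.1 ha
      have hc' : (if a = 2 ∨ a = 3 then 2 * n.hubs.idxOf h + 1 else 2 * n.hubs.idxOf h) =
        2 * n.hubs.length + k' := hc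
      have := List.idxOf_lt_length_of_mem ha'.1
      split_ifs at hc' <;> omega
    · exfalso
      have hb' := mem_V_mn.1 hb
      have hc' : 2 * n.hubs.length + k =
        (if a' = 2 ∨ a' = 3 then 2 * n.hubs.idxOf h' + 1 else 2 * n.hubs.idxOf h') := hc
      have := List.idxOf_lt_length_of_mem hb'.1
      split_ifs at hc' <;> omega
    · have ha' := mem_V_lk.1 ha
      have hc' : 2 * n.hubs.length + k = 2 * n.hubs.length + k' := hc
      have hk : k = k' := by omega
      subst hk
      have hx' : (n.cols.getD k []).idxOf e = (n.cols.getD k []).idxOf e' := hx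
      have he : e = e' := (List.idxOf_inj ha'.2).1 hx'
      rw [he]
  · rintro (⟨h, a, p⟩ | ⟨k, h, b, p⟩) ha (⟨h', a', p'⟩ | ⟨k', h', b', p'⟩) hb hc hy
    · have ha' := mem_V_mn.1 ha
      have hb' := mem_V_mn.1 hb
      have hc' : (if a = 3 ∨ a = 4 then 2 * n.hubs.idxOf h + 1 else 2 * n.hubs.idxOf h) =
        if a' = 3 ∨ a' = 4 then 2 * n.hubs.idxOf h' + 1 else 2 * n.hubs.idxOf h' := hc
      have hy' : (n.cols.length + 3) * p +
        (if a = 0 ∨ a = 3 then 0 else if a = 1 then 1 else n.cols.length + 2) =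
        (n.cols.length + 3) * p' +
        (if a' = 0 ∨ a' = 3 then 0 else if a' = 1 then 1 else n.cols.length + 2) := hy
      have h1 : n.hubs.idxOf h = n.hubs.idxOf h' := by split_ifs at hc' <;> omega
      have h2 : h = h' := NetA.idx ha'.1 h1
      subst h2
      have h3 : (a = 3 ∨ a = 4) ↔ (a' = 3 ∨ a' = 4) := by
        split_ifs at hc' with c1 c2 c2 <;> first | (simp only [c1, c2]; done) | omega
      have h5 := NetA.divmod (by split_ifs <;> omega) (by split_ifs <;> omega) hy'
      have h4 : a = a' := by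
        have := ha'.2.1
        have := hb'.2.1
        have h6 := h5.2
        split_ifs at h6 <;> omega
      rw [h4, h5.1]
    · exfalso
      have hb' := mem_V_lk.1 hb
      have hy' : (n.cols.length + 3) * p +
        (if a = 0 ∨ a = 3 then 0 else if a = 1 then 1 else n.cols.length + 2) =
        (n.cols.length + 3) * p' + 2 + k' := hy
      rw [add_assoc] at hy'
      have h5 := (NetA.divmod (by split_ifs <;> omega) (by omega) hy').2
      split_ifs at h5 <;> omega
    · exfalso
      have ha' := mem_V_lk.1 ha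
      have hy' : (n.cols.length + 3) * p + 2 + k = (n.cols.length + 3) * p' +
        (if a' = 0 ∨ a' = 3 then 0 else if a' = 1 then 1 else n.cols.length + 2) := hy
      rw [add_assoc] at hy'
      have h5 := (NetA.divmod (by omega) (by split_ifs <;> omega) hy').2
      split_ifs at h5 <;> omega
    · have ha' := mem_V_lk.1 ha
      have hb' := mem_V_lk.1 hb
      have hy' : (n.cols.length + 3) * p + 2 + k = (n.cols.length + 3) * p' + 2 + k' := hy
      rw [add_assoc, add_assoc] at hy'
      obtain ⟨h5, h6⟩ := NetA.divmod (by omega) (by omega) hy'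
      have hk : k = k' := by omega
      have hc' : (if b then 2 * n.hubs.idxOf h + 1 else 2 * n.hubs.idxOf h) =
        if b' then 2 * n.hubs.idxOf h' + 1 else 2 * n.hubs.idxOf h' := hc
      have h1 : n.hubs.idxOf h = n.hubs.idxOf h' := by split_ifs at hc' <;> omega
      have hmem := (ok.ce _ (NetA.getD_mem ha'.1) _ ha'.2).1
      have h2 : h = h' := NetA.idx hmem h1
      have h3 : b = b' := by
        cases b <;> cases b' <;> simp at hc' <;> first | rfl | omega
      subst h2 h3 h5 hk
      rfl

/-- the number of omitted points -/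
def numOm (n : Net H) (r : H → ℕ) : ℕ :=
  (n.hubs.map fun h => 5 * r h).sum + (n.cols.map List.length).sum

theorem DP_card (ok : NetOK n E D r) {s : ι} (hs : s ∈ E) :
    (DP n (D s)).card ≤ numOm n r := by
  classical
  let L : List (Pt H) := (n.hubs.flatMap fun h => (List.range 5).flatMap fun a =>
    (D s h).toList.map fun p => mn h a p) ++
    (List.range n.cols.length).flatMap fun k => (n.cols.getD k []).map fun e => lk k e
  have h1 : DP n (D s) ⊆ L.toFinset := by
    intro x hx
    unfold DP at hx
    rw [Finset.mem_filter] at hx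
    rw [List.mem_toFinset, List.mem_append]
    simp only [List.mem_flatMap, List.mem_map, List.mem_range, Finset.mem_toList]
    rcases x with ⟨h, a, p⟩ | ⟨k, e⟩
    · have hx' := mem_V_mn.1 hx.1
      have hp : p ∈ D s h := of_decide_eq_true hx.2
      exact Or.inl ⟨h, hx'.1, a, hx'.2.1, p, hp, rfl⟩
    · have hx' := mem_V_lk.1 hx.1
      exact Or.inr ⟨k, hx'.1, e, hx'.2, rfl⟩
  have h2 : L.length = numOm n r := by
    unfold numOm
    rw [List.length_append, List.length_flatMap, List.length_flatMap]
    congr 1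
    · apply congrArg List.sum
      apply List.map_congr_left
      intro h hh
      rw [List.length_flatMap]
      simp only [List.length_map, Finset.length_toList, ok.Dcard s hs h hh]
      simp
      omega
    · apply congrArg List.sum
      apply List.ext_getElem
      · simp
      · intro i h3 h4
        simp only [List.length_map, List.length_range] at h3 h4
        simp [List.getElem?_eq_getElem h3]
  calc (DP n (D s)).card ≤ L.toFinset.card := Finset.card_le_card h1
    _ ≤ L.length := List.toFinset_card_le L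
    _ = numOm n r := h2

end basic

end PPI
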