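import Mathlib
import Pool.Agent.PPI.Net

/-!
# The complements of all states are isomorphic
-/

namespace PPI

variable {H ι : Type} [DecidableEq H] {n : Net H} {E : Finset ι} {D : ι → H → Finset ℕ}
  {r : H → ℕ}

theorem gap_lt_iff {Ds : Finset ℕ} {p q : ℕ} (hp : p ∉ Ds) : gap Ds p < gap Ds q ↔ p < q := by
  unfold gap
  constructor
  · intro h
    by_contra hc
    push Not at hc
    exact absurd (Finset.card_le_card (Finset.filter_subset_filter (· ∉ Ds)
      (Finset.range_subset_range.2 hc))) (not_le.2 h)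
  · intro h
    apply Finset.card_lt_card
    rw [Finset.ssubset_iff_of_subset (Finset.filter_subset_filter (· ∉ Ds)
      (Finset.range_subset_range.2 h.le))]
    exact ⟨p, by simp [h, hp], by simp⟩

private theorem ni_gap_inj {Ds : Finset ℕ} {p q : ℕ} (hp : p ∉ Ds) (hq : q ∉ Ds)
    (h : gap Ds p = gap Ds q) : p = q := by
  rcases lt_trichotomy p q with h1 | h1 | h1
  · exact absurd ((gap_lt_iff (q := q) hp).2 h1) (by omega)
  · exact h1
  · exact absurd ((gap_lt_iff (q := p) hq).2 h1) (by omega)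

private theorem ni_kept_card (ok : NetOK n E D r) {t : ι} (ht : t ∈ E) {h : H}
    (hh : h ∈ n.hubs) : ((Finset.range (n.N h)).filter (· ∉ D t h)).card = n.N h - r h := by
  have h1 : (Finset.range (n.N h)).filter (· ∉ D t h) = Finset.range (n.N h) \ D t h := by
    ext x
    simp
  rw [h1, Finset.card_sdiff_of_subset, Finset.card_range, ok.Dcard t ht h hh]
  intro p hp
  exact Finset.mem_range.2 (ok.Dsub t ht h hh p hp)

theorem gap_lt (ok : NetOK n E D r) {t : ι} (ht : t ∈ E) {h : H} (hh : h ∈ n.hubs) {p : ℕ}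
    (hp : p < n.N h) (hpD : p ∉ D t h) : gap (D t h) p < n.N h - r h := by
  rw [← ni_kept_card ok ht hh]
  unfold gap
  apply Finset.card_lt_card
  rw [Finset.ssubset_iff_of_subset (Finset.filter_subset_filter (· ∉ D t h)
    (Finset.range_subset_range.2 hp.le))]
  exact ⟨p, by simp [hp, hpD], by simp⟩

/-- for a rank `l` of the hub `h` and a state, the kept point with this rank -/
theorem exists_rank (ok : NetOK n E D r) {t : ι} (ht : t ∈ E) {h : H} (hh : h ∈ n.hubs) {l : ℕ}
    (hl : l < n.N h - r h) : ∃ p < n.N h, p ∉ D t h ∧ gap (D t h) p = l := by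
  classical
  have h1 : Set.SurjOn (gap (D t h)) ((Finset.range (n.N h)).filter (· ∉ D t h) : Finset ℕ)
      (Finset.range (n.N h - r h) : Finset ℕ) := by
    apply Finset.surjOn_of_injOn_of_card_le
    · intro p hp
      simp only [Finset.coe_filter, Finset.mem_range, Set.mem_setOf_eq] at hp
      simp only [Finset.coe_range, Set.mem_Iio]
      exact gap_lt ok ht hh hp.1 hp.2
    · intro p hp q hq hpq
      simp only [Finset.coe_filter, Finset.mem_range, Set.mem_setOf_eq] at hp hq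
      exact ni_gap_inj hp.2 hq.2 hpq
    · rw [ni_kept_card ok ht hh, Finset.card_range]
  obtain ⟨p, hp, hpl⟩ := h1 (by simpa using hl : l ∈ ((Finset.range (n.N h - r h) : Finset ℕ) :
    Set ℕ))
  simp only [Finset.coe_filter, Finset.mem_range, Set.mem_setOf_eq] at hp
  exact ⟨p, hp.1, hp.2, hpl⟩

/-- positions in a duplicate-free list and in the filtered and mapped list -/
private theorem ni_idx {β γ : Type} [BEq β] [LawfulBEq β] [BEq γ] [LawfulBEq γ]
    (P : β → Bool) (g : β → γ) :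
    ∀ (c : List β), (∀ e ∈ c, ∀ e' ∈ c, P e = true → P e' = true → g e = g e' → e = e') →
      ∀ e ∈ c, ∀ e' ∈ c, P e = true → P e' = true →
      (c.idxOf e < c.idxOf e' ↔
        ((c.filter P).map g).idxOf (g e) < ((c.filter P).map g).idxOf (g e'))
  | [], _, e, he, _, _, _, _ => by simp at he
  | a :: c, hg, e, he, e', he', hPe, hPe' => by
    have IH := ni_idx P g c (fun e he e' he' => hg e (List.mem_cons_of_mem _ he) e'
      (List.mem_cons_of_mem _ he'))
    by_cases h1 : e = a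
    · subst h1
      by_cases h2 : e' = e
      · subst h2
        simp
      · have h3 : g e ≠ g e' := fun h => h2 (hg e he e' he' hPe hPe' h).symm
        have h4 : e ≠ e' := fun h => h2 h.symm
        simp [List.filter_cons, hPe, List.idxOf_cons, h3, h4]
    · have he2 : e ∈ c := by
        rcases List.mem_cons.1 he with h | h
        · exact absurd h h1
        · exact h
      by_cases h2 : e' = a
      · subst h2
        simp [List.filter_cons, hPe', List.idxOf_cons]
      · have he2' : e' ∈ c := by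
          rcases List.mem_cons.1 he' with h | h
          · exact absurd h h2
          · exact h
        have IH' := IH e he2 e' he2' hPe hPe'
        by_cases hPa : P a = true
        · have h3 : g a ≠ g e := fun h => h1 (hg a (List.mem_cons_self) e he hPa hPe h).symm
          have h4 : g a ≠ g e' := fun h => h2 (hg a (List.mem_cons_self) e' he' hPa hPe' h).symm
          have h5 : a ≠ e := fun h => h1 h.symm
          have h6 : a ≠ e' := fun h => h2 h.symm
          rw [List.filter_cons_of_pos hPa, List.map_cons, List.idxOf_cons_ne _ h3,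
            List.idxOf_cons_ne _ h4, List.idxOf_cons_ne _ h5, List.idxOf_cons_ne _ h6]
          omega
        · have h5 : a ≠ e := fun h => h1 h.symm
          have h6 : a ≠ e' := fun h => h2 h.symm
          rw [List.filter_cons_of_neg hPa, List.idxOf_cons_ne _ h5, List.idxOf_cons_ne _ h6]
          omega

/-- hub, point and offset in the rows of a point -/
private def niH : Pt H → H
  | Sum.inl (h, _, _) => h
  | Sum.inr (_, h, _, _) => h
private def niP : Pt H → ℕ
  | Sum.inl (_, _, p) => p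
  | Sum.inr (_, _, _, p) => p
private def niC (n : Net H) : Pt H → ℕ
  | Sum.inl (_, a, _) => (if a = 0 ∨ a = 3 then 0 else if a = 1 then 1 else n.cols.length + 2)
  | Sum.inr (k, _, _, _) => 2 + k
private def niB : Pt H → ℕ
  | Sum.inl (_, a, _) => (if a = 3 ∨ a = 4 then 1 else 0)
  | Sum.inr (_, _, b, _) => if b then 1 else 0
/-- the map of points given by maps of the points of the hubs -/
private def niT (y : H → ℕ → ℕ) : Pt H → Pt H
  | Sum.inl (h, a, p) => mn h a (y h p)
  | Sum.inr (k, h, b, p) => lk k (h, b, y h p)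

private theorem ni_row (a : Pt H) : n.pk.row a = 2 * n.hubs.idxOf (niH a) + niB a := by
  rcases a with ⟨h, a, p⟩ | ⟨k, h, b, p⟩
  · simp only [Net.pk, niH, niB]
    split_ifs <;> rfl
  · simp only [Net.pk, niH, niB]
    split_ifs <;> rfl

private theorem ni_ky (a : Pt H) :
    n.pk.ky a = (n.cols.length + 3) * niP a + niC n a := by
  rcases a with ⟨h, a, p⟩ | ⟨k, h, b, p⟩
  · rfl
  · simp only [Net.pk, niP, niC]
    ring

private theorem niB_lt (a : Pt H) : niB a < 2 := by
  rcases a with ⟨h, a, p⟩ | ⟨k, h, b, p⟩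
  · simp only [niB]; split_ifs <;> omega
  · simp only [niB]; split_ifs <;> omega

private theorem niC_lt {a : Pt H} (ha : a ∈ n.V) : niC n a < n.cols.length + 3 := by
  rcases a with ⟨h, a, p⟩ | ⟨k, h, b, p⟩
  · simp only [niC]; split_ifs <;> omega
  · have := (mem_V_lk.1 ha).1
    simp only [niC]; omega

private theorem niH_mem (ok : NetOK n E D r) {a : Pt H} (ha : a ∈ n.V) :
    niH a ∈ n.hubs ∧ niP a < n.N (niH a) := by
  rcases a with ⟨h, a, p⟩ | ⟨k, e⟩
  · have := mem_V_mn.1 ha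
    exact ⟨this.1, this.2.2⟩
  · obtain ⟨hk, he⟩ := mem_V_lk.1 ha
    have hc : n.cols.getD k [] ∈ n.cols := by
      rw [List.getD_eq_getElem _ _ hk]
      exact List.getElem_mem hk
    exact ok.ce _ hc e he

private theorem ni_om (Ds : H → Finset ℕ) (a : Pt H) : Om Ds a = true ↔ niP a ∈ Ds (niH a) := by
  rcases a with ⟨h, a, p⟩ | ⟨k, h, b, p⟩ <;> simp [Om, niP, niH]

private theorem ni_mem {Ds : H → Finset ℕ} {a : Pt H} :
    a ∈ n.V \ DP n Ds ↔ a ∈ n.V ∧ niP a ∉ Ds (niH a) := by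
  simp only [Finset.mem_sdiff, DP, Finset.mem_filter, not_and, ni_om]
  tauto

private theorem ni_lex {M p q c d p' q' : ℕ} (hc : c < M) (hd : d < M) (h1 : p < q ↔ p' < q')
    (h2 : q < p ↔ q' < p') : M * p + c < M * q + d ↔ M * p' + c < M * q' + d := by
  have key : ∀ p q c d : ℕ, c < M → d < M → p < q → M * p + c < M * q + d := by
    intro p q c d hc hd h
    have : M * (p + 1) ≤ M * q := Nat.mul_le_mul_left _ h
    rw [Nat.mul_succ] at this
    omega
  rcases lt_trichotomy p q with h | h | h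
  · exact iff_of_true (key _ _ _ _ hc hd h) (key _ _ _ _ hc hd (h1.1 h))
  · subst h
    have h3 : p' = q' := by
      have := h1.not.1 (lt_irrefl _)
      have := h2.not.1 (lt_irrefl _)
      omega
    subst h3
    simp
  · exact iff_of_false (by have := key _ _ _ _ hd hc h; omega)
      (by have := key _ _ _ _ hd hc (h2.1 h); omega)

private theorem ni_idxOf (ok : NetOK n E D r) {g h : H} (hg : g ∈ n.hubs)
    (e : n.hubs.idxOf g = n.hubs.idxOf h) : g = h :=
  (List.idxOf_inj hg).1 e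

/-- the isomorphism maps the kept points of the hubs to the kept points with the same rank -/
theorem net_iso (ok : NetOK n E D r) {s t : ι} (hs : s ∈ E) (ht : t ∈ E) :
    ∃ θ, GI n.pk n.V (DP n (D s)) (DP n (D t)) θ ∧
      ∃ y : H → ℕ → ℕ, (∀ h ∈ n.hubs, ∀ p < n.N h, p ∉ D s h →
        y h p < n.N h ∧ y h p ∉ D t h ∧ gap (D t h) (y h p) = gap (D s h) p) ∧
      (∀ h ∈ n.hubs, ∀ p < n.N h, p ∉ D s h → ∀ a < 5, θ (mn h a p) = mn h a (y h p)) ∧
      ∀ k < n.cols.length, ∀ e ∈ n.cols.getD k [], e.2.2 ∉ D s e.1 →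
        θ (lk k e) = lk k (e.1, e.2.1, y e.1 e.2.2) := by
  classical
  have hy : ∃ y : H → ℕ → ℕ, ∀ h ∈ n.hubs, ∀ p < n.N h, p ∉ D s h →
      y h p < n.N h ∧ y h p ∉ D t h ∧ gap (D t h) (y h p) = gap (D s h) p := by
    have : ∀ (h : H) (p : ℕ), ∃ q, h ∈ n.hubs → p < n.N h → p ∉ D s h →
        q < n.N h ∧ q ∉ D t h ∧ gap (D t h) q = gap (D s h) p := by
      intro h p
      by_cases h1 : h ∈ n.hubs ∧ p < n.N h ∧ p ∉ D s h
      · obtain ⟨q, hq, hq1, hq2⟩ := exists_rank ok ht h1.1 (gap_lt ok hs h1.1 h1.2.1 h1.2.2)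
        exact ⟨q, fun _ _ _ => ⟨hq, hq1, hq2⟩⟩
      · exact ⟨0, fun a b c => absurd ⟨a, b, c⟩ h1⟩
    choose y hy using this
    exact ⟨y, fun h hh p hp hp' => hy h p hh hp hp'⟩
  obtain ⟨y, hy⟩ := hy
  have hylt : ∀ h ∈ n.hubs, ∀ p < n.N h, p ∉ D s h → ∀ q < n.N h, q ∉ D s h →
      (p < q ↔ y h p < y h q) := by
    intro h hh p hp hp' q hq hq'
    obtain ⟨-, h2, h3⟩ := hy h hh p hp hp'
    obtain ⟨-, h5, h6⟩ := hy h hh q hq hq'
    rw [← gap_lt_iff hp', ← gap_lt_iff h2, h3, h6]
  have hyinj : ∀ h ∈ n.hubs, ∀ p < n.N h, p ∉ D s h → ∀ q < n.N h, q ∉ D s h →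
      y h p = y h q → p = q := by
    intro h hh p hp hp' q hq hq' e
    have h1 := hylt h hh p hp hp' q hq hq'
    have h2 := hylt h hh q hq hq' p hp hp'
    rw [e] at h1 h2
    simp only [lt_self_iff_false, iff_false, not_lt] at h1 h2
    omega
  -- entries
  have hcol : ∀ k < n.cols.length, n.cols.getD k [] ∈ n.cols := by
    intro k hk
    rw [List.getD_eq_getElem _ _ hk]
    exact List.getElem_mem hk
  have hent : ∀ k < n.cols.length, ∀ e ∈ n.cols.getD k [], e.2.2 ∉ D s e.1 →
      (e.1, e.2.1, y e.1 e.2.2) ∈ n.cols.getD k [] := by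
    intro k hk e he heD
    have hc := hcol k hk
    have h1 : (e.1, e.2.1, gap (D s e.1) e.2.2) ∈ pat (D s) (n.cols.getD k []) := by
      unfold pat
      rw [List.mem_map]
      exact ⟨e, List.mem_filter.2 ⟨he, by simp [keepE, heD]⟩, rfl⟩
    rw [ok.pc s hs t ht _ hc] at h1
    unfold pat at h1
    rw [List.mem_map] at h1
    obtain ⟨e', he', hee⟩ := h1
    simp only [List.mem_filter, keepE, decide_eq_true_eq] at he'
    simp only [Prod.mk.injEq] at hee
    obtain ⟨hhub, hpN⟩ := ok.ce _ hc e he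
    obtain ⟨y1, y2, y3⟩ := hy e.1 hhub e.2.2 hpN heD
    have h2 : e'.2.2 = y e.1 e.2.2 := by
      rw [hee.1] at he' hee
      exact ni_gap_inj he'.2 y2 (by rw [hee.2.2, y3])
    have h3 : e' = (e.1, e.2.1, y e.1 e.2.2) := by
      obtain ⟨a, b, c⟩ := e'
      simp only at hee h2
      rw [hee.1, hee.2.1, h2]
    rw [← h3]
    exact he'.1
  have hV : ∀ a ∈ n.V \ DP n (D s), niT y a ∈ n.V \ DP n (D t) ∧
      niH (niT y a) = niH a ∧ niP (niT y a) = y (niH a) (niP a) ∧ niC n (niT y a) = niC n a ∧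
      niB (niT y a) = niB a := by
    intro a ha
    rw [ni_mem] at ha
    obtain ⟨haV, haD⟩ := ha
    obtain ⟨hhub, hpN⟩ := niH_mem ok haV
    obtain ⟨y1, y2, y3⟩ := hy _ hhub _ hpN haD
    rcases a with ⟨h, a, p⟩ | ⟨k, h, b, p⟩
    · refine ⟨ni_mem.2 ⟨mem_V_mn.2 ⟨hhub, (mem_V_mn.1 haV).2.1, y1⟩, y2⟩, rfl, rfl, rfl, rfl⟩
    · obtain ⟨hk, he⟩ := mem_V_lk.1 haV
      refine ⟨ni_mem.2 ⟨mem_V_lk.2 ⟨hk, hent k hk _ he haD⟩, y2⟩, rfl, rfl, rfl, rfl⟩
  refine ⟨niT y, ⟨⟨?_, ?_, ?_⟩, ?_, ?_, ?_, ?_⟩, y, hy, fun _ _ _ _ _ _ _ => rfl,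
    fun _ _ _ _ _ => rfl⟩
  · intro a ha
    exact_mod_cast (hV a (by exact_mod_cast ha)).1
  · -- injective
    intro a ha b hb hab
    have ha' : a ∈ n.V \ DP n (D s) := by exact_mod_cast ha
    have hb' : b ∈ n.V \ DP n (D s) := by exact_mod_cast hb
    obtain ⟨haV, haD⟩ := ni_mem.1 ha'
    obtain ⟨hbV, hbD⟩ := ni_mem.1 hb'
    obtain ⟨hha, hpa⟩ := niH_mem ok haV
    obtain ⟨hhb, hpb⟩ := niH_mem ok hbV
    obtain ⟨-, a1, a2, -, -⟩ := hV a ha'
    obtain ⟨-, b1, b2, -, -⟩ := hV b hb'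
    rw [hab] at a1 a2
    have e1 : niH a = niH b := by rw [← a1, b1]
    have e2 : niP a = niP b := by
      rw [a2] at b2
      rw [e1] at b2 hpa haD
      exact hyinj _ hhb _ hpa haD _ hpb hbD b2
    rcases a with ⟨h, a, p⟩ | ⟨k, h, c, p⟩ <;> rcases b with ⟨h', a', p'⟩ | ⟨k', h', b', p'⟩
    · simp only [niT, niH, niP, mn, Sum.inl.injEq, Prod.mk.injEq] at hab e1 e2 ⊢
      exact ⟨e1, hab.2.1, e2⟩
    · simp [niT] at hab
    · simp [niT] at hab
    · simp only [niT, niH, niP, lk, Sum.inr.injEq, Prod.mk.injEq] at hab e1 e2 ⊢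
      exact ⟨hab.1, e1, hab.2.2.1, e2⟩
  · -- surjective
    intro b hb
    have hb' : b ∈ n.V \ DP n (D t) := by exact_mod_cast hb
    obtain ⟨hbV, hbD⟩ := ni_mem.1 hb'
    obtain ⟨hhb, hpb⟩ := niH_mem ok hbV
    rcases b with ⟨h, a, q⟩ | ⟨k, h, b, q⟩
    · obtain ⟨p, hp, hpD, hpg⟩ := exists_rank ok hs hhb (gap_lt ok ht hhb hpb hbD)
      obtain ⟨y1, y2, y3⟩ := hy _ hhb p hp hpD
      have hq : y h p = q := ni_gap_inj y2 hbD (y3.trans hpg)
      refine ⟨mn h a p, ?_, ?_⟩
      · have : mn h a p ∈ n.V \ DP n (D s) :=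
          ni_mem.2 ⟨mem_V_mn.2 ⟨hhb, (mem_V_mn.1 hbV).2.1, hp⟩, hpD⟩
        exact_mod_cast this
      · simp only [niT, mn]
        rw [hq]
    · obtain ⟨hk, he⟩ := mem_V_lk.1 hbV
      have hc := hcol k hk
      have h1 : (h, b, gap (D t h) q) ∈ pat (D t) (n.cols.getD k []) := by
        unfold pat
        rw [List.mem_map]
        refine ⟨(h, b, q), ?_, rfl⟩
        simp only [List.mem_filter, keepE, decide_eq_true_eq]
        exact ⟨he, hbD⟩
      rw [← ok.pc s hs t ht _ hc] at h1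
      unfold pat at h1
      rw [List.mem_map] at h1
      obtain ⟨⟨h', b', p⟩, he', hee⟩ := h1
      simp only [List.mem_filter, keepE, decide_eq_true_eq] at he'
      simp only [Prod.mk.injEq] at hee
      obtain ⟨rfl, rfl, hee⟩ := hee
      obtain ⟨-, hp⟩ := ok.ce _ hc _ he'.1
      obtain ⟨y1, y2, y3⟩ := hy _ hhb p hp he'.2
      have hq : y h' p = q := ni_gap_inj y2 hbD (y3.trans hee)
      refine ⟨lk k (h', b', p), ?_, ?_⟩
      · have : lk k (h', b', p) ∈ n.V \ DP n (D s) :=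
          ni_mem.2 ⟨mem_V_lk.2 ⟨hk, he'.1⟩, he'.2⟩
        exact_mod_cast this
      · simp only [niT, lk]
        rw [hq]
  · intro a _
    rcases a with ⟨h, a, p⟩ | ⟨k, h, b, p⟩ <;> rfl
  · intro a _
    rcases a with ⟨h, a, p⟩ | ⟨k, h, b, p⟩ <;> rfl
  · -- columns
    intro a ha b hb hab
    obtain ⟨haV, haD⟩ := ni_mem.1 ha
    obtain ⟨hbV, hbD⟩ := ni_mem.1 hb
    obtain ⟨hha, hpa⟩ := niH_mem ok haV
    obtain ⟨hhb, hpb⟩ := niH_mem ok hbV
    rcases a with ⟨h, a, p⟩ | ⟨k, e⟩ <;> rcases b with ⟨h', a', p'⟩ | ⟨k', e'⟩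
    · have hh : h = h' := by
        apply ni_idxOf ok hha
        simp only [niH]
        simp only [Net.pk] at hab
        split_ifs at hab <;> omega
      subst hh
      simp only [niH, niP] at hha hpa haD hpb hbD
      exact ni_lex (M := 3) (by split_ifs <;> omega) (by split_ifs <;> omega)
        (hylt _ hha _ hpa haD _ hpb hbD) (hylt _ hha _ hpb hbD _ hpa haD)
    · exfalso
      simp only [niH] at hha
      have := List.idxOf_lt_length_of_mem hha
      simp only [Net.pk] at hab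
      split_ifs at hab <;> omega
    · exfalso
      simp only [niH] at hhb
      have := List.idxOf_lt_length_of_mem hhb
      simp only [Net.pk] at hab
      split_ifs at hab <;> omega
    · obtain ⟨hk, he⟩ := mem_V_lk.1 haV
      obtain ⟨hk', he'⟩ := mem_V_lk.1 hbV
      have hkk : k = k' := by
        simp only [Net.pk] at hab
        omega
      subst hkk
      have hc := hcol k hk
      obtain ⟨h, b, p⟩ := e
      obtain ⟨h', b', p'⟩ := e'
      simp only [niH, niP] at hha hpa haD hhb hpb hbD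
      show (n.cols.getD k []).idxOf (h, b, p) < (n.cols.getD k []).idxOf (h', b', p') ↔
        (n.cols.getD k []).idxOf (h, b, y h p) < (n.cols.getD k []).idxOf (h', b', y h' p')
      have hinj : ∀ u ∈ E, ∀ e ∈ n.cols.getD k [], ∀ e' ∈ n.cols.getD k [],
          keepE (D u) e = true → keepE (D u) e' = true →
          (e.1, e.2.1, gap (D u e.1) e.2.2) = (e'.1, e'.2.1, gap (D u e'.1) e'.2.2) →
          e = e' := by
        rintro u - ⟨g, b, p⟩ - ⟨g', b', p'⟩ - h1 h2 h3
        simp only [keepE, decide_eq_true_eq] at h1 h2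
        simp only [Prod.mk.injEq] at h3
        obtain ⟨rfl, rfl, h3⟩ := h3
        rw [ni_gap_inj h1 h2 h3]
      obtain ⟨y1, y2, y3⟩ := hy h hha p hpa haD
      obtain ⟨z1, z2, z3⟩ := hy h' hhb p' hpb hbD
      have A := ni_idx (keepE (D s)) (fun e => (e.1, e.2.1, gap (D s e.1) e.2.2))
        (n.cols.getD k []) (hinj s hs) (h, b, p) he (h', b', p') he'
        (by simp [keepE, haD]) (by simp [keepE, hbD])
      have B := ni_idx (keepE (D t)) (fun e => (e.1, e.2.1, gap (D t e.1) e.2.2))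
        (n.cols.getD k []) (hinj t ht) (h, b, y h p) (hent k hk _ he haD)
        (h', b', y h' p') (hent k hk _ he' hbD)
        (by simp [keepE, y2]) (by simp [keepE, z2])
      rw [A, B]
      have C := ok.pc s hs t ht _ hc
      unfold pat at C
      rw [C]
      simp only [y3, z3]
  · -- rows
    intro a ha b hb hab
    obtain ⟨haV, haD⟩ := ni_mem.1 ha
    obtain ⟨hbV, hbD⟩ := ni_mem.1 hb
    obtain ⟨hha, hpa⟩ := niH_mem ok haV
    obtain ⟨hhb, hpb⟩ := niH_mem ok hbV
    obtain ⟨a0, a1, a2, a3, -⟩ := hV a ha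
    obtain ⟨b0, b1, b2, b3, -⟩ := hV b hb
    have hh : niH a = niH b := by
      apply ni_idxOf ok hha
      rw [ni_row, ni_row] at hab
      have := niB_lt a
      have := niB_lt b
      omega
    rw [ni_ky, ni_ky, ni_ky, ni_ky, a2, a3, b2, b3]
    rw [← hh] at hpb hbD ⊢
    exact ni_lex (niC_lt haV) (niC_lt hbV)
      (hylt _ hha _ hpa haD _ hpb hbD) (hylt _ hha _ hpb hbD _ hpa haD)

end PPI
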