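import Mathlib
import Pool.Agent.PPI.NetIso

/-!
# Copies of the small gridded set are given by families of increasing maps
-/

namespace PPI

variable {H ι : Type} [DecidableEq H] {n : Net H} {E : Finset ι} {D : ι → H → Finset ℕ}
  {r : H → ℕ}

theorem nsa_mem {Ds : H → Finset ℕ} {h : H} {a p : ℕ} :
    mn h a p ∈ n.V \ DP n Ds ↔ h ∈ n.hubs ∧ a < 5 ∧ p < n.N h ∧ p ∉ Ds h := by
  rw [Finset.mem_sdiff, DP, Finset.mem_filter, mem_V_mn]
  simp only [Om, decide_eq_true_eq, not_and]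
  tauto

/-- the points in the cell of a main point -/
theorem nsa_cell {h : H} (hh : h ∈ n.hubs) {a p : ℕ} (ha : a < 5) {b : Pt H} (hb : b ∈ n.V)
    (hc : n.pk.col b = n.pk.col (mn h a p)) (hr : n.pk.row b = n.pk.row (mn h a p)) :
    ∃ a' p', a' < 5 ∧ p' < n.N h ∧ b = mn h a' p' ∧ (a' = a ∨ (a < 2 ∧ a' < 2)) := by
  have hi := List.idxOf_lt_length_of_mem hh
  rcases b with ⟨h', a', p'⟩ | ⟨k, e⟩
  · obtain ⟨hh', ha', hp'⟩ := mem_V_mn.1 hb
    simp only [Net.pk] at hc hr
    have e : n.hubs.idxOf h' = n.hubs.idxOf h := by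
      split_ifs at hc <;> omega
    have e' : h' = h := (List.idxOf_inj hh').1 e
    subst e'
    refine ⟨a', p', ha', hp', rfl, ?_⟩
    interval_cases a <;> interval_cases a' <;> simp at hc hr ⊢
  · exfalso
    simp only [Net.pk] at hc
    split_ifs at hc <;> omega

/-- one point of a hub moves as a whole -/
theorem nsa_point {Q : Finset (Pt H)} {Ds : H → Finset ℕ}
    {θ : Pt H → Pt H} (h : GI n.pk n.V (DP n Ds) Q θ) {g : H} (hg : g ∈ n.hubs) {p : ℕ}
    (hp : p < n.N g) (hpD : p ∉ Ds g) :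
    ∃ q < n.N g, ∀ a < 5, θ (mn g a p) = mn g a q := by
  have hm : ∀ a < 5, mn g a p ∈ n.V \ DP n Ds := fun a ha => nsa_mem.2 ⟨hg, ha, hp, hpD⟩
  have key : ∀ a < 5, ∃ a' p', a' < 5 ∧ p' < n.N g ∧ θ (mn g a p) = mn g a' p' ∧
      (a' = a ∨ (a < 2 ∧ a' < 2)) := by
    intro a ha
    have h1 : θ (mn g a p) ∈ n.V := by
      have := h.bij.mapsTo (Finset.mem_coe.2 (hm a ha))
      exact (Finset.mem_sdiff.1 (Finset.mem_coe.1 this)).1
    exact nsa_cell hg ha h1 (h.col _ (hm a ha)) (h.row _ (hm a ha))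
  obtain ⟨a0, u0, ha0, hu0, e0, c0⟩ := key 0 (by norm_num)
  obtain ⟨a1, u1, ha1, hu1, e1, c1⟩ := key 1 (by norm_num)
  obtain ⟨a2, u2, ha2, hu2, e2, c2⟩ := key 2 (by norm_num)
  obtain ⟨a3, u3, ha3, hu3, e3, c3⟩ := key 3 (by norm_num)
  obtain ⟨a4, u4, ha4, hu4, e4, c4⟩ := key 4 (by norm_num)
  have c2' : a2 = 2 := by omega
  have c3' : a3 = 3 := by omega
  have c4' : a4 = 4 := by omega
  subst c2' c3' c4'
  have x40 := h.x _ (hm 4 (by norm_num)) _ (hm 0 (by norm_num)) (by simp [Net.pk])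
  have x41 := h.x _ (hm 4 (by norm_num)) _ (hm 1 (by norm_num)) (by simp [Net.pk])
  have x01 := h.x _ (hm 0 (by norm_num)) _ (hm 1 (by norm_num)) (by simp [Net.pk])
  have x23 := h.x _ (hm 2 (by norm_num)) _ (hm 3 (by norm_num)) (by simp [Net.pk])
  have y02 := h.y _ (hm 0 (by norm_num)) _ (hm 2 (by norm_num)) (by simp [Net.pk])
  have y12 := h.y _ (hm 1 (by norm_num)) _ (hm 2 (by norm_num)) (by simp [Net.pk])
  have y34 := h.y _ (hm 3 (by norm_num)) _ (hm 4 (by norm_num)) (by simp [Net.pk])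
  rw [e4, e0] at x40
  rw [e4, e1] at x41
  rw [e0, e1] at x01
  rw [e2, e3] at x23
  rw [e0, e2] at y02
  rw [e1, e2] at y12
  rw [e3, e4] at y34
  have c0' : a0 = 0 ∨ a0 = 1 := by omega
  have c1' : a1 = 0 ∨ a1 = 1 := by omega
  have z34 : u3 ≤ u4 := by
    simp only [Net.pk] at y34
    norm_num at y34
    by_contra hc
    have : (n.cols.length + 3) * (u4 + 1) ≤ (n.cols.length + 3) * u3 :=
      Nat.mul_le_mul_left _ (by omega)
    rw [Nat.mul_add] at this
    omega
  have z23 : u2 ≤ u3 := by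
    simp only [Net.pk] at x23
    norm_num at x23
    omega
  have z12 : u1 ≤ u2 := by
    by_contra hc
    have : (n.cols.length + 3) * (u2 + 1) ≤ (n.cols.length + 3) * u1 :=
      Nat.mul_le_mul_left _ (by omega)
    rw [Nat.mul_add] at this
    simp only [Net.pk] at y12
    rcases c1' with rfl | rfl <;> norm_num at y12 <;> omega
  have z02 : u0 ≤ u2 := by
    by_contra hc
    have : (n.cols.length + 3) * (u2 + 1) ≤ (n.cols.length + 3) * u0 :=
      Nat.mul_le_mul_left _ (by omega)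
    rw [Nat.mul_add] at this
    simp only [Net.pk] at y02
    rcases c0' with rfl | rfl <;> norm_num at y02 <;> omega
  have z40 : u4 ≤ u0 := by
    simp only [Net.pk] at x40
    rcases c0' with rfl | rfl <;> norm_num at x40 <;> omega
  have z41 : u4 ≤ u1 := by
    simp only [Net.pk] at x41
    rcases c1' with rfl | rfl <;> norm_num at x41 <;> omega
  obtain rfl : u0 = u4 := by omega
  obtain rfl : u1 = u0 := by omega
  obtain rfl : u2 = u1 := by omega
  obtain rfl : u3 = u2 := by omega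
  have z : a0 = 0 ∧ a1 = 1 := by
    simp only [Net.pk] at x01
    rcases c0' with rfl | rfl <;> rcases c1' with rfl | rfl <;>
      first | exact ⟨rfl, rfl⟩ | (exfalso; norm_num at x01)
  obtain ⟨rfl, rfl⟩ := z
  refine ⟨u3, hu3, fun a ha => ?_⟩
  interval_cases a
  · exact e0
  · exact e1
  · exact e2
  · exact e3
  · exact e4

theorem main_sync (ok : NetOK n E D r) {s : ι} (hs : s ∈ E) {Q : Finset (Pt H)} (hQ : Q ⊆ n.V)
    {θ : Pt H → Pt H} (h : GI n.pk n.V (DP n (D s)) Q θ) :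
    ∃ y : H → ℕ → ℕ, (∀ h ∈ n.hubs, Incr (n.N h) (n.N h - r h) (y h)) ∧
      ∀ h ∈ n.hubs, ∀ p < n.N h, p ∉ D s h → ∀ a < 5,
        θ (mn h a p) = mn h a (y h (gap (D s h) p)) := by
  classical
  have h1 : ∀ (g : H) (l : ℕ), ∃ q, g ∈ n.hubs → l < n.N g - r g → ∃ p < n.N g, p ∉ D s g ∧
      gap (D s g) p = l ∧ q < n.N g ∧ ∀ a < 5, θ (mn g a p) = mn g a q := by
    intro g l
    by_cases hg : g ∈ n.hubs
    · by_cases hl : l < n.N g - r g
      · obtain ⟨p, hp, hpD, e⟩ := exists_rank ok hs hg hl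
        obtain ⟨q, hq, hq'⟩ := nsa_point h hg hp hpD
        exact ⟨q, fun _ _ => ⟨p, hp, hpD, e, hq, hq'⟩⟩
      · exact ⟨0, fun _ h => absurd h hl⟩
    · exact ⟨0, fun h => absurd h hg⟩
  choose y hy using h1
  refine ⟨y, fun g hg => ⟨fun l hl => ?_, fun l l' hll hl' => ?_⟩, ?_⟩
  · obtain ⟨p, _, _, _, hq, _⟩ := hy g l hg hl
    exact hq
  · obtain ⟨p, hp, hpD, e, hq, hθ⟩ := hy g l hg (by omega)
    obtain ⟨p', hp', hpD', e', hq', hθ'⟩ := hy g l' hg hl'
    have hlt : p < p' := (gap_lt_iff hpD).1 (by omega)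
    have x := (h.x _ (nsa_mem.2 ⟨hg, (by norm_num : 4 < 5), hp, hpD⟩) _
      (nsa_mem.2 ⟨hg, (by norm_num : 4 < 5), hp', hpD'⟩) (by simp [Net.pk])).1
      (by simp only [Net.pk]; norm_num; omega)
    rw [hθ 4 (by norm_num), hθ' 4 (by norm_num)] at x
    simp only [Net.pk] at x
    norm_num at x
    exact x
  · intro g hg p hp hpD a ha
    obtain ⟨p', hp', hpD', e, hq, hθ⟩ := hy g (gap (D s g) p) hg (gap_lt ok hs hg hp hpD)
    have : p' = p := by
      rcases lt_trichotomy p' p with hlt | heq | hlt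
      · have := (gap_lt_iff hpD').2 hlt
        omega
      · exact heq
      · have := (gap_lt_iff hpD).2 hlt
        omega
    subst this
    exact hθ a ha

theorem link_sync (ok : NetOK n E D r) {s : ι} (hs : s ∈ E) {Q : Finset (Pt H)} (hQ : Q ⊆ n.V)
    {θ : Pt H → Pt H} (h : GI n.pk n.V (DP n (D s)) Q θ) {y : H → ℕ → ℕ}
    (hy : ∀ h ∈ n.hubs, ∀ p < n.N h, p ∉ D s h → ∀ a < 5,
      θ (mn h a p) = mn h a (y h (gap (D s h) p))) {k : ℕ} (hk : k < n.cols.length)
    {e : Ent H} (he : e ∈ n.cols.getD k []) (hke : e.2.2 ∉ D s e.1) :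
    θ (lk k e) = lk k (e.1, e.2.1, y e.1 (gap (D s e.1) e.2.2)) ∧
      (e.1, e.2.1, y e.1 (gap (D s e.1) e.2.2)) ∈ n.cols.getD k [] := by
  obtain ⟨g, b, p⟩ := e
  simp only at hke ⊢
  have hcol : n.cols.getD k [] ∈ n.cols := by
    rw [List.getD_eq_getElem _ _ hk]
    exact List.getElem_mem hk
  obtain ⟨hg, hp⟩ := ok.ce _ hcol _ he
  simp only at hg hp
  have hi := List.idxOf_lt_length_of_mem hg
  have hm : lk k (g, b, p) ∈ n.V \ DP n (D s) := by
    rw [Finset.mem_sdiff, DP, Finset.mem_filter]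
    refine ⟨mem_V_lk.2 ⟨hk, he⟩, fun hh => hke ?_⟩
    simpa [Om] using hh.2
  have hθV : θ (lk k (g, b, p)) ∈ n.V := by
    have := h.bij.mapsTo (Finset.mem_coe.2 hm)
    exact (Finset.mem_sdiff.1 (Finset.mem_coe.1 this)).1
  have hc := h.col _ hm
  have hr := h.row _ hm
  have hmn : ∀ a < 5, mn g a p ∈ n.V \ DP n (D s) := fun a ha => nsa_mem.2 ⟨hg, ha, hp, hke⟩
  -- the image is a link of the same column
  obtain ⟨p', he', hθ⟩ : ∃ p', (g, b, p') ∈ n.cols.getD k [] ∧
      θ (lk k (g, b, p)) = lk k (g, b, p') := by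
    rcases hb : θ (lk k (g, b, p)) with ⟨g', a', p'⟩ | ⟨k', g', b', p'⟩
    · exfalso
      rw [hb] at hc hθV
      obtain ⟨hg', -, -⟩ := mem_V_mn.1 hθV
      have hi' := List.idxOf_lt_length_of_mem hg'
      simp only [Net.pk] at hc
      split_ifs at hc <;> omega
    · rw [hb] at hc hr hθV
      obtain ⟨hk', he''⟩ := mem_V_lk.1 hθV
      simp only [Net.pk] at hc hr
      have ek : k' = k := by omega
      subst ek
      obtain ⟨hg', hp'⟩ := ok.ce _ hcol _ he''
      simp only at hg' hp'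
      have e1 : n.hubs.idxOf g' = n.hubs.idxOf g ∧ b' = b := by
        cases b <;> cases b' <;> simp at hr ⊢ <;> omega
      have e2 : g' = g := (List.idxOf_inj hg').1 e1.1
      obtain rfl := e2
      obtain rfl := e1.2
      exact ⟨p', he'', rfl⟩
  have hq : p' = y g (gap (D s g) p) := by
    set q := y g (gap (D s g) p) with hqdef
    have hlt : p' < q → (n.cols.length + 3) * p' + (n.cols.length + 3) ≤
        (n.cols.length + 3) * q := by
      intro hl
      have := Nat.mul_le_mul_left (n.cols.length + 3) (show p' + 1 ≤ q by omega)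
      rwa [Nat.mul_add, Nat.mul_one] at this
    have hgt : q < p' → (n.cols.length + 3) * q + (n.cols.length + 3) ≤
        (n.cols.length + 3) * p' := by
      intro hl
      have := Nat.mul_le_mul_left (n.cols.length + 3) (show q + 1 ≤ p' by omega)
      rwa [Nat.mul_add, Nat.mul_one] at this
    cases b
    · have y1 := (h.y _ (hmn 1 (by norm_num)) _ hm (by simp [Net.pk])).1
        (by simp only [Net.pk]; norm_num; omega)
      have y2 := (h.y _ hm _ (hmn 2 (by norm_num)) (by simp [Net.pk])).1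
        (by simp only [Net.pk]; norm_num; omega)
      rw [hθ, hy g hg p hp hke 1 (by norm_num)] at y1
      rw [hθ, hy g hg p hp hke 2 (by norm_num)] at y2
      simp only [Net.pk] at y1 y2
      norm_num at y1 y2
      rw [← hqdef] at y1 y2
      omega
    · have y1 := (h.y _ (hmn 3 (by norm_num)) _ hm (by simp [Net.pk])).1
        (by simp only [Net.pk]; norm_num; omega)
      have y2 := (h.y _ hm _ (hmn 4 (by norm_num)) (by simp [Net.pk])).1
        (by simp only [Net.pk]; norm_num; omega)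
      rw [hθ, hy g hg p hp hke 3 (by norm_num)] at y1
      rw [hθ, hy g hg p hp hke 4 (by norm_num)] at y2
      simp only [Net.pk] at y1 y2
      norm_num at y1 y2
      rw [← hqdef] at y1 y2
      omega
  rw [← hq]
  exact ⟨hθ, he'⟩

end PPI
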