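import Mathlib
import Pool.Agent.PPI.NetIso
import Pool.Agent.PPI.NetSync

/-!
# The copies of the small gridded set are the complements of the states
-/

namespace PPI

variable {H ι : Type} [DecidableEq H] {n : Net H} {E : Finset ι} {D : ι → H → Finset ℕ}
  {r : H → ℕ}

/-- a list of elements of `c` with increasing positions is a sublist -/
private theorem NEmb_sublist {α : Type} [BEq α] [LawfulBEq α] {l c : List α} (hm : ∀ a ∈ l, a ∈ c)
    (hp : l.Pairwise fun a b => c.idxOf a < c.idxOf b) : l.Sublist c := by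
  rw [List.sublist_iff_exists_fin_orderEmbedding_get_eq]
  have hlt : ∀ i : Fin l.length, c.idxOf (l.get i) < c.length := fun i =>
    List.idxOf_lt_length_iff.2 (hm _ (List.get_mem l i))
  refine ⟨OrderEmbedding.ofStrictMono (fun i => ⟨c.idxOf (l.get i), hlt i⟩) ?_, ?_⟩
  · intro i j hij
    exact (List.pairwise_iff_get.1 hp) i j hij
  · intro i
    simp

omit [DecidableEq H] in
private theorem NEmb_pat_map {Ds : H → Finset ℕ} {y : H → ℕ → ℕ} (c : List (Ent H)) :
    ((pat Ds c).map fun e => (e.1, e.2.1, y e.1 e.2.2)) =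
      (c.filter (keepE Ds)).map fun e => (e.1, e.2.1, y e.1 (gap (Ds e.1) e.2.2)) := by
  unfold pat
  rw [List.map_map]
  rfl

private theorem NEmb_mem_lk {s : ι} {k : ℕ} {e : Ent H} (hk : k < n.cols.length)
    (he : e ∈ n.cols.getD k []) (hke : e.2.2 ∉ D s e.1) :
    lk k e ∈ n.V \ DP n (D s) := by
  rw [Finset.mem_sdiff]
  refine ⟨mem_V_lk.2 ⟨hk, he⟩, ?_⟩
  unfold DP
  rw [Finset.mem_filter]
  rintro ⟨-, h2⟩
  exact hke (of_decide_eq_true h2)

theorem net_fits (ok : NetOK n E D r) {s : ι} (hs : s ∈ E) {Q : Finset (Pt H)} (hQ : Q ⊆ n.V)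
    {θ : Pt H → Pt H} (h : GI n.pk n.V (DP n (D s)) Q θ) {y : H → ℕ → ℕ}
    (hy : ∀ h ∈ n.hubs, ∀ p < n.N h, p ∉ D s h → ∀ a < 5,
      θ (mn h a p) = mn h a (y h (gap (D s h) p))) :
    ∀ c ∈ n.cols, Fits y (pat (D s) c) c := by
  intro c hc
  obtain ⟨k, hk, rfl⟩ := List.mem_iff_getElem.1 hc
  have hgd : n.cols.getD k [] = n.cols[k] := by
    simp [List.getD_eq_getElem?_getD, List.getElem?_eq_getElem hk]
  have hnd : (n.cols[k]).Nodup := ok.cn _ hc
  unfold Fits
  rw [NEmb_pat_map]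
  have key : ∀ e ∈ (n.cols[k]).filter (keepE (D s)),
      e ∈ n.cols.getD k [] ∧ e.2.2 ∉ D s e.1 := by
    intro e he
    rw [List.mem_filter] at he
    refine ⟨hgd ▸ he.1, of_decide_eq_true he.2⟩
  apply NEmb_sublist
  · intro a ha
    rw [List.mem_map] at ha
    obtain ⟨e, he, rfl⟩ := ha
    obtain ⟨h1, h2⟩ := key e he
    have := (link_sync ok hs hQ h hy hk h1 h2).2
    rwa [hgd] at this
  · rw [List.pairwise_map]
    have hpw : (n.cols[k]).Pairwise fun a b => (n.cols[k]).idxOf a < (n.cols[k]).idxOf b := by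
      rw [List.pairwise_iff_getElem]
      intro i j hi hj hij
      rw [List.Nodup.idxOf_getElem hnd, List.Nodup.idxOf_getElem hnd]
      exact hij
    have hpw' := hpw.filter (keepE (D s))
    refine hpw'.imp_of_mem ?_
    intro a b ha hb hab
    obtain ⟨ha1, ha2⟩ := key a ha
    obtain ⟨hb1, hb2⟩ := key b hb
    have hθa := (link_sync ok hs hQ h hy hk ha1 ha2).1
    have hθb := (link_sync ok hs hQ h hy hk hb1 hb2).1
    have hx := (h.x (lk k a) (NEmb_mem_lk hk ha1 ha2) (lk k b) (NEmb_mem_lk hk hb1 hb2) rfl).1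
    have hab' : n.pk.kx (lk k a) < n.pk.kx (lk k b) := by
      change (n.cols.getD k []).idxOf a < (n.cols.getD k []).idxOf b
      rw [hgd]
      exact hab
    have := hx hab'
    rw [hθa, hθb] at this
    change (n.cols.getD k []).idxOf _ < (n.cols.getD k []).idxOf _ at this
    rwa [hgd] at this

theorem net_emb (ok : NetOK n E D r) {s : ι} (hs : s ∈ E) (Q : Finset (Pt H)) (hQ : Q ⊆ n.V) :
    (∃ θ, GI n.pk n.V (DP n (D s)) Q θ) ↔ ∃ t ∈ E, Q = DP n (D t) := by
  constructor
  · rintro ⟨θ, h⟩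
    obtain ⟨y, hy1, hy2⟩ := main_sync ok hs hQ h
    obtain ⟨t, ht, hyt⟩ := ok.sol s hs y hy1 (net_fits ok hs hQ h hy2)
    refine ⟨t, ht, ?_⟩
    obtain ⟨θ', h', -⟩ := net_iso ok hs ht
    have hDs : DP n (D s) ⊆ n.V := Finset.filter_subset _ _
    have hDt : DP n (D t) ⊆ n.V := Finset.filter_subset _ _
    have c1 : (DP n (D s)).card = Q.card := h.card hDs hQ
    have c2 : (DP n (D s)).card = (DP n (D t)).card := h'.card hDs hDt
    have hsub : n.V \ Q ⊆ n.V \ DP n (D t) := by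
      intro b hb
      obtain ⟨a, ha, rfl⟩ := h.bij.surjOn (Finset.mem_coe.2 hb)
      have ha' : a ∈ n.V \ DP n (D s) := Finset.mem_coe.1 ha
      rw [Finset.mem_sdiff] at ha' hb ⊢
      refine ⟨hb.1, ?_⟩
      have haO : Om (D s) a ≠ true := fun hO => ha'.2 (Finset.mem_filter.2 ⟨ha'.1, hO⟩)
      intro hbO
      have hbO' : Om (D t) (θ a) = true := (Finset.mem_filter.1 hbO).2
      rcases a with ⟨g, i, p⟩ | ⟨k, e⟩
      · have hmem := mem_V_mn.1 ha'.1
        have hp : p ∉ D s g := fun hp => haO (decide_eq_true hp)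
        have hθ := hy2 g hmem.1 p hmem.2.2 hp i hmem.2.1
        change Om (D t) (θ (mn g i p)) = true at hbO'
        rw [hθ] at hbO'
        exact hyt g hmem.1 _ (gap_lt ok hs hmem.1 hmem.2.2 hp) (of_decide_eq_true hbO')
      · have hmem := mem_V_lk.1 ha'.1
        have hp : e.2.2 ∉ D s e.1 := fun hp => haO (decide_eq_true hp)
        have hθ := (link_sync ok hs hQ h hy2 hmem.1 hmem.2 hp).1
        change Om (D t) (θ (lk k e)) = true at hbO'
        rw [hθ] at hbO'
        have hcol : n.cols.getD k [] ∈ n.cols := by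
          rw [List.getD_eq_getElem?_getD, List.getElem?_eq_getElem hmem.1]
          exact List.getElem_mem hmem.1
        obtain ⟨he1, he2⟩ := ok.ce _ hcol e hmem.2
        exact hyt e.1 he1 _ (gap_lt ok hs he1 he2 hp) (of_decide_eq_true hbO')
    have hcard : (n.V \ DP n (D t)).card ≤ (n.V \ Q).card := by
      rw [Finset.card_sdiff_of_subset hDt, Finset.card_sdiff_of_subset hQ]
      omega
    have heq := Finset.eq_of_subset_of_card_le hsub hcard
    rw [← Finset.sdiff_sdiff_eq_self hQ, heq, Finset.sdiff_sdiff_eq_self hDt]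
  · rintro ⟨t, ht, rfl⟩
    obtain ⟨θ, h, -⟩ := net_iso ok hs ht
    exact ⟨θ, h⟩

end PPI
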