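import Mathlib
import Pool.Agent.PPI.NetIso

/-!
# Boxes in the gridded set of a network
-/

namespace PPI

variable {H ι : Type} [DecidableEq H] {n : Net H} {E : Finset ι} {D : ι → H → Finset ℕ}
  {r : H → ℕ}

/-- the hub and the point of the hub of a point -/
def hubOf : Pt H → H × ℕ
  | Sum.inl (h, _, p) => (h, p)
  | Sum.inr (_, h, _, p) => (h, p)

theorem nlc_info (ok : NetOK n E D r) {a : Pt H} (ha : a ∈ n.V) :
    (hubOf a).1 ∈ n.hubs ∧ (hubOf a).2 < n.N (hubOf a).1 ∧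
      (∃ c < 2, n.pk.row a = 2 * n.hubs.idxOf (hubOf a).1 + c) ∧
      ∃ o < n.cols.length + 3, n.pk.ky a = (n.cols.length + 3) * (hubOf a).2 + o := by
  rcases a with ⟨h, a, p⟩ | ⟨k, g, b, p⟩
  · obtain ⟨h1, h2, h3⟩ := mem_V_mn.1 ha
    refine ⟨h1, h3, ?_, ?_⟩
    · simp only [Net.pk, hubOf]
      split_ifs
      · exact ⟨1, by norm_num, rfl⟩
      · exact ⟨0, by norm_num, rfl⟩
    · simp only [Net.pk, hubOf]
      split_ifs
      · exact ⟨0, by omega, rfl⟩
      · exact ⟨1, by omega, rfl⟩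
      · exact ⟨n.cols.length + 2, by omega, rfl⟩
  · obtain ⟨h1, h2⟩ := mem_V_lk.1 ha
    have hcol : n.cols.getD k [] ∈ n.cols := by
      rw [List.getD_eq_getElem _ _ h1]
      exact List.getElem_mem h1
    obtain ⟨h3, h4⟩ := ok.ce _ hcol _ h2
    refine ⟨h3, h4, ?_, ?_⟩
    · cases b
      · exact ⟨0, by norm_num, by simp [Net.pk, hubOf]⟩
      · exact ⟨1, by norm_num, by simp [Net.pk, hubOf]⟩
    · exact ⟨2 + k, by omega, by simp only [Net.pk, hubOf]; omega⟩

omit [DecidableEq H] in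
theorem nlc_om {Ds : H → Finset ℕ} {a : Pt H} :
    Om Ds a = true ↔ (hubOf a).2 ∈ Ds (hubOf a).1 := by
  rcases a with ⟨h, a, p⟩ | ⟨k, g, b, p⟩ <;> simp [Om, hubOf]

theorem nlc_mem {Ds : H → Finset ℕ} {a : Pt H} :
    a ∈ n.V \ DP n Ds ↔ a ∈ n.V ∧ (hubOf a).2 ∉ Ds (hubOf a).1 := by
  rw [Finset.mem_sdiff, DP, Finset.mem_filter, nlc_om]
  tauto

theorem nlc_mem' {Ds : H → Finset ℕ} {a : Pt H} :
    a ∈ DP n Ds ↔ a ∈ n.V ∧ (hubOf a).2 ∈ Ds (hubOf a).1 := by
  rw [DP, Finset.mem_filter, nlc_om]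

theorem nlc_mul {M a b : ℕ} (h : a < b) : M * a + M ≤ M * b := by
  have := Nat.mul_le_mul_left M (show a + 1 ≤ b by omega)
  rwa [Nat.mul_add, Nat.mul_one] at this

theorem nlc_hub (ok : NetOK n E D r) {a b : Pt H} (ha : a ∈ n.V) (hb : b ∈ n.V)
    (h : n.pk.row a = n.pk.row b) : (hubOf a).1 = (hubOf b).1 := by
  obtain ⟨h1, -, ⟨c, hc, e⟩, -⟩ := nlc_info ok ha
  obtain ⟨h1', -, ⟨c', hc', e'⟩, -⟩ := nlc_info ok hb
  exact (List.idxOf_inj h1).1 (by omega)

theorem nlc_gap_le (ok : NetOK n E D r) {t : ι} (ht : t ∈ E) {h : H} (hh : h ∈ n.hubs) {q : ℕ}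
    (hq : q < n.N h) : gap (D t h) q ≤ n.N h - r h := by
  have e : (D t h) ⊆ Finset.range (n.N h) := fun p hp => Finset.mem_range.2 (ok.Dsub t ht h hh p hp)
  have h1 : (Finset.range (n.N h) \ D t h).card = n.N h - r h := by
    rw [Finset.card_sdiff_of_subset e, Finset.card_range, ok.Dcard t ht h hh]
  rw [← h1]
  refine Finset.card_le_card fun p hp => ?_
  rw [Finset.mem_filter, Finset.mem_range] at hp
  rw [Finset.mem_sdiff, Finset.mem_range]
  exact ⟨hp.1.trans hq, hp.2⟩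

theorem nlc_count (ok : NetOK n E D r) {s t : ι} (hs : s ∈ E) (ht : t ∈ E)
    {a b : Pt H} (ha : a ∈ DP n (D s)) (hb : b ∈ DP n (D t))
    (hrow : n.pk.row a = n.pk.row b)
    (hlt : gap (D s (hubOf a).1) (hubOf a).2 < gap (D t (hubOf a).1) (hubOf b).2) :
    ((n.V \ DP n (D s)).filter fun x => n.pk.row x = n.pk.row a ∧ n.pk.ky x < n.pk.ky a).card <
      ((n.V \ DP n (D t)).filter fun x => n.pk.row x = n.pk.row b ∧ n.pk.ky x < n.pk.ky b).card := by
  obtain ⟨haV, haD⟩ := nlc_mem'.1 ha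
  obtain ⟨hbV, hbD⟩ := nlc_mem'.1 hb
  have hub := nlc_hub ok haV hbV hrow
  obtain ⟨hh, hpN, ⟨c, hc, hrowa⟩, oa, hoa, hkya⟩ := nlc_info ok haV
  obtain ⟨-, hqN, -, ob, hob, hkyb⟩ := nlc_info ok hbV
  obtain ⟨θ, hθ, y, hy, hmn, hlk⟩ := net_iso ok hs ht
  set g := (hubOf a).1 with hg
  set p := (hubOf a).2 with hp
  set q := (hubOf b).2 with hq
  rw [← hub] at hqN hbD
  set M := n.cols.length + 3 with hM
  -- the image of a kept point
  have him : ∀ x ∈ n.V \ DP n (D s), θ x ∈ n.V \ DP n (D t) ∧ (hubOf (θ x)).1 = (hubOf x).1 ∧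
      gap (D t (hubOf x).1) (hubOf (θ x)).2 = gap (D s (hubOf x).1) (hubOf x).2 := by
    intro x hx
    refine ⟨Finset.mem_coe.1 (hθ.bij.mapsTo (Finset.mem_coe.2 hx)), ?_⟩
    obtain ⟨hxV, hxD⟩ := nlc_mem.1 hx
    rcases x with ⟨h', a', p'⟩ | ⟨k, g', b', p'⟩
    · obtain ⟨h1, h2, h3⟩ := mem_V_mn.1 hxV
      rw [hmn h' h1 p' h3 hxD a' h2]
      exact ⟨rfl, (hy h' h1 p' h3 hxD).2.2⟩
    · obtain ⟨h1, h2⟩ := mem_V_lk.1 hxV
      have hcol : n.cols.getD k [] ∈ n.cols := by
        rw [List.getD_eq_getElem _ _ h1]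
        exact List.getElem_mem h1
      obtain ⟨h3, h4⟩ := ok.ce _ hcol _ h2
      rw [hlk k h1 _ h2 hxD]
      exact ⟨rfl, (hy g' h3 p' h4 hxD).2.2⟩
  obtain ⟨w, hwN, hwD, hw⟩ := exists_rank ok ht hh
    (lt_of_lt_of_le hlt (nlc_gap_le ok ht hh hqN))
  have hwq : w < q := (gap_lt_iff hwD).1 (by omega)
  -- the extra point
  obtain ⟨z, hzV, hz1, hz2, hzrow⟩ : ∃ z ∈ n.V, (hubOf z).1 = g ∧ (hubOf z).2 = w ∧
      n.pk.row z = n.pk.row b := by
    have hc2 : c = 0 ∨ c = 1 := by omega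
    rcases hc2 with rfl | rfl
    · exact ⟨mn g 0 w, mem_V_mn.2 ⟨hh, by norm_num, hwN⟩, rfl, rfl, by
        rw [← hrow, hrowa]; simp [Net.pk]⟩
    · exact ⟨mn g 3 w, mem_V_mn.2 ⟨hh, by norm_num, hwN⟩, rfl, rfl, by
        rw [← hrow, hrowa]; simp [Net.pk]⟩
  set A := (n.V \ DP n (D s)).filter fun x => n.pk.row x = n.pk.row a ∧ n.pk.ky x < n.pk.ky a
    with hA
  set B := (n.V \ DP n (D t)).filter fun x => n.pk.row x = n.pk.row b ∧ n.pk.ky x < n.pk.ky b
    with hB
  have hAfact : ∀ x ∈ A, x ∈ n.V \ DP n (D s) ∧ (hubOf x).1 = g ∧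
      gap (D s g) (hubOf x).2 < gap (D s g) p := by
    intro x hx
    rw [hA, Finset.mem_filter] at hx
    obtain ⟨hx1, hx2, hx3⟩ := hx
    obtain ⟨hxV, hxD⟩ := nlc_mem.1 hx1
    have e := nlc_hub ok hxV haV hx2
    obtain ⟨-, -, -, ox, hox, hkyx⟩ := nlc_info ok hxV
    rw [← hM] at hox hkyx
    rw [e] at hxD
    refine ⟨hx1, e, (gap_lt_iff hxD).2 ?_⟩
    by_contra hcc
    rcases Nat.lt_or_ge p (hubOf x).2 with hl | hl
    · have := nlc_mul (M := M) hl
      omega
    · exact hxD (by rw [show (hubOf x).2 = p by omega]; exact haD)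
  have hBmem : ∀ x ∈ n.V \ DP n (D t), n.pk.row x = n.pk.row b → (hubOf x).2 < q → x ∈ B := by
    intro x hx h1 h2
    rw [hB, Finset.mem_filter]
    refine ⟨hx, h1, ?_⟩
    obtain ⟨hxV, -⟩ := nlc_mem.1 hx
    obtain ⟨-, -, -, ox, hox, hkyx⟩ := nlc_info ok hxV
    rw [← hM] at hox hkyx
    have := nlc_mul (M := M) h2
    omega
  have hzB : z ∈ B := hBmem z (nlc_mem.2 ⟨hzV, by rw [hz1, hz2]; exact hwD⟩) hzrow (by omega)
  have himg : A.image θ ⊆ B.erase z := by
    intro v hv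
    rw [Finset.mem_image] at hv
    obtain ⟨x, hx, rfl⟩ := hv
    obtain ⟨hx1, hx2, hx3⟩ := hAfact x hx
    obtain ⟨h4, h5, h6⟩ := him x hx1
    rw [hx2] at h5 h6
    rw [Finset.mem_erase]
    refine ⟨fun e => ?_, hBmem _ h4 ?_ ?_⟩
    · rw [e, hz2] at h6
      omega
    · rw [hθ.row x hx1, ← hrow]
      rw [hA, Finset.mem_filter] at hx
      exact hx.2.1
    · obtain ⟨-, h8⟩ := nlc_mem.1 h4
      rw [h5] at h8
      exact (gap_lt_iff h8).1 (by omega)
  have hinj : (A.image θ).card = A.card := by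
    refine Finset.card_image_of_injOn fun x hx x' hx' e => ?_
    exact hθ.bij.injOn (Finset.mem_coe.2 (hAfact x hx).1) (Finset.mem_coe.2 (hAfact x' hx').1) e
  have h9 := Finset.card_le_card himg
  rw [Finset.card_erase_of_mem hzB, hinj] at h9
  have h10 : 0 < B.card := Finset.card_pos.2 ⟨z, hzB⟩
  omega

/-- points in the same box belong to the same hub, with the same gap -/
theorem loc_gap (ok : NetOK n E D r) {s t : ι} (hs : s ∈ E) (ht : t ∈ E)
    {a b : Pt H} (ha : a ∈ DP n (D s)) (hb : b ∈ DP n (D t))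
    (h : loc n.pk n.V (DP n (D s)) a = loc n.pk n.V (DP n (D t)) b) :
    (hubOf a).1 = (hubOf b).1 ∧
      gap (D s (hubOf a).1) (hubOf a).2 = gap (D t (hubOf a).1) (hubOf b).2 := by
  simp only [loc, Prod.mk.injEq] at h
  obtain ⟨-, hrow, -, hcard⟩ := h
  have hub := nlc_hub ok (nlc_mem'.1 ha).1 (nlc_mem'.1 hb).1 hrow
  refine ⟨hub, ?_⟩
  rcases lt_trichotomy (gap (D s (hubOf a).1) (hubOf a).2) (gap (D t (hubOf a).1) (hubOf b).2)
    with hlt | heq | hlt
  · exact absurd hcard (nlc_count ok hs ht ha hb hrow hlt).ne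
  · exact heq
  · rw [hub] at hlt
    exact absurd hcard.symm (nlc_count ok ht hs hb ha hrow.symm hlt).ne

theorem nlc_single (ok : NetOK n E D r) {s : ι} (hs : s ∈ E) {h : H} (hh : h ∈ n.hubs)
    (hr : r h = 1) {p : ℕ} (hp : p ∈ D s h) : gap (D s h) p = p := by
  have h1 : D s h = {p} := by
    have := ok.Dcard s hs h hh
    rw [hr, Finset.card_eq_one] at this
    obtain ⟨x, hx⟩ := this
    rw [hx, Finset.mem_singleton] at hp
    rw [hx, hp]
  rw [gap, h1]
  have : (Finset.range p).filter (· ∉ ({p} : Finset ℕ)) = Finset.range p := by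
    refine Finset.filter_true_of_mem fun x hx => ?_
    rw [Finset.mem_range] at hx
    rw [Finset.mem_singleton]
    omega
  rw [this, Finset.card_range]

/-- link points of a hub with `r = 1` do not share their boxes -/
theorem loc_good (ok : NetOK n E D r) {s t : ι} (hs : s ∈ E) (ht : t ∈ E)
    {k : ℕ} {e : Ent H} (hr : r e.1 = 1) {b : Pt H} (ha : lk k e ∈ DP n (D s))
    (hb : b ∈ DP n (D t))
    (h : loc n.pk n.V (DP n (D t)) b = loc n.pk n.V (DP n (D s)) (lk k e)) : b = lk k e := by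
  obtain ⟨hub, hgap⟩ := loc_gap ok ht hs hb ha h
  simp only [loc, Prod.mk.injEq] at h
  obtain ⟨hcol, hrow, -, -⟩ := h
  obtain ⟨haV, haD⟩ := nlc_mem'.1 ha
  obtain ⟨hbV, hbD⟩ := nlc_mem'.1 hb
  obtain ⟨hh, -, -, -⟩ := nlc_info ok haV
  have hi := List.idxOf_lt_length_of_mem hh
  obtain ⟨g, c, p⟩ := e
  have ga := nlc_single ok hs hh hr haD
  rw [hub] at hgap hbD
  have gb := nlc_single ok ht hh hr hbD
  have epq : (hubOf b).2 = (hubOf (lk k (g, c, p))).2 := by omega
  rcases b with ⟨h', a', p'⟩ | ⟨k', g', c', p'⟩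
  · exfalso
    obtain ⟨hg', -, -⟩ := mem_V_mn.1 hbV
    have hi' := List.idxOf_lt_length_of_mem hg'
    simp only [Net.pk] at hcol
    split_ifs at hcol <;> omega
  · simp only [hubOf] at hub epq
    subst hub epq
    simp only [Net.pk] at hcol hrow
    have ek : k' = k := by omega
    subst ek
    have : c' = c := by
      cases c <;> cases c' <;> simp at hrow ⊢
    rw [this]

/-- the twins of a hub with `r = 1` -/
theorem loc_twin (ok : NetOK n E D r) {s t : ι} (hs : s ∈ E) (ht : t ∈ E)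
    {g : H} {p : ℕ} (hr : r g = 1) {b : Pt H} (ha : mn g 0 p ∈ DP n (D s))
    (hb : b ∈ DP n (D t))
    (h : loc n.pk n.V (DP n (D t)) b = loc n.pk n.V (DP n (D s)) (mn g 0 p)) :
    b = mn g 0 p ∨ b = mn g 1 p := by
  obtain ⟨hub, hgap⟩ := loc_gap ok ht hs hb ha h
  simp only [loc, Prod.mk.injEq] at h
  obtain ⟨hcol, hrow, -, -⟩ := h
  obtain ⟨haV, haD⟩ := nlc_mem'.1 ha
  obtain ⟨hbV, hbD⟩ := nlc_mem'.1 hb
  obtain ⟨hh, -, -, -⟩ := nlc_info ok haV
  have hi := List.idxOf_lt_length_of_mem hh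
  have ga := nlc_single ok hs hh hr haD
  rw [hub] at hgap hbD
  have gb := nlc_single ok ht hh hr hbD
  have epq : (hubOf b).2 = (hubOf (mn g 0 p)).2 := by omega
  rcases b with ⟨h', a', p'⟩ | ⟨k', g', c', p'⟩
  · obtain ⟨hg', ha', -⟩ := mem_V_mn.1 hbV
    simp only [hubOf] at hub epq
    subst hub epq
    simp only [Net.pk] at hcol hrow
    interval_cases a' <;> simp at hcol hrow ⊢
  · exfalso
    simp only [Net.pk] at hcol
    simp only [hubOf] at hi
    norm_num at hcol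
    omega

theorem nlc_takeWhile {α : Type} [DecidableEq α] [BEq α] [LawfulBEq α] (e e' : α) : ∀ c : List α, e ∈ c →
    (e' ∈ c.takeWhile (fun x => decide (x ≠ e)) ↔ e' ∈ c ∧ c.idxOf e' < c.idxOf e) := by
  intro c
  induction c with
  | nil => intro h; simp at h
  | cons x xs ih =>
    intro h
    by_cases hx : x = e
    · subst hx
      simp
    · have he : e ∈ xs := by
        rcases List.mem_cons.1 h with h | h
        · exact absurd h.symm hx
        · exact h
      rw [List.takeWhile_cons_of_pos (by simpa using hx), List.mem_cons, ih he,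
        List.idxOf_cons_ne _ hx]
      by_cases hx' : x = e'
      · subst hx'
        simp
      · rw [List.idxOf_cons_ne _ hx', List.mem_cons]
        have : e' ≠ x := fun h => hx' h.symm
        constructor
        · rintro (h | ⟨h1, h2⟩)
          · exact absurd h this
          · exact ⟨Or.inr h1, by omega⟩
        · rintro ⟨h | h1, h2⟩
          · exact absurd h this
          · exact Or.inr ⟨h1, by omega⟩

theorem nlc_cgap (ok : NetOK n E D r) (s : ι)
    {k : ℕ} {e : Ent H} (hk : k < n.cols.length) (he : e ∈ n.cols.getD k []) :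
    ((n.V \ DP n (D s)).filter fun x =>
      n.pk.col x = n.pk.col (lk k e) ∧ n.pk.kx x < n.pk.kx (lk k e)).card =
      cgap (D s) (n.cols.getD k []) e := by
  have hcol : n.cols.getD k [] ∈ n.cols := by
    rw [List.getD_eq_getElem _ _ hk]
    exact List.getElem_mem hk
  have hnd := ok.cn _ hcol
  set c := n.cols.getD k [] with hc
  have hnd2 : ((c.takeWhile (fun x => decide (x ≠ e))).filter (keepE (D s))).Nodup :=
    ((List.takeWhile_sublist _).nodup hnd).filter _
  have h1 : ((n.V \ DP n (D s)).filter fun x =>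
      n.pk.col x = n.pk.col (lk k e) ∧ n.pk.kx x < n.pk.kx (lk k e)) =
      (((c.takeWhile (fun x => decide (x ≠ e))).filter (keepE (D s))).toFinset).image
        (fun e' => lk k e') := by
    ext x
    rw [Finset.mem_filter, nlc_mem, Finset.mem_image]
    simp only [List.mem_toFinset, List.mem_filter, nlc_takeWhile e _ c he]
    constructor
    · rintro ⟨⟨hxV, hxD⟩, h2, h3⟩
      rcases x with ⟨h', a', p'⟩ | ⟨k', g', c', p'⟩
      · exfalso
        obtain ⟨hg', -, -⟩ := mem_V_mn.1 hxV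
        have hi' := List.idxOf_lt_length_of_mem hg'
        simp only [Net.pk] at h2
        split_ifs at h2 <;> omega
      · obtain ⟨h4, h5⟩ := mem_V_lk.1 hxV
        simp only [Net.pk] at h2 h3
        have ek : k' = k := by omega
        subst ek
        exact ⟨(g', c', p'), ⟨⟨h5, h3⟩, by simpa [keepE, hubOf] using hxD⟩, rfl⟩
    · rintro ⟨e', ⟨⟨h2, h3⟩, h4⟩, rfl⟩
      refine ⟨⟨mem_V_lk.2 ⟨hk, h2⟩, ?_⟩, rfl, h3⟩
      obtain ⟨g', c', p'⟩ := e'
      simpa [keepE, hubOf] using h4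
  rw [h1, Finset.card_image_of_injective _ (fun x y h => by simpa using h),
    List.toFinset_card_of_nodup hnd2]
  rfl

/-- the location of a link point moves with the number of kept entries before it -/
theorem loc_sep (ok : NetOK n E D r) {s t : ι} (hs : s ∈ E) (ht : t ∈ E)
    {k : ℕ} {e : Ent H} (hk : k < n.cols.length) (he : e ∈ n.cols.getD k [])
    (h : cgap (D s) (n.cols.getD k []) e ≠ cgap (D t) (n.cols.getD k []) e) :
    loc n.pk n.V (DP n (D s)) (lk k e) ≠ loc n.pk n.V (DP n (D t)) (lk k e) := by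
  intro hh
  simp only [loc, Prod.mk.injEq] at hh
  obtain ⟨-, -, hcard, -⟩ := hh
  rw [nlc_cgap ok s hk he, nlc_cgap ok t hk he] at hcard
  exact h hcard

theorem mn_twin (ok : NetOK n E D r) {g : H} {p : ℕ} (hg : g ∈ n.hubs) (hp : p < n.N g) :
    Twin n.pk n.V (mn g 0 p) (mn g 1 p) := by
  have hi := List.idxOf_lt_length_of_mem hg
  refine ⟨by simp, by simp [Net.pk], by simp [Net.pk], by simp [Net.pk], by simp [Net.pk], ?_, ?_⟩
  · intro a ha hc
    rcases a with ⟨h', a', p'⟩ | ⟨k', g', c', p'⟩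
    · obtain ⟨hg', ha', -⟩ := mem_V_mn.1 ha
      have e1 : n.hubs.idxOf h' = n.hubs.idxOf g := by
        simp only [Net.pk] at hc
        split_ifs at hc <;> omega
      have e2 : h' = g := (List.idxOf_inj hg').1 e1
      subst e2
      simp only [Net.pk] at hc ⊢
      interval_cases a' <;> simp at hc ⊢ <;> omega
    · exfalso
      simp only [Net.pk] at hc
      norm_num at hc
      omega
  · intro a ha hr
    have hub := nlc_hub ok ha (mem_V_mn.2 ⟨hg, (by norm_num : 0 < 5), hp⟩) hr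
    rcases a with ⟨h', a', p'⟩ | ⟨k', g', c', p'⟩
    · obtain ⟨hg', ha', -⟩ := mem_V_mn.1 ha
      simp only [hubOf] at hub
      subst hub
      have m1 := fun h : p < p' => nlc_mul (M := n.cols.length + 3) h
      have m2 := fun h : p' < p => nlc_mul (M := n.cols.length + 3) h
      simp only [Net.pk] at hr ⊢
      rcases lt_trichotomy p p' with hlt | rfl | hlt
      · have := m1 hlt
        interval_cases a' <;> simp at hr ⊢ <;> omega
      · interval_cases a' <;> simp at hr ⊢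
      · have := m2 hlt
        interval_cases a' <;> simp at hr ⊢ <;> omega
    · simp only [hubOf] at hub
      subst hub
      obtain ⟨h1, -⟩ := mem_V_lk.1 ha
      simp only [Net.pk] at hr ⊢
      rcases lt_trichotomy p p' with hlt | rfl | hlt
      · have := nlc_mul (M := n.cols.length + 3) hlt
        simp
        omega
      · simp
        omega
      · have := nlc_mul (M := n.cols.length + 3) hlt
        simp
        omega

end PPI
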