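import Mathlib
import Pool.Agent.CT.NerveC
import Pool.Agent.CT.Domin
import Pool.Agent.CT.Contr

/-!
# A contractibility criterion, and the nerve lemma for covers by subcomplexes
-/

namespace PPI

open CT
open scoped ContinuousMap

/-- **contractibility criterion** (delete the vertices of `V1` one after the other, minimal
ones first; each one is dominated by its image under `f`; a cone remains). -/
theorem contr_crit {V : Type} [PartialOrder V] [DecidableEq V] {K : Set (Finset V)}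
    (hK : IsCx K) (hfin : K.Finite) (V1 : Set V) (f : V → V) (a : V)
    (hf : ∀ v ∈ V1, f v ∉ V1)
    (h1 : ∀ c ∈ K, ∀ v ∈ c, v ∈ V1 → (∀ w ∈ c, w ∈ V1 → ¬ w < v) → insert (f v) c ∈ K)
    (ha : a ∉ V1) (haK : {a} ∈ K)
    (h2 : ∀ c ∈ K, (∀ v ∈ c, v ∉ V1) → insert a c ∈ K) :
    ContractibleSpace (Rz K) := by
  have hfin' : ∀ K : Set (Finset V), K.Finite → {v | {v} ∈ K ∧ v ∈ V1}.Finite := by
    intro K hK
    refine Set.Finite.subset (Set.Finite.preimage (f := fun v : V => ({v} : Finset V))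
      (fun x _ y _ h => by simpa using h) hK) ?_
    rintro v ⟨h, -⟩
    exact h
  induction hn : ({v | {v} ∈ K ∧ v ∈ V1}).ncard using Nat.strong_induction_on generalizing K with
  | _ n ih =>
  rcases Set.eq_empty_or_nonempty {v | {v} ∈ K ∧ v ∈ V1} with h0 | h0
  · refine contractible_cone hK a haK fun c hc => h2 c hc fun v hv hv1 => ?_
    have : v ∈ {v | {v} ∈ K ∧ v ∈ V1} :=
      ⟨hK.down c hc _ (Finset.singleton_subset_iff.2 hv) ⟨v, Finset.mem_singleton_self v⟩, hv1⟩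
    rw [h0] at this
    exact this
  · obtain ⟨v, hv⟩ := (hfin' K hfin).exists_minimal h0
    have hvm : ∀ w, {w} ∈ K → w ∈ V1 → ¬ w < v := fun w hw hw1 hlt =>
      absurd (hv.2 (y := w) ⟨hw, hw1⟩ hlt.le) (not_le_of_gt hlt)
    have hv1 : v ∈ V1 := hv.1.2
    have hvK : {v} ∈ K := hv.1.1
    obtain ⟨e⟩ := del_dominated hK hfin v (f v) (fun h => hf v hv1 (h ▸ hv1)) (fun c hc hvc =>
      h1 c hc v hvc hv1 fun w hwc hw1 => hvm w (hK.down c hc _
        (Finset.singleton_subset_iff.2 hwc) ⟨w, Finset.mem_singleton_self w⟩) hw1)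
    have hc : ContractibleSpace (Rz {s ∈ K | v ∉ s}) := by
      refine ih _ ?_ (sep_isCx hK v) (hfin.subset (Set.sep_subset K _)) ?_ ?_ ?_ rfl
      · rw [← hn]
        refine Set.ncard_lt_ncard ⟨?_, ?_⟩ (hfin' K hfin)
        · rintro w ⟨hw, hw1⟩
          exact ⟨hw.1, hw1⟩
        · intro h
          have := (h hv.1).1.2
          exact this (Finset.mem_singleton_self v)
      · rintro c ⟨hc, hvc⟩ w hw hw1 hmin
        refine ⟨h1 c hc w hw hw1 hmin, fun h => ?_⟩
        rcases Finset.mem_insert.1 h with h | h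
        · exact hf w hw1 (h ▸ hv1)
        · exact hvc h
      · refine ⟨haK, fun h => ?_⟩
        rw [Finset.mem_singleton] at h
        exact ha (h ▸ hv1)
      · rintro c ⟨hc, hvc⟩ hc1
        refine ⟨h2 c hc hc1, fun h => ?_⟩
        rcases Finset.mem_insert.1 h with h | h
        · exact ha (h ▸ hv1)
        · exact hvc h
    exact e.symm.contractibleSpace

/-- **nerve lemma** for a finite complex covered by subcomplexes `K s`, `s ∈ E` -/
theorem nerve_cover' {V ι : Type} {X : Set (Finset V)} (hX : IsCx X) (hfin : X.Finite)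
    (E : Finset ι) (K : ι → Set (Finset V)) (hK : ∀ s, IsCx (K s)) (hKE : ∀ s, (K s).Nonempty → s ∈ E)
    (hcov : ∀ c, c ∈ X ↔ ∃ s ∈ E, c ∈ K s)
    {N : Set (Finset ι)} (hN : IsCx N) (hNf : N.Finite)
    (h0 : ∀ S : Finset ι, S.Nonempty → ((∃ c, ∀ s ∈ S, c ∈ K s) ↔ S ∈ N))
    (hc : ∀ S ∈ N, ContractibleSpace (Rz {c | ∀ s ∈ S, c ∈ K s})) :
    Nonempty (Rz X ≃ₕ Rz N) := by
  obtain ⟨e⟩ := CT.nerve_cover hX hfin K hK
    (fun s c hc => (hcov c).2 ⟨s, hKE s ⟨c, hc⟩, hc⟩)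
    (fun c hc => by obtain ⟨s, -, h⟩ := (hcov c).1 hc; exact ⟨s, h⟩)
    (E.finite_toSet.subset fun s hs => hKE s hs)
    (fun S hS hS' => hc S ((h0 S hS).1 hS'))
  have h1 : {S : Finset ι | S.Nonempty ∧ ∃ c, ∀ s ∈ S, c ∈ K s} = N := by
    ext S
    constructor
    · rintro ⟨h, h'⟩
      exact (h0 S h).1 h'
    · intro h
      exact ⟨hN.ne S h, (h0 S (hN.ne S h)).2 h⟩
  rw [h1] at e
  exact ⟨e.trans (sd hN hNf).toHomotopyEquiv⟩

end PPI
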