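import Mathlib
import Pool.Agent.PPI.Rig
import Pool.Agent.PPI.Crit

/-!
# The complexes `Ks` are contractible
-/

namespace PPI

open CT

variable {α ι P : Type} [DecidableEq α] [PartialOrder P] {k : Keys α} {V : Finset α}
  {E : Finset ι} {D : ι → Finset α} {G : Set α} {pd : Finset α → P}

/-- deleting one more point -/
theorem GI.del {Q Q' : Finset α} {θ : α → α} (h : GI k V Q Q' θ) (hQ' : Q' ⊆ V) {a : α}
    (ha : a ∈ V \ Q) : GI k V (insert a Q) (insert (θ a) Q') θ := by
  have hsub : V \ insert a Q ⊆ V \ Q := Finset.sdiff_subset_sdiff le_rfl (Finset.subset_insert _ _)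
  have hmem : ∀ x, x ∈ V \ insert a Q ↔ x ∈ V \ Q ∧ x ≠ a := by
    intro x
    simp only [Finset.mem_sdiff, Finset.mem_insert]
    tauto
  have hmem' : ∀ x, x ∈ V \ insert (θ a) Q' ↔ x ∈ V \ Q' ∧ x ≠ θ a := by
    intro x
    simp only [Finset.mem_sdiff, Finset.mem_insert]
    tauto
  refine ⟨⟨?_, ?_, ?_⟩, fun x hx => h.col x (hsub hx), fun x hx => h.row x (hsub hx),
    fun x hx y hy => h.x x (hsub hx) y (hsub hy), fun x hx y hy => h.y x (hsub hx) y (hsub hy)⟩
  · intro x hx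
    obtain ⟨h1, h2⟩ := (hmem x).1 hx
    refine (hmem' _).2 ⟨h.bij.mapsTo h1, fun h3 => h2 (h.bij.injOn h1 ha h3)⟩
  · exact h.bij.injOn.mono (fun x hx => hsub hx)
  · intro y hy
    obtain ⟨h1, h2⟩ := (hmem' y).1 hy
    obtain ⟨x, hx, rfl⟩ := h.bij.surjOn h1
    refine ⟨x, (hmem x).2 ⟨hx, ?_⟩, rfl⟩
    rintro rfl
    exact h2 rfl

/-- extension of a realised chain by one element -/
theorem ks_extend {s : ι} (hs : s ∈ E) [DecidableEq P] {c : Finset P}
    (hchain : IsChain (· ≤ ·) (c : Set P)) {φ : P → Finset α}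
    (h1 : ∀ τ ∈ c, (φ τ).Nonempty ∧ φ τ ⊂ D s ∧ pd (φ τ) = τ)
    (h2 : ∀ τ ∈ c, ∀ τ' ∈ c, τ ≤ τ' → φ τ' ⊆ φ τ) {a : P} {Q : Finset α}
    (hQ : Q.Nonempty ∧ Q ⊂ D s ∧ pd Q = a)
    (h : ∀ w ∈ c, (w ≤ a ∧ Q ⊆ φ w) ∨ (a ≤ w ∧ φ w ⊆ Q)) : insert a c ∈ Ks E D pd s := by
  refine ⟨hs, Finset.insert_nonempty _ _, ?_, Function.update φ a Q, ?_, ?_⟩
  · rw [Finset.coe_insert]
    refine hchain.insert fun w hw _ => ?_
    rcases h w hw with h3 | h3
    · exact Or.inr h3.1
    · exact Or.inl h3.1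
  · intro τ hτ
    by_cases hτa : τ = a
    · subst hτa
      simpa using hQ
    · rw [Function.update_of_ne hτa]
      exact h1 τ ((Finset.mem_insert.1 hτ).resolve_left hτa)
  · intro τ hτ τ' hτ' hle
    by_cases hτa : τ = a
    · subst hτa
      rw [Function.update_self]
      by_cases hτa' : τ' = τ
      · rw [hτa', Function.update_self]
      · rw [Function.update_of_ne hτa']
        rcases h τ' ((Finset.mem_insert.1 hτ').resolve_left hτa') with h3 | h3
        · exact absurd (le_antisymm h3.1 hle) hτa'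
        · exact h3.2
    · rw [Function.update_of_ne hτa]
      have hτc := (Finset.mem_insert.1 hτ).resolve_left hτa
      by_cases hτa' : τ' = a
      · subst hτa'
        rw [Function.update_self]
        rcases h τ hτc with h3 | h3
        · exact h3.2
        · exact absurd (le_antisymm hle h3.1) hτa
      · rw [Function.update_of_ne hτa']
        exact h2 τ hτc τ' ((Finset.mem_insert.1 hτ').resolve_left hτa') hle

theorem ks_contr_one (R : Rig k V E D G) (B : PD k V E D pd) {s : ι} (hs : s ∈ E) :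
    ContractibleSpace (Rz (Ks E D pd s)) := by
  classical
  obtain ⟨p, hp, q, hq, tw, hbox⟩ := R.twin s hs
  have hDV := R.sub s hs
  have hpV := hDV hp
  have hqV := hDV hq
  have hpq : p ≠ q := tw.ne
  have hloc : loc k V (D s) q = loc k V (D s) p := (tw.loc hp hq).symm
  -- both twins present
  have fact : ∀ Q Q' : Finset α, Q ⊆ D s → Q' ⊆ D s → pd Q = pd Q' → p ∉ Q → q ∉ Q →
      p ∉ Q' ∧ q ∉ Q' ∧ pd (insert p Q) = pd (insert p Q') := by
    intro Q Q' hQ hQ' he hpQ hqQ
    obtain ⟨θ, hθ⟩ := (B.eq s hs Q hQ Q' (hQ'.trans hDV)).1 he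
    obtain ⟨t, ht, -, -, h3⟩ := R.transport hs hQ (hQ'.trans hDV) hθ
    obtain ⟨a1, a2, a3⟩ := h3 p hp hpQ
    obtain ⟨b1, b2, b3⟩ := h3 q hq hqQ
    have hθp := hbox t ht (θ p) a1 a3
    have hθq := hbox t ht (θ q) b1 (b3.trans hloc)
    have hpVQ : p ∈ V \ Q := Finset.mem_sdiff.2 ⟨hpV, hpQ⟩
    have hqVQ : q ∈ V \ Q := Finset.mem_sdiff.2 ⟨hqV, hqQ⟩
    have hlt := (hθ.x p hpVQ q hqVQ tw.col).1 tw.kx
    have hkx := tw.kx
    have e1 : θ p = p := by
      rcases hθp with h | h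
      · exact h
      · rcases hθq with h' | h'
        · rw [h, h'] at hlt
          omega
        · rw [h, h'] at hlt
          omega
    have e2 : θ q = q := by
      rcases hθq with h' | h'
      · rw [e1, h'] at hlt
        omega
      · exact h'
    refine ⟨e1 ▸ a2, e2 ▸ b2, ?_⟩
    have h4 := hθ.del (hQ'.trans hDV) hpVQ
    rw [e1] at h4
    exact (B.eq s hs _ (Finset.insert_subset hp hQ) _
      (Finset.insert_subset hpV (hQ'.trans hDV))).2 ⟨θ, h4⟩
  -- normal realisations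
  have norm : ∀ c ∈ Ks E D pd s, ∃ φ : P → Finset α,
      (∀ τ ∈ c, (φ τ).Nonempty ∧ φ τ ⊂ D s ∧ pd (φ τ) = τ) ∧
      (∀ τ ∈ c, ∀ τ' ∈ c, τ ≤ τ' → φ τ' ⊆ φ τ) ∧ ∀ τ ∈ c, q ∈ φ τ → p ∈ φ τ := by
    rintro c ⟨-, -, -, φ, h1, h2⟩
    refine ⟨fun τ => if q ∈ φ τ ∧ p ∉ φ τ then insert p ((φ τ).erase q) else φ τ, ?_, ?_, ?_⟩
    · intro τ hτ
      obtain ⟨a1, a2, a3⟩ := h1 τ hτ
      by_cases h : q ∈ φ τ ∧ p ∉ φ τ
      · simp only [h, not_false_eq_true, and_self, if_true]
        have h5 : insert p ((φ τ).erase q) ⊆ D s :=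
          Finset.insert_subset hp ((Finset.erase_subset _ _).trans a2.subset)
        refine ⟨Finset.insert_nonempty _ _, ?_, ?_⟩
        · refine Finset.ssubset_iff_subset_ne.2 ⟨h5, fun h6 => ?_⟩
          have h7 : q ∈ insert p ((φ τ).erase q) := h6 ▸ hq
          rcases Finset.mem_insert.1 h7 with h8 | h8
          · exact hpq h8.symm
          · exact Finset.notMem_erase _ _ h8
        · obtain ⟨θ, h6, -⟩ := tw.swap hpV hqV h.1 h.2
          exact ((B.eq s hs _ a2.subset _ (h5.trans hDV)).2 ⟨θ, h6⟩).symm.trans a3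
      · simp only [h, if_false]
        exact ⟨a1, a2, a3⟩
    · intro τ hτ τ' hτ' hle
      have h3 := h2 τ hτ τ' hτ' hle
      by_cases h : q ∈ φ τ ∧ p ∉ φ τ
      · simp only [h, not_false_eq_true, and_self, if_true]
        by_cases h' : q ∈ φ τ' ∧ p ∉ φ τ'
        · simp only [h', not_false_eq_true, and_self, if_true]
          exact Finset.insert_subset_insert _ (Finset.erase_subset_erase _ h3)
        · simp only [h', if_false]
          have hp' : p ∉ φ τ' := fun h5 => h.2 (h3 h5)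
          have hq' : q ∉ φ τ' := fun h5 => h' ⟨h5, hp'⟩
          intro x hx
          refine Finset.mem_insert_of_mem (Finset.mem_erase.2 ⟨?_, h3 hx⟩)
          rintro rfl
          exact hq' hx
      · simp only [h, if_false]
        by_cases h' : q ∈ φ τ' ∧ p ∉ φ τ'
        · simp only [h', not_false_eq_true, and_self, if_true]
          have hp' : p ∈ φ τ := by
            by_contra h5
            exact h ⟨h3 h'.1, h5⟩
          exact Finset.insert_subset hp' ((Finset.erase_subset _ _).trans h3)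
        · simp only [h', if_false]
          exact h3
    · intro τ hτ
      by_cases h : q ∈ φ τ ∧ p ∉ φ τ
      · simp only [h, not_false_eq_true, and_self, if_true]
        intro _
        exact Finset.mem_insert_self _ _
      · simp only [h, if_false]
        intro hq'
        by_contra h5
        exact h ⟨hq', h5⟩
  -- the bad vertices
  set V1 : Set P := {τ | ∃ Q : Finset α, Q.Nonempty ∧ Q ⊂ D s ∧ pd Q = τ ∧ p ∉ Q ∧ q ∉ Q}
    with hV1
  set f : P → P := fun τ => if h : τ ∈ V1 then pd (insert p h.choose) else τ with hf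
  have fval : ∀ τ ∈ V1, ∀ Q : Finset α, Q ⊆ D s → pd Q = τ →
      p ∉ Q ∧ q ∉ Q ∧ f τ = pd (insert p Q) := by
    intro τ hτ Q hQ he
    obtain ⟨c1, c2, c3, c4, c5⟩ := hτ.choose_spec
    obtain ⟨d1, d2, d3⟩ := fact hτ.choose Q c2.subset hQ (c3.trans he.symm) c4 c5
    refine ⟨d1, d2, ?_⟩
    simp only [hf, hτ, dif_pos]
    exact d3
  have hins : ∀ Q : Finset α, Q ⊆ D s → q ∉ Q → insert p Q ⊂ D s := by
    intro Q hQ hqQ
    refine Finset.ssubset_iff_subset_ne.2 ⟨Finset.insert_subset hp hQ, fun h6 => ?_⟩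
    have h7 : q ∈ insert p Q := h6 ▸ hq
    rcases Finset.mem_insert.1 h7 with h8 | h8
    · exact hpq h8.symm
    · exact hqQ h8
  have hpD : ({p} : Finset α) ⊂ D s := by
    have := hins ∅ (Finset.empty_subset _) (Finset.notMem_empty _)
    simpa using this
  have hpV1 : pd {p} ∉ V1 := by
    intro h
    exact (fval _ h {p} hpD.subset rfl).1 (Finset.mem_singleton_self _)
  refine contr_crit (ks_isCx s) (ks_finite R B s) V1 f (pd {p}) ?_ ?_ hpV1 ?_ ?_
  · intro τ hτ h'
    obtain ⟨Q, c1, c2, c3, c4, c5⟩ := hτ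
    obtain ⟨-, -, h3⟩ := fval τ ⟨Q, c1, c2, c3, c4, c5⟩ Q c2.subset c3
    rw [h3] at h'
    exact (fval _ h' (insert p Q) (hins Q c2.subset c5).subset rfl).1
      (Finset.mem_insert_self _ _)
  · intro c hc v hv hvV1 hmin
    obtain ⟨φ, h1, h2, h3⟩ := norm c hc
    obtain ⟨a1, a2, a3⟩ := h1 v hv
    obtain ⟨b1, b2, b3⟩ := fval v hvV1 (φ v) a2.subset a3
    have hle : f v ≤ v := by
      rw [b3]
      refine (B.anti _ _ (Finset.subset_insert _ _) ?_).trans a3.le
      exact (hins _ a2.subset b2).subset.trans hDV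
    refine ks_extend hs hc.2.2.1 h1 h2 ⟨Finset.insert_nonempty p (φ v), hins _ a2.subset b2,
      b3.symm⟩ ?_
    intro w hw
    rcases hc.2.2.1.total hw hv with h4 | h4
    · by_cases hwv : w = v
      · subst hwv
        exact Or.inr ⟨hle, Finset.subset_insert _ _⟩
      · left
        have h5 : w ∉ V1 := fun h6 => hmin w hw h6 (lt_of_le_of_ne h4 hwv)
        obtain ⟨w1, w2, w3⟩ := h1 w hw
        have hpw : p ∈ φ w := by
          by_contra h6
          by_cases h7 : q ∈ φ w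
          · exact h6 (h3 w hw h7)
          · exact h5 ⟨φ w, w1, w2, w3, h6, h7⟩
        have h8 : insert p (φ v) ⊆ φ w := Finset.insert_subset hpw (h2 w hw v hv h4)
        refine ⟨?_, h8⟩
        rw [b3, ← w3]
        exact B.anti _ _ h8 (w2.subset.trans hDV)
    · right
      exact ⟨hle.trans h4, (h2 v hv w hw h4).trans (Finset.subset_insert _ _)⟩
  · refine ⟨hs, Finset.singleton_nonempty _, by simp, fun _ => {p}, ?_, ?_⟩
    · intro τ hτ
      rw [Finset.mem_singleton] at hτ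
      exact ⟨Finset.singleton_nonempty _, hpD, hτ.symm⟩
    · intro _ _ _ _ _
      exact le_rfl
  · intro c hc hno
    obtain ⟨φ, h1, h2, h3⟩ := norm c hc
    refine ks_extend hs hc.2.2.1 h1 h2 ⟨Finset.singleton_nonempty p, hpD, rfl⟩ ?_
    intro w hw
    obtain ⟨w1, w2, w3⟩ := h1 w hw
    left
    have hpw : p ∈ φ w := by
      by_contra h6
      by_cases h7 : q ∈ φ w
      · exact h6 (h3 w hw h7)
      · exact hno w hw ⟨φ w, w1, w2, w3, h6, h7⟩
    have h8 : ({p} : Finset α) ⊆ φ w := Finset.singleton_subset_iff.2 hpw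
    refine ⟨?_, h8⟩
    rw [← w3]
    exact B.anti _ _ h8 (w2.subset.trans hDV)

end PPI
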