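import Mathlib
import Pool.Agent.PPI.Rig
import Pool.Agent.PPI.Crit

/-!
# The intersections of at least two of the complexes `Ks` are contractible
-/

namespace PPI

open CT

variable {α ι P : Type} [DecidableEq α] [PartialOrder P] {k : Keys α} {V : Finset α}
  {E : Finset ι} {D : ι → Finset α} {G : Set α} {pd : Finset α → P}

namespace RigContr2

/-- deleting one more point on both sides -/
theorem gi_insert {Q Q' : Finset α} {θ : α → α} (h : GI k V Q Q' θ) {g : α} (hg : g ∈ V \ Q) :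
    GI k V (insert g Q) (insert (θ g) Q') θ := by
  have hsub : ∀ a, a ∈ V \ insert g Q → a ∈ V \ Q ∧ a ≠ g := by
    intro a ha
    simp only [Finset.mem_sdiff, Finset.mem_insert, not_or] at ha ⊢
    exact ⟨⟨ha.1, ha.2.2⟩, ha.2.1⟩
  refine ⟨⟨?_, ?_, ?_⟩, fun a ha => h.col a (hsub a ha).1, fun a ha => h.row a (hsub a ha).1,
    fun a ha b hb => h.x a (hsub a ha).1 b (hsub b hb).1,
    fun a ha b hb => h.y a (hsub a ha).1 b (hsub b hb).1⟩
  · intro a ha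
    obtain ⟨h1, h2⟩ := hsub a ha
    have h3 : θ a ∈ V \ Q' := h.bij.mapsTo h1
    have h4 : θ a ≠ θ g := fun e => h2 (h.bij.injOn h1 hg e)
    simp only [Finset.coe_sdiff, Set.mem_sdiff, Finset.mem_coe, Finset.mem_insert, not_or,
      Finset.mem_sdiff] at h3 ⊢
    exact ⟨h3.1, h4, h3.2⟩
  · intro a ha b hb hab
    exact h.bij.injOn (hsub a ha).1 (hsub b hb).1 hab
  · intro b hb
    simp only [Finset.coe_sdiff, Set.mem_sdiff, Finset.mem_coe, Finset.mem_insert, not_or] at hb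
    have h1 : b ∈ ((V \ Q' : Finset α) : Set α) := by
      simp only [Finset.coe_sdiff, Set.mem_sdiff, Finset.mem_coe]
      exact ⟨hb.1, hb.2.2⟩
    obtain ⟨a, ha, hab⟩ := h.bij.surjOn h1
    refine ⟨a, ?_, hab⟩
    simp only [Finset.coe_sdiff, Set.mem_sdiff, Finset.mem_coe, Finset.mem_insert, not_or] at ha ⊢
    refine ⟨ha.1, ?_, ha.2⟩
    rintro rfl
    exact hb.2.1 hab.symm

/-- a good point which is not omitted does not move -/
theorem fix (R : Rig k V E D G) (B : PD k V E D pd) {g : α} (hg : g ∈ G) {s t : ι} (hs : s ∈ E)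
    (ht : t ∈ E) (hgs : g ∈ D s) {Q Q' : Finset α} (hQ : Q ⊆ D s) (hQ' : Q' ⊆ D t)
    (he : pd Q = pd Q') (hgQ : g ∉ Q) :
    ∃ θ, GI k V Q Q' θ ∧ θ g = g ∧ g ∉ Q' ∧ ∃ t' ∈ E, Q' ⊆ D t' ∧ g ∈ D t' ∧
      loc k V (D t') g = loc k V (D s) g := by
  have hQ'V : Q' ⊆ V := hQ'.trans (R.sub t ht)
  obtain ⟨θ, hθ⟩ := (B.eq s hs Q hQ Q' hQ'V).mp he
  obtain ⟨t', ht', h1, -, h2⟩ := R.transport hs hQ hQ'V hθ
  obtain ⟨h3, h4, h5⟩ := h2 g hgs hgQ
  have h6 : θ g = g := R.good g hg s hs hgs t' ht' (θ g) h3 h5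
  rw [h6] at h3 h4 h5
  exact ⟨θ, hθ, h6, h4, t', ht', h1, h3, h5⟩

theorem mem_iff (R : Rig k V E D G) (B : PD k V E D pd) {g : α} (hg : g ∈ G) {s t : ι}
    (hs : s ∈ E) (ht : t ∈ E) (hgs : g ∈ D s) (hgt : g ∈ D t) {Q Q' : Finset α} (hQ : Q ⊆ D s)
    (hQ' : Q' ⊆ D t) (he : pd Q = pd Q') : g ∈ Q ↔ g ∈ Q' := by
  constructor
  · intro h1
    by_contra h2
    obtain ⟨-, -, -, h3, -⟩ := fix R B hg ht hs hgt hQ' hQ he.symm h2
    exact h3 h1
  · intro h1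
    by_contra h2
    obtain ⟨-, -, -, h3, -⟩ := fix R B hg hs ht hgs hQ hQ' he h2
    exact h3 h1

theorem pd_insert (R : Rig k V E D G) (B : PD k V E D pd) {g : α} (hg : g ∈ G) {s t : ι}
    (hs : s ∈ E) (ht : t ∈ E) (hgs : g ∈ D s) (hgt : g ∈ D t) {Q Q' : Finset α} (hQ : Q ⊆ D s)
    (hQ' : Q' ⊆ D t) (he : pd Q = pd Q') (hgQ : g ∉ Q) : pd (insert g Q) = pd (insert g Q') := by
  obtain ⟨θ, h1, h2, h3, -⟩ := fix R B hg hs ht hgs hQ hQ' he hgQ
  refine (B.eq s hs (insert g Q) (Finset.insert_subset hgs hQ) (insert g Q')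
    (Finset.insert_subset (R.sub t ht hgt) (hQ'.trans (R.sub t ht)))).mpr ⟨θ, ?_⟩
  have h4 := gi_insert h1 (g := g) (Finset.mem_sdiff.mpr ⟨R.sub s hs hgs, hgQ⟩)
  rwa [h2] at h4

theorem card_D (R : Rig k V E D G) {s t : ι} (hs : s ∈ E) (ht : t ∈ E) :
    (D s).card = (D t).card := by
  obtain ⟨θ, hθ⟩ := (R.emb s hs (D t) (R.sub t ht)).mpr ⟨t, ht, rfl⟩
  exact hθ.card (R.sub s hs) (R.sub t ht)

/-- a chain is extended by one deletion set comparable with all others -/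
theorem ks_insert [DecidableEq P] (R : Rig k V E D G) (B : PD k V E D pd) {s : ι} (hs : s ∈ E)
    {c : Finset P}
    (hne : c.Nonempty) (hch : IsChain (· ≤ ·) (c : Set P)) {φ : P → Finset α}
    (hφ : ∀ τ ∈ c, (φ τ).Nonempty ∧ φ τ ⊂ D s ∧ pd (φ τ) = τ)
    (hφ' : ∀ τ ∈ c, ∀ τ' ∈ c, τ ≤ τ' → φ τ' ⊆ φ τ) {x : P} {Q : Finset α} (hQ : Q.Nonempty)
    (hQD : Q ⊂ D s) (hQx : pd Q = x) (hcomp : ∀ τ ∈ c, φ τ ⊆ Q ∨ Q ⊆ φ τ) :
    insert x c ∈ Ks E D pd s := by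
  by_cases hx : x ∈ c
  · rw [Finset.insert_eq_of_mem hx]
    exact ⟨hs, hne, hch, φ, hφ, hφ'⟩
  have hQV : Q ⊆ V := hQD.1.trans (R.sub s hs)
  have hle : ∀ τ ∈ c, φ τ ⊆ Q → x ≤ τ := by
    intro τ hτ h
    have := B.anti (φ τ) Q h hQV
    rwa [hQx, (hφ τ hτ).2.2] at this
  have hge : ∀ τ ∈ c, Q ⊆ φ τ → τ ≤ x := by
    intro τ hτ h
    have := B.anti Q (φ τ) h ((hφ τ hτ).2.1.1.trans (R.sub s hs))
    rwa [hQx, (hφ τ hτ).2.2] at this
  have hne' : ∀ τ ∈ c, τ ≠ x := fun τ hτ e => hx (e ▸ hτ)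
  refine ⟨hs, Finset.insert_nonempty _ _, ?_, fun τ => if τ = x then Q else φ τ, ?_, ?_⟩
  · rw [Finset.coe_insert]
    refine hch.insert ?_
    intro τ hτ _
    rcases hcomp τ hτ with h | h
    · exact Or.inl (hle τ hτ h)
    · exact Or.inr (hge τ hτ h)
  · intro τ hτ
    rcases Finset.mem_insert.mp hτ with rfl | hτ
    · simp only [if_true]
      exact ⟨hQ, hQD, hQx⟩
    · simp only [if_neg (hne' τ hτ)]
      exact hφ τ hτ
  · intro τ hτ τ' hτ' hττ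
    rcases Finset.mem_insert.mp hτ with h1 | h1 <;> rcases Finset.mem_insert.mp hτ' with h2 | h2
    · rw [h1, h2]
    · rw [h1] at hττ ⊢
      simp only [if_true, if_neg (hne' τ' h2)]
      rcases hcomp τ' h2 with h | h
      · exact h
      · exact absurd (le_antisymm (hge τ' h2 h) hττ) (hne' τ' h2)
    · rw [h2] at hττ ⊢
      simp only [if_true, if_neg (hne' τ h1)]
      rcases hcomp τ h1 with h | h
      · exact absurd (le_antisymm hττ (hle τ h1 h)) (hne' τ h1)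
      · exact h
    · simp only [if_neg (hne' τ h1), if_neg (hne' τ' h2)]
      exact hφ' τ h1 τ' h2 hττ

end RigContr2

open RigContr2 in
theorem ks_contr_two (R : Rig k V E D G) (B : PD k V E D pd) {S : Finset ι}
    (hS : S ∈ nerveE E D) (h2 : 2 ≤ S.card) :
    ContractibleSpace (Rz {c | ∀ s ∈ S, c ∈ Ks E D pd s}) := by
  classical
  obtain ⟨hSne, hSE, hSq⟩ := hS
  obtain ⟨g, hgG, hgD, s1, hs1, t1, ht1, hloc⟩ := R.sep S hSE h2 hSq
  have hE : ∀ s ∈ S, s ∈ E := fun s hs => hSE hs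
  -- the bad vertices
  let V1 : Set P := {τ | (∀ s ∈ S, ({τ} : Finset P) ∈ Ks E D pd s) ∧
    ∃ s ∈ S, ∃ Q, Q ⊂ D s ∧ Q.Nonempty ∧ pd Q = τ ∧ g ∉ Q}
  have hV1 : ∀ τ, τ ∈ V1 → ∃ Q, (∃ s ∈ S, Q ⊂ D s ∧ Q.Nonempty ∧ pd Q = τ ∧ g ∉ Q) := by
    rintro τ ⟨-, s, hs, Q, hQ⟩
    exact ⟨Q, s, hs, hQ⟩
  choose! q hq using hV1
  -- a realisation of a bad vertex does not omit `g`
  have hbad : ∀ τ ∈ V1, ∀ s ∈ S, ∀ Q, Q ⊆ D s → pd Q = τ → g ∉ Q ∧
      pd (insert g Q) = pd (insert g (q τ)) := by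
    intro τ hτ s hs Q hQ hQτ
    obtain ⟨t, ht, h3, h4, h5, h6⟩ := hq τ hτ
    have h7 : g ∉ Q := fun h => h6 ((mem_iff R B hgG (hE s hs) (hE t ht) (hgD s hs) (hgD t ht) hQ
      h3.1 (hQτ.trans h5.symm)).mp h)
    exact ⟨h7, pd_insert R B hgG (hE s hs) (hE t ht) (hgD s hs) (hgD t ht) hQ h3.1
      (hQτ.trans h5.symm) h7⟩
  -- a vertex of `K` which is not bad has realisations omitting `g`
  have hgood : ∀ τ, (∀ s ∈ S, ({τ} : Finset P) ∈ Ks E D pd s) → τ ∉ V1 → ∀ s ∈ S, ∀ Q,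
      Q ⊂ D s → Q.Nonempty → pd Q = τ → g ∈ Q := by
    intro τ hτ hτ1 s hs Q hQ hQne hQτ
    by_contra hg
    exact hτ1 ⟨hτ, s, hs, Q, hQ, hQne, hQτ, hg⟩
  have hsub : ∀ c, (∀ s ∈ S, c ∈ Ks E D pd s) → ∀ τ ∈ c, ∀ s ∈ S, ({τ} : Finset P) ∈ Ks E D pd s := by
    intro c hc τ hτ s hs
    exact (ks_isCx s).down c (hc s hs) _ (Finset.singleton_subset_iff.mpr hτ)
      (Finset.singleton_nonempty τ)
  -- adding `g` does not give the whole of `D s`
  have hfull : ∀ τ ∈ V1, ∀ s ∈ S, ∀ Q, Q ⊂ D s → pd Q = τ → insert g Q ⊂ D s := by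
    intro τ hτ s hs Q hQ hQτ
    have hgQ := (hbad τ hτ s hs Q hQ.1 hQτ).1
    refine ⟨Finset.insert_subset (hgD s hs) hQ.1, fun hfull => hloc ?_⟩
    have hcard : (D s).card = Q.card + 1 := by
      rw [← Finset.card_insert_of_notMem hgQ]
      exact congrArg Finset.card (Finset.Subset.antisymm hfull
        (Finset.insert_subset (hgD s hs) hQ.1))
    obtain ⟨-, -, -, φ1, hφ1, -⟩ := hτ.1 s1 hs1
    obtain ⟨-, -, -, φ2, hφ2, -⟩ := hτ.1 t1 ht1
    obtain ⟨-, hQ1, hQ1τ⟩ := hφ1 τ (Finset.mem_singleton_self τ)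
    obtain ⟨-, hQ2, hQ2τ⟩ := hφ2 τ (Finset.mem_singleton_self τ)
    have hg1 := (hbad τ hτ s1 hs1 _ hQ1.1 hQ1τ).1
    have hg2 := (hbad τ hτ t1 ht1 _ hQ2.1 hQ2τ).1
    obtain ⟨θ, hθ, -, -, -⟩ := fix R B hgG (hE s hs) (hE t1 ht1) (hgD s hs) hQ.1 hQ2.1
      (hQτ.trans hQ2τ.symm) hgQ
    have hc2 : Q.card = (φ2 τ).card := hθ.card (hQ.1.trans (R.sub s (hE s hs)))
      (hQ2.1.trans (R.sub t1 (hE t1 ht1)))
    obtain ⟨-, -, -, -, t', ht', hQ2t', hgt', hl⟩ := fix R B hgG (hE s1 hs1) (hE t1 ht1)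
      (hgD s1 hs1) hQ1.1 hQ2.1 (hQ1τ.trans hQ2τ.symm) hg1
    have hct : (D t').card = (insert g (φ2 τ)).card := by
      rw [Finset.card_insert_of_notMem hg2, ← hc2, ← hcard]
      exact card_D R ht' (hE s hs)
    have hct1 : (D t1).card = (insert g (φ2 τ)).card := by
      rw [Finset.card_insert_of_notMem hg2, ← hc2, ← hcard]
      exact card_D R (hE t1 ht1) (hE s hs)
    have e1 : insert g (φ2 τ) = D t' :=
      Finset.eq_of_subset_of_card_le (Finset.insert_subset hgt' hQ2t') hct.le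
    have e2 : insert g (φ2 τ) = D t1 :=
      Finset.eq_of_subset_of_card_le (Finset.insert_subset (hgD t1 ht1) hQ2.1) hct1.le
    rw [← hl, ← e2, e1]
  have hsing : ∀ s ∈ S, ({g} : Finset α) ⊂ D s := by
    intro s hs
    refine ⟨Finset.singleton_subset_iff.mpr (hgD s hs), fun h => ?_⟩
    obtain ⟨p, hp, q', hq', htw, -⟩ := R.twin s (hE s hs)
    have h3 := Finset.mem_singleton.mp (h hp)
    have h4 := Finset.mem_singleton.mp (h hq')
    exact htw.ne (h3.trans h4.symm)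
  obtain ⟨s0, hs0⟩ := hSne
  have hKcx : IsCx {c | ∀ s ∈ S, c ∈ Ks E D pd s} :=
    ⟨fun c hc => (ks_isCx s0).ne c (hc s0 hs0),
      fun c hc t ht htn s hs => (ks_isCx s).down c (hc s hs) t ht htn⟩
  have hfin : {c | ∀ s ∈ S, c ∈ Ks E D pd s}.Finite :=
    (ks_finite R B s0).subset fun c hc => hc s0 hs0
  refine contr_crit hKcx hfin V1 (fun τ => pd (insert g (q τ))) (pd {g}) ?_ ?_ ?_ ?_ ?_
  · -- `f v` is not bad
    intro τ hτ hf
    obtain ⟨t, ht, h3, -, h5, h6⟩ := hq τ hτ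
    obtain ⟨s', hs', h7, -, h9, h10⟩ := hq _ hf
    exact h10 ((mem_iff R B hgG (hE t ht) (hE s' hs') (hgD t ht) (hgD s' hs')
      (Finset.insert_subset (hgD t ht) h3.1) h7.1 h9.symm).mp (Finset.mem_insert_self _ _))
  · -- domination
    intro c hc τ hτc hτ hmin s hs
    obtain ⟨-, hne, hch, φ, hφ, hφ'⟩ := hc s hs
    obtain ⟨h3, h4, h5⟩ := hφ τ hτc
    have h6 := hbad τ hτ s hs _ h4.1 h5
    refine ks_insert R B (hE s hs) hne hch hφ hφ' (Finset.insert_nonempty g (φ τ))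
      (hfull τ hτ s hs _ h4 h5) h6.2 ?_
    intro τ' hτ'
    rcases eq_or_ne τ τ' with e | hne'
    · left
      rw [← e]
      exact Finset.subset_insert _ _
    rcases hch hτc hτ' hne' with h7 | h7
    · left
      exact (hφ' τ hτc τ' hτ' h7).trans (Finset.subset_insert _ _)
    · right
      have h8 : τ' < τ := lt_of_le_of_ne h7 hne'.symm
      have h9 : τ' ∉ V1 := fun h => hmin τ' hτ' h h8
      refine Finset.insert_subset ?_ (hφ' τ' hτ' τ hτc h7)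
      exact hgood τ' (hsub c hc τ' hτ') h9 s hs _ (hφ τ' hτ').2.1 (hφ τ' hτ').1 (hφ τ' hτ').2.2
  · -- the apex is not bad
    intro ha
    obtain ⟨s', hs', h7, -, h9, h10⟩ := hq _ ha
    exact h10 ((mem_iff R B hgG (hE s0 hs0) (hE s' hs') (hgD s0 hs0) (hgD s' hs')
      (hsing s0 hs0).1 h7.1 h9.symm).mp (Finset.mem_singleton_self g))
  · intro s hs
    refine ⟨hE s hs, Finset.singleton_nonempty _, ?_, fun _ => {g}, ?_, ?_⟩
    · rw [Finset.coe_singleton]; exact IsChain.singleton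
    · intro τ hτ
      rw [Finset.mem_singleton] at hτ
      exact ⟨Finset.singleton_nonempty g, hsing s hs, hτ.symm⟩
    · intro _ _ _ _ _
      exact Finset.Subset.refl _
  · intro c hc hcV s hs
    obtain ⟨-, hne, hch, φ, hφ, hφ'⟩ := hc s hs
    refine ks_insert R B (hE s hs) hne hch hφ hφ' (Finset.singleton_nonempty g)
      (hsing s hs) rfl ?_
    intro τ hτ
    right
    rw [Finset.singleton_subset_iff]
    exact hgood τ (hsub c hc τ hτ) (hcV τ hτ) s hs _ (hφ τ hτ).2.1 (hφ τ hτ).1 (hφ τ hτ).2.2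

end PPI
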