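import Mathlib
import Pool.Agent.PPI.Rig

/-!
# The order complex of the interval is covered by the complexes `Ks`
-/

namespace PPI

open CT

variable {α ι P : Type} [DecidableEq α] [PartialOrder P] {k : Keys α} {V : Finset α}
  {E : Finset ι} {D : ι → Finset α} {G : Set α} {pd : Finset α → P}

private theorem Cover_real (B : PD k V E D pd) {s₀ : ι} (hs₀ : s₀ ∈ E) :
    ∀ (n : ℕ) (c : Finset P), c.card = n → IsChain (· ≤ ·) (c : Set P) →
      ∀ Q₀ : Finset α, Q₀ ⊆ V → (∀ τ ∈ c, pd (D s₀) ≤ τ ∧ τ ≤ pd Q₀) →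
      ∃ φ : P → Finset α, (∀ τ ∈ c, Q₀ ⊆ φ τ ∧ φ τ ⊆ V ∧ pd (φ τ) = τ) ∧
        ∀ τ ∈ c, ∀ τ' ∈ c, τ ≤ τ' → φ τ' ⊆ φ τ := by
  classical
  intro n
  induction n with
  | zero =>
    intro c hc _ Q₀ _ _
    rw [Finset.card_eq_zero] at hc
    subst hc
    exact ⟨fun _ => ∅, by simp, by simp⟩
  | succ n ih =>
    intro c hc hch Q₀ hQ₀ hτ
    have hne : c.Nonempty := by
      rw [← Finset.card_pos]; omega
    obtain ⟨m, hm⟩ := Finset.exists_maximal hne
    have hmax : ∀ τ ∈ c, τ ≤ m := by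
      intro τ hτc
      rcases eq_or_ne τ m with h | h
      · exact h.le
      · rcases hch hτc hm.1 h with h1 | h1
        · exact h1
        · exact hm.2 hτc h1
    obtain ⟨Q₁, h01, hQ₁, hpd⟩ := B.ex s₀ hs₀ Q₀ hQ₀ m (hτ m hm.1).1 (hτ m hm.1).2
    have hcard : (c.erase m).card = n := by
      rw [Finset.card_erase_of_mem hm.1, hc]; rfl
    obtain ⟨φ, h1, h2⟩ := ih (c.erase m) hcard
      (hch.mono (by intro x hx; exact Finset.mem_of_mem_erase hx)) Q₁ hQ₁ (by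
        intro τ hτ'
        have h3 := Finset.mem_of_mem_erase hτ'
        exact ⟨(hτ τ h3).1, by rw [hpd]; exact hmax τ h3⟩)
    refine ⟨Function.update φ m Q₁, ?_, ?_⟩
    · intro τ hτc
      by_cases h : τ = m
      · subst h
        rw [Function.update_self]
        exact ⟨h01, hQ₁, hpd⟩
      · rw [Function.update_of_ne h]
        obtain ⟨h3, h4, h5⟩ := h1 τ (Finset.mem_erase.mpr ⟨h, hτc⟩)
        exact ⟨h01.trans h3, h4, h5⟩
    · intro τ hτc τ' hτc' hle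
      by_cases h : τ = m
      · have h' : τ' = m := le_antisymm (hmax τ' hτc') (h ▸ hle)
        rw [h, h']
      · by_cases h' : τ' = m
        · rw [h', Function.update_self, Function.update_of_ne h]
          exact (h1 τ (Finset.mem_erase.mpr ⟨h, hτc⟩)).1
        · rw [Function.update_of_ne h, Function.update_of_ne h']
          exact h2 τ (Finset.mem_erase.mpr ⟨h, hτc⟩) τ' (Finset.mem_erase.mpr ⟨h', hτc'⟩) hle

private theorem Cover_pd (R : Rig k V E D G) (B : PD k V E D pd) {s t : ι} (hs : s ∈ E)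
    (ht : t ∈ E) : pd (D s) = pd (D t) :=
  (B.eq s hs (D s) (Finset.Subset.refl _) (D t) (R.sub t ht)).mpr
    ((R.emb s hs (D t) (R.sub t ht)).mpr ⟨t, ht, rfl⟩)

theorem ks_cover (R : Rig k V E D G) (B : PD k V E D pd) {s₀ : ι} (hs₀ : s₀ ∈ E)
    (c : Finset P) :
    c ∈ OC (Set.Ioo (pd (D s₀)) (pd ∅)) ↔ ∃ s ∈ E, c ∈ Ks E D pd s := by
  classical
  constructor
  · rintro ⟨hne, hsub, hch⟩
    obtain ⟨φ, h1, h2⟩ := Cover_real B hs₀ c.card c rfl hch ∅ (Finset.empty_subset _)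
      (fun τ hτ => ⟨(hsub hτ).1.le, (hsub hτ).2.le⟩)
    obtain ⟨m, hm⟩ := Finset.exists_minimal hne
    have hmin : ∀ τ ∈ c, m ≤ τ := by
      intro τ hτc
      rcases eq_or_ne τ m with h | h
      · exact h.ge
      · rcases hch hτc hm.1 h with h1 | h1
        · exact hm.2 hτc h1
        · exact h1
    obtain ⟨-, hmV, hmpd⟩ := h1 m hm.1
    obtain ⟨t, ht, hmt⟩ := PD.sub R B hs₀ hmV (by rw [hmpd]; exact (hsub hm.1).1.le)
    refine ⟨t, ht, ht, hne, hch, φ, fun τ hτ => ?_, h2⟩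
    obtain ⟨-, hτV, hτpd⟩ := h1 τ hτ
    have hτt : φ τ ⊆ D t := (h2 m hm.1 τ hτ (hmin τ hτ)).trans hmt
    refine ⟨?_, ?_, hτpd⟩
    · rw [Finset.nonempty_iff_ne_empty]
      intro h0
      have h3 := (hsub hτ).2
      rw [← hτpd, h0] at h3
      exact lt_irrefl _ h3
    · rw [Finset.ssubset_iff_subset_ne]
      refine ⟨hτt, fun h0 => ?_⟩
      have h3 := (hsub hτ).1
      rw [← hτpd, h0, Cover_pd R B hs₀ ht] at h3
      exact lt_irrefl _ h3
  · rintro ⟨s, hs, -, hne, hch, φ, h1, -⟩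
    refine ⟨hne, fun τ hτ => ?_, hch⟩
    obtain ⟨h3, h4, h5⟩ := h1 τ hτ
    rw [Cover_pd R B hs₀ hs, ← h5]
    exact ⟨PD.strict R B hs h4 (Finset.Subset.refl _),
      PD.strict R B hs (Finset.empty_ssubset.mpr h3) h4.1⟩

end PPI
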