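import Mathlib
import Pool.Agent.PPI.Rig

/-!
# A common chain forces a common point
-/

namespace PPI

open CT

variable {α ι P : Type} [DecidableEq α] [PartialOrder P] {k : Keys α} {V : Finset α}
  {E : Finset ι} {D : ι → Finset α} {G : Set α} {pd : Finset α → P}

/-- nonempty subsets of the `D s` (`s ∈ S`), different from `D s`, with isomorphic
complements: the states of `S` have a common point -/
theorem common_point (R : Rig k V E D G) {S : Finset ι} (hS : S ⊆ E) (hne : S.Nonempty)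
    (Q : ι → Finset α) (hQ : ∀ s ∈ S, (Q s).Nonempty ∧ Q s ⊂ D s)
    (hiso : ∀ s ∈ S, ∀ t ∈ S, ∃ θ, GI k V (Q s) (Q t) θ) : ∃ q, ∀ s ∈ S, q ∈ D s := by
  classical
  have : Nonempty (α → α) := ⟨id⟩
  have : Nonempty ι := ⟨hne.choose⟩
  choose! θ hθ using hiso
  have htr : ∀ s ∈ S, ∀ t ∈ S, ∃ u ∈ E, Q t ⊆ D u ∧
      (∀ a ∈ V \ Q s, a ∈ D s ↔ θ s t a ∈ D u) ∧
      ∀ p ∈ D s, p ∉ Q s → θ s t p ∈ D u ∧ θ s t p ∉ Q t ∧
        loc k V (D u) (θ s t p) = loc k V (D s) p := fun s hs t ht =>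
    R.transport (hS hs) (hQ s hs).2.subset
      ((hQ t ht).2.subset.trans (R.sub t (hS ht))) (hθ s hs t ht)
  choose! β hβE hβQ hβ hβl using htr
  by_cases hc : ∀ s ∈ S, ∀ t ∈ S, β s t = s
  · obtain ⟨t0, ht0⟩ := hne
    obtain ⟨q, hq⟩ := (hQ t0 ht0).1
    refine ⟨q, fun s hs => ?_⟩
    have := hβQ s hs t0 ht0 hq
    rwa [hc s hs t0 ht0] at this
  · push Not at hc
    obtain ⟨s, hs, t1, ht1, hne1⟩ := hc
    set U : Finset ι := insert s (S.image (β s)) with hU
    have hUE : U ⊆ E := by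
      intro u hu
      rw [hU, Finset.mem_insert, Finset.mem_image] at hu
      rcases hu with rfl | ⟨t, ht, rfl⟩
      · exact hS hs
      · exact hβE s hs t ht
    have hcard : 2 ≤ U.card := by
      have h1 : ({s, β s t1} : Finset ι) ⊆ U := by
        intro u hu
        rw [Finset.mem_insert, Finset.mem_singleton] at hu
        rw [hU, Finset.mem_insert, Finset.mem_image]
        rcases hu with rfl | rfl
        · exact Or.inl rfl
        · exact Or.inr ⟨t1, ht1, rfl⟩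
      have h2 : ({s, β s t1} : Finset ι).card = 2 := Finset.card_pair (Ne.symm hne1)
      rw [← h2]
      exact Finset.card_le_card h1
    obtain ⟨p, hpD, hpQ⟩ := Finset.exists_of_ssubset (hQ s hs).2
    obtain ⟨q, hq⟩ := R.box s (hS hs) p hpD
    have hcom : ∃ q, ∀ u ∈ U, q ∈ D u := by
      refine ⟨q, fun u hu => hq u (hUE hu) ?_⟩
      rw [hU, Finset.mem_insert, Finset.mem_image] at hu
      rcases hu with rfl | ⟨t, ht, rfl⟩
      · exact ⟨p, hpD, rfl⟩
      · have := hβl s hs t ht p hpD hpQ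
        exact ⟨θ s t p, this.1, this.2.2⟩
    obtain ⟨g, hg, hgU, u, hu, v, hv, huv⟩ := R.sep U hUE hcard hcom
    refine ⟨g, fun t0 ht0 => (hQ t0 ht0).2.subset ?_⟩
    by_contra hgt
    have hsU : ∀ t ∈ S, β s t ∈ U := fun t ht => by
      rw [hU, Finset.mem_insert, Finset.mem_image]
      exact Or.inr ⟨t, ht, rfl⟩
    have hgV : g ∈ V \ Q t0 :=
      Finset.mem_sdiff.2 ⟨R.sub _ (hβE s hs t0 ht0) (hgU _ (hsU t0 ht0)), hgt⟩
    obtain ⟨p', hp', hp'g⟩ := (hθ s hs t0 ht0).bij.surjOn (Finset.mem_coe.2 hgV)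
    have hp'V : p' ∈ V \ Q s := Finset.mem_coe.1 hp'
    have hp'D : p' ∈ D s := by
      rw [hβ s hs t0 ht0 p' hp'V, hp'g]
      exact hgU _ (hsU t0 ht0)
    have hp'Q : p' ∉ Q s := (Finset.mem_sdiff.1 hp'V).2
    have hl := (hβl s hs t0 ht0 p' hp'D hp'Q).2.2
    rw [hp'g] at hl
    have hpg : p' = g := R.good g hg (β s t0) (hβE s hs t0 ht0) (hgU _ (hsU t0 ht0)) s
      (hS hs) p' hp'D hl.symm
    subst hpg
    have key : ∀ u ∈ U, loc k V (D u) p' = loc k V (D s) p' := by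
      intro u hu
      rw [hU, Finset.mem_insert, Finset.mem_image] at hu
      rcases hu with rfl | ⟨t, ht, rfl⟩
      · rfl
      · have h3 := hβl s hs t ht p' hp'D hp'Q
        have h4 : θ s t p' = p' := R.good p' hg s (hS hs) hp'D (β s t) (hβE s hs t ht) _
          h3.1 h3.2.2
        have h5 := h3.2.2
        rwa [h4] at h5
    exact huv ((key u hu).trans (key v hv).symm)

theorem ks_nerve (R : Rig k V E D G) (B : PD k V E D pd) (S : Finset ι) (hne : S.Nonempty) :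
    (∃ c, ∀ s ∈ S, c ∈ Ks E D pd s) ↔ S ∈ nerveE E D := by
  classical
  constructor
  · rintro ⟨c, hc⟩
    have hSE : S ⊆ E := fun s hs => (hc s hs).1
    refine ⟨hne, hSE, ?_⟩
    obtain ⟨s0, hs0⟩ := hne
    obtain ⟨τ, hτ⟩ := (hc s0 hs0).2.1
    have hex : ∀ s ∈ S, ∃ Q : Finset α, Q.Nonempty ∧ Q ⊂ D s ∧ pd Q = τ := by
      intro s hs
      obtain ⟨φ, hφ, -⟩ := (hc s hs).2.2.2
      exact ⟨φ τ, hφ τ hτ⟩
    choose! Q hQ using hex
    refine common_point R hSE ⟨s0, hs0⟩ Q (fun s hs => ⟨(hQ s hs).1, (hQ s hs).2.1⟩) ?_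
    intro s hs t ht
    exact (B.eq s (hSE hs) (Q s) (hQ s hs).2.1.subset (Q t)
      ((hQ t ht).2.1.subset.trans (R.sub t (hSE ht)))).1
      ((hQ s hs).2.2.trans (hQ t ht).2.2.symm)
  · rintro ⟨-, hSE, q, hq⟩
    refine ⟨{pd {q}}, fun s hs => ⟨hSE hs, Finset.singleton_nonempty _, ?_, ?_⟩⟩
    · rw [Finset.coe_singleton]
      exact Set.subsingleton_singleton.isChain
    · refine ⟨fun _ => {q}, ?_, ?_⟩
      · intro τ hτ
        rw [Finset.mem_singleton] at hτ
        subst hτ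
        refine ⟨Finset.singleton_nonempty _, ?_, rfl⟩
        obtain ⟨a, ha, b, hb, ht, -⟩ := R.twin s (hSE hs)
        rw [Finset.ssubset_iff_of_subset (Finset.singleton_subset_iff.2 (hq s hs))]
        by_cases haq : a = q
        · refine ⟨b, hb, ?_⟩
          rw [Finset.mem_singleton]
          rintro rfl
          exact ht.ne haq
        · exact ⟨a, ha, by rwa [Finset.mem_singleton]⟩
      · intro τ _ τ' _ _
        exact subset_rfl

end PPI
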