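import Mathlib
import Pool.Agent.PPI.RigCover
import Pool.Agent.PPI.RigNerve
import Pool.Agent.PPI.RigContr1
import Pool.Agent.PPI.RigContr2

/-!
# The nerve theorem for intervals
-/

namespace PPI

open CT
open scoped ContinuousMap

variable {α ι P : Type} [DecidableEq α] [PartialOrder P] {k : Keys α} {V : Finset α}
  {E : Finset ι} {D : ι → Finset α} {G : Set α} {pd : Finset α → P}

theorem nerveE_finite : (nerveE E D).Finite := by
  refine (Finset.finite_toSet E.powerset).subset ?_
  rintro S ⟨-, h, -⟩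
  simpa using h

/-- **the nerve theorem for intervals** -/
theorem rig_equiv (R : Rig k V E D G) (B : PD k V E D pd) {s₀ : ι} (hs₀ : s₀ ∈ E) :
    Nonempty (Rz (OC (Set.Ioo (pd (D s₀)) (pd ∅))) ≃ₕ Rz (nerveE E D)) := by
  classical
  have hfin : (OC (Set.Ioo (pd (D s₀)) (pd ∅))).Finite := by
    refine ((PD.finite R B hs₀).toFinset.powerset.finite_toSet).subset ?_
    rintro c ⟨-, h, -⟩
    simp only [Finset.coe_powerset, Set.mem_preimage, Set.Finite.coe_toFinset,
      Set.mem_powerset_iff]
    exact h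
  refine nerve_cover' (OC_isCx _) hfin E (Ks E D pd) (fun s => ks_isCx s)
    (fun s ⟨c, hc⟩ => hc.1) (ks_cover R B hs₀) nerveE_isCx nerveE_finite
    (fun S hne => ks_nerve R B S hne) ?_
  intro S hS
  rcases Nat.lt_or_ge S.card 2 with h | h
  · obtain ⟨s, rfl⟩ : ∃ s, S = {s} :=
      Finset.card_eq_one.1 (le_antisymm (by omega) hS.1.card_pos)
    have h1 : {c | ∀ t ∈ ({s} : Finset ι), c ∈ Ks E D pd t} = Ks E D pd s := by
      ext c; simp
    rw [h1]
    exact ks_contr_one R B (hS.2.1 (Finset.mem_singleton_self s))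
  · exact ks_contr_two R B hS h

end PPI
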