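import Mathlib
import Pool.Agent.PPI.NetEmb
import Pool.Agent.PPI.NetLoc
import Pool.Agent.PPI.RigMain

/-!
# The network theorem
-/

namespace PPI

open CT
open scoped ContinuousMap

variable {H ι : Type} [DecidableEq H] {n : Net H} {E : Finset ι} {D : ι → H → Finset ℕ}
  {r : H → ℕ}

private theorem NMain_mem (ok : NetOK n E D r) {Ds : H → Finset ℕ} {a : Pt H}
    (ha : a ∈ DP n Ds) : (hubOf a).1 ∈ n.hubs ∧ (hubOf a).2 ∈ Ds (hubOf a).1 := by
  unfold DP at ha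
  rw [Finset.mem_filter] at ha
  rcases a with ⟨h, a, p⟩ | ⟨k, h, b, p⟩
  · have h1 := (mem_V_mn (n := n) (h := h) (a := a) (p := p)).mp ha.1
    exact ⟨h1.1, by simpa [Om, hubOf] using ha.2⟩
  · have h1 := (mem_V_lk (n := n) (k := k) (e := (h, b, p))).mp ha.1
    have h2 : n.cols.getD k [] ∈ n.cols := by
      rw [List.getD_eq_getElem _ _ h1.1]
      exact List.getElem_mem h1.1
    exact ⟨(ok.ce _ h2 _ h1.2).1, by simpa [Om, hubOf] using ha.2⟩

private theorem NMain_mn (ok : NetOK n E D r) {s : ι} (hs : s ∈ E) {h : H} (hh : h ∈ n.hubs)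
    {p a : ℕ} (ha : a < 5) (hp : p ∈ D s h) : mn h a p ∈ DP n (D s) := by
  unfold DP
  rw [Finset.mem_filter]
  refine ⟨mem_V_mn.mpr ⟨hh, ha, ok.Dsub s hs h hh p hp⟩, ?_⟩
  simpa [Om] using hp

/-- the gridded set of a network satisfies the hypotheses of the nerve theorem -/
theorem net_rig (ok : NetOK n E D r) :
    Rig n.pk n.V E (fun s => DP n (D s)) {a | ∃ k e, a = lk k e ∧ r e.1 = 1} where
  inj := pk_inj ok
  sub := fun s _ => Finset.filter_subset _ _
  emb := fun s hs Q hQ => net_emb ok hs Q hQ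
  good := by
    rintro g ⟨k, e, rfl, hr⟩ s hs hg t ht q hq hloc
    exact loc_good ok hs ht hr hg hq hloc
  box := by
    intro s hs p hp
    obtain ⟨h1, h2⟩ := NMain_mem ok hp
    obtain ⟨h', hh', p', hbox⟩ := ok.box _ h1 s hs _ h2
    refine ⟨mn h' 0 p', fun t ht ⟨q, hq, hloc⟩ => ?_⟩
    refine NMain_mn ok ht hh' (by norm_num) (hbox t ht ?_)
    obtain ⟨h3, h4⟩ := loc_gap ok ht hs hq hp hloc
    obtain ⟨h5, h6⟩ := NMain_mem ok hq
    rw [h3] at h4 h6
    exact ⟨_, h6, h4⟩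
  sep := by
    rintro S hS h2 ⟨q, hq⟩
    have hne : S.Nonempty := by
      rw [← Finset.card_pos]; omega
    obtain ⟨s₁, hs₁⟩ := hne
    obtain ⟨c, hc, e, he, hr, hall, s, hs, t, ht, hst⟩ := ok.sep S hS h2
      ⟨(hubOf q).1, (NMain_mem ok (hq s₁ hs₁)).1, (hubOf q).2,
        fun s hs => (NMain_mem ok (hq s hs)).2⟩
    obtain ⟨k, hk, rfl⟩ := List.getElem_of_mem hc
    have hg : n.cols.getD k [] = n.cols[k] := List.getD_eq_getElem _ _ hk
    refine ⟨lk k e, ⟨k, e, rfl, hr⟩, fun s hs => ?_, s, hs, t, ht, ?_⟩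
    · unfold DP
      rw [Finset.mem_filter]
      refine ⟨mem_V_lk.mpr ⟨hk, by rw [hg]; exact he⟩, ?_⟩
      simpa [Om] using hall s hs
    · refine loc_sep ok (hS hs) (hS ht) hk (by rw [hg]; exact he) ?_
      rw [hg]
      exact hst
  twin := by
    intro s hs
    obtain ⟨h, hh, hr⟩ := ok.one
    have hcard := ok.Dcard s hs h hh
    rw [hr, Finset.card_eq_one] at hcard
    obtain ⟨p, hp⟩ := hcard
    have hpm : p ∈ D s h := by rw [hp]; exact Finset.mem_singleton_self _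
    have h0 := NMain_mn ok hs hh (a := 0) (by norm_num) hpm
    refine ⟨mn h 0 p, h0, mn h 1 p, NMain_mn ok hs hh (by norm_num) hpm,
      mn_twin ok hh (ok.Dsub s hs h hh p hpm), fun t ht p' hp' hloc => ?_⟩
    exact loc_twin ok hs ht hr h0 hp' hloc

theorem netNerve_eq (ok : NetOK n E D r) :
    nerveE E (fun s => DP n (D s)) = netNerve n E D := by
  ext S
  constructor
  · rintro ⟨hne, hS, q, hq⟩
    obtain ⟨s₁, hs₁⟩ := hne
    exact ⟨⟨s₁, hs₁⟩, hS, (hubOf q).1, (NMain_mem ok (hq s₁ hs₁)).1, (hubOf q).2,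
      fun s hs => (NMain_mem ok (hq s hs)).2⟩
  · rintro ⟨hne, hS, h, hh, p, hp⟩
    exact ⟨hne, hS, mn h 0 p, fun s hs => NMain_mn ok (hS hs) hh (by norm_num) (hp s hs)⟩

/-- **the network theorem** -/
theorem net_equiv {P : Type} [PartialOrder P] {pd : Finset (Pt H) → P} (ok : NetOK n E D r)
    (B : PD n.pk n.V E (fun s => DP n (D s)) pd) {s : ι} (hs : s ∈ E) :
    Nonempty (Rz (OC (Set.Ioo (pd (DP n (D s))) (pd ∅))) ≃ₕ Rz (netNerve n E D)) := by
  obtain ⟨e⟩ := rig_equiv (net_rig ok) B hs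
  rw [netNerve_eq ok] at e
  exact ⟨e⟩

end PPI
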