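import Mathlib
import Pool.Agent.PPI.Net

/-!
# Templates of gates

A template has finitely many local hubs, given by their words, and columns.  A word is a list
of letters, one for each point of the hub; a letter is the set of the classes which omit the
point, as a bit mask.
-/

namespace PPI

/-- templates -/
structure Tm where
  W : List (List ℕ)
  cols : List (List (Ent ℕ))

/-- the points omitted by the class `c` -/
def omW (w : List ℕ) (c : ℕ) : Finset ℕ :=
  (Finset.range w.length).filter fun p => (w.getD p 0).testBit c = true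

/-- the word of a local hub -/
def Tm.wd (τ : Tm) (j : ℕ) : List ℕ := τ.W.getD j []

/-- the omitted sets of the class `c` -/
def Tm.D (τ : Tm) (c : ℕ) : ℕ → Finset ℕ := fun j => omW (τ.wd j) c

/-- number of points and number of kept points of a local hub -/
def Tm.N (τ : Tm) (j : ℕ) : ℕ := (τ.wd j).length

/-- number of kept points of a local hub -/
def Tm.L (τ : Tm) (j : ℕ) : ℕ := (τ.wd j).length - (omW (τ.wd j) 0).card

/-- a family of increasing maps which respects all columns -/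
def Tm.Sol (τ : Tm) (y : ℕ → ℕ → ℕ) : Prop :=
  (∀ j < τ.W.length, Incr (τ.N j) (τ.L j) (y j)) ∧
    ∀ col ∈ τ.cols, Fits y (pat (τ.D 0) col) col

/-- the local hub `j` is in the position of the class `c` -/
def Tm.At (τ : Tm) (y : ℕ → ℕ → ℕ) (j c : ℕ) : Prop := ∀ l < τ.L j, y j l ∉ τ.D c j

/-- the template is well-formed for the classes `c < K`, all point labels and box labels are
contained in members of the list `faces` (bit masks) -/
structure Tm.OK (τ : Tm) (K : ℕ) (faces : List ℕ) : Prop where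
  card : ∀ j < τ.W.length, ∀ c < K, (τ.D c j).card = (τ.D 0 j).card
  lt : ∀ j < τ.W.length, (τ.D 0 j).card < τ.N j
  nd : ∀ col ∈ τ.cols, col.Nodup
  ent : ∀ col ∈ τ.cols, ∀ e ∈ col, e.1 < τ.W.length ∧ e.2.2 < τ.N e.1
  pc : ∀ col ∈ τ.cols, ∀ c < K, pat (τ.D c) col = pat (τ.D 0) col
  pne : ∀ col ∈ τ.cols, pat (τ.D 0) col ≠ []
  lab : ∀ j < τ.W.length, ∀ p < τ.N j, ∃ F ∈ faces, ∀ c < K, p ∈ τ.D c j → F.testBit c = true
  box : ∀ j < τ.W.length, ∀ c < K, ∀ p ∈ τ.D c j, ∃ F ∈ faces, ∀ c' < K,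
    (∃ q ∈ τ.D c' j, gap (τ.D c' j) q = gap (τ.D c j) p) → F.testBit c' = true

/-- the template forces all hubs to the class of the input hubs `j < I` -/
def Tm.Exact (τ : Tm) (K I : ℕ) : Prop :=
  ∀ c < K, ∀ y, τ.Sol y → (∀ j < I, τ.At y j c) → ∀ j < τ.W.length, τ.At y j c

/-- there is a column in which a point of a hub with `r = 1`, omitted by all the classes of
the mask `F`, has different numbers of kept entries before it in the classes `c`, `c'` -/
def Tm.SepAt (τ : Tm) (K F c c' : ℕ) : Prop :=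
  ∃ col ∈ τ.cols, ∃ e ∈ col, (τ.D 0 e.1).card = 1 ∧
    (∀ i < K, F.testBit i = true → e.2.2 ∈ τ.D i e.1) ∧
    cgap (τ.D c) col e ≠ cgap (τ.D c') col e

/-! ### the four gates: what is needed

Classes of the gate `S`: `0 = a`, `1 = A \ a`, `2 = x`, `3 = B`, where `{A, B}` are the sets of
the `y`-states and of the `z`-states, and `a ∈ A`. -/

/-- the end swap: local hub `0` is `(a | A \ a | x | B)`, local hub `1` is
`(A \ a | a | x | B)`; `{a} ∪ (A \ a)` and `{a, x}` are faces -/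
structure GateS (τ : Tm) : Prop where
  ok : τ.OK 4 [3, 5, 8]
  two : 2 ≤ τ.W.length
  w0 : τ.wd 0 = [1, 2, 4, 8]
  w1 : τ.wd 1 = [2, 1, 4, 8]
  ex : τ.Exact 4 1

/-- classes `0 = x`, `1 = y`, `2 = Y \ y`, `3 = z`, `4 = Z \ z`; faces `xyz`, `Y`, `Z`; inputs
`(y | Y \ y | x | Z)`, `(Y \ y | y | x | Z)`, `(z | Z \ z | x | Y)`, `(Z \ z | z | x | Y)`,
`(Y | x | Z)` -/
structure GateG (τ : Tm) : Prop where
  ok : τ.OK 5 [11, 6, 24]
  five : 5 ≤ τ.W.length
  w0 : τ.wd 0 = [2, 4, 1, 24]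
  w1 : τ.wd 1 = [4, 2, 1, 24]
  w2 : τ.wd 2 = [8, 16, 1, 6]
  w3 : τ.wd 3 = [16, 8, 1, 6]
  w4 : τ.wd 4 = [6, 1, 24]
  ex : τ.Exact 5 5
  sep : τ.SepAt 5 11 0 1

/-- classes `0 = Y`, `1 = x`, `2 = z`, `3 = w`, `4 = Z \ {z, w}`; faces `Yzw`, `xz`, `xw`, `Z`;
inputs `(z | Z \ z | x | Y)`, `(Z \ z | z | x | Y)`, the same for `w`, `(Y | x | Z)` -/
structure GateB (τ : Tm) : Prop where
  ok : τ.OK 5 [13, 6, 10, 28]
  five : 5 ≤ τ.W.length
  w0 : τ.wd 0 = [4, 24, 2, 1]
  w1 : τ.wd 1 = [24, 4, 2, 1]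
  w2 : τ.wd 2 = [8, 20, 2, 1]
  w3 : τ.wd 3 = [20, 8, 2, 1]
  w4 : τ.wd 4 = [1, 2, 28]
  ex : τ.Exact 5 5
  sep1 : τ.SepAt 5 13 0 2
  sep2 : τ.SepAt 5 13 0 3

/-- the same classes and inputs as for `GateB`; faces `xzw`, `Z`, `Y` -/
structure GateC (τ : Tm) : Prop where
  ok : τ.OK 5 [14, 28, 1]
  five : 5 ≤ τ.W.length
  w0 : τ.wd 0 = [4, 24, 2, 1]
  w1 : τ.wd 1 = [24, 4, 2, 1]
  w2 : τ.wd 2 = [8, 20, 2, 1]
  w3 : τ.wd 3 = [20, 8, 2, 1]
  w4 : τ.wd 4 = [1, 2, 28]
  ex : τ.Exact 5 5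
  sep1 : τ.SepAt 5 14 1 2
  sep2 : τ.SepAt 5 14 1 3

/-! ### the basic links -/

/-- `(A | x | B)` and `(a | A \ a | x | B)`; classes as for the gate `S` -/
def tmL : Tm where
  W := [[3, 4, 8], [1, 2, 4, 8]]
  cols := [[(1, false, 0), (0, false, 0), (1, false, 1), (0, false, 1), (1, false, 2),
      (0, false, 2), (1, false, 3)],
    [(1, false, 0), (1, false, 1), (0, false, 0), (1, false, 2), (0, false, 1), (1, false, 3),
      (0, false, 2)]]

/-- `(B | x | A)` and `(a | A \ a | x | B)` -/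
def tmL' : Tm where
  W := [[8, 4, 3], [1, 2, 4, 8]]
  cols := [[(1, false, 0), (0, false, 2), (1, false, 1), (0, false, 1), (1, false, 2),
      (0, false, 0), (1, false, 3)],
    [(1, false, 0), (1, false, 1), (0, false, 2), (1, false, 2), (0, false, 1), (1, false, 3),
      (0, false, 0)]]

/-- exclusion: `(a | A \ a | x | B)` and `(A \ a' | a' | x | B)` for `a ≠ a'`; classes
`0 = a`, `1 = a'`, `2 = A \ {a, a'}`, `3 = x`, `4 = B` -/
def tmX : Tm where
  W := [[1, 6, 8, 16], [5, 2, 8, 16]]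
  cols := [[(0, false, 0), (1, false, 0), (0, false, 1), (1, false, 1), (0, false, 2),
    (1, false, 2), (0, false, 3), (1, false, 3)]]

end PPI
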