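import Mathlib
import Pool.Agent.PPI.TmDef

/-!
# Kernel friendly checkers for templates
-/

namespace PPI

namespace TmCheck

/-- is the point `p` of the word `w` omitted by the class `c`? -/
def omB (w : List ℕ) (c p : ℕ) : Bool := (w.getD p 0).testBit c

/-- number of kept points before `p` -/
def gapB (w : List ℕ) (c p : ℕ) : ℕ := ((List.range p).filter fun q => !omB w c q).length

/-- number of omitted points -/
def numB (w : List ℕ) (c : ℕ) : ℕ := ((List.range w.length).filter (omB w c)).length

/-- the pattern of a column -/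
def patB (τ : Tm) (c : ℕ) (col : List (Ent ℕ)) : List (Ent ℕ) :=
  (col.filter fun e => !omB (τ.wd e.1) c e.2.2).map fun e =>
    (e.1, e.2.1, gapB (τ.wd e.1) c e.2.2)

/-- number of kept entries before an entry of a column -/
def cgapB (τ : Tm) (c : ℕ) (col : List (Ent ℕ)) (e : Ent ℕ) : ℕ :=
  ((col.takeWhile fun f => decide (f ≠ e)).filter fun f => !omB (τ.wd f.1) c f.2.2).length

theorem mem_omW {w : List ℕ} {c p : ℕ} : p ∈ omW w c ↔ omB w c p = true := by
  unfold omW omB
  rw [Finset.mem_filter, Finset.mem_range]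
  constructor
  · exact fun h => h.2
  · intro h
    refine ⟨?_, h⟩
    by_contra h'
    rw [List.getD_eq_default _ _ (by omega)] at h
    simp at h

theorem notMem_omW {w : List ℕ} {c p : ℕ} : p ∉ omW w c ↔ omB w c p = false := by
  rw [mem_omW]; simp

theorem keepE_eq (τ : Tm) (c : ℕ) (e : Ent ℕ) :
    keepE (τ.D c) e = !omB (τ.wd e.1) c e.2.2 := by
  unfold keepE Tm.D
  by_cases h : e.2.2 ∈ omW (τ.wd e.1) c
  · rw [mem_omW.1 h]; simp [h]
  · rw [notMem_omW.1 h]; simp [h]

theorem gapB_eq (w : List ℕ) (c p : ℕ) : gap (omW w c) p = gapB w c p := by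
  unfold gap gapB
  have h : (Finset.range p).filter (fun q => q ∉ omW w c) =
      ((List.range p).filter fun q => !omB w c q).toFinset := by
    ext q
    simp only [Finset.mem_filter, Finset.mem_range, notMem_omW, List.mem_toFinset,
      List.mem_filter, List.mem_range, Bool.not_eq_true']
  rw [h, List.toFinset_card_of_nodup (List.nodup_range.filter _)]

theorem numB_eq (w : List ℕ) (c : ℕ) : (omW w c).card = numB w c := by
  unfold numB
  have h : omW w c = ((List.range w.length).filter (omB w c)).toFinset := by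
    ext q
    rw [List.mem_toFinset, List.mem_filter, List.mem_range, omW, Finset.mem_filter,
      Finset.mem_range]
    rfl
  rw [h, List.toFinset_card_of_nodup (List.nodup_range.filter _)]

theorem patB_eq (τ : Tm) (c : ℕ) (col : List (Ent ℕ)) : pat (τ.D c) col = patB τ c col := by
  unfold pat patB
  have h : (keepE (τ.D c)) = fun e : Ent ℕ => !omB (τ.wd e.1) c e.2.2 :=
    funext fun e => keepE_eq τ c e
  rw [h]
  apply List.map_congr_left
  intro e _
  show (e.1, e.2.1, gap (omW (τ.wd e.1) c) e.2.2) = _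
  rw [gapB_eq]

theorem cgapB_eq (τ : Tm) (c : ℕ) (col : List (Ent ℕ)) (e : Ent ℕ) :
    cgap (τ.D c) col e = cgapB τ c col e := by
  unfold cgap cgapB
  have h : (keepE (τ.D c)) = fun e : Ent ℕ => !omB (τ.wd e.1) c e.2.2 :=
    funext fun e => keepE_eq τ c e
  rw [h]

/-! ### well-formedness -/

/-- `a → b` for Booleans -/
def impB (a b : Bool) : Bool := !a || b

theorem impB_iff {a b : Bool} : impB a b = true ↔ (a = true → b = true) := by
  cases a <;> cases b <;> simp [impB]

def wordOK (K : ℕ) (faces : List ℕ) (w : List ℕ) : Bool :=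
  (List.range K).all (fun c => Nat.beq (numB w c) (numB w 0)) &&
  Nat.ble (numB w 0 + 1) w.length &&
  w.all (fun m => faces.any fun F => (List.range K).all fun c =>
    impB (m.testBit c) (F.testBit c)) &&
  (List.range w.length).all (fun γ => faces.any fun F => (List.range K).all fun c =>
    impB ((List.range w.length).any fun q => omB w c q && Nat.beq (gapB w c q) γ)
      (F.testBit c))

def colOK (τ : Tm) (K : ℕ) (col : List (Ent ℕ)) : Bool :=
  decide col.Nodup &&
  col.all (fun e => Nat.ble (e.1 + 1) τ.W.length && Nat.ble (e.2.2 + 1) (τ.wd e.1).length) &&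
  (List.range K).all (fun c => decide (patB τ c col = patB τ 0 col)) &&
  !(patB τ 0 col).isEmpty

def okB (τ : Tm) (K : ℕ) (faces : List ℕ) : Bool :=
  τ.W.all (wordOK K faces) && τ.cols.all (colOK τ K)

theorem wd_mem {τ : Tm} {j : ℕ} (hj : j < τ.W.length) : τ.wd j ∈ τ.W := by
  unfold Tm.wd
  rw [List.getD_eq_getElem _ _ hj]
  exact List.getElem_mem hj

theorem ok_of_check {τ : Tm} {K : ℕ} {faces : List ℕ} (h : okB τ K faces = true) :
    τ.OK K faces := by
  unfold okB at h
  rw [Bool.and_eq_true, List.all_eq_true, List.all_eq_true] at h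
  obtain ⟨hw, hc⟩ := h
  have hw' : ∀ j < τ.W.length, _ := fun j hj => hw _ (wd_mem hj)
  have hcard : ∀ j < τ.W.length, ∀ c < K, numB (τ.wd j) c = numB (τ.wd j) 0 := by
    intro j hj c hc'
    have := hw' j hj
    simp only [wordOK, Bool.and_eq_true, List.all_eq_true, List.mem_range] at this
    exact Nat.eq_of_beq_eq_true (this.1.1.1 c hc')
  refine ⟨?_, ?_, ?_, ?_, ?_, ?_, ?_, ?_⟩
  · intro j hj c hc'
    show (omW _ _).card = (omW _ _).card
    rw [numB_eq, numB_eq, hcard j hj c hc']
  · intro j hj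
    have := hw' j hj
    simp only [wordOK, Bool.and_eq_true] at this
    have h1 := Nat.le_of_ble_eq_true this.1.1.2
    show (omW _ _).card < (τ.wd j).length
    rw [numB_eq]
    omega
  · intro col hcol
    have := hc col hcol
    simp only [colOK, Bool.and_eq_true, decide_eq_true_eq] at this
    exact this.1.1.1
  · intro col hcol e he
    have := hc col hcol
    simp only [colOK, Bool.and_eq_true, List.all_eq_true] at this
    have h1 := this.1.1.2 e he
    exact ⟨Nat.le_of_ble_eq_true h1.1, Nat.le_of_ble_eq_true h1.2⟩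
  · intro col hcol c hc'
    have := hc col hcol
    simp only [colOK, Bool.and_eq_true, List.all_eq_true, List.mem_range,
      decide_eq_true_eq] at this
    rw [patB_eq, patB_eq]
    exact this.1.2 c hc'
  · intro col hcol
    have := hc col hcol
    simp only [colOK, Bool.and_eq_true] at this
    rw [patB_eq]
    intro h0
    rw [h0] at this
    simp at this
  · intro j hj p hp
    have := hw' j hj
    simp only [wordOK, Bool.and_eq_true, List.all_eq_true, List.any_eq_true, List.mem_range,
      impB_iff] at this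
    have hp' : p < (τ.wd j).length := hp
    obtain ⟨F, hF, h1⟩ := this.1.2 ((τ.wd j).getD p 0)
      (by rw [List.getD_eq_getElem _ _ hp']; exact List.getElem_mem hp')
    refine ⟨F, hF, fun c hc' hpc => h1 c hc' ?_⟩
    exact mem_omW.1 hpc
  · intro j hj c hc' p hp
    have := hw' j hj
    simp only [wordOK, Bool.and_eq_true, List.all_eq_true, List.any_eq_true, List.mem_range,
      impB_iff] at this
    have hp' : p < (τ.wd j).length := by
      have h2 : p ∈ omW (τ.wd j) c := hp
      rw [omW, Finset.mem_filter, Finset.mem_range] at h2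
      exact h2.1
    have hg : gap (τ.D c j) p < (τ.wd j).length := by
      refine lt_of_le_of_lt ?_ hp'
      unfold gap
      exact (Finset.card_filter_le _ _).trans (by simp)
    obtain ⟨F, hF, h1⟩ := this.2 _ hg
    refine ⟨F, hF, fun c' hc'' hq => h1 c' hc'' ?_⟩
    obtain ⟨q, hq, hq'⟩ := hq
    have hq2 : q ∈ omW (τ.wd j) c' := hq
    refine ⟨q, ?_, mem_omW.1 hq2, ?_⟩
    · rw [omW, Finset.mem_filter, Finset.mem_range] at hq2
      exact hq2.1
    · rw [← hq']
      show Nat.beq (gapB (τ.wd j) c' q) (gap (omW (τ.wd j) c') q) = true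
      rw [gapB_eq]
      exact Nat.beq_refl _

/-! ### exactness -/

/-- the map given by two lists -/
def sol2 (a : ℕ) (la lb : List ℕ) (h l : ℕ) : ℕ :=
  bif Nat.beq h a then la.getD l 0 else lb.getD l 0

/-- greedy matching of the pattern in the column -/
def walk (g : ℕ → ℕ → ℕ) : List (Ent ℕ) → List (Ent ℕ) → Bool
  | _, [] => true
  | [], _ :: _ => false
  | f :: c, e :: p =>
    bif Nat.beq f.1 e.1 && (f.2.1 == e.2.1) && Nat.beq f.2.2 (g e.1 e.2.2) then walk g c p
    else walk g c (e :: p)

theorem walk_of_sublist (g : ℕ → ℕ → ℕ) : ∀ (c p : List (Ent ℕ)),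
    (p.map fun e => (e.1, e.2.1, g e.1 e.2.2)).Sublist c → walk g c p = true
  | _, [], _ => by simp [walk]
  | [], e :: p, h => by simp at h
  | f :: c, e :: p, h => by
    rw [walk]
    rw [List.map_cons] at h
    by_cases hf : f = (e.1, e.2.1, g e.1 e.2.2)
    · subst hf
      have h1 : (Nat.beq e.1 e.1 && (e.2.1 == e.2.1) &&
          Nat.beq (g e.1 e.2.2) (g e.1 e.2.2)) = true := by
        rw [Nat.beq_refl, Nat.beq_refl]; simp
      rw [h1, cond_true]
      exact walk_of_sublist g c p (List.cons_sublist_cons.1 h)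
    · have h1 : (Nat.beq f.1 e.1 && (f.2.1 == e.2.1) && Nat.beq f.2.2 (g e.1 e.2.2)) = false := by
        rw [← Bool.not_eq_true]
        intro h2
        rw [Bool.and_eq_true, Bool.and_eq_true] at h2
        apply hf
        have e1 := Nat.eq_of_beq_eq_true h2.1.1
        have e2 := eq_of_beq h2.1.2
        have e3 := Nat.eq_of_beq_eq_true h2.2
        rw [← e1, ← e2] at *
        exact Prod.ext rfl (Prod.ext rfl (by simpa [e1] using e3))
      rw [h1, cond_false]
      apply walk_of_sublist g c (e :: p)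
      rw [List.map_cons]
      cases h with
      | cons _ h => exact h
      | cons_cons _ h => exact absurd rfl hf

/-- number of kept points -/
def LB (τ : Tm) (j : ℕ) : ℕ := (τ.wd j).length - numB (τ.wd j) 0

/-- all increasing sequences of points of the hub `j` -/
def full (τ : Tm) (j : ℕ) : List (List ℕ) :=
  List.sublistsLen (LB τ j) (List.range (τ.wd j).length)

/-- does the sequence avoid the omitted points of the class? -/
def atB (τ : Tm) (c j : ℕ) (la : List ℕ) : Bool := la.all fun p => !omB (τ.wd j) c p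

/-- the initial domains -/
def initD (τ : Tm) (I c : ℕ) : List (List (List ℕ)) :=
  (List.range τ.W.length).map fun j =>
    bif Nat.ble (j + 1) I then (full τ j).filter (atB τ c j) else full τ j

/-- one revision: the column `s.1` with the hubs `s.2.1` (revised) and `s.2.2` -/
def stepD (τ : Tm) (pts : List (List (Ent ℕ))) (doms : List (List (List ℕ)))
    (s : ℕ × ℕ × ℕ) : List (List (List ℕ)) :=
  bif Nat.ble (s.1 + 1) τ.cols.length && Nat.ble (s.2.2 + 1) τ.W.length &&
      (pts.getD s.1 []).all (fun e => (Nat.beq e.1 s.2.1 || Nat.beq e.1 s.2.2) &&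
      Nat.ble (e.2.2 + 1) (LB τ e.1)) then
    doms.set s.2.1 ((doms.getD s.2.1 []).filter fun la =>
      bif Nat.beq s.2.1 s.2.2 then walk (sol2 s.2.1 la la) (τ.cols.getD s.1 []) (pts.getD s.1 [])
      else (doms.getD s.2.2 []).any fun lb =>
        walk (sol2 s.2.1 la lb) (τ.cols.getD s.1 []) (pts.getD s.1 []))
  else doms

/-- the final domains consist of sequences of the class -/
def finB (τ : Tm) (c : ℕ) (doms : List (List (List ℕ))) : Bool :=
  (List.range τ.W.length).all fun j => (doms.getD j []).all (atB τ c j)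

def exB (τ : Tm) (K I : ℕ) (pts : List (List (Ent ℕ))) (steps : List (List (ℕ × ℕ × ℕ))) :
    Bool :=
  decide (τ.cols.map (patB τ 0) = pts) &&
  (List.range K).all fun c => finB τ c ((steps.getD c []).foldl (stepD τ pts) (initD τ I c))

/-- the sequence of a solution -/
def seqY (τ : Tm) (y : ℕ → ℕ → ℕ) (j : ℕ) : List ℕ := (List.range (τ.L j)).map (y j)

theorem LB_eq (τ : Tm) (j : ℕ) : τ.L j = LB τ j := by
  unfold Tm.L LB
  rw [numB_eq]

theorem seqY_getD {τ : Tm} {y : ℕ → ℕ → ℕ} {j l : ℕ} (h : l < τ.L j) :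
    (seqY τ y j).getD l 0 = y j l := by
  unfold seqY
  rw [List.getD_eq_getElem _ _ (by simpa using h)]
  simp

theorem seqY_mem_full {τ : Tm} {y : ℕ → ℕ → ℕ} (hy : τ.Sol y) {j : ℕ} (hj : j < τ.W.length) :
    seqY τ y j ∈ full τ j := by
  obtain ⟨h1, h2⟩ := hy.1 j hj
  unfold full
  rw [List.mem_sublistsLen]
  refine ⟨?_, by simp [seqY, LB_eq]⟩
  have hs : (seqY τ y j).Pairwise (· < ·) := by
    unfold seqY
    rw [List.pairwise_map]
    have h3 : (List.range (τ.L j)).Pairwise (fun a b => a < b ∧ b < τ.L j) := by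
      have := List.pairwise_lt_range (n := τ.L j)
      exact this.imp_of_mem (fun _ hb hab => ⟨hab, List.mem_range.1 hb⟩)
    exact h3.imp (fun h => h2 _ _ h.1 h.2)
  have hsub : seqY τ y j ⊆ List.range (τ.wd j).length := by
    intro p hp
    unfold seqY at hp
    rw [List.mem_map] at hp
    obtain ⟨l, hl, rfl⟩ := hp
    exact List.mem_range.2 (h1 l (List.mem_range.1 hl))
  have hsp : (seqY τ y j).Subperm (List.range (τ.wd j).length) :=
    List.subperm_of_subset (hs.imp (fun h => h.ne)) hsub
  exact List.sublist_of_subperm_of_pairwise hsp (hs.imp fun h => h.le)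
    (List.pairwise_lt_range.imp fun h => h.le)

theorem atB_iff {τ : Tm} {y : ℕ → ℕ → ℕ} {c j : ℕ} :
    atB τ c j (seqY τ y j) = true ↔ τ.At y j c := by
  unfold atB seqY Tm.At
  simp only [List.all_eq_true, List.mem_map, List.mem_range, Bool.not_eq_true',
    forall_exists_index, and_imp, forall_apply_eq_imp_iff₂]
  constructor
  · intro h l hl
    exact notMem_omW.2 (h l hl)
  · intro h l hl
    exact notMem_omW.1 (h l hl)

theorem walk_sol {τ : Tm} {y : ℕ → ℕ → ℕ} (hy : τ.Sol y) {col : List (Ent ℕ)}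
    (hcol : col ∈ τ.cols) {a b : ℕ}
    (h : ∀ e ∈ patB τ 0 col, (e.1 = a ∨ e.1 = b) ∧ e.2.2 < τ.L e.1) :
    walk (sol2 a (seqY τ y a) (seqY τ y b)) col (patB τ 0 col) = true := by
  apply walk_of_sublist
  have h1 := hy.2 col hcol
  unfold Fits at h1
  rw [patB_eq] at h1
  have h2 : (patB τ 0 col).map (fun e => (e.1, e.2.1,
      sol2 a (seqY τ y a) (seqY τ y b) e.1 e.2.2)) =
      (patB τ 0 col).map (fun e => (e.1, e.2.1, y e.1 e.2.2)) := by
    apply List.map_congr_left
    intro e he
    obtain ⟨h3, h4⟩ := h e he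
    have h5 : sol2 a (seqY τ y a) (seqY τ y b) e.1 e.2.2 = y e.1 e.2.2 := by
      unfold sol2
      by_cases hea : e.1 = a
      · subst hea
        rw [Nat.beq_refl, cond_true, seqY_getD h4]
      · have h6 : Nat.beq e.1 a = false := by
          rw [← Bool.not_eq_true]
          exact fun h7 => hea (Nat.eq_of_beq_eq_true h7)
        rw [h6, cond_false]
        have h7 : e.1 = b := h3.resolve_left hea
        subst h7
        rw [seqY_getD h4]
    rw [h5]
  rw [h2]
  exact h1

/-- the invariant of the revisions -/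
def Inv (τ : Tm) (y : ℕ → ℕ → ℕ) (doms : List (List (List ℕ))) : Prop :=
  ∀ j < τ.W.length, seqY τ y j ∈ doms.getD j []

theorem inv_init {τ : Tm} {y : ℕ → ℕ → ℕ} (hy : τ.Sol y) {I c : ℕ}
    (hI : ∀ j < I, τ.At y j c) : Inv τ y (initD τ I c) := by
  intro j hj
  unfold initD
  rw [List.getD_eq_getElem _ _ (by simpa using hj), List.getElem_map, List.getElem_range]
  cases h : Nat.ble (j + 1) I with
  | false => rw [cond_false]; exact seqY_mem_full hy hj
  | true =>
    rw [cond_true, List.mem_filter]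
    exact ⟨seqY_mem_full hy hj, atB_iff.2 (hI j (Nat.le_of_ble_eq_true h))⟩

theorem inv_step {τ : Tm} {y : ℕ → ℕ → ℕ} (hy : τ.Sol y) {pts : List (List (Ent ℕ))}
    (hp : τ.cols.map (patB τ 0) = pts) {doms : List (List (List ℕ))}
    (hI : Inv τ y doms) (s : ℕ × ℕ × ℕ) : Inv τ y (stepD τ pts doms s) := by
  unfold stepD
  cases h : (Nat.ble (s.1 + 1) τ.cols.length && Nat.ble (s.2.2 + 1) τ.W.length &&
      (pts.getD s.1 []).all (fun e => (Nat.beq e.1 s.2.1 || Nat.beq e.1 s.2.2) &&
      Nat.ble (e.2.2 + 1) (LB τ e.1))) with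
  | false => rw [cond_false]; exact hI
  | true =>
    rw [cond_true]
    rw [Bool.and_eq_true, Bool.and_eq_true] at h
    obtain ⟨⟨hk, hb⟩, h⟩ := h
    have hk := Nat.le_of_ble_eq_true hk
    have hb := Nat.le_of_ble_eq_true hb
    intro j hj
    set F : List ℕ → Bool := fun la =>
      bif Nat.beq s.2.1 s.2.2 then walk (sol2 s.2.1 la la) (τ.cols.getD s.1 []) (pts.getD s.1 [])
      else (doms.getD s.2.2 []).any fun lb =>
        walk (sol2 s.2.1 la lb) (τ.cols.getD s.1 []) (pts.getD s.1 []) with hF
    by_cases h1 : s.2.1 = j ∧ j < doms.length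
    · have hset : (doms.set s.2.1 ((doms.getD s.2.1 []).filter F)).getD j [] =
          (doms.getD s.2.1 []).filter F := by
        rw [List.getD_eq_getElem?_getD, List.getElem?_set]
        simp [h1]
      rw [hset, List.mem_filter]
      obtain ⟨h1, h2⟩ := h1
      have h3 := hI j hj
      refine ⟨by rw [h1]; exact h3, ?_⟩
      have hcol : τ.cols.getD s.1 [] ∈ τ.cols := by
        rw [List.getD_eq_getElem _ _ hk]; exact List.getElem_mem hk
      have hpt : pts.getD s.1 [] = patB τ 0 (τ.cols.getD s.1 []) := by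
        rw [← hp, List.getD_eq_getElem _ _ (by simpa using hk), List.getElem_map,
          List.getD_eq_getElem _ _ hk]
      have h' : ∀ e ∈ patB τ 0 (τ.cols.getD s.1 []), (e.1 = s.2.1 ∨ e.1 = s.2.2) ∧
          e.2.2 < τ.L e.1 := by
        intro e he
        rw [hpt] at h
        have := List.all_eq_true.1 h e he
        rw [Bool.and_eq_true, Bool.or_eq_true] at this
        refine ⟨this.1.imp Nat.eq_of_beq_eq_true Nat.eq_of_beq_eq_true, ?_⟩
        rw [LB_eq]
        exact Nat.le_of_ble_eq_true this.2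
      rw [hF]
      beta_reduce
      cases h4 : Nat.beq s.2.1 s.2.2 with
      | true =>
        rw [cond_true, hpt]
        have h5 := Nat.eq_of_beq_eq_true h4
        have h6 := walk_sol hy hcol (a := s.2.1) (b := s.2.1) (by
          intro e he
          have := h' e he
          rw [← h5] at this
          exact this)
        rw [h1] at h6 ⊢
        exact h6
      | false =>
        rw [cond_false, List.any_eq_true, hpt]
        refine ⟨seqY τ y s.2.2, hI _ hb, ?_⟩
        have := walk_sol hy hcol h'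
        rw [h1] at this ⊢
        exact this
    · have hset : (doms.set s.2.1 ((doms.getD s.2.1 []).filter F)).getD j [] =
          doms.getD j [] := by
        rw [List.getD_eq_getElem?_getD, List.getElem?_set]
        by_cases h2 : s.2.1 = j
        · have h3 : ¬ j < doms.length := fun h3 => h1 ⟨h2, h3⟩
          simp [h2, h3]
        · simp [h2]
      rw [hset]
      exact hI j hj

theorem inv_steps {τ : Tm} {y : ℕ → ℕ → ℕ} (hy : τ.Sol y) {pts : List (List (Ent ℕ))}
    (hp : τ.cols.map (patB τ 0) = pts) : ∀ (l : List (ℕ × ℕ × ℕ)) {doms : List (List (List ℕ))},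
    Inv τ y doms → Inv τ y (l.foldl (stepD τ pts) doms)
  | [], _, h => h
  | s :: l, _, h => inv_steps hy hp l (inv_step hy hp h s)

/-- **soundness of the exactness checker** -/
theorem exact_of_check {τ : Tm} {K I : ℕ} (pts : List (List (Ent ℕ)))
    (steps : List (List (ℕ × ℕ × ℕ))) (h : exB τ K I pts steps = true) : τ.Exact K I := by
  unfold exB at h
  rw [Bool.and_eq_true, decide_eq_true_eq, List.all_eq_true] at h
  obtain ⟨hp, h⟩ := h
  intro c hc y hy hI j hj
  have h1 := h c (List.mem_range.2 hc)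
  have h2 := inv_steps hy hp (steps.getD c []) (inv_init hy hI)
  unfold finB at h1
  rw [List.all_eq_true] at h1
  have h3 := List.all_eq_true.1 (h1 j (List.mem_range.2 hj)) _ (h2 j hj)
  exact atB_iff.1 h3

/-! ### separation -/

/-- the entry `e` of the column `k` separates the classes `c`, `c'` -/
def sepB (τ : Tm) (K F c c' k : ℕ) (e : Ent ℕ) : Bool :=
  Nat.ble (k + 1) τ.cols.length && decide (e ∈ τ.cols.getD k []) &&
  Nat.beq (numB (τ.wd e.1) 0) 1 &&
  (List.range K).all (fun i => impB (F.testBit i) (omB (τ.wd e.1) i e.2.2)) &&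
  !(Nat.beq (cgapB τ c (τ.cols.getD k []) e) (cgapB τ c' (τ.cols.getD k []) e))

theorem sep_of_check {τ : Tm} {K F c c' : ℕ} (k : ℕ) (e : Ent ℕ)
    (h : sepB τ K F c c' k e = true) : τ.SepAt K F c c' := by
  simp only [sepB, Bool.and_eq_true, decide_eq_true_eq, List.all_eq_true, List.mem_range,
    impB_iff, Bool.not_eq_true'] at h
  obtain ⟨⟨⟨⟨h1, h2⟩, h3⟩, h4⟩, h5⟩ := h
  have hk : k < τ.cols.length := Nat.le_of_ble_eq_true h1
  refine ⟨τ.cols.getD k [], ?_, e, h2, ?_, ?_, ?_⟩
  · rw [List.getD_eq_getElem _ _ hk]; exact List.getElem_mem hk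
  · show (omW _ _).card = 1
    rw [numB_eq]
    exact Nat.eq_of_beq_eq_true h3
  · intro i hi hF
    exact mem_omW.2 (h4 i hi hF)
  · rw [cgapB_eq, cgapB_eq]
    intro h6
    rw [h6] at h5
    simp at h5

/-! ### templates with two hubs -/

/-- do the sequences of the hubs `0` and `1` fit into all columns? -/
def solB (τ : Tm) (la lb : List ℕ) : Bool :=
  τ.cols.all fun col => walk (sol2 0 la lb) col (patB τ 0 col)

/-- all columns only use the hubs `0` and `1` -/
def twoB (τ : Tm) : Bool :=
  τ.cols.all fun col => (patB τ 0 col).all fun e =>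
    (Nat.beq e.1 0 || Nat.beq e.1 1) && Nat.ble (e.2.2 + 1) (LB τ e.1)

theorem sol_two {τ : Tm} (h2 : τ.W.length = 2) (ht : twoB τ = true) {y : ℕ → ℕ → ℕ}
    (hy : τ.Sol y) : seqY τ y 0 ∈ full τ 0 ∧ seqY τ y 1 ∈ full τ 1 ∧
      solB τ (seqY τ y 0) (seqY τ y 1) = true := by
  refine ⟨seqY_mem_full hy (by omega), seqY_mem_full hy (by omega), ?_⟩
  unfold solB
  rw [List.all_eq_true]
  intro col hcol
  apply walk_sol hy hcol
  intro e he
  unfold twoB at ht
  have := List.all_eq_true.1 (List.all_eq_true.1 ht col hcol) e he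
  rw [Bool.and_eq_true, Bool.or_eq_true] at this
  refine ⟨this.1.imp Nat.eq_of_beq_eq_true Nat.eq_of_beq_eq_true, ?_⟩
  rw [LB_eq]
  exact Nat.le_of_ble_eq_true this.2

/-- all solutions come from classes -/
def complB (τ : Tm) (K : ℕ) : Bool :=
  Nat.beq τ.W.length 2 && twoB τ && (full τ 0).all fun la => (full τ 1).all fun lb =>
    impB (solB τ la lb) ((List.range K).any fun c => atB τ c 0 la && atB τ c 1 lb)

theorem complete_of_check {τ : Tm} {K : ℕ} (h : complB τ K = true) (y : ℕ → ℕ → ℕ)
    (hy : τ.Sol y) : ∃ c < K, ∀ j < 2, τ.At y j c := by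
  simp only [complB, Bool.and_eq_true, List.all_eq_true, impB_iff] at h
  obtain ⟨⟨h1, h2⟩, h3⟩ := h
  obtain ⟨h4, h5, h6⟩ := sol_two (Nat.eq_of_beq_eq_true h1) h2 hy
  have h7 := h3 _ h4 _ h5 h6
  rw [List.any_eq_true] at h7
  obtain ⟨c, hc, h8⟩ := h7
  rw [Bool.and_eq_true] at h8
  refine ⟨c, List.mem_range.1 hc, fun j hj => ?_⟩
  have hj' : j = 0 ∨ j = 1 := by omega
  rcases hj' with rfl | rfl
  · exact atB_iff.1 h8.1
  · exact atB_iff.1 h8.2

/-- no solution has the hub `0` in the class `c` and the hub `1` in the class `c'` -/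
def exclB (τ : Tm) (c c' : ℕ) : Bool :=
  Nat.beq τ.W.length 2 && twoB τ && (full τ 0).all fun la => (full τ 1).all fun lb =>
    !(solB τ la lb && atB τ c 0 la && atB τ c' 1 lb)

theorem excl_of_check {τ : Tm} {c c' : ℕ} (h : exclB τ c c' = true) (y : ℕ → ℕ → ℕ)
    (hy : τ.Sol y) : ¬ (τ.At y 0 c ∧ τ.At y 1 c') := by
  simp only [exclB, Bool.and_eq_true, List.all_eq_true, Bool.not_eq_true'] at h
  obtain ⟨⟨h1, h2⟩, h3⟩ := h
  obtain ⟨h4, h5, h6⟩ := sol_two (Nat.eq_of_beq_eq_true h1) h2 hy
  have h7 := h3 _ h4 _ h5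
  rintro ⟨h8, h9⟩
  rw [h6, atB_iff.2 h8, atB_iff.2 h9] at h7
  simp at h7

end TmCheck

end PPI
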