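import Mathlib
import Pool.Agent.PPI.TmDef
import Pool.Agent.PPI.TmCheck

/-!
# Templates of gates: the basic links

The definitions are in `TmDef`, the checkers are in `TmCheck`.
-/

namespace PPI

theorem tmL_ok : tmL.OK 4 [3, 5, 8] := TmCheck.ok_of_check (by decide +kernel)
theorem tmL_complete (y : ℕ → ℕ → ℕ) (h : tmL.Sol y) :
    ∃ c < 4, ∀ j < 2, tmL.At y j c := TmCheck.complete_of_check (by decide +kernel) y h
theorem tmL_sep : tmL.SepAt 4 3 0 1 := TmCheck.sep_of_check 0 (0, false, 0) (by decide +kernel)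

theorem tmL'_ok : tmL'.OK 4 [3, 5, 8] := TmCheck.ok_of_check (by decide +kernel)
theorem tmL'_complete (y : ℕ → ℕ → ℕ) (h : tmL'.Sol y) :
    ∃ c < 4, ∀ j < 2, tmL'.At y j c := TmCheck.complete_of_check (by decide +kernel) y h
theorem tmL'_sep : tmL'.SepAt 4 3 0 1 := TmCheck.sep_of_check 0 (0, false, 2) (by decide +kernel)

theorem tmX_ok : tmX.OK 5 [7, 8, 16] := TmCheck.ok_of_check (by decide +kernel)
/-- not both `a` and `a'` -/
theorem tmX_excl (y : ℕ → ℕ → ℕ) (h : tmX.Sol y) : ¬ (tmX.At y 0 0 ∧ tmX.At y 1 1) :=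
  TmCheck.excl_of_check (by decide +kernel) y h

end PPI
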