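import Mathlib
import Pool.Agent.PPI.Tm
import Pool.Agent.PPI.NetMain
import Pool.Agent.CT.NCstar

/-!
# The network of a list of alternating words: definitions
-/

namespace PPI

open CT

/-- addresses of hubs: kind, two parameters, number in the template -/
abbrev Hb : Type := ℕ × ℕ × ℕ × ℕ

/-- states: the vertices of the nerve complex `NCs` -/
abbrev St : Type := Vs

/-- the four gates -/
structure Gates where
  S : Tm
  G : Tm
  B : Tm
  C : Tm

/-- the hypotheses on the gates -/
structure Gates.OK (g : Gates) : Prop where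
  S : GateS g.S
  G : GateG g.G
  B : GateB g.B
  C : GateC g.C

variable (g : Gates) (T : List (List ℕ))

/-- the letters which occur -/
def colors : List ℕ :=
  (List.range (T.flatten.sum + 1)).filter fun a => decide (a ∈ T.flatten)

/-- the positions in the words -/
def poss : List (ℕ × ℕ) :=
  (List.range T.length).flatMap fun i => (List.range (lenT T i)).map fun j => (i, j)

/-- the even positions, divided by two -/
def halfs : List (ℕ × ℕ) :=
  (List.range T.length).flatMap fun i => (List.range (lenT T i / 2)).map fun j => (i, j)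

/-- the successor of the odd position `2 * j + 1` -/
def nxt (i j : ℕ) : ℕ := (2 * j + 2) % lenT T i

/-! ### classes of states -/

/-- class of a state for the gate `S` of the letter `a` -/
def clY (a : ℕ) : St → ℕ
  | .y b => if b = a then 0 else 1
  | .x => 2
  | .z _ _ => 3
  | .ys => 1
  | .zs => 3

/-- class of a state for the gate `S` of the position `(i, j)` -/
def clZ (i j : ℕ) : St → ℕ
  | .z i' j' => if i' = i ∧ j' = j then 0 else 1
  | .x => 2
  | .y _ => 3
  | .zs => 1
  | .ys => 3

/-- class of a state for the gate `G` of the position `(i, j)` with the letter `a` -/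
def clG (a i j : ℕ) : St → ℕ
  | .x => 0
  | .y b => if b = a then 1 else 2
  | .z i' j' => if i' = i ∧ j' = j then 3 else 4
  | .ys => 2
  | .zs => 4

/-- class of a state for the gates `B`, `C` of the positions `(i, j)`, `(i, k)` -/
def clB (i j k : ℕ) : St → ℕ
  | .x => 1
  | .y _ => 0
  | .z i' j' => if i' = i ∧ j' = j then 2 else if i' = i ∧ j' = k then 3 else 4
  | .ys => 0
  | .zs => 4

/-- class of a state for the hub `V₀` -/
def clV : St → ℕ
  | .x => 1
  | .y _ => 0
  | .z _ _ => 2
  | .ys => 0
  | .zs => 2

/-- class of a state for the hub at an address -/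
def clH : Hb → St → ℕ
  | (0, _, _, _) => clV
  | (1, a, _, _) => clY a
  | (2, i, j, _) => clZ i j
  | (3, i, j, _) => clG (colT T i j) i j
  | (4, i, j, _) => clB i (2 * j) (2 * j + 1)
  | (_, i, j, _) => clB i (2 * j + 1) (nxt T i j)

/-- the word of the hub at an address -/
def wdH : Hb → List ℕ
  | (0, _, _, _) => [1, 2, 4]
  | (1, _, _, n) => g.S.wd n
  | (2, _, _, n) => g.S.wd n
  | (3, _, _, n) => g.G.wd n
  | (4, _, _, n) => g.B.wd n
  | (_, _, _, n) => g.C.wd n

/-- the omitted points of a state -/
def DG (s : St) (h : Hb) : Finset ℕ := omW (wdH g h) (clH T h s)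

/-- the number of omitted points -/
def rG (h : Hb) : ℕ := (omW (wdH g h) 0).card

/-! ### hub maps of the instances of the templates -/

/-- hub map for the gate `S` of a letter -/
def hmY (a : ℕ) (n : ℕ) : Hb := (1, a, 0, n)
/-- hub map for the gate `S` of a position -/
def hmZ (i j : ℕ) (n : ℕ) : Hb := (2, i, j, n)
/-- hub map for the gate `G` of a position -/
def hmG (i j : ℕ) (n : ℕ) : Hb :=
  if n = 0 then (1, colT T i j, 0, 0) else if n = 1 then (1, colT T i j, 0, 1)
  else if n = 2 then (2, i, j, 0) else if n = 3 then (2, i, j, 1)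
  else if n = 4 then (0, 0, 0, 0) else (3, i, j, n)
/-- hub map for the gate `B` of a pair of positions -/
def hmB (i j : ℕ) (n : ℕ) : Hb :=
  if n = 0 then (2, i, 2 * j, 0) else if n = 1 then (2, i, 2 * j, 1)
  else if n = 2 then (2, i, 2 * j + 1, 0) else if n = 3 then (2, i, 2 * j + 1, 1)
  else if n = 4 then (0, 0, 0, 0) else (4, i, j, n)
/-- hub map for the gate `C` of a pair of positions -/
def hmC (i j : ℕ) (n : ℕ) : Hb :=
  if n = 0 then (2, i, 2 * j + 1, 0) else if n = 1 then (2, i, 2 * j + 1, 1)
  else if n = 2 then (2, i, nxt T i j, 0) else if n = 3 then (2, i, nxt T i j, 1)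
  else if n = 4 then (0, 0, 0, 0) else (5, i, j, n)
/-- hub map for the links with `V₀` -/
def hmV (h : Hb) (n : ℕ) : Hb := if n = 0 then (0, 0, 0, 0) else h
/-- hub map for two hubs -/
def hm2 (h h' : Hb) (n : ℕ) : Hb := if n = 0 then h else h'

/-- an instance of the columns of a template -/
def ren (φ : ℕ → Hb) (cols : List (List (Ent ℕ))) : List (List (Ent Hb)) :=
  cols.map fun c => c.map fun e => (φ e.1, e.2)

/-- the hubs -/
def hubsG : List Hb :=
  [(0, 0, 0, 0)] ++
  ((colors T).flatMap fun a => (List.range g.S.W.length).map fun n => (1, a, 0, n)) ++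
  ((poss T).flatMap fun z => (List.range g.S.W.length).map fun n => (2, z.1, z.2, n)) ++
  ((poss T).flatMap fun z =>
    (List.range (g.G.W.length - 5)).map fun n => (3, z.1, z.2, n + 5)) ++
  ((halfs T).flatMap fun z =>
    (List.range (g.B.W.length - 5)).map fun n => (4, z.1, z.2, n + 5)) ++
  ((halfs T).flatMap fun z =>
    (List.range (g.C.W.length - 5)).map fun n => (5, z.1, z.2, n + 5))

/-- the columns -/
def colsG : List (List (Ent Hb)) :=
  ((colors T).flatMap fun a => ren (hmV (1, a, 0, 0)) tmL.cols) ++
  ((poss T).flatMap fun z => ren (hmV (2, z.1, z.2, 0)) tmL'.cols) ++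
  ((colors T).flatMap fun a => (colors T).flatMap fun b =>
    if a = b then [] else ren (hm2 (1, a, 0, 0) (1, b, 0, 1)) tmX.cols) ++
  ((poss T).flatMap fun z => (poss T).flatMap fun w =>
    if z = w then [] else ren (hm2 (2, z.1, z.2, 0) (2, w.1, w.2, 1)) tmX.cols) ++
  ((colors T).flatMap fun a => ren (hmY a) g.S.cols) ++
  ((poss T).flatMap fun z => ren (hmZ z.1 z.2) g.S.cols) ++
  ((poss T).flatMap fun z => ren (hmG T z.1 z.2) g.G.cols) ++
  ((halfs T).flatMap fun z => ren (hmB z.1 z.2) g.B.cols) ++
  ((halfs T).flatMap fun z => ren (hmC T z.1 z.2) g.C.cols)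

/-- the network -/
def netG : Net Hb where
  hubs := hubsG g T
  N := fun h => (wdH g h).length
  cols := colsG g T

/-! ### the states -/

/-- the states of the network -/
def EG : Finset St :=
  {.x, .ys, .zs} ∪ (colors T).toFinset.image (fun a => .y a) ∪
    (poss T).toFinset.image (fun z => .z z.1 z.2)

end PPI
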