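import Mathlib
import Pool.Agent.PPI.Glob

/-!
# Instances of templates in the network
-/

namespace PPI

open CT

variable {g : Gates} {T : List (List ℕ)}

/-- an instance of the template `τ` with the hub map `φ` and the class map `cl` -/
structure Inst (g : Gates) (T : List (List ℕ)) (τ : Tm) (K : ℕ) (φ : ℕ → Hb) (cl : St → ℕ) :
    Prop where
  inj : ∀ i < τ.W.length, ∀ j < τ.W.length, φ i = φ j → i = j
  hub : ∀ j < τ.W.length, φ j ∈ hubsG g T
  col : ∀ c ∈ ren φ τ.cols, c ∈ colsG g T
  lt : ∀ s ∈ EG T, cl s < K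
  D : ∀ s ∈ EG T, ∀ j < τ.W.length, DG g T s (φ j) = τ.D (cl s) j
  N : ∀ j < τ.W.length, (wdH g (φ j)).length = τ.N j
  r : ∀ j < τ.W.length, rG g (φ j) = (τ.D 0 j).card

variable {τ : Tm} {K : ℕ} {φ : ℕ → Hb} {cl : St → ℕ} {faces : List ℕ}

/-- a column of a template in the network -/
abbrev rc (φ : ℕ → Hb) (col : List (Ent ℕ)) : List (Ent Hb) := col.map fun e => (φ e.1, e.2)

private theorem gi_map_inj {α β : Type} {f : α → β} {P : α → Prop}
    (hf : ∀ x, P x → ∀ y, P y → f x = f y → x = y) :
    ∀ {A B : List α}, (∀ x ∈ A, P x) → (∀ x ∈ B, P x) → A.map f = B.map f → A = B := by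
  intro A
  induction A with
  | nil =>
    intro B _ _ h
    cases B with
    | nil => rfl
    | cons b B => simp at h
  | cons a A ih =>
    intro B hA hB h
    cases B with
    | nil => simp at h
    | cons b B =>
      simp only [List.map_cons, List.cons.injEq] at h
      have h1 := hf a (hA a (by simp)) b (hB b (by simp)) h.1
      have h2 := ih (fun x hx => hA x (by simp [hx])) (fun x hx => hB x (by simp [hx])) h.2
      rw [h1, h2]

private theorem gi_tw {α β : Type} [DecidableEq α] [DecidableEq β] {f : α → β} {e : α} :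
    ∀ {A : List α}, (∀ x ∈ A, f x = f e → x = e) →
      (A.map f).takeWhile (· ≠ f e) = (A.takeWhile (· ≠ e)).map f := by
  intro A
  induction A with
  | nil => intro _; rfl
  | cons a A ih =>
    intro hA
    have ih' := ih (fun x hx => hA x (by simp [hx]))
    by_cases h : a = e
    · subst h
      simp
    · have h' : f a ≠ f e := fun h1 => h (hA a (by simp) h1)
      rw [List.map_cons, List.takeWhile_cons, List.takeWhile_cons]
      simp only [h, h', ne_eq, not_false_eq_true, decide_true, if_true, List.map_cons, ih']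

private theorem gi_inj (ok : τ.OK K faces) (I : Inst g T τ K φ cl) {a b : Ent ℕ}
    (ha : a.1 < τ.W.length) (hb : b.1 < τ.W.length)
    (h : ((φ a.1, a.2) : Ent Hb) = (φ b.1, b.2)) : a = b := by
  have h1 := congrArg Prod.fst h
  have h2 := congrArg Prod.snd h
  exact Prod.ext (I.inj _ ha _ hb h1) h2

theorem inst_nodup (ok : τ.OK K faces) (I : Inst g T τ K φ cl) {col : List (Ent ℕ)}
    (h : col ∈ τ.cols) : (rc φ col).Nodup := by
  apply List.Nodup.map_on _ (ok.nd col h)
  intro a ha b hb hab
  exact gi_inj ok I (ok.ent col h a ha).1 (ok.ent col h b hb).1 hab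

private theorem gi_keep (ok : τ.OK K faces) (I : Inst g T τ K φ cl) {s : St} (hs : s ∈ EG T)
    {e : Ent ℕ} (he : e.1 < τ.W.length) :
    keepE (DG g T s) ((φ e.1, e.2) : Ent Hb) = keepE (τ.D (cl s)) e := by
  unfold keepE
  rw [I.D s hs e.1 he]

private theorem gi_pat (ok : τ.OK K faces) (I : Inst g T τ K φ cl) {col : List (Ent ℕ)}
    (h : col ∈ τ.cols) {s : St} (hs : s ∈ EG T) :
    pat (DG g T s) (rc φ col) = rc φ (pat (τ.D (cl s)) col) := by
  unfold pat rc
  rw [List.filter_map, List.map_map, List.map_map]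
  have h1 : col.filter (keepE (DG g T s) ∘ fun e : Ent ℕ => ((φ e.1, e.2) : Ent Hb)) =
      col.filter (keepE (τ.D (cl s))) := by
    apply List.filter_congr
    intro e he
    exact gi_keep ok I hs (ok.ent col h e he).1
  rw [h1]
  apply List.map_congr_left
  intro e he
  have he' := (List.mem_filter.1 he).1
  simp only [Function.comp_apply]
  rw [I.D s hs e.1 (ok.ent col h e he').1]

theorem inst_pat (ok : τ.OK K faces) (I : Inst g T τ K φ cl) {col : List (Ent ℕ)}
    (h : col ∈ τ.cols) {s : St} (hs : s ∈ EG T) :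
    pat (DG g T s) (rc φ col) = rc φ (pat (τ.D 0) col) := by
  rw [gi_pat ok I h hs, ok.pc col h (cl s) (I.lt s hs)]

theorem inst_cgap (ok : τ.OK K faces) (I : Inst g T τ K φ cl) {col : List (Ent ℕ)}
    (h : col ∈ τ.cols) {s : St} (hs : s ∈ EG T) {e : Ent ℕ} (he : e ∈ col) :
    cgap (DG g T s) (rc φ col) (φ e.1, e.2) = cgap (τ.D (cl s)) col e := by
  unfold cgap rc
  have h1 := gi_tw (f := fun e : Ent ℕ => ((φ e.1, e.2) : Ent Hb)) (e := e) (A := col)
    (fun x hx hxe => gi_inj ok I (ok.ent col h x hx).1 (ok.ent col h e he).1 hxe)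
  rw [h1, List.filter_map, List.length_map]
  congr 1
  apply List.filter_congr
  intro x hx
  have hx' : x ∈ col := (List.takeWhile_sublist _).subset hx
  exact gi_keep ok I hs (ok.ent col h x hx').1

/-- solutions of the network restrict to solutions of the template -/
theorem inst_sol (ok : τ.OK K faces) (I : Inst g T τ K φ cl) {s : St} (hs : s ∈ EG T)
    {y : Hb → ℕ → ℕ}
    (h1 : ∀ h ∈ hubsG g T, Incr (wdH g h).length ((wdH g h).length - rG g h) (y h))
    (h2 : ∀ c ∈ colsG g T, Fits y (pat (DG g T s) c) c) : τ.Sol (fun j => y (φ j)) := by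
  constructor
  · intro j hj
    have h := h1 (φ j) (I.hub j hj)
    rw [I.N j hj, I.r j hj] at h
    exact h
  · intro col hcol
    have h := h2 (rc φ col) (I.col _ (List.mem_map.2 ⟨col, hcol, rfl⟩))
    unfold Fits at h ⊢
    rw [inst_pat ok I hcol hs] at h
    have e1 : (rc φ (pat (τ.D 0) col)).map (fun e => (e.1, e.2.1, y e.1 e.2.2)) =
        ((pat (τ.D 0) col).map fun e => (e.1, e.2.1, y (φ e.1) e.2.2)).map
          (fun e : Ent ℕ => ((φ e.1, e.2) : Ent Hb)) := by
      unfold rc
      rw [List.map_map, List.map_map]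
      rfl
    rw [e1] at h
    obtain ⟨l', hl', he⟩ := List.sublist_map_iff.1 h
    have hP : ∀ x : Ent ℕ, x.1 < τ.W.length → ∀ y : Ent ℕ, y.1 < τ.W.length →
        ((φ x.1, x.2) : Ent Hb) = (φ y.1, y.2) → x = y :=
      fun x hx y hy hxy => gi_inj ok I hx hy hxy
    have := gi_map_inj (f := fun e : Ent ℕ => ((φ e.1, e.2) : Ent Hb))
      (P := fun x : Ent ℕ => x.1 < τ.W.length) hP
      (A := (pat (τ.D 0) col).map fun e => (e.1, e.2.1, y (φ e.1) e.2.2)) (B := l')
      (by
        intro x hx
        obtain ⟨z, hz, rfl⟩ := List.mem_map.1 hx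
        unfold pat at hz
        obtain ⟨w, hw, rfl⟩ := List.mem_map.1 hz
        exact (ok.ent col hcol w (List.mem_filter.1 hw).1).1)
      (by
        intro x hx
        exact (ok.ent col hcol x (hl'.subset hx)).1)
      he
    rw [this]
    exact hl'

end PPI
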