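import Mathlib
import Pool.Agent.PPI.GInst

/-!
# The instances in the network of a list of words
-/

namespace PPI

open CT

variable {g : Gates} {T : List (List ℕ)}

/-- classes for the exclusion of two letters -/
def clXY (a b : ℕ) : St → ℕ
  | .y c => if c = a then 0 else if c = b then 1 else 2
  | .x => 3
  | .z _ _ => 4
  | .ys => 2
  | .zs => 4

/-- classes for the exclusion of two positions -/
def clXZ (z w : ℕ × ℕ) : St → ℕ
  | .z i j => if (i, j) = z then 0 else if (i, j) = w then 1 else 2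
  | .x => 3
  | .y _ => 4
  | .zs => 2
  | .ys => 4

theorem mem_colors {a : ℕ} : a ∈ colors T ↔ OccT T a := by
  simp only [colors, List.mem_filter, List.mem_range, decide_eq_true_eq, OccT, List.mem_flatten]
  constructor
  · rintro ⟨-, h⟩
    exact h
  · intro h
    refine ⟨?_, h⟩
    have h1 : a ∈ T.flatten := List.mem_flatten.2 h
    have h2 : a ≤ T.flatten.sum := List.le_sum_of_mem h1
    omega

theorem GInstsB_lt {i j : ℕ} (h : j < lenT T i) : i < T.length := by
  by_contra hc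
  unfold lenT at h
  rw [List.getD_eq_default _ _ (by omega)] at h
  simp at h

theorem mem_poss {z : ℕ × ℕ} : z ∈ poss T ↔ z.2 < lenT T z.1 := by
  obtain ⟨i, j⟩ := z
  simp only [poss, List.mem_flatMap, List.mem_map, List.mem_range, Prod.mk.injEq]
  constructor
  · rintro ⟨i', -, j', h, rfl, rfl⟩
    exact h
  · intro h
    exact ⟨i, GInstsB_lt h, j, h, rfl, rfl⟩

theorem mem_halfs {z : ℕ × ℕ} : z ∈ halfs T ↔ z.2 < lenT T z.1 / 2 := by
  obtain ⟨i, j⟩ := z
  simp only [halfs, List.mem_flatMap, List.mem_map, List.mem_range, Prod.mk.injEq]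
  constructor
  · rintro ⟨i', -, j', h, rfl, rfl⟩
    exact h
  · intro h
    exact ⟨i, GInstsB_lt (j := 0) (by omega), j, h, rfl, rfl⟩

theorem half_lt (hT : GoodT T) {i j : ℕ} (h : (i, j) ∈ halfs T) :
    2 * j + 1 < lenT T i ∧ nxt T i j < lenT T i ∧ nxt T i j ≠ 2 * j + 1 := by
  have h1 := mem_halfs.1 h
  simp only at h1
  have h2 : i < T.length := GInstsB_lt (j := 0) (by omega)
  have h3 : T.getD i [] ∈ T := by
    rw [List.getD_eq_getElem _ _ h2]
    exact List.getElem_mem _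
  have h4 : Even (lenT T i) := hT.even _ h3
  have h5 : 4 ≤ lenT T i := hT.four _ h3
  refine ⟨by omega, Nat.mod_lt _ (by omega), ?_⟩
  obtain ⟨m, hm⟩ := h4
  unfold nxt
  intro hc
  have h6 := Nat.div_add_mod (2 * j + 2) (lenT T i)
  rw [hc] at h6
  have h7 : lenT T i * ((2 * j + 2) / lenT T i) = 1 := by omega
  have h8 := Nat.eq_one_of_mul_eq_one_right h7
  omega

theorem mem_EG {s : St} : s ∈ EG T ↔ s = .x ∨ s = .ys ∨ s = .zs ∨
    (∃ a ∈ colors T, s = .y a) ∨ ∃ z ∈ poss T, s = .z z.1 z.2 := by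
  simp only [EG, Finset.mem_union, Finset.mem_insert, Finset.mem_singleton, Finset.mem_image,
    List.mem_toFinset]
  constructor
  · rintro ((h | ⟨a, ha, h⟩) | ⟨z, hz, h⟩)
    · rcases h with h | h | h
      · exact Or.inl h
      · exact Or.inr (Or.inl h)
      · exact Or.inr (Or.inr (Or.inl h))
    · exact Or.inr (Or.inr (Or.inr (Or.inl ⟨a, ha, h.symm⟩)))
    · exact Or.inr (Or.inr (Or.inr (Or.inr ⟨z, hz, h.symm⟩)))
  · rintro (h | h | h | ⟨a, ha, h⟩ | ⟨z, hz, h⟩)
    · exact Or.inl (Or.inl (Or.inl h))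
    · exact Or.inl (Or.inl (Or.inr (Or.inl h)))
    · exact Or.inl (Or.inl (Or.inr (Or.inr h)))
    · exact Or.inl (Or.inr ⟨a, ha, h.symm⟩)
    · exact Or.inr ⟨z, hz, h.symm⟩

namespace GInstsA

theorem two_le (ok : g.OK) : 2 ≤ g.S.W.length := ok.S.two

theorem hub_V : ((0, 0, 0, 0) : Hb) ∈ hubsG g T := by
  unfold hubsG
  simp only [List.mem_append, List.mem_singleton, true_or]

theorem hub_Y {a n : ℕ} (ha : a ∈ colors T) (hn : n < g.S.W.length) :
    ((1, a, 0, n) : Hb) ∈ hubsG g T := by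
  unfold hubsG
  simp only [List.mem_append, List.mem_flatMap, List.mem_map, List.mem_range]
  exact Or.inl (Or.inl (Or.inl (Or.inl (Or.inr ⟨a, ha, n, hn, rfl⟩))))

theorem hub_Z {z : ℕ × ℕ} {n : ℕ} (hz : z ∈ poss T) (hn : n < g.S.W.length) :
    ((2, z.1, z.2, n) : Hb) ∈ hubsG g T := by
  unfold hubsG
  simp only [List.mem_append, List.mem_flatMap, List.mem_map, List.mem_range]
  exact Or.inl (Or.inl (Or.inl (Or.inr ⟨z, hz, n, hn, rfl⟩)))

theorem hub_G {z : ℕ × ℕ} {n : ℕ} (hz : z ∈ poss T) (hn : n < g.G.W.length) (h5 : 5 ≤ n) :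
    ((3, z.1, z.2, n) : Hb) ∈ hubsG g T := by
  unfold hubsG
  simp only [List.mem_append, List.mem_flatMap, List.mem_map, List.mem_range]
  refine Or.inl (Or.inl (Or.inr ⟨z, hz, n - 5, by omega, ?_⟩))
  rw [Nat.sub_add_cancel h5]

theorem hub_B {z : ℕ × ℕ} {n : ℕ} (hz : z ∈ halfs T) (hn : n < g.B.W.length) (h5 : 5 ≤ n) :
    ((4, z.1, z.2, n) : Hb) ∈ hubsG g T := by
  unfold hubsG
  simp only [List.mem_append, List.mem_flatMap, List.mem_map, List.mem_range]
  refine Or.inl (Or.inr ⟨z, hz, n - 5, by omega, ?_⟩)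
  rw [Nat.sub_add_cancel h5]

theorem hub_C {z : ℕ × ℕ} {n : ℕ} (hz : z ∈ halfs T) (hn : n < g.C.W.length) (h5 : 5 ≤ n) :
    ((5, z.1, z.2, n) : Hb) ∈ hubsG g T := by
  unfold hubsG
  simp only [List.mem_append, List.mem_flatMap, List.mem_map, List.mem_range]
  refine Or.inr ⟨z, hz, n - 5, by omega, ?_⟩
  rw [Nat.sub_add_cancel h5]

theorem clY_lt (a : ℕ) (s : St) : clY a s < 4 := by
  cases s <;> simp only [clY] <;> (try split_ifs) <;> omega

theorem clZ_lt (i j : ℕ) (s : St) : clZ i j s < 4 := by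
  cases s <;> simp only [clZ] <;> (try split_ifs) <;> omega

theorem clG_lt (a i j : ℕ) (s : St) : clG a i j s < 5 := by
  cases s <;> simp only [clG] <;> (try split_ifs) <;> omega

theorem clB_lt (i j k : ℕ) (s : St) : clB i j k s < 5 := by
  cases s <;> simp only [clB] <;> (try split_ifs) <;> omega

theorem clXY_lt (a b : ℕ) (s : St) : clXY a b s < 5 := by
  cases s <;> simp only [clXY] <;> (try split_ifs) <;> omega

theorem clXZ_lt (z w : ℕ × ℕ) (s : St) : clXZ z w s < 5 := by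
  cases s <;> simp only [clXZ] <;> (try split_ifs) <;> omega

/-! ### omitted points of the words -/

theorem om_V_Y (a : ℕ) (s : St) : omW [1, 2, 4] (clV s) = omW [3, 4, 8] (clY a s) := by
  cases s <;> simp only [clV, clY] <;> (try split_ifs) <;> decide +kernel

theorem om_V_Z (i j : ℕ) (s : St) : omW [1, 2, 4] (clV s) = omW [8, 4, 3] (clZ i j s) := by
  cases s <;> simp only [clV, clZ] <;> (try split_ifs) <;> decide +kernel

theorem om_XY0 {a b : ℕ} (s : St) :
    omW [1, 2, 4, 8] (clY a s) = omW [1, 6, 8, 16] (clXY a b s) := by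
  cases s <;> simp only [clXY, clY] <;> (try split_ifs) <;> decide +kernel

theorem om_XY1 {a b : ℕ} (hab : a ≠ b) (s : St) :
    omW [2, 1, 4, 8] (clY b s) = omW [5, 2, 8, 16] (clXY a b s) := by
  cases s <;> simp only [clXY, clY] <;> (try split_ifs) <;>
    first | (exfalso; omega) | decide +kernel

theorem om_XZ0 {z w : ℕ × ℕ} (s : St) :
    omW [1, 2, 4, 8] (clZ z.1 z.2 s) = omW [1, 6, 8, 16] (clXZ z w s) := by
  obtain ⟨i, j⟩ := z
  obtain ⟨k, l⟩ := w
  cases s <;> simp only [clXZ, clZ, Prod.mk.injEq] <;> (try split_ifs) <;>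
    first | (exfalso; omega) | decide +kernel

theorem om_XZ1 {z w : ℕ × ℕ} (hzw : z ≠ w) (s : St) :
    omW [2, 1, 4, 8] (clZ w.1 w.2 s) = omW [5, 2, 8, 16] (clXZ z w s) := by
  obtain ⟨i, j⟩ := z
  obtain ⟨k, l⟩ := w
  have h : ¬ (i = k ∧ j = l) := fun h => hzw (by rw [h.1, h.2])
  cases s <;> simp only [clXZ, clZ, Prod.mk.injEq] <;> (try split_ifs) <;>
    first | (exfalso; omega) | decide +kernel

theorem om_G0 (a i j : ℕ) (s : St) :
    omW [1, 2, 4, 8] (clY a s) = omW [2, 4, 1, 24] (clG a i j s) := by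
  cases s <;> simp only [clY, clG] <;> (try split_ifs) <;>
    first | (exfalso; omega) | decide +kernel

theorem om_G1 (a i j : ℕ) (s : St) :
    omW [2, 1, 4, 8] (clY a s) = omW [4, 2, 1, 24] (clG a i j s) := by
  cases s <;> simp only [clY, clG] <;> (try split_ifs) <;>
    first | (exfalso; omega) | decide +kernel

theorem om_G2 (a i j : ℕ) (s : St) :
    omW [1, 2, 4, 8] (clZ i j s) = omW [8, 16, 1, 6] (clG a i j s) := by
  cases s <;> simp only [clZ, clG] <;> (try split_ifs) <;>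
    first | (exfalso; omega) | decide +kernel

theorem om_G3 (a i j : ℕ) (s : St) :
    omW [2, 1, 4, 8] (clZ i j s) = omW [16, 8, 1, 6] (clG a i j s) := by
  cases s <;> simp only [clZ, clG] <;> (try split_ifs) <;>
    first | (exfalso; omega) | decide +kernel

theorem om_G4 (a i j : ℕ) (s : St) :
    omW [1, 2, 4] (clV s) = omW [6, 1, 24] (clG a i j s) := by
  cases s <;> simp only [clV, clG] <;> (try split_ifs) <;>
    first | (exfalso; omega) | decide +kernel

theorem om_B0 (i j k : ℕ) (s : St) :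
    omW [1, 2, 4, 8] (clZ i j s) = omW [4, 24, 2, 1] (clB i j k s) := by
  cases s <;> simp only [clZ, clB] <;> (try split_ifs) <;>
    first | (exfalso; omega) | decide +kernel

theorem om_B1 (i j k : ℕ) (s : St) :
    omW [2, 1, 4, 8] (clZ i j s) = omW [24, 4, 2, 1] (clB i j k s) := by
  cases s <;> simp only [clZ, clB] <;> (try split_ifs) <;>
    first | (exfalso; omega) | decide +kernel

theorem om_B2 {j k : ℕ} (hjk : j ≠ k) (i : ℕ) (s : St) :
    omW [1, 2, 4, 8] (clZ i k s) = omW [8, 20, 2, 1] (clB i j k s) := by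
  cases s <;> simp only [clZ, clB] <;> (try split_ifs) <;>
    first | (exfalso; omega) | decide +kernel

theorem om_B3 {j k : ℕ} (hjk : j ≠ k) (i : ℕ) (s : St) :
    omW [2, 1, 4, 8] (clZ i k s) = omW [20, 8, 2, 1] (clB i j k s) := by
  cases s <;> simp only [clZ, clB] <;> (try split_ifs) <;>
    first | (exfalso; omega) | decide +kernel

theorem om_B4 (i j k : ℕ) (s : St) :
    omW [1, 2, 4] (clV s) = omW [1, 2, 28] (clB i j k s) := by
  cases s <;> simp only [clV, clB] <;> (try split_ifs) <;>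
    first | (exfalso; omega) | decide +kernel

/-! ### the hub maps -/

theorem lt5_cases {n : ℕ} : n = 0 ∨ n = 1 ∨ n = 2 ∨ n = 3 ∨ n = 4 ∨ 5 ≤ n := by omega

theorem hmG_ge {i j n : ℕ} (h : 5 ≤ n) : hmG T i j n = (3, i, j, n) := by
  unfold hmG
  rw [if_neg (by omega), if_neg (by omega), if_neg (by omega), if_neg (by omega),
    if_neg (by omega)]

theorem hmB_ge {i j n : ℕ} (h : 5 ≤ n) : hmB i j n = (4, i, j, n) := by
  unfold hmB
  rw [if_neg (by omega), if_neg (by omega), if_neg (by omega), if_neg (by omega),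
    if_neg (by omega)]

theorem hmC_ge {i j n : ℕ} (h : 5 ≤ n) : hmC T i j n = (5, i, j, n) := by
  unfold hmC
  rw [if_neg (by omega), if_neg (by omega), if_neg (by omega), if_neg (by omega),
    if_neg (by omega)]

end GInstsA

open GInstsA

theorem iL (ok : g.OK) {a : ℕ} (ha : a ∈ colors T) :
    Inst g T tmL 4 (hmV (1, a, 0, 0)) (clY a) := by
  have hw : g.S.wd 0 = [1, 2, 4, 8] := ok.S.w0
  have h2 := ok.S.two
  have hc : ∀ {j : ℕ}, j < tmL.W.length → j = 0 ∨ j = 1 := by
    intro j hj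
    have : tmL.W.length = 2 := rfl
    omega
  refine ⟨?_, ?_, ?_, fun s _ => clY_lt a s, ?_, ?_, ?_⟩
  · intro i hi j hj h
    rcases hc hi with rfl | rfl <;> rcases hc hj with rfl | rfl <;> first | rfl | simp [hmV] at h
  · intro j hj
    rcases hc hj with rfl | rfl
    · exact hub_V
    · exact hub_Y ha (by omega)
  · intro c hcc
    unfold colsG
    simp only [List.mem_append, List.mem_flatMap]
    exact Or.inl (Or.inl (Or.inl (Or.inl (Or.inl (Or.inl (Or.inl (Or.inl ⟨a, ha, hcc⟩)))))))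
  · intro s _ j hj
    rcases hc hj with rfl | rfl
    · exact om_V_Y a s
    · show omW (g.S.wd 0) (clY a s) = _
      rw [hw]
      rfl
  · intro j hj
    rcases hc hj with rfl | rfl
    · rfl
    · show (g.S.wd 0).length = _
      rw [hw]
      rfl
  · intro j hj
    rcases hc hj with rfl | rfl
    · show (omW [1, 2, 4] 0).card = (omW [3, 4, 8] 0).card
      decide +kernel
    · show (omW (g.S.wd 0) 0).card = _
      rw [hw]
      rfl

theorem iL' (ok : g.OK) {z : ℕ × ℕ} (hz : z ∈ poss T) :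
    Inst g T tmL' 4 (hmV (2, z.1, z.2, 0)) (clZ z.1 z.2) := by
  have hw : g.S.wd 0 = [1, 2, 4, 8] := ok.S.w0
  have h2 := ok.S.two
  have hc : ∀ {j : ℕ}, j < tmL'.W.length → j = 0 ∨ j = 1 := by
    intro j hj
    have : tmL'.W.length = 2 := rfl
    omega
  refine ⟨?_, ?_, ?_, fun s _ => clZ_lt _ _ s, ?_, ?_, ?_⟩
  · intro i hi j hj h
    rcases hc hi with rfl | rfl <;> rcases hc hj with rfl | rfl <;> first | rfl | simp [hmV] at h
  · intro j hj
    rcases hc hj with rfl | rfl
    · exact hub_V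
    · exact hub_Z hz (by omega)
  · intro c hcc
    unfold colsG
    simp only [List.mem_append, List.mem_flatMap]
    exact Or.inl (Or.inl (Or.inl (Or.inl (Or.inl (Or.inl (Or.inl (Or.inr ⟨z, hz, hcc⟩)))))))
  · intro s _ j hj
    rcases hc hj with rfl | rfl
    · exact om_V_Z _ _ s
    · show omW (g.S.wd 0) (clZ z.1 z.2 s) = _
      rw [hw]
      rfl
  · intro j hj
    rcases hc hj with rfl | rfl
    · rfl
    · show (g.S.wd 0).length = _
      rw [hw]
      rfl
  · intro j hj
    rcases hc hj with rfl | rfl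
    · show (omW [1, 2, 4] 0).card = (omW [8, 4, 3] 0).card
      decide +kernel
    · show (omW (g.S.wd 0) 0).card = _
      rw [hw]
      rfl

theorem iXY (ok : g.OK) {a b : ℕ} (ha : a ∈ colors T) (hb : b ∈ colors T) (hab : a ≠ b) :
    Inst g T tmX 5 (hm2 (1, a, 0, 0) (1, b, 0, 1)) (clXY a b) := by
  have hw : g.S.wd 0 = [1, 2, 4, 8] := ok.S.w0
  have hw1 : g.S.wd 1 = [2, 1, 4, 8] := ok.S.w1
  have h2 := ok.S.two
  have hc : ∀ {j : ℕ}, j < tmX.W.length → j = 0 ∨ j = 1 := by
    intro j hj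
    have : tmX.W.length = 2 := rfl
    omega
  refine ⟨?_, ?_, ?_, fun s _ => clXY_lt _ _ s, ?_, ?_, ?_⟩
  · intro i hi j hj h
    rcases hc hi with rfl | rfl <;> rcases hc hj with rfl | rfl <;> first | rfl | simp [hm2] at h
  · intro j hj
    rcases hc hj with rfl | rfl
    · exact hub_Y ha (by omega)
    · exact hub_Y hb (by omega)
  · intro c hcc
    unfold colsG
    simp only [List.mem_append, List.mem_flatMap]
    exact Or.inl (Or.inl (Or.inl (Or.inl (Or.inl (Or.inl (Or.inr ⟨a, ha, b, hb, by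
      rw [if_neg hab]; exact hcc⟩))))))
  · intro s _ j hj
    rcases hc hj with rfl | rfl
    · show omW (g.S.wd 0) (clY a s) = _
      rw [hw]
      exact om_XY0 s
    · show omW (g.S.wd 1) (clY b s) = _
      rw [hw1]
      exact om_XY1 hab s
  · intro j hj
    rcases hc hj with rfl | rfl
    · show (g.S.wd 0).length = _
      rw [hw]
      rfl
    · show (g.S.wd 1).length = _
      rw [hw1]
      rfl
  · intro j hj
    rcases hc hj with rfl | rfl
    · show (omW (g.S.wd 0) 0).card = (omW [1, 6, 8, 16] 0).card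
      rw [hw]
      decide +kernel
    · show (omW (g.S.wd 1) 0).card = (omW [5, 2, 8, 16] 0).card
      rw [hw1]
      decide +kernel

theorem iXZ (ok : g.OK) {z w : ℕ × ℕ} (hz : z ∈ poss T) (hw : w ∈ poss T) (hzw : z ≠ w) :
    Inst g T tmX 5 (hm2 (2, z.1, z.2, 0) (2, w.1, w.2, 1)) (clXZ z w) := by
  have hw0 : g.S.wd 0 = [1, 2, 4, 8] := ok.S.w0
  have hw1 : g.S.wd 1 = [2, 1, 4, 8] := ok.S.w1
  have h2 := ok.S.two
  have hc : ∀ {j : ℕ}, j < tmX.W.length → j = 0 ∨ j = 1 := by
    intro j hj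
    have : tmX.W.length = 2 := rfl
    omega
  refine ⟨?_, ?_, ?_, fun s _ => clXZ_lt _ _ s, ?_, ?_, ?_⟩
  · intro i hi j hj h
    rcases hc hi with rfl | rfl <;> rcases hc hj with rfl | rfl <;> first | rfl | simp [hm2] at h
  · intro j hj
    rcases hc hj with rfl | rfl
    · exact hub_Z hz (by omega)
    · exact hub_Z hw (by omega)
  · intro c hcc
    unfold colsG
    simp only [List.mem_append, List.mem_flatMap]
    exact Or.inl (Or.inl (Or.inl (Or.inl (Or.inl (Or.inr ⟨z, hz, w, hw, by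
      rw [if_neg hzw]; exact hcc⟩)))))
  · intro s _ j hj
    rcases hc hj with rfl | rfl
    · show omW (g.S.wd 0) (clZ z.1 z.2 s) = _
      rw [hw0]
      exact om_XZ0 s
    · show omW (g.S.wd 1) (clZ w.1 w.2 s) = _
      rw [hw1]
      exact om_XZ1 hzw s
  · intro j hj
    rcases hc hj with rfl | rfl
    · show (g.S.wd 0).length = _
      rw [hw0]
      rfl
    · show (g.S.wd 1).length = _
      rw [hw1]
      rfl
  · intro j hj
    rcases hc hj with rfl | rfl
    · show (omW (g.S.wd 0) 0).card = (omW [1, 6, 8, 16] 0).card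
      rw [hw0]
      decide +kernel
    · show (omW (g.S.wd 1) 0).card = (omW [5, 2, 8, 16] 0).card
      rw [hw1]
      decide +kernel

theorem iSY (ok : g.OK) {a : ℕ} (ha : a ∈ colors T) : Inst g T g.S 4 (hmY a) (clY a) := by
  refine ⟨?_, fun j hj => hub_Y ha hj, ?_, fun s _ => clY_lt _ s, fun _ _ _ _ => rfl,
    fun _ _ => rfl, fun _ _ => rfl⟩
  · intro i _ j _ h
    simp only [hmY, Prod.mk.injEq, true_and] at h
    exact h
  · intro c hcc
    unfold colsG
    simp only [List.mem_append, List.mem_flatMap]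
    exact Or.inl (Or.inl (Or.inl (Or.inl (Or.inr ⟨a, ha, hcc⟩))))

theorem iSZ (ok : g.OK) {z : ℕ × ℕ} (hz : z ∈ poss T) :
    Inst g T g.S 4 (hmZ z.1 z.2) (clZ z.1 z.2) := by
  refine ⟨?_, fun j hj => hub_Z hz hj, ?_, fun s _ => clZ_lt _ _ s, fun _ _ _ _ => rfl,
    fun _ _ => rfl, fun _ _ => rfl⟩
  · intro i _ j _ h
    simp only [hmZ, Prod.mk.injEq, true_and] at h
    exact h
  · intro c hcc
    unfold colsG
    simp only [List.mem_append, List.mem_flatMap]
    exact Or.inl (Or.inl (Or.inl (Or.inr ⟨z, hz, hcc⟩)))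

theorem iG (ok : g.OK) {z : ℕ × ℕ} (hz : z ∈ poss T) :
    Inst g T g.G 5 (hmG T z.1 z.2) (clG (colT T z.1 z.2) z.1 z.2) := by
  have hw : g.S.wd 0 = [1, 2, 4, 8] := ok.S.w0
  have hw1 : g.S.wd 1 = [2, 1, 4, 8] := ok.S.w1
  have h2 := ok.S.two
  have hcol : colT T z.1 z.2 ∈ colors T := by
    rw [mem_colors]
    have h3 := mem_poss.1 hz
    unfold OccT
    unfold lenT at h3
    unfold colT
    have h4 : z.1 < T.length := by
      by_contra h4
      rw [List.getD_eq_default _ _ (by omega)] at h3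
      simp at h3
    rw [List.getD_eq_getElem _ _ h4] at h3 ⊢
    rw [List.getD_eq_getElem _ _ h3]
    exact ⟨_, List.getElem_mem h4, List.getElem_mem h3⟩
  obtain ⟨i, j⟩ := z
  simp only at hcol
  refine ⟨?_, ?_, ?_, fun s _ => clG_lt _ _ _ s, ?_, ?_, ?_⟩
  · intro m _ n _ h
    rcases @lt5_cases m with rfl | rfl | rfl | rfl | rfl | hm <;>
    rcases @lt5_cases n with rfl | rfl | rfl | rfl | rfl | hn <;>
    first
      | rfl
      | (rw [hmG_ge hm, hmG_ge hn] at h; simpa using h)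
      | (rw [hmG_ge hm] at h; simp [hmG] at h)
      | (rw [hmG_ge hn] at h; simp [hmG] at h)
      | simp [hmG] at h
  · intro n hn
    rcases @lt5_cases n with rfl | rfl | rfl | rfl | rfl | h5
    · exact hub_Y hcol (by omega)
    · exact hub_Y hcol (by omega)
    · exact hub_Z hz (by omega)
    · exact hub_Z hz (by omega)
    · exact hub_V
    · rw [hmG_ge h5]
      exact hub_G hz hn h5
  · intro c hcc
    unfold colsG
    simp only [List.mem_append, List.mem_flatMap]
    exact Or.inl (Or.inl (Or.inr ⟨(i, j), hz, hcc⟩))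
  · intro s _ n hn
    rcases @lt5_cases n with rfl | rfl | rfl | rfl | rfl | h5
    · show omW (g.S.wd 0) (clY (colT T i j) s) = omW (g.G.wd 0) _
      rw [hw, ok.G.w0]
      exact om_G0 _ _ _ s
    · show omW (g.S.wd 1) (clY (colT T i j) s) = omW (g.G.wd 1) _
      rw [hw1, ok.G.w1]
      exact om_G1 _ _ _ s
    · show omW (g.S.wd 0) (clZ i j s) = omW (g.G.wd 2) _
      rw [hw, ok.G.w2]
      exact om_G2 _ _ _ s
    · show omW (g.S.wd 1) (clZ i j s) = omW (g.G.wd 3) _
      rw [hw1, ok.G.w3]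
      exact om_G3 _ _ _ s
    · show omW [1, 2, 4] (clV s) = omW (g.G.wd 4) _
      rw [ok.G.w4]
      exact om_G4 _ _ _ s
    · rw [hmG_ge h5]
      rfl
  · intro n hn
    rcases @lt5_cases n with rfl | rfl | rfl | rfl | rfl | h5
    · show (g.S.wd 0).length = (g.G.wd 0).length
      rw [hw, ok.G.w0]
      rfl
    · show (g.S.wd 1).length = (g.G.wd 1).length
      rw [hw1, ok.G.w1]
      rfl
    · show (g.S.wd 0).length = (g.G.wd 2).length
      rw [hw, ok.G.w2]
      rfl
    · show (g.S.wd 1).length = (g.G.wd 3).length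
      rw [hw1, ok.G.w3]
      rfl
    · show ([1, 2, 4] : List ℕ).length = (g.G.wd 4).length
      rw [ok.G.w4]
      rfl
    · rw [hmG_ge h5]
      rfl
  · intro n hn
    rcases @lt5_cases n with rfl | rfl | rfl | rfl | rfl | h5
    · show (omW (g.S.wd 0) 0).card = (omW (g.G.wd 0) 0).card
      rw [hw, ok.G.w0]
      decide +kernel
    · show (omW (g.S.wd 1) 0).card = (omW (g.G.wd 1) 0).card
      rw [hw1, ok.G.w1]
      decide +kernel
    · show (omW (g.S.wd 0) 0).card = (omW (g.G.wd 2) 0).card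
      rw [hw, ok.G.w2]
      decide +kernel
    · show (omW (g.S.wd 1) 0).card = (omW (g.G.wd 3) 0).card
      rw [hw1, ok.G.w3]
      decide +kernel
    · show (omW [1, 2, 4] 0).card = (omW (g.G.wd 4) 0).card
      rw [ok.G.w4]
      decide +kernel
    · rw [hmG_ge h5]
      rfl

theorem iB (ok : g.OK) (hT : GoodT T) {z : ℕ × ℕ} (hz : z ∈ halfs T) :
    Inst g T g.B 5 (hmB z.1 z.2) (clB z.1 (2 * z.2) (2 * z.2 + 1)) := by
  have hw : g.S.wd 0 = [1, 2, 4, 8] := ok.S.w0
  have hw1 : g.S.wd 1 = [2, 1, 4, 8] := ok.S.w1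
  have h2 := ok.S.two
  obtain ⟨i, j⟩ := z
  have hh := half_lt hT hz
  have hp0 : (i, 2 * j) ∈ poss T := mem_poss.2 (by show 2 * j < lenT T i; omega)
  have hp1 : (i, 2 * j + 1) ∈ poss T := mem_poss.2 (by show 2 * j + 1 < lenT T i; omega)
  have hne : 2 * j ≠ 2 * j + 1 := by omega
  refine ⟨?_, ?_, ?_, fun s _ => clB_lt _ _ _ s, ?_, ?_, ?_⟩
  · intro m _ n _ h
    rcases @lt5_cases m with rfl | rfl | rfl | rfl | rfl | hm <;>
    rcases @lt5_cases n with rfl | rfl | rfl | rfl | rfl | hn <;>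
    first
      | rfl
      | (rw [hmB_ge hm, hmB_ge hn] at h; simpa using h)
      | (rw [hmB_ge hm] at h; simp [hmB] at h)
      | (rw [hmB_ge hn] at h; simp [hmB] at h)
      | (simp [hmB] at h)
      | (simp [hmB] at h; omega)
  · intro n hn
    rcases @lt5_cases n with rfl | rfl | rfl | rfl | rfl | h5
    · exact hub_Z hp0 (by omega)
    · exact hub_Z hp0 (by omega)
    · exact hub_Z hp1 (by omega)
    · exact hub_Z hp1 (by omega)
    · exact hub_V
    · rw [hmB_ge h5]
      exact hub_B hz hn h5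
  · intro c hcc
    unfold colsG
    simp only [List.mem_append, List.mem_flatMap]
    exact Or.inl (Or.inr ⟨(i, j), hz, hcc⟩)
  · intro s _ n hn
    rcases @lt5_cases n with rfl | rfl | rfl | rfl | rfl | h5
    · show omW (g.S.wd 0) (clZ i (2 * j) s) = omW (g.B.wd 0) _
      rw [hw, ok.B.w0]
      exact om_B0 _ _ _ s
    · show omW (g.S.wd 1) (clZ i (2 * j) s) = omW (g.B.wd 1) _
      rw [hw1, ok.B.w1]
      exact om_B1 _ _ _ s
    · show omW (g.S.wd 0) (clZ i (2 * j + 1) s) = omW (g.B.wd 2) _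
      rw [hw, ok.B.w2]
      exact om_B2 hne _ s
    · show omW (g.S.wd 1) (clZ i (2 * j + 1) s) = omW (g.B.wd 3) _
      rw [hw1, ok.B.w3]
      exact om_B3 hne _ s
    · show omW [1, 2, 4] (clV s) = omW (g.B.wd 4) _
      rw [ok.B.w4]
      exact om_B4 _ _ _ s
    · rw [hmB_ge h5]
      rfl
  · intro n hn
    rcases @lt5_cases n with rfl | rfl | rfl | rfl | rfl | h5
    · show (g.S.wd 0).length = (g.B.wd 0).length
      rw [hw, ok.B.w0]
      rfl
    · show (g.S.wd 1).length = (g.B.wd 1).length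
      rw [hw1, ok.B.w1]
      rfl
    · show (g.S.wd 0).length = (g.B.wd 2).length
      rw [hw, ok.B.w2]
      rfl
    · show (g.S.wd 1).length = (g.B.wd 3).length
      rw [hw1, ok.B.w3]
      rfl
    · show ([1, 2, 4] : List ℕ).length = (g.B.wd 4).length
      rw [ok.B.w4]
      rfl
    · rw [hmB_ge h5]
      rfl
  · intro n hn
    rcases @lt5_cases n with rfl | rfl | rfl | rfl | rfl | h5
    · show (omW (g.S.wd 0) 0).card = (omW (g.B.wd 0) 0).card
      rw [hw, ok.B.w0]
      decide +kernel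
    · show (omW (g.S.wd 1) 0).card = (omW (g.B.wd 1) 0).card
      rw [hw1, ok.B.w1]
      decide +kernel
    · show (omW (g.S.wd 0) 0).card = (omW (g.B.wd 2) 0).card
      rw [hw, ok.B.w2]
      decide +kernel
    · show (omW (g.S.wd 1) 0).card = (omW (g.B.wd 3) 0).card
      rw [hw1, ok.B.w3]
      decide +kernel
    · show (omW [1, 2, 4] 0).card = (omW (g.B.wd 4) 0).card
      rw [ok.B.w4]
      decide +kernel
    · rw [hmB_ge h5]
      rfl

theorem iC (ok : g.OK) (hT : GoodT T) {z : ℕ × ℕ} (hz : z ∈ halfs T) :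
    Inst g T g.C 5 (hmC T z.1 z.2) (clB z.1 (2 * z.2 + 1) (nxt T z.1 z.2)) := by
  have hw : g.S.wd 0 = [1, 2, 4, 8] := ok.S.w0
  have hw1 : g.S.wd 1 = [2, 1, 4, 8] := ok.S.w1
  have h2 := ok.S.two
  obtain ⟨i, j⟩ := z
  obtain ⟨hh1, hh2, hh3⟩ := half_lt hT hz
  have hp0 : (i, 2 * j + 1) ∈ poss T := mem_poss.2 hh1
  have hp1 : (i, nxt T i j) ∈ poss T := mem_poss.2 hh2
  have hne : 2 * j + 1 ≠ nxt T i j := fun h => hh3 h.symm
  refine ⟨?_, ?_, ?_, fun s _ => clB_lt _ _ _ s, ?_, ?_, ?_⟩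
  · intro m _ n _ h
    rcases @lt5_cases m with rfl | rfl | rfl | rfl | rfl | hm <;>
    rcases @lt5_cases n with rfl | rfl | rfl | rfl | rfl | hn <;>
    first
      | rfl
      | (rw [hmC_ge hm, hmC_ge hn] at h; simpa using h)
      | (rw [hmC_ge hm] at h; simp [hmC] at h)
      | (rw [hmC_ge hn] at h; simp [hmC] at h)
      | (simp [hmC] at h; done)
      | (simp [hmC] at h; exact absurd h hne)
      | (simp [hmC] at h; exact absurd h.symm hne)
  · intro n hn
    rcases @lt5_cases n with rfl | rfl | rfl | rfl | rfl | h5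
    · exact hub_Z hp0 (by omega)
    · exact hub_Z hp0 (by omega)
    · exact hub_Z hp1 (by omega)
    · exact hub_Z hp1 (by omega)
    · exact hub_V
    · rw [hmC_ge h5]
      exact hub_C hz hn h5
  · intro c hcc
    unfold colsG
    simp only [List.mem_append, List.mem_flatMap]
    exact Or.inr ⟨(i, j), hz, hcc⟩
  · intro s _ n hn
    rcases @lt5_cases n with rfl | rfl | rfl | rfl | rfl | h5
    · show omW (g.S.wd 0) (clZ i (2 * j + 1) s) = omW (g.C.wd 0) _
      rw [hw, ok.C.w0]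
      exact om_B0 _ _ _ s
    · show omW (g.S.wd 1) (clZ i (2 * j + 1) s) = omW (g.C.wd 1) _
      rw [hw1, ok.C.w1]
      exact om_B1 _ _ _ s
    · show omW (g.S.wd 0) (clZ i (nxt T i j) s) = omW (g.C.wd 2) _
      rw [hw, ok.C.w2]
      exact om_B2 hne _ s
    · show omW (g.S.wd 1) (clZ i (nxt T i j) s) = omW (g.C.wd 3) _
      rw [hw1, ok.C.w3]
      exact om_B3 hne _ s
    · show omW [1, 2, 4] (clV s) = omW (g.C.wd 4) _
      rw [ok.C.w4]
      exact om_B4 _ _ _ s
    · rw [hmC_ge h5]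
      obtain ⟨n, rfl⟩ : ∃ m, n = m + 5 := ⟨n - 5, by omega⟩
      rfl
  · intro n hn
    rcases @lt5_cases n with rfl | rfl | rfl | rfl | rfl | h5
    · show (g.S.wd 0).length = (g.C.wd 0).length
      rw [hw, ok.C.w0]
      rfl
    · show (g.S.wd 1).length = (g.C.wd 1).length
      rw [hw1, ok.C.w1]
      rfl
    · show (g.S.wd 0).length = (g.C.wd 2).length
      rw [hw, ok.C.w2]
      rfl
    · show (g.S.wd 1).length = (g.C.wd 3).length
      rw [hw1, ok.C.w3]
      rfl
    · show ([1, 2, 4] : List ℕ).length = (g.C.wd 4).length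
      rw [ok.C.w4]
      rfl
    · rw [hmC_ge h5]
      rfl
  · intro n hn
    rcases @lt5_cases n with rfl | rfl | rfl | rfl | rfl | h5
    · show (omW (g.S.wd 0) 0).card = (omW (g.C.wd 0) 0).card
      rw [hw, ok.C.w0]
      decide +kernel
    · show (omW (g.S.wd 1) 0).card = (omW (g.C.wd 1) 0).card
      rw [hw1, ok.C.w1]
      decide +kernel
    · show (omW (g.S.wd 0) 0).card = (omW (g.C.wd 2) 0).card
      rw [hw, ok.C.w2]
      decide +kernel
    · show (omW (g.S.wd 1) 0).card = (omW (g.C.wd 3) 0).card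
      rw [hw1, ok.C.w3]
      decide +kernel
    · show (omW [1, 2, 4] 0).card = (omW (g.C.wd 4) 0).card
      rw [ok.C.w4]
      decide +kernel
    · rw [hmC_ge h5]
      rfl

/-- every column belongs to an instance -/
theorem cols_cases (ok : g.OK) (hT : GoodT T) {c : List (Ent Hb)} (hc : c ∈ colsG g T) :
    ∃ τ K faces φ cl, Tm.OK τ K faces ∧ Inst g T τ K φ cl ∧ ∃ col ∈ τ.cols, c = rc φ col := by
  have key : ∀ {φ : ℕ → Hb} {cols : List (List (Ent ℕ))}, c ∈ ren φ cols →
      ∃ col ∈ cols, c = rc φ col := by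
    intro φ cols h
    unfold ren at h
    obtain ⟨col, h1, h2⟩ := List.mem_map.1 h
    exact ⟨col, h1, h2.symm⟩
  unfold colsG at hc
  simp only [List.mem_append, List.mem_flatMap] at hc
  rcases hc with (((((((⟨a, ha, h⟩ | ⟨z, hz, h⟩) | ⟨a, ha, b, hb, h⟩) | ⟨z, hz, w, hw, h⟩) |
    ⟨a, ha, h⟩) | ⟨z, hz, h⟩) | ⟨z, hz, h⟩) | ⟨z, hz, h⟩) | ⟨z, hz, h⟩
  · exact ⟨_, _, _, _, _, tmL_ok, iL ok ha, key h⟩
  · exact ⟨_, _, _, _, _, tmL'_ok, iL' ok hz, key h⟩
  · by_cases hab : a = b
    · simp [hab] at h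
    · rw [if_neg hab] at h
      exact ⟨_, _, _, _, _, tmX_ok, iXY ok ha hb hab, key h⟩
  · by_cases hzw : z = w
    · simp [hzw] at h
    · rw [if_neg hzw] at h
      exact ⟨_, _, _, _, _, tmX_ok, iXZ ok hz hw hzw, key h⟩
  · exact ⟨_, _, _, _, _, ok.S.ok, iSY ok ha, key h⟩
  · exact ⟨_, _, _, _, _, ok.S.ok, iSZ ok hz, key h⟩
  · exact ⟨_, _, _, _, _, ok.G.ok, iG ok hz, key h⟩
  · exact ⟨_, _, _, _, _, ok.B.ok, iB ok hT hz, key h⟩
  · exact ⟨_, _, _, _, _, ok.C.ok, iC ok hT hz, key h⟩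

/-- every hub is the hub `V₀`, or it belongs to an instance of one of the gates -/
theorem hubs_cases {h : Hb} (hh : h ∈ hubsG g T) : h = (0, 0, 0, 0) ∨
    (∃ a ∈ colors T, ∃ n < g.S.W.length, h = hmY a n) ∨
    (∃ z ∈ poss T, ∃ n < g.S.W.length, h = hmZ z.1 z.2 n) ∨
    (∃ z ∈ poss T, ∃ n < g.G.W.length, 5 ≤ n ∧ h = hmG T z.1 z.2 n) ∨
    (∃ z ∈ halfs T, ∃ n < g.B.W.length, 5 ≤ n ∧ h = hmB z.1 z.2 n) ∨
    ∃ z ∈ halfs T, ∃ n < g.C.W.length, 5 ≤ n ∧ h = hmC T z.1 z.2 n := by
  unfold hubsG at hh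
  simp only [List.mem_append, List.mem_flatMap, List.mem_map, List.mem_range,
    List.mem_singleton] at hh
  rcases hh with ((((h0 | ⟨a, ha, n, hn, h1⟩) | ⟨z, hz, n, hn, h1⟩) | ⟨z, hz, n, hn, h1⟩) |
    ⟨z, hz, n, hn, h1⟩) | ⟨z, hz, n, hn, h1⟩
  · exact Or.inl h0
  · exact Or.inr (Or.inl ⟨a, ha, n, hn, h1.symm⟩)
  · exact Or.inr (Or.inr (Or.inl ⟨z, hz, n, hn, h1.symm⟩))
  · refine Or.inr (Or.inr (Or.inr (Or.inl ⟨z, hz, n + 5, by omega, by omega, ?_⟩)))
    rw [← h1]
    simp [hmG]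
  · refine Or.inr (Or.inr (Or.inr (Or.inr (Or.inl ⟨z, hz, n + 5, by omega, by omega, ?_⟩))))
    rw [← h1]
    simp [hmB]
  · refine Or.inr (Or.inr (Or.inr (Or.inr (Or.inr ⟨z, hz, n + 5, by omega, by omega, ?_⟩))))
    rw [← h1]
    simp [hmC]

theorem GInstsB_colors_nodup : (colors T).Nodup :=
  List.Nodup.filter _ List.nodup_range

theorem GInstsB_pairs_nodup (f : ℕ → ℕ) (n : ℕ) :
    ((List.range n).flatMap fun i => (List.range (f i)).map fun j => (i, j)).Nodup := by
  rw [List.nodup_flatMap]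
  refine ⟨fun i _ => List.Nodup.map (fun a b h => (Prod.mk.inj h).2) List.nodup_range, ?_⟩
  refine List.Pairwise.imp ?_ (List.nodup_range (n := n))
  intro i i' hii
  simp only [Function.onFun, List.disjoint_left, List.mem_map, List.mem_range]
  rintro _ ⟨j, -, rfl⟩ ⟨j', -, h⟩
  exact hii (Prod.mk.inj h).1.symm

theorem GInstsB_poss_nodup : (poss T).Nodup := GInstsB_pairs_nodup _ _
theorem GInstsB_halfs_nodup : (halfs T).Nodup := GInstsB_pairs_nodup _ _

theorem GInstsB_block {α : Type} {l : List α} (hl : l.Nodup) (m : ℕ) (f : α → ℕ → Hb)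
    (hf : ∀ a n a' n', f a n = f a' n' → a = a' ∧ n = n') :
    (l.flatMap fun a => (List.range m).map fun n => f a n).Nodup := by
  rw [List.nodup_flatMap]
  refine ⟨fun a _ => List.Nodup.map (fun n n' h => (hf a n a n' h).2) List.nodup_range, ?_⟩
  refine List.Pairwise.imp ?_ hl
  intro a a' haa
  simp only [Function.onFun, List.disjoint_left, List.mem_map, List.mem_range]
  rintro _ ⟨n, -, rfl⟩ ⟨n', -, h⟩
  exact haa (hf _ _ _ _ h).1.symm

theorem hubsG_nodup : (hubsG g T).Nodup := by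
  unfold hubsG
  have d1 := GInstsB_block (GInstsB_colors_nodup (T := T)) g.S.W.length
    (fun a n => ((1, a, 0, n) : Hb)) (by rintro a n a' n' h; simpa using h)
  have d2 := GInstsB_block (GInstsB_poss_nodup (T := T)) g.S.W.length
    (fun z n => ((2, z.1, z.2, n) : Hb)) (by
      rintro ⟨a, b⟩ n ⟨a', b'⟩ n' h
      simp only [Prod.mk.injEq, true_and] at h ⊢
      tauto)
  have d3 := GInstsB_block (GInstsB_poss_nodup (T := T)) (g.G.W.length - 5)
    (fun z n => ((3, z.1, z.2, n + 5) : Hb)) (by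
      rintro ⟨a, b⟩ n ⟨a', b'⟩ n' h
      simp only [Prod.mk.injEq, true_and] at h ⊢
      omega)
  have d4 := GInstsB_block (GInstsB_halfs_nodup (T := T)) (g.B.W.length - 5)
    (fun z n => ((4, z.1, z.2, n + 5) : Hb)) (by
      rintro ⟨a, b⟩ n ⟨a', b'⟩ n' h
      simp only [Prod.mk.injEq, true_and] at h ⊢
      omega)
  have d5 := GInstsB_block (GInstsB_halfs_nodup (T := T)) (g.C.W.length - 5)
    (fun z n => ((5, z.1, z.2, n + 5) : Hb)) (by
      rintro ⟨a, b⟩ n ⟨a', b'⟩ n' h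
      simp only [Prod.mk.injEq, true_and] at h ⊢
      omega)
  have dis : ∀ {A B : List Hb}, (∀ x ∈ A, ∀ y ∈ B, x.1 ≠ y.1) → List.Disjoint A B := by
    intro A B h x hA hB
    exact h x hA x hB rfl
  have k0 : ∀ x ∈ [((0, 0, 0, 0) : Hb)], x.1 = 0 := by
    intro x hx
    rw [List.mem_singleton.1 hx]
  have k1 : ∀ x ∈ ((colors T).flatMap fun a =>
      (List.range g.S.W.length).map fun n => ((1, a, 0, n) : Hb)), x.1 = 1 := by
    intro x hx
    simp only [List.mem_flatMap, List.mem_map] at hx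
    obtain ⟨a, -, n, -, rfl⟩ := hx
    rfl
  have k2 : ∀ x ∈ ((poss T).flatMap fun z =>
      (List.range g.S.W.length).map fun n => ((2, z.1, z.2, n) : Hb)), x.1 = 2 := by
    intro x hx
    simp only [List.mem_flatMap, List.mem_map] at hx
    obtain ⟨a, -, n, -, rfl⟩ := hx
    rfl
  have k3 : ∀ x ∈ ((poss T).flatMap fun z =>
      (List.range (g.G.W.length - 5)).map fun n => ((3, z.1, z.2, n + 5) : Hb)), x.1 = 3 := by
    intro x hx
    simp only [List.mem_flatMap, List.mem_map] at hx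
    obtain ⟨a, -, n, -, rfl⟩ := hx
    rfl
  have k4 : ∀ x ∈ ((halfs T).flatMap fun z =>
      (List.range (g.B.W.length - 5)).map fun n => ((4, z.1, z.2, n + 5) : Hb)), x.1 = 4 := by
    intro x hx
    simp only [List.mem_flatMap, List.mem_map] at hx
    obtain ⟨a, -, n, -, rfl⟩ := hx
    rfl
  have k5 : ∀ x ∈ ((halfs T).flatMap fun z =>
      (List.range (g.C.W.length - 5)).map fun n => ((5, z.1, z.2, n + 5) : Hb)), x.1 = 5 := by
    intro x hx
    simp only [List.mem_flatMap, List.mem_map] at hx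
    obtain ⟨a, -, n, -, rfl⟩ := hx
    rfl
  refine List.Nodup.append (List.Nodup.append (List.Nodup.append (List.Nodup.append
    (List.Nodup.append (List.nodup_singleton _) d1 ?_) d2 ?_) d3 ?_) d4 ?_) d5 ?_
  · refine dis fun x hx y hy => ?_
    rw [k0 x hx, k1 y hy]; decide
  · refine dis fun x hx y hy => ?_
    rw [k2 y hy]
    rcases List.mem_append.1 hx with hx | hx
    · rw [k0 x hx]; decide
    · rw [k1 x hx]; decide
  · refine dis fun x hx y hy => ?_
    rw [k3 y hy]
    rcases List.mem_append.1 hx with hx | hx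
    · rcases List.mem_append.1 hx with hx | hx
      · rw [k0 x hx]; decide
      · rw [k1 x hx]; decide
    · rw [k2 x hx]; decide
  · refine dis fun x hx y hy => ?_
    rw [k4 y hy]
    rcases List.mem_append.1 hx with hx | hx
    · rcases List.mem_append.1 hx with hx | hx
      · rcases List.mem_append.1 hx with hx | hx
        · rw [k0 x hx]; decide
        · rw [k1 x hx]; decide
      · rw [k2 x hx]; decide
    · rw [k3 x hx]; decide
  · refine dis fun x hx y hy => ?_
    rw [k5 y hy]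
    rcases List.mem_append.1 hx with hx | hx
    · rcases List.mem_append.1 hx with hx | hx
      · rcases List.mem_append.1 hx with hx | hx
        · rcases List.mem_append.1 hx with hx | hx
          · rw [k0 x hx]; decide
          · rw [k1 x hx]; decide
        · rw [k2 x hx]; decide
      · rw [k3 x hx]; decide
    · rw [k4 x hx]; decide

end PPI
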