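import Mathlib
import Pool.Agent.PPI.GInsts

/-!
# Faces of the gates: labels in the network, facets of the nerve complex
-/

namespace PPI

open CT

variable {g : Gates} {T : List (List ℕ)}

/-- there is a point of a hub which is omitted by all the states with property `P` -/
def Lab (g : Gates) (T : List (List ℕ)) (P : St → Prop) : Prop :=
  ∃ h ∈ hubsG g T, ∃ p, ∀ s ∈ EG T, P s → p ∈ DG g T s h

theorem GFace_mono {P Q : St → Prop} (h : Lab g T P) (hQ : ∀ s, Q s → P s) :
    Lab g T Q := by
  obtain ⟨a, ha, p, hp⟩ := h
  exact ⟨a, ha, p, fun s hs hq => hp s hs (hQ s hq)⟩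

theorem GFace_V0 : ((0, 0, 0, 0) : Hb) ∈ hubsG g T := by
  simp [hubsG]

theorem lab_Y (ok : g.OK) : Lab g T (fun s => clV s = 0) := by
  refine ⟨(0, 0, 0, 0), GFace_V0, 0, ?_⟩
  intro s _ h
  change 0 ∈ omW [1, 2, 4] (clV s)
  rw [h]
  decide
theorem lab_Z (ok : g.OK) : Lab g T (fun s => clV s = 2) := by
  refine ⟨(0, 0, 0, 0), GFace_V0, 2, ?_⟩
  intro s _ h
  change 2 ∈ omW [1, 2, 4] (clV s)
  rw [h]
  decide
theorem GFace_labx : Lab g T (fun s => s = .x) := by
  refine ⟨(0, 0, 0, 0), GFace_V0, 1, ?_⟩
  rintro s _ rfl
  change 1 ∈ omW [1, 2, 4] 1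
  decide

theorem GFace_sep {τ : Tm} {K F c c' : ℕ} {faces : List ℕ} {φ : ℕ → Hb} {cl : St → ℕ}
    (ok : τ.OK K faces) (I : Inst g T τ K φ cl) (h : τ.SepAt K F c c') :
    Lab g T (fun s => F.testBit (cl s) = true) := by
  obtain ⟨col, hcol, e, he, -, h1, -⟩ := h
  have hlt := (ok.ent col hcol e he).1
  refine ⟨φ e.1, I.hub _ hlt, e.2.2, ?_⟩
  intro s hs hF
  rw [I.D s hs _ hlt]
  exact h1 _ (I.lt s hs) hF

theorem lab_xyz (ok : g.OK) {i j : ℕ} (h : j < lenT T i) :
    Lab g T (fun s => s = .x ∨ s = .y (colT T i j) ∨
      s = .z i j) := by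
  have hz : (i, j) ∈ poss T := mem_poss.2 h
  refine GFace_mono (GFace_sep ok.G.ok (iG ok hz) ok.G.sep) ?_
  rintro s (rfl | rfl | rfl)
  · change (11).testBit 0 = true
    decide
  · change (11).testBit (if colT T i j = colT T i j then 1 else 2) = true
    rw [if_pos rfl]
    decide
  · change (11).testBit (if i = i ∧ j = j then 3 else 4) = true
    rw [if_pos ⟨rfl, rfl⟩]
    decide
theorem lab_Yzw (ok : g.OK) (hT : GoodT T) {i j : ℕ} (h : (i, j) ∈ halfs T) :
    Lab g T (fun s => clV s = 0 ∨ s = .z i (2 * j) ∨
      s = .z i (2 * j + 1)) := by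
  refine GFace_mono (GFace_sep ok.B.ok (iB ok hT h) ok.B.sep1) ?_
  rintro s (h | rfl | rfl)
  · have : clB i (2 * j) (2 * j + 1) s = 0 := by
      cases s <;> simp_all [clV, clB]
    change (13).testBit (clB i (2 * j) (2 * j + 1) s) = true
    rw [this]
    decide
  · change (13).testBit (if i = i ∧ 2 * j = 2 * j then 2 else _) = true
    rw [if_pos ⟨rfl, rfl⟩]
    decide
  · change (13).testBit (if i = i ∧ 2 * j + 1 = 2 * j then 2 else
      if i = i ∧ 2 * j + 1 = 2 * j + 1 then 3 else 4) = true
    rw [if_neg (by omega), if_pos ⟨rfl, rfl⟩]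
    decide
theorem lab_xzw (ok : g.OK) (hT : GoodT T) {i j : ℕ} (h : (i, j) ∈ halfs T) :
    Lab g T (fun s => s = .x ∨ s = .z i (2 * j + 1) ∨
      s = .z i (nxt T i j)) := by
  refine GFace_mono (GFace_sep ok.C.ok (iC ok hT h) ok.C.sep1) ?_
  rintro s (rfl | rfl | rfl)
  · change (14).testBit 1 = true
    decide
  · change (14).testBit (if i = i ∧ 2 * j + 1 = 2 * j + 1 then 2 else _) = true
    rw [if_pos ⟨rfl, rfl⟩]
    decide
  · change (14).testBit (if i = i ∧ nxt T i j = 2 * j + 1 then 2 else
      if i = i ∧ nxt T i j = nxt T i j then 3 else 4) = true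
    by_cases h : i = i ∧ nxt T i j = 2 * j + 1
    · rw [if_pos h]
      decide
    · rw [if_neg h, if_pos ⟨rfl, rfl⟩]
      decide

/-- every face of a gate is contained in a label, and in a facet of the nerve complex -/
structure FaceOK (g : Gates) (T : List (List ℕ)) (cl : St → ℕ) (F : ℕ) : Prop where
  lab : Lab g T (fun s => F.testBit (cl s) = true)
  nc : ∀ S : Finset St, S.Nonempty → S ⊆ EG T → (∀ s ∈ S, F.testBit (cl s) = true) → S ∈ NCs T

theorem GFace_of {cl : St → ℕ} {F : ℕ} {P : St → Prop} (h : Lab g T P)
    (hn : ∀ S : Finset St, S.Nonempty → S ⊆ EG T → (∀ s ∈ S, P s) → S ∈ NCs T)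
    (hF : ∀ s, F.testBit (cl s) = true → P s) : FaceOK g T cl F where
  lab := GFace_mono h hF
  nc := fun S h1 h2 h3 => hn S h1 h2 fun s hs => hF s (h3 s hs)

theorem GFace_occ {b : ℕ} (h : (Vs.y b : St) ∈ EG T) : OccT T b := by
  rcases mem_EG.1 h with h | h | h | ⟨a, ha, h⟩ | ⟨z, hz, h⟩
  · cases h
  · cases h
  · cases h
  · cases h
    exact mem_colors.1 ha
  · cases h

theorem GFace_pos {i j : ℕ} (h : (Vs.z i j : St) ∈ EG T) : j < lenT T i := by
  rcases mem_EG.1 h with h | h | h | ⟨a, ha, h⟩ | ⟨z, hz, h⟩
  · cases h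
  · cases h
  · cases h
  · cases h
  · cases h
    exact mem_poss.1 hz

theorem GFace_one (hT : GoodT T) : 2 * 0 + 1 < lenT T 0 := by
  have h2 := hT.two
  have h4 := NCdef_four hT (i := 0) (by omega)
  omega

theorem GFace_ncZ (S : Finset St) (h1 : S.Nonempty) (h2 : S ⊆ EG T)
    (h3 : ∀ s ∈ S, clV s = 2) : S ∈ NCs T := by
  refine ⟨h1, Or.inl ?_⟩
  intro s hs
  have hs' : s ∈ S := hs
  have h := h3 s hs'
  cases s with
  | x => simp [clV] at h
  | y a => simp [clV] at h
  | z i j => exact Or.inl ⟨i, j, GFace_pos (h2 hs'), rfl⟩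
  | ys => simp [clV] at h
  | zs => exact Or.inr rfl

theorem GFace_nc2 (S : Finset St) (h1 : S.Nonempty) (h2 : S ⊆ EG T) {i j : ℕ}
    (hij : 2 * j + 1 < lenT T i)
    (h3 : ∀ s ∈ S, clV s = 0 ∨ s = .z i (2 * j) ∨ s = .z i (2 * j + 1)) : S ∈ NCs T := by
  refine ⟨h1, Or.inr (Or.inl ⟨i, j, hij, ?_⟩)⟩
  intro s hs
  have hs' : s ∈ S := hs
  rcases h3 s hs' with h | h | h
  · cases s with
    | x => simp [clV] at h
    | y a => exact Or.inl ⟨a, GFace_occ (h2 hs'), rfl⟩
    | z i j => simp [clV] at h
    | ys => exact Or.inr (Or.inl rfl)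
    | zs => simp [clV] at h
  · exact Or.inr (Or.inr (Or.inl h))
  · exact Or.inr (Or.inr (Or.inr h))

theorem GFace_ncY (hT : GoodT T) (S : Finset St) (h1 : S.Nonempty) (h2 : S ⊆ EG T)
    (h3 : ∀ s ∈ S, clV s = 0) : S ∈ NCs T :=
  GFace_nc2 S h1 h2 (GFace_one hT) fun s hs => Or.inl (h3 s hs)

theorem GFace_nc3 (S : Finset St) (h1 : S.Nonempty) {i j : ℕ}
    (hij : 2 * j + 1 < lenT T i)
    (h3 : ∀ s ∈ S, s = .x ∨ s = .z i (2 * j + 1) ∨ s = .z i (nxt T i j)) : S ∈ NCs T := by
  refine ⟨h1, Or.inr (Or.inr (Or.inl ⟨i, j, hij, ?_⟩))⟩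
  intro s hs
  exact h3 s hs

theorem GFace_nc4 (S : Finset St) (h1 : S.Nonempty) {i j : ℕ}
    (hij : j < lenT T i)
    (h3 : ∀ s ∈ S, s = .x ∨ s = .y (colT T i j) ∨ s = .z i j) : S ∈ NCs T := by
  refine ⟨h1, Or.inr (Or.inr (Or.inr ⟨i, j, hij, ?_⟩))⟩
  intro s hs
  exact h3 s hs

theorem faces_SY (ok : g.OK) (hT : GoodT T) {a : ℕ} (ha : a ∈ colors T) :
    ∀ F ∈ [3, 5, 8], FaceOK g T (clY a) F := by
  intro F hF
  simp only [List.mem_cons, List.not_mem_nil, or_false] at hF
  rcases hF with rfl | rfl | rfl
  · refine GFace_of (lab_Y ok) (GFace_ncY hT) ?_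
    intro s h
    cases s with
    | x => change (3).testBit 2 = true at h; exact absurd h (by decide)
    | y a => rfl
    | z i j => change (3).testBit 3 = true at h; exact absurd h (by decide)
    | ys => rfl
    | zs => change (3).testBit 3 = true at h; exact absurd h (by decide)
  · obtain ⟨i, j, hij, rfl⟩ := exists_col (mem_colors.1 ha)
    refine GFace_of (lab_xyz ok hij) (fun S h1 _ h3 => GFace_nc4 S h1 hij h3) ?_
    intro s h
    cases s with
    | x => exact Or.inl rfl
    | y b =>
      by_cases hb : b = colT T i j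
      · exact Or.inr (Or.inl (by rw [hb]))
      · change (5).testBit (if b = colT T i j then 0 else 1) = true at h
        rw [if_neg hb] at h; exact absurd h (by decide)
    | z i' j' => change (5).testBit 3 = true at h; exact absurd h (by decide)
    | ys => change (5).testBit 1 = true at h; exact absurd h (by decide)
    | zs => change (5).testBit 3 = true at h; exact absurd h (by decide)
  · refine GFace_of (lab_Z ok) (fun S h1 h2 h3 => GFace_ncZ S h1 h2 h3) ?_
    intro s h
    cases s with
    | x => change (8).testBit 2 = true at h; exact absurd h (by decide)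
    | y b =>
      change (8).testBit (if b = a then 0 else 1) = true at h
      by_cases hb : b = a
      · rw [if_pos hb] at h; exact absurd h (by decide)
      · rw [if_neg hb] at h; exact absurd h (by decide)
    | z i j => rfl
    | ys => change (8).testBit 1 = true at h; exact absurd h (by decide)
    | zs => rfl
theorem faces_SZ (ok : g.OK) (hT : GoodT T) {z : ℕ × ℕ} (hz : z ∈ poss T) :
    ∀ F ∈ [3, 5, 8], FaceOK g T (clZ z.1 z.2) F := by
  obtain ⟨i, j⟩ := z
  have hij : j < lenT T i := mem_poss.1 hz
  intro F hF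
  simp only [List.mem_cons, List.not_mem_nil, or_false] at hF
  rcases hF with rfl | rfl | rfl
  · refine GFace_of (lab_Z ok) (fun S h1 h2 h3 => GFace_ncZ S h1 h2 h3) ?_
    intro s h
    cases s with
    | x => change (3).testBit 2 = true at h; exact absurd h (by decide)
    | y b => change (3).testBit 3 = true at h; exact absurd h (by decide)
    | z i j => rfl
    | ys => change (3).testBit 3 = true at h; exact absurd h (by decide)
    | zs => rfl
  · refine GFace_of (lab_xyz ok hij) (fun S h1 _ h3 => GFace_nc4 S h1 hij h3) ?_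
    intro s h
    cases s with
    | x => exact Or.inl rfl
    | y b => change (5).testBit 3 = true at h; exact absurd h (by decide)
    | z i' j' =>
      change (5).testBit (if i' = i ∧ j' = j then 0 else 1) = true at h
      by_cases hb : i' = i ∧ j' = j
      · exact Or.inr (Or.inr (by rw [hb.1, hb.2]))
      · rw [if_neg hb] at h; exact absurd h (by decide)
    | ys => change (5).testBit 3 = true at h; exact absurd h (by decide)
    | zs => change (5).testBit 1 = true at h; exact absurd h (by decide)
  · refine GFace_of (lab_Y ok) (GFace_ncY hT) ?_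
    intro s h
    cases s with
    | x => change (8).testBit 2 = true at h; exact absurd h (by decide)
    | y b => rfl
    | z i' j' =>
      change (8).testBit (if i' = i ∧ j' = j then 0 else 1) = true at h
      by_cases hb : i' = i ∧ j' = j
      · rw [if_pos hb] at h; exact absurd h (by decide)
      · rw [if_neg hb] at h; exact absurd h (by decide)
    | ys => rfl
    | zs => change (8).testBit 1 = true at h; exact absurd h (by decide)
theorem faces_G (ok : g.OK) (hT : GoodT T) {z : ℕ × ℕ} (hz : z ∈ poss T) :
    ∀ F ∈ [11, 6, 24], FaceOK g T (clG (colT T z.1 z.2) z.1 z.2) F := by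
  obtain ⟨i, j⟩ := z
  have hij : j < lenT T i := mem_poss.1 hz
  intro F hF
  simp only [List.mem_cons, List.not_mem_nil, or_false] at hF
  rcases hF with rfl | rfl | rfl
  · refine GFace_of (lab_xyz ok hij) (fun S h1 _ h3 => GFace_nc4 S h1 hij h3) ?_
    intro s h
    cases s with
    | x => exact Or.inl rfl
    | y b =>
      change (11).testBit (if b = colT T i j then 1 else 2) = true at h
      by_cases hb : b = colT T i j
      · exact Or.inr (Or.inl (by rw [hb]))
      · rw [if_neg hb] at h; exact absurd h (by decide)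
    | z i' j' =>
      change (11).testBit (if i' = i ∧ j' = j then 3 else 4) = true at h
      by_cases hb : i' = i ∧ j' = j
      · exact Or.inr (Or.inr (by rw [hb.1, hb.2]))
      · rw [if_neg hb] at h; exact absurd h (by decide)
    | ys => change (11).testBit 2 = true at h; exact absurd h (by decide)
    | zs => change (11).testBit 4 = true at h; exact absurd h (by decide)
  · refine GFace_of (lab_Y ok) (GFace_ncY hT) ?_
    intro s h
    cases s with
    | x => change (6).testBit 0 = true at h; exact absurd h (by decide)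
    | y b => rfl
    | z i' j' =>
      change (6).testBit (if i' = i ∧ j' = j then 3 else 4) = true at h
      by_cases hb : i' = i ∧ j' = j
      · rw [if_pos hb] at h; exact absurd h (by decide)
      · rw [if_neg hb] at h; exact absurd h (by decide)
    | ys => rfl
    | zs => change (6).testBit 4 = true at h; exact absurd h (by decide)
  · refine GFace_of (lab_Z ok) (fun S h1 h2 h3 => GFace_ncZ S h1 h2 h3) ?_
    intro s h
    cases s with
    | x => change (24).testBit 0 = true at h; exact absurd h (by decide)
    | y b =>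
      change (24).testBit (if b = colT T i j then 1 else 2) = true at h
      by_cases hb : b = colT T i j
      · rw [if_pos hb] at h; exact absurd h (by decide)
      · rw [if_neg hb] at h; exact absurd h (by decide)
    | z i j => rfl
    | ys => change (24).testBit 2 = true at h; exact absurd h (by decide)
    | zs => rfl
theorem GFace_clB (F : ℕ) (hF : F.testBit 0 = true → False) (i j k : ℕ) (s : St)
    (h : F.testBit (clB i j k s) = true) : s = .x ∨ clV s = 2 := by
  cases s with
  | x => exact Or.inl rfl
  | y b => exact absurd h (fun h => hF h)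
  | z i' j' => exact Or.inr rfl
  | ys => exact absurd h (fun h => hF h)
  | zs => exact Or.inr rfl
theorem faces_B (ok : g.OK) (hT : GoodT T) {z : ℕ × ℕ} (hz : z ∈ halfs T) :
    ∀ F ∈ [13, 6, 10, 28], FaceOK g T (clB z.1 (2 * z.2) (2 * z.2 + 1)) F := by
  obtain ⟨i, j⟩ := z
  have hij : 2 * j + 1 < lenT T i := (half_lt hT hz).1
  intro F hF
  simp only [List.mem_cons, List.not_mem_nil, or_false] at hF
  rcases hF with rfl | rfl | rfl | rfl
  · refine GFace_of (lab_Yzw ok hT hz) (fun S h1 h2 h3 => GFace_nc2 S h1 h2 hij h3) ?_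
    intro s h
    cases s with
    | x => change (13).testBit 1 = true at h; exact absurd h (by decide)
    | y b => exact Or.inl rfl
    | z i' j' =>
      change (13).testBit (if i' = i ∧ j' = 2 * j then 2 else
        if i' = i ∧ j' = 2 * j + 1 then 3 else 4) = true at h
      by_cases hb : i' = i ∧ j' = 2 * j
      · exact Or.inr (Or.inl (by rw [hb.1, hb.2]))
      · rw [if_neg hb] at h
        by_cases hb' : i' = i ∧ j' = 2 * j + 1
        · exact Or.inr (Or.inr (by rw [hb'.1, hb'.2]))
        · rw [if_neg hb'] at h; exact absurd h (by decide)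
    | ys => exact Or.inl rfl
    | zs => change (13).testBit 4 = true at h; exact absurd h (by decide)
  · refine GFace_of (lab_xyz ok (i := i) (j := 2 * j) (by omega))
      (fun S h1 _ h3 => GFace_nc4 S h1 (by omega) h3) ?_
    intro s h
    cases s with
    | x => exact Or.inl rfl
    | y b => change (6).testBit 0 = true at h; exact absurd h (by decide)
    | z i' j' =>
      change (6).testBit (if i' = i ∧ j' = 2 * j then 2 else
        if i' = i ∧ j' = 2 * j + 1 then 3 else 4) = true at h
      by_cases hb : i' = i ∧ j' = 2 * j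
      · exact Or.inr (Or.inr (by rw [hb.1, hb.2]))
      · rw [if_neg hb] at h
        by_cases hb' : i' = i ∧ j' = 2 * j + 1
        · rw [if_pos hb'] at h; exact absurd h (by decide)
        · rw [if_neg hb'] at h; exact absurd h (by decide)
    | ys => change (6).testBit 0 = true at h; exact absurd h (by decide)
    | zs => change (6).testBit 4 = true at h; exact absurd h (by decide)
  · refine GFace_of (lab_xyz ok (i := i) (j := 2 * j + 1) hij)
      (fun S h1 _ h3 => GFace_nc4 S h1 hij h3) ?_
    intro s h
    cases s with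
    | x => exact Or.inl rfl
    | y b => change (10).testBit 0 = true at h; exact absurd h (by decide)
    | z i' j' =>
      change (10).testBit (if i' = i ∧ j' = 2 * j then 2 else
        if i' = i ∧ j' = 2 * j + 1 then 3 else 4) = true at h
      by_cases hb : i' = i ∧ j' = 2 * j
      · rw [if_pos hb] at h; exact absurd h (by decide)
      · rw [if_neg hb] at h
        by_cases hb' : i' = i ∧ j' = 2 * j + 1
        · exact Or.inr (Or.inr (by rw [hb'.1, hb'.2]))
        · rw [if_neg hb'] at h; exact absurd h (by decide)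
    | ys => change (10).testBit 0 = true at h; exact absurd h (by decide)
    | zs => change (10).testBit 4 = true at h; exact absurd h (by decide)
  · refine GFace_of (lab_Z ok) (fun S h1 h2 h3 => GFace_ncZ S h1 h2 h3) ?_
    intro s h
    rcases GFace_clB 28 (by decide) _ _ _ s h with rfl | h'
    · change (28).testBit 1 = true at h; exact absurd h (by decide)
    · exact h'
theorem faces_C (ok : g.OK) (hT : GoodT T) {z : ℕ × ℕ} (hz : z ∈ halfs T) :
    ∀ F ∈ [14, 28, 1], FaceOK g T (clB z.1 (2 * z.2 + 1) (nxt T z.1 z.2)) F := by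
  obtain ⟨i, j⟩ := z
  have hij : 2 * j + 1 < lenT T i := (half_lt hT hz).1
  intro F hF
  simp only [List.mem_cons, List.not_mem_nil, or_false] at hF
  rcases hF with rfl | rfl | rfl
  · refine GFace_of (lab_xzw ok hT hz) (fun S h1 _ h3 => GFace_nc3 S h1 hij h3) ?_
    intro s h
    cases s with
    | x => exact Or.inl rfl
    | y b => change (14).testBit 0 = true at h; exact absurd h (by decide)
    | z i' j' =>
      change (14).testBit (if i' = i ∧ j' = 2 * j + 1 then 2 else
        if i' = i ∧ j' = nxt T i j then 3 else 4) = true at h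
      by_cases hb : i' = i ∧ j' = 2 * j + 1
      · exact Or.inr (Or.inl (by rw [hb.1, hb.2]))
      · rw [if_neg hb] at h
        by_cases hb' : i' = i ∧ j' = nxt T i j
        · exact Or.inr (Or.inr (by rw [hb'.1, hb'.2]))
        · rw [if_neg hb'] at h; exact absurd h (by decide)
    | ys => change (14).testBit 0 = true at h; exact absurd h (by decide)
    | zs => change (14).testBit 4 = true at h; exact absurd h (by decide)
  · refine GFace_of (lab_Z ok) (fun S h1 h2 h3 => GFace_ncZ S h1 h2 h3) ?_
    intro s h
    rcases GFace_clB 28 (by decide) _ _ _ s h with rfl | h'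
    · change (28).testBit 1 = true at h; exact absurd h (by decide)
    · exact h'
  · refine GFace_of (lab_Y ok) (GFace_ncY hT) ?_
    intro s h
    cases s with
    | x => change (1).testBit 1 = true at h; exact absurd h (by decide)
    | y b => rfl
    | z i' j' =>
      change (1).testBit (if i' = i ∧ j' = 2 * j + 1 then 2 else
        if i' = i ∧ j' = nxt T i j then 3 else 4) = true at h
      by_cases hb : i' = i ∧ j' = 2 * j + 1
      · rw [if_pos hb] at h; exact absurd h (by decide)
      · rw [if_neg hb] at h
        by_cases hb' : i' = i ∧ j' = nxt T i j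
        · rw [if_pos hb'] at h; exact absurd h (by decide)
        · rw [if_neg hb'] at h; exact absurd h (by decide)
    | ys => rfl
    | zs => change (1).testBit 4 = true at h; exact absurd h (by decide)
theorem faces_V (ok : g.OK) (hT : GoodT T) : ∀ F ∈ [1, 2, 4], FaceOK g T clV F := by
  intro F hF
  simp only [List.mem_cons, List.not_mem_nil, or_false] at hF
  rcases hF with rfl | rfl | rfl
  · refine GFace_of (lab_Y ok) (GFace_ncY hT) ?_
    intro s h
    cases s with
    | x => change (1).testBit 1 = true at h; exact absurd h (by decide)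
    | y b => rfl
    | z i' j' => change (1).testBit 2 = true at h; exact absurd h (by decide)
    | ys => rfl
    | zs => change (1).testBit 2 = true at h; exact absurd h (by decide)
  · have h0 := GFace_one hT
    refine GFace_of GFace_labx (fun S h1 _ h3 => GFace_nc4 S h1 (i := 0) (j := 0) (by omega)
      fun s hs => Or.inl (h3 s hs)) ?_
    intro s h
    cases s with
    | x => rfl
    | y b => change (2).testBit 0 = true at h; exact absurd h (by decide)
    | z i' j' => change (2).testBit 2 = true at h; exact absurd h (by decide)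
    | ys => change (2).testBit 0 = true at h; exact absurd h (by decide)
    | zs => change (2).testBit 2 = true at h; exact absurd h (by decide)
  · refine GFace_of (lab_Z ok) (fun S h1 h2 h3 => GFace_ncZ S h1 h2 h3) ?_
    intro s h
    cases s with
    | x => change (4).testBit 1 = true at h; exact absurd h (by decide)
    | y b => change (4).testBit 0 = true at h; exact absurd h (by decide)
    | z i' j' => rfl
    | ys => change (4).testBit 0 = true at h; exact absurd h (by decide)
    | zs => rfl

end PPI
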