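import Mathlib
import Pool.Agent.PPI.GFace

/-!
# Boxes and labels of the network
-/

namespace PPI

open CT

variable {g : Gates} {T : List (List ℕ)}

namespace GBoxAux

/-- boxes of the hubs of an instance -/
theorem inst_box {τ : Tm} {K : ℕ} {φ : ℕ → Hb} {cl : St → ℕ} {faces : List ℕ}
    (ok : τ.OK K faces) (I : Inst g T τ K φ cl) (hF : ∀ F ∈ faces, FaceOK g T cl F) {j : ℕ}
    (hj : j < τ.W.length) {s : St} (hs : s ∈ EG T) {p : ℕ} (hp : p ∈ DG g T s (φ j)) :
    Lab g T (fun t => ∃ q ∈ DG g T t (φ j), gap (DG g T t (φ j)) q = gap (DG g T s (φ j)) p) := by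
  rw [I.D s hs j hj] at hp
  obtain ⟨F, hFm, hF'⟩ := ok.box j hj (cl s) (I.lt s hs) p hp
  obtain ⟨h', hh', p', hp'⟩ := (hF F hFm).lab
  refine ⟨h', hh', p', fun t ht hq => hp' t ht ?_⟩
  rw [I.D s hs j hj, I.D t ht j hj] at hq
  exact hF' (cl t) (I.lt t ht) hq

/-- labels of the hubs of an instance -/
theorem inst_nc {τ : Tm} {K : ℕ} {φ : ℕ → Hb} {cl : St → ℕ} {faces : List ℕ}
    (ok : τ.OK K faces) (I : Inst g T τ K φ cl) (hF : ∀ F ∈ faces, FaceOK g T cl F) {j : ℕ}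
    (hj : j < τ.W.length) {S : Finset St} (hne : S.Nonempty) (hS : S ⊆ EG T) {p : ℕ}
    (hp : ∀ s ∈ S, p ∈ DG g T s (φ j)) : S ∈ NCs T := by
  have hp' : ∀ s ∈ S, p ∈ τ.D (cl s) j := by
    intro s hs
    rw [← I.D s (hS hs) j hj]
    exact hp s hs
  obtain ⟨s0, hs0⟩ := hne
  have hpN : p < τ.N j := by
    have := hp' s0 hs0
    unfold Tm.D omW at this
    rw [Finset.mem_filter, Finset.mem_range] at this
    exact this.1
  obtain ⟨F, hFm, hF'⟩ := ok.lab j hj p hpN
  exact (hF F hFm).nc S ⟨s0, hs0⟩ hS fun s hs => hF' (cl s) (I.lt s (hS hs)) (hp' s hs)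

theorem clV_lt (s : St) : clV s < 3 := by
  cases s <;> simp [clV]

theorem DG_V (s : St) : DG g T s (0, 0, 0, 0) = {clV s} := by
  have h : ∀ c < 3, omW [1, 2, 4] c = {c} := by decide
  exact h (clV s) (clV_lt s)

theorem gap_singleton (c : ℕ) : gap {c} c = c := by
  unfold gap
  rw [Finset.filter_true_of_mem, Finset.card_range]
  intro x hx
  rw [Finset.mem_range] at hx
  rw [Finset.mem_singleton]
  omega

theorem testBit_V : ∀ c < 3, ∀ d < 3, (2 ^ c).testBit d = true ↔ d = c := by decide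

theorem mem_V : ∀ c < 3, 2 ^ c ∈ [1, 2, 4] := by decide

end GBoxAux

open GBoxAux

theorem netG_box (ok : g.OK) (hT : GoodT T) {h : Hb} (hh : h ∈ hubsG g T) {s : St}
    (hs : s ∈ EG T) {p : ℕ} (hp : p ∈ DG g T s h) :
    ∃ h' ∈ hubsG g T, ∃ p', ∀ t ∈ EG T,
      (∃ q ∈ DG g T t h, gap (DG g T t h) q = gap (DG g T s h) p) → p' ∈ DG g T t h' := by
  rcases hubs_cases hh with rfl | ⟨a, ha, n, hn, rfl⟩ | ⟨z, hz, n, hn, rfl⟩ |
    ⟨z, hz, n, hn, -, rfl⟩ | ⟨z, hz, n, hn, -, rfl⟩ | ⟨z, hz, n, hn, -, rfl⟩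
  · obtain ⟨h', hh', p', hp'⟩ := (faces_V ok hT _ (mem_V _ (clV_lt s))).lab
    refine ⟨h', hh', p', fun t ht hq => hp' t ht ((testBit_V _ (clV_lt s) _ (clV_lt t)).mpr ?_)⟩
    obtain ⟨q, hq, hg⟩ := hq
    rw [DG_V, Finset.mem_singleton] at hq hp
    rw [DG_V, DG_V, hq, hp, gap_singleton, gap_singleton] at hg
    exact hg
  · exact inst_box ok.S.ok (iSY ok ha) (faces_SY ok hT ha) hn hs hp
  · exact inst_box ok.S.ok (iSZ ok hz) (faces_SZ ok hT hz) hn hs hp
  · exact inst_box ok.G.ok (iG ok hz) (faces_G ok hT hz) hn hs hp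
  · exact inst_box ok.B.ok (iB ok hT hz) (faces_B ok hT hz) hn hs hp
  · exact inst_box ok.C.ok (iC ok hT hz) (faces_C ok hT hz) hn hs hp

theorem netG_nerve (ok : g.OK) (hT : GoodT T) :
    netNerve (netG g T) (EG T) (DG g T) = NCs T := by
  have hpos : ∀ i j, j < lenT T i → (i, j) ∈ poss T := fun i j h => mem_poss.mpr h
  have hhalf : ∀ i j, 2 * j + 1 < lenT T i → (i, j) ∈ halfs T := by
    intro i j h
    rw [mem_halfs]
    show j < lenT T i / 2
    omega
  have hy : ∀ a, OccT T a → Vs.y a ∈ EG T := fun a ha =>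
    mem_EG.mpr (Or.inr (Or.inr (Or.inr (Or.inl ⟨a, mem_colors.mpr ha, rfl⟩))))
  have hz : ∀ i j, j < lenT T i → Vs.z i j ∈ EG T := fun i j h =>
    mem_EG.mpr (Or.inr (Or.inr (Or.inr (Or.inr ⟨(i, j), hpos i j h, rfl⟩))))
  have hx : Vs.x ∈ EG T := mem_EG.mpr (Or.inl rfl)
  have hys : Vs.ys ∈ EG T := mem_EG.mpr (Or.inr (Or.inl rfl))
  have hzs : Vs.zs ∈ EG T := mem_EG.mpr (Or.inr (Or.inr (Or.inl rfl)))
  have hcol : ∀ i j, j < lenT T i → OccT T (colT T i j) := by
    intro i j h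
    have hi : i < T.length := lenT_lt h
    unfold lenT at h
    rw [List.getD_eq_getElem _ _ hi] at h
    refine ⟨T[i], List.getElem_mem hi, ?_⟩
    unfold colT
    rw [List.getD_eq_getElem _ _ hi, List.getD_eq_getElem _ _ h]
    exact List.getElem_mem h
  have hlab : ∀ (S : Finset St) (P : St → Prop), Lab g T P → S.Nonempty → S ⊆ EG T →
      (∀ s ∈ S, P s) → S ∈ netNerve (netG g T) (EG T) (DG g T) := by
    rintro S P ⟨h, hh, p, hp⟩ hne hS hSP
    exact ⟨hne, hS, h, hh, p, fun s hs => hp s (hS hs) (hSP s hs)⟩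
  ext S
  constructor
  · rintro ⟨hne, hS, h, hh, p, hp⟩
    have hh : h ∈ hubsG g T := hh
    rcases hubs_cases hh with rfl | ⟨a, ha, n, hn, rfl⟩ | ⟨z, hz, n, hn, rfl⟩ |
      ⟨z, hz, n, hn, -, rfl⟩ | ⟨z, hz, n, hn, -, rfl⟩ | ⟨z, hz, n, hn, -, rfl⟩
    · obtain ⟨s0, hs0⟩ := hne
      have h1 : ∀ s ∈ S, clV s = clV s0 := by
        intro s hs
        have h2 := hp s hs
        have h3 := hp s0 hs0
        rw [DG_V, Finset.mem_singleton] at h2 h3
        rw [← h2, h3]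
      refine (faces_V ok hT _ (mem_V _ (clV_lt s0))).nc S ⟨s0, hs0⟩ hS fun s hs => ?_
      rw [testBit_V _ (clV_lt s0) _ (clV_lt s)]
      exact h1 s hs
    · exact inst_nc ok.S.ok (iSY ok ha) (faces_SY ok hT ha) hn hne hS hp
    · exact inst_nc ok.S.ok (iSZ ok hz) (faces_SZ ok hT hz) hn hne hS hp
    · exact inst_nc ok.G.ok (iG ok hz) (faces_G ok hT hz) hn hne hS hp
    · exact inst_nc ok.B.ok (iB ok hT hz) (faces_B ok hT hz) hn hne hS hp
    · exact inst_nc ok.C.ok (iC ok hT hz) (faces_C ok hT hz) hn hne hS hp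
  · rintro ⟨hne, hS | ⟨i, j, hij, hS⟩ | ⟨i, j, hij, hS⟩ | ⟨i, j, hij, hS⟩⟩
    · refine hlab S _ (lab_Z ok) hne ?_ ?_
      · intro s hs
        rcases hS hs with ⟨i, j, h, rfl⟩ | rfl
        · exact hz i j h
        · exact hzs
      · intro s hs
        rcases hS hs with ⟨i, j, h, rfl⟩ | rfl <;> rfl
    · refine hlab S _ (lab_Yzw ok hT (hhalf i j hij)) hne ?_ ?_
      · intro s hs
        rcases hS hs with ⟨a, h, rfl⟩ | rfl | rfl | rfl
        · exact hy a h
        · exact hys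
        · exact hz i _ (by omega)
        · exact hz i _ hij
      · intro s hs
        rcases hS hs with ⟨a, h, rfl⟩ | rfl | rfl | rfl
        · exact Or.inl rfl
        · exact Or.inl rfl
        · exact Or.inr (Or.inl rfl)
        · exact Or.inr (Or.inr rfl)
    · refine hlab S _ (lab_xzw ok hT (hhalf i j hij)) hne ?_ ?_
      · intro s hs
        rcases hS hs with rfl | rfl | rfl
        · exact hx
        · exact hz i _ hij
        · exact hz i _ (Nat.mod_lt _ (by omega))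
      · intro s hs
        rcases hS hs with rfl | rfl | rfl
        · exact Or.inl rfl
        · exact Or.inr (Or.inl rfl)
        · exact Or.inr (Or.inr rfl)
    · refine hlab S _ (lab_xyz ok hij) hne ?_ ?_
      · intro s hs
        rcases hS hs with rfl | rfl | rfl
        · exact hx
        · exact hy _ (hcol i j hij)
        · exact hz i j hij
      · intro s hs
        rcases hS hs with rfl | rfl | rfl
        · exact Or.inl rfl
        · exact Or.inr (Or.inl rfl)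
        · exact Or.inr (Or.inr rfl)

end PPI
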