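import Mathlib
import Pool.Agent.PPI.GFace

/-!
# Moving good points
-/

namespace PPI

open CT

variable {g : Gates} {T : List (List ℕ)}

/-- the conclusion of `netG_sep` -/
def GSepC (g : Gates) (T : List (List ℕ)) (S : Finset St) : Prop :=
  ∃ c ∈ colsG g T, ∃ e ∈ c, rG g e.1 = 1 ∧ (∀ s ∈ S, e.2.2 ∈ DG g T s e.1) ∧
      ∃ s ∈ S, ∃ t ∈ S, cgap (DG g T s) c e ≠ cgap (DG g T t) c e

theorem gsep_aux {τ : Tm} {K : ℕ} {φ : ℕ → Hb} {cl : St → ℕ} {faces : List ℕ} {F c c' : ℕ}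
    (ok : τ.OK K faces) (I : Inst g T τ K φ cl) (hsep : τ.SepAt K F c c') {S : Finset St}
    (hS : S ⊆ EG T) (hF : ∀ s ∈ S, F.testBit (cl s) = true) {s t : St} (hs : s ∈ S)
    (ht : t ∈ S) (hsc : cl s = c) (htc : cl t = c') : GSepC g T S := by
  obtain ⟨col, hcol, e, he, h1, h2, h3⟩ := hsep
  have hlt := (ok.ent col hcol e he).1
  refine ⟨rc φ col, I.col _ (List.mem_map.2 ⟨col, hcol, rfl⟩), (φ e.1, e.2),
    List.mem_map.2 ⟨e, he, rfl⟩, ?_, ?_, s, hs, t, ht, ?_⟩
  · exact (I.r e.1 hlt).trans h1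
  · intro u hu
    show e.2.2 ∈ DG g T u (φ e.1)
    rw [I.D u (hS hu) e.1 hlt]
    exact h2 _ (I.lt u (hS hu)) (hF u hu)
  · rw [inst_cgap ok I hcol (hS hs) he, inst_cgap ok I hcol (hS ht) he, hsc, htc]
    exact h3

theorem gsep_two {S : Finset St} (h2 : 2 ≤ S.card) {s : St} (hs : s ∈ S) :
    ∃ t ∈ S, t ≠ s := by
  obtain ⟨t, ht, hne⟩ := Finset.exists_mem_ne (by omega : 1 < S.card) s
  exact ⟨t, ht, hne⟩

theorem gsep_F1 (ok : g.OK) {S : Finset St} (hS : S ⊆ EG T) (h2 : 2 ≤ S.card)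
    (h : (S : Set St) ⊆ sF1 T) : GSepC g T S := by
  obtain ⟨s, hs, hsz⟩ := Finset.exists_mem_ne (by omega : 1 < S.card) Vs.zs
  obtain ⟨t, ht, hts⟩ := gsep_two h2 hs
  rcases h (Finset.mem_coe.2 hs) with ⟨i, j, hj, rfl⟩ | rfl
  swap
  · exact absurd rfl hsz
  have hz : (i, j) ∈ poss T := mem_poss.2 hj
  refine gsep_aux tmL'_ok (iL' ok hz) tmL'_sep hS ?_ hs ht (by simp [clZ]) ?_
  · intro u hu
    rcases h (Finset.mem_coe.2 hu) with ⟨i', j', hj', rfl⟩ | rfl
    · simp only [clZ]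
      split_ifs <;> decide
    · exact (by decide : Nat.testBit 3 1 = true)
  · rcases h (Finset.mem_coe.2 ht) with ⟨i', j', hj', rfl⟩ | rfl
    · simp only [clZ]
      rw [if_neg]
      rintro ⟨rfl, rfl⟩
      exact hts rfl
    · rfl

theorem gsep_F2 (ok : g.OK) (hT : GoodT T) {S : Finset St} (hS : S ⊆ EG T) (h2 : 2 ≤ S.card)
    {i j : ℕ} (hij : 2 * j + 1 < lenT T i) (h : (S : Set St) ⊆ sF2 T i j) :
    GSepC g T S := by
  have hh : (i, j) ∈ halfs T := mem_halfs.2 (by show j < lenT T i / 2; omega)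
  have hy : ∀ u ∈ S, clV u = 0 ∨ u = .z i (2 * j) ∨ u = .z i (2 * j + 1) := by
    intro u hu
    rcases h (Finset.mem_coe.2 hu) with ⟨a, _, rfl⟩ | rfl | rfl | rfl
    · exact Or.inl rfl
    · exact Or.inl rfl
    · exact Or.inr (Or.inl rfl)
    · exact Or.inr (Or.inr rfl)
  by_cases hY : ∃ s ∈ S, clV s = 0
  · obtain ⟨s, hs, hs0⟩ := hY
    have hsB : clB i (2 * j) (2 * j + 1) s = 0 := by
      cases s <;> simp_all [clV, clB]
    have hF : ∀ u ∈ S, (13 : ℕ).testBit (clB i (2 * j) (2 * j + 1) u) = true := by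
      intro u hu
      rcases h (Finset.mem_coe.2 hu) with ⟨a, _, rfl⟩ | rfl | rfl | rfl
      · exact (by decide : Nat.testBit 13 0 = true)
      · exact (by decide : Nat.testBit 13 0 = true)
      · simp [clB]; decide
      · simp [clB]; decide
    by_cases hz : Vs.z i (2 * j) ∈ S
    · exact gsep_aux ok.B.ok (iB ok hT hh) ok.B.sep1 hS hF hs hz hsB (by simp [clB])
    by_cases hw : Vs.z i (2 * j + 1) ∈ S
    · exact gsep_aux ok.B.ok (iB ok hT hh) ok.B.sep2 hS hF hs hw hsB (by simp [clB])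
    -- only `y`-states
    have hyy : ∀ u ∈ S, (∃ a, OccT T a ∧ u = .y a) ∨ u = .ys := by
      intro u hu
      rcases h (Finset.mem_coe.2 hu) with h1 | rfl | rfl | rfl
      · exact Or.inl h1
      · exact Or.inr rfl
      · exact absurd hu hz
      · exact absurd hu hw
    obtain ⟨s, hs, hsz⟩ := Finset.exists_mem_ne (by omega : 1 < S.card) Vs.ys
    obtain ⟨t, ht, hts⟩ := gsep_two h2 hs
    rcases hyy s hs with ⟨a, ha, rfl⟩ | rfl
    swap
    · exact absurd rfl hsz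
    refine gsep_aux tmL_ok (iL ok (mem_colors.2 ha)) tmL_sep hS ?_ hs ht (by simp [clY]) ?_
    · intro u hu
      rcases hyy u hu with ⟨b, hb, rfl⟩ | rfl
      · simp only [clY]
        split_ifs <;> decide
      · exact (by decide : Nat.testBit 3 1 = true)
    · rcases hyy t ht with ⟨b, hb, rfl⟩ | rfl
      · simp only [clY]
        rw [if_neg]
        rintro rfl
        exact hts rfl
      · rfl
  · push Not at hY
    refine gsep_F1 ok hS h2 ?_
    intro u hu
    rcases hy u (Finset.mem_coe.1 hu) with h1 | rfl | rfl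
    · exact absurd h1 (hY u (Finset.mem_coe.1 hu))
    · exact Or.inl ⟨i, 2 * j, by omega, rfl⟩
    · exact Or.inl ⟨i, 2 * j + 1, hij, rfl⟩

theorem gsep_F3 (ok : g.OK) (hT : GoodT T) {S : Finset St} (hS : S ⊆ EG T) (h2 : 2 ≤ S.card)
    {i j : ℕ} (hij : 2 * j + 1 < lenT T i) (h : (S : Set St) ⊆ sF3 T i j) :
    GSepC g T S := by
  have hh : (i, j) ∈ halfs T := mem_halfs.2 (by show j < lenT T i / 2; omega)
  obtain ⟨-, hn, hne⟩ := half_lt hT hh
  have hc : ∀ u ∈ S, u = .x ∨ u = .z i (2 * j + 1) ∨ u = .z i (nxt T i j) := by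
    intro u hu
    rcases h (Finset.mem_coe.2 hu) with h1 | h1 | h1
    · exact Or.inl h1
    · exact Or.inr (Or.inl h1)
    · exact Or.inr (Or.inr h1)
  by_cases hx : Vs.x ∈ S
  · have hF : ∀ u ∈ S, (14 : ℕ).testBit (clB i (2 * j + 1) (nxt T i j) u) = true := by
      intro u hu
      rcases hc u hu with rfl | rfl | rfl
      · exact (by decide : Nat.testBit 14 1 = true)
      · simp [clB]; decide
      · simp [clB, hne]; decide
    obtain ⟨t, ht, htx⟩ := gsep_two h2 hx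
    rcases hc t ht with rfl | rfl | rfl
    · exact absurd rfl htx
    · exact gsep_aux ok.C.ok (iC ok hT hh) ok.C.sep1 hS hF hx ht rfl (by simp [clB])
    · exact gsep_aux ok.C.ok (iC ok hT hh) ok.C.sep2 hS hF hx ht rfl (by simp [clB, hne])
  · refine gsep_F1 ok hS h2 ?_
    intro u hu
    rcases hc u (Finset.mem_coe.1 hu) with rfl | rfl | rfl
    · exact absurd (Finset.mem_coe.1 hu) hx
    · exact Or.inl ⟨i, _, hij, rfl⟩
    · exact Or.inl ⟨i, _, hn, rfl⟩

theorem gsep_F4 (ok : g.OK) (hT : GoodT T) {S : Finset St} (hS : S ⊆ EG T) (h2 : 2 ≤ S.card)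
    {i j : ℕ} (hij : j < lenT T i) (h : (S : Set St) ⊆ sF4 T i j) :
    GSepC g T S := by
  have hev := NCdef_even hT i
  have hc : ∀ u ∈ S, u = .x ∨ u = .y (colT T i j) ∨ u = .z i j := by
    intro u hu
    rcases h (Finset.mem_coe.2 hu) with h1 | h1 | h1
    · exact Or.inl h1
    · exact Or.inr (Or.inl h1)
    · exact Or.inr (Or.inr h1)
  by_cases hx : Vs.x ∈ S
  · by_cases hy : Vs.y (colT T i j) ∈ S
    · refine gsep_aux ok.G.ok (iG ok (z := (i, j)) (mem_poss.2 hij)) ok.G.sep hS ?_ hx hy rfl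
        (by simp [clG])
      intro u hu
      rcases hc u hu with rfl | rfl | rfl
      · exact (by decide : Nat.testBit 11 0 = true)
      · simp [clG]; decide
      · simp [clG]; decide
    · have hxz : ∀ u ∈ S, u = .x ∨ u = .z i j := by
        intro u hu
        rcases hc u hu with h1 | rfl | h1
        · exact Or.inl h1
        · exact absurd hu hy
        · exact Or.inr h1
      obtain ⟨m, hm⟩ := hev
      have h3 : ∃ k, 2 * k + 1 < lenT T i ∧ (j = 2 * k + 1 ∨ j = (2 * k + 2) % lenT T i) := by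
        rcases Nat.even_or_odd' j with ⟨k, hk | hk⟩
        · rcases Nat.eq_zero_or_pos k with h0 | h0
          · refine ⟨m - 1, by omega, Or.inr ?_⟩
            have : 2 * (m - 1) + 2 = lenT T i := by omega
            rw [this, Nat.mod_self]
            omega
          · refine ⟨k - 1, by omega, Or.inr ?_⟩
            rw [Nat.mod_eq_of_lt (by omega)]
            omega
        · exact ⟨k, by omega, Or.inl hk⟩
      obtain ⟨k, hk, hjk⟩ := h3
      refine gsep_F3 ok hT hS h2 hk ?_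
      intro u hu
      rcases hxz u (Finset.mem_coe.1 hu) with rfl | rfl
      · exact Or.inl rfl
      · rcases hjk with h1 | h1
        · exact Or.inr (Or.inl (by rw [h1]))
        · exact Or.inr (Or.inr (by rw [Set.mem_singleton_iff, ← h1]))
  · obtain ⟨m, hm⟩ := hev
    refine gsep_F2 ok hT hS h2 (i := i) (j := j / 2) (by omega) ?_
    intro u hu
    rcases hc u (Finset.mem_coe.1 hu) with rfl | rfl | rfl
    · exact absurd (Finset.mem_coe.1 hu) hx
    · exact Or.inl ⟨_, occ_col hij, rfl⟩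
    · rcases Nat.even_or_odd' j with ⟨k, hk | hk⟩
      · exact Or.inr (Or.inr (Or.inl (by rw [show 2 * (j / 2) = j by omega])))
      · exact Or.inr (Or.inr (Or.inr (by rw [show 2 * (j / 2) + 1 = j by omega])))

theorem netG_sep (ok : g.OK) (hT : GoodT T) {S : Finset St} (hS : S ⊆ EG T) (h2 : 2 ≤ S.card)
    (hN : S ∈ NCs T) :
    ∃ c ∈ colsG g T, ∃ e ∈ c, rG g e.1 = 1 ∧ (∀ s ∈ S, e.2.2 ∈ DG g T s e.1) ∧
      ∃ s ∈ S, ∃ t ∈ S, cgap (DG g T s) c e ≠ cgap (DG g T t) c e := by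
  rcases hN.2 with h | ⟨i, j, hij, h⟩ | ⟨i, j, hij, h⟩ | ⟨i, j, hij, h⟩
  · exact gsep_F1 ok hS h2 h
  · exact gsep_F2 ok hT hS h2 hij h
  · exact gsep_F3 ok hT hS h2 hij h
  · exact gsep_F4 ok hT hS h2 hij h

end PPI
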