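import Mathlib
import Pool.Agent.PPI.GInsts

/-!
# All solutions of the network come from states
-/

namespace PPI

open CT

variable {g : Gates} {T : List (List ℕ)}

/-- the hub `h` is in the position of the state `t` -/
def GSol_At (g : Gates) (T : List (List ℕ)) (y : Hb → ℕ → ℕ) (t : St) (h : Hb) : Prop :=
  ∀ l < (wdH g h).length - rG g h, y h l ∉ DG g T t h

theorem GSol_at_iff {τ : Tm} {K : ℕ} {φ : ℕ → Hb} {cl : St → ℕ} (I : Inst g T τ K φ cl)
    {t : St} (ht : t ∈ EG T) (y : Hb → ℕ → ℕ) {j : ℕ} (hj : j < τ.W.length) :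
    GSol_At g T y t (φ j) ↔ τ.At (fun j => y (φ j)) j (cl t) := by
  unfold GSol_At Tm.At
  rw [I.D t ht j hj, I.N j hj, I.r j hj]
  rfl

theorem GSol_exact {τ : Tm} {K n : ℕ} {φ : ℕ → Hb} {cl : St → ℕ} {faces : List ℕ}
    (ok : τ.OK K faces) (I : Inst g T τ K φ cl) {s t : St} (hs : s ∈ EG T) (ht : t ∈ EG T)
    {y : Hb → ℕ → ℕ}
    (h1 : ∀ h ∈ hubsG g T, Incr (wdH g h).length ((wdH g h).length - rG g h) (y h))
    (h2 : ∀ c ∈ colsG g T, Fits y (pat (DG g T s) c) c) (ex : τ.Exact K n)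
    (hn : n ≤ τ.W.length) (hin : ∀ j < n, GSol_At g T y t (φ j)) :
    ∀ j < τ.W.length, GSol_At g T y t (φ j) := by
  intro j hj
  rw [GSol_at_iff I ht y hj]
  refine ex (cl t) (I.lt t ht) _ (inst_sol ok I hs h1 h2) (fun i hi => ?_) j hj
  rw [← GSol_at_iff I ht y (by omega)]
  exact hin i hi

theorem GSol_om3 : ∀ c < 3, omW [1, 2, 4] c = {c} := by decide

theorem GSol_om4 : ∀ c < 4, omW [1, 2, 4, 8] c = {c} := by decide

/-- the class of the second hub of `tmL`, and the omitted point of the first one -/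
theorem GSol_tmL (y : ℕ → ℕ → ℕ) (h : tmL.Sol y) : ∃ c < 4,
    (∀ l < 2, y 0 l ≠ if c = 2 then 1 else if c = 3 then 2 else 0) ∧ ∀ l < 3, y 1 l ≠ c := by
  obtain ⟨c, hc, hat⟩ := tmL_complete y h
  refine ⟨c, hc, ?_, ?_⟩
  · intro l hl
    have h1 := hat 0 (by norm_num) l (by
      have : tmL.L 0 = 2 := by decide
      omega)
    have h2 : tmL.D c 0 = {if c = 2 then 1 else if c = 3 then 2 else 0} := by
      interval_cases c <;> decide
    rw [h2, Finset.mem_singleton] at h1
    exact h1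
  · intro l hl
    have h1 := hat 1 (by norm_num) l (by
      have : tmL.L 1 = 3 := by decide
      omega)
    have h2 : tmL.D c 1 = {c} := by
      interval_cases c <;> decide
    rw [h2, Finset.mem_singleton] at h1
    exact h1

theorem GSol_tmL' (y : ℕ → ℕ → ℕ) (h : tmL'.Sol y) : ∃ c < 4,
    (∀ l < 2, y 0 l ≠ if c = 2 then 1 else if c = 3 then 0 else 2) ∧ ∀ l < 3, y 1 l ≠ c := by
  obtain ⟨c, hc, hat⟩ := tmL'_complete y h
  refine ⟨c, hc, ?_, ?_⟩
  · intro l hl
    have h1 := hat 0 (by norm_num) l (by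
      have : tmL'.L 0 = 2 := by decide
      omega)
    have h2 : tmL'.D c 0 = {if c = 2 then 1 else if c = 3 then 0 else 2} := by
      interval_cases c <;> decide
    rw [h2, Finset.mem_singleton] at h1
    exact h1
  · intro l hl
    have h1 := hat 1 (by norm_num) l (by
      have : tmL'.L 1 = 3 := by decide
      omega)
    have h2 : tmL'.D c 1 = {c} := by
      interval_cases c <;> decide
    rw [h2, Finset.mem_singleton] at h1
    exact h1

theorem GSol_tmX (y : ℕ → ℕ → ℕ) (h : tmX.Sol y) (h0 : ∀ l < 3, y 0 l ≠ 0)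
    (h1 : ∀ l < 3, y 1 l ≠ 1) : False := by
  refine tmX_excl y h ⟨?_, ?_⟩
  · intro l hl
    have h2 : tmX.L 0 = 3 := by decide
    have h3 : tmX.D 0 0 = {0} := by decide
    rw [h3, Finset.mem_singleton]
    exact h0 l (by omega)
  · intro l hl
    have h2 : tmX.L 1 = 3 := by decide
    have h3 : tmX.D 1 1 = {1} := by decide
    rw [h3, Finset.mem_singleton]
    exact h1 l (by omega)

/-- an increasing pair of numbers below 3 omits exactly one number -/
theorem GSol_pair {u : ℕ → ℕ} (h : Incr 3 2 u) : ∃ o < 3, ∀ o' < 3, (∀ l < 2, u l ≠ o') ↔ o' = o := by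
  obtain ⟨h1, h2⟩ := h
  have a := h1 0 (by norm_num)
  have b := h1 1 (by norm_num)
  have c := h2 0 1 (by norm_num) (by norm_num)
  refine ⟨3 - u 0 - u 1, by omega, ?_⟩
  intro o' ho'
  constructor
  · intro h
    have := h 0 (by norm_num)
    have := h 1 (by norm_num)
    omega
  · rintro rfl l hl
    interval_cases l <;> omega

/-- the input hub of the gate `S` omits the point `c`: then the second hub is in the class
`c`, too -/
theorem GSol_second (ok : g.OK) {φ : ℕ → Hb} {cl : St → ℕ} (I : Inst g T g.S 4 φ cl) {s : St}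
    (hs : s ∈ EG T) {y : Hb → ℕ → ℕ}
    (h1 : ∀ h ∈ hubsG g T, Incr (wdH g h).length ((wdH g h).length - rG g h) (y h))
    (h2 : ∀ c ∈ colsG g T, Fits y (pat (DG g T s) c) c)
    (h0 : ∀ l < 3, y (φ 0) l ≠ 0) : ∀ l < 3, y (φ 1) l ≠ 1 := by
  have hS := ok.S
  have hat : g.S.At (fun j => y (φ j)) 0 0 := by
    intro l hl
    have h3 : g.S.L 0 = 3 := by
      unfold Tm.L
      rw [hS.w0]
      decide
    have h4 : g.S.D 0 0 = {0} := by
      unfold Tm.D
      rw [hS.w0]
      decide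
    rw [h4, Finset.mem_singleton]
    exact h0 l (by omega)
  have h5 := hS.ex 0 (by norm_num) _ (inst_sol hS.ok I hs h1 h2) (fun j hj => by
    obtain rfl : j = 0 := by omega
    exact hat) 1 (by have := hS.two; omega)
  intro l hl
  have h3 : g.S.L 1 = 3 := by
    unfold Tm.L
    rw [hS.w1]
    decide
  have h4 : g.S.D 0 1 = {1} := by
    unfold Tm.D
    rw [hS.w1]
    decide
  have h6 := h5 l (by omega)
  rw [h4, Finset.mem_singleton] at h6
  exact h6

theorem GSol_first (ok : g.OK) {y : Hb → ℕ → ℕ} {t : St} {h : Hb}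
    (hw : wdH g h = g.S.wd 0) {c : ℕ} (hc : c < 4) (hcl : clH T h t = c)
    (h0 : ∀ l < 3, y h l ≠ c) : GSol_At g T y t h := by
  intro l hl
  have h1 : DG g T t h = {c} := by
    unfold DG
    rw [hw, hcl, ok.S.w0]
    exact GSol_om4 c hc
  have h2 : (wdH g h).length - rG g h = 3 := by
    unfold rG
    rw [hw, ok.S.w0]
    decide
  rw [h1, Finset.mem_singleton]
  exact h0 l (by omega)

theorem netG_sol (ok : g.OK) (hT : GoodT T) {s : St} (hs : s ∈ EG T) (y : Hb → ℕ → ℕ)
    (h1 : ∀ h ∈ hubsG g T, Incr (wdH g h).length ((wdH g h).length - rG g h) (y h))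
    (h2 : ∀ c ∈ colsG g T, Fits y (pat (DG g T s) c) c) :
    ∃ t ∈ EG T, ∀ h ∈ hubsG g T, ∀ l < (wdH g h).length - rG g h, y h l ∉ DG g T t h := by
  classical
  -- it is enough to treat `V₀` and the first hubs of the gates `S`
  have key : ∀ t ∈ EG T, GSol_At g T y t (0, 0, 0, 0) →
      (∀ a ∈ colors T, GSol_At g T y t (1, a, 0, 0)) →
      (∀ z ∈ poss T, GSol_At g T y t (2, z.1, z.2, 0)) →
      ∀ h ∈ hubsG g T, GSol_At g T y t h := by
    intro t ht hV hY hZ
    have hYn : ∀ a ∈ colors T, ∀ n < g.S.W.length, GSol_At g T y t (hmY a n) := by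
      intro a ha
      refine GSol_exact ok.S.ok (iSY ok ha) hs ht h1 h2 ok.S.ex (by have := ok.S.two; omega) ?_
      intro j hj
      obtain rfl : j = 0 := by omega
      exact hY a ha
    have hZn : ∀ z ∈ poss T, ∀ n < g.S.W.length, GSol_At g T y t (hmZ z.1 z.2 n) := by
      intro z hz
      refine GSol_exact ok.S.ok (iSZ ok hz) hs ht h1 h2 ok.S.ex (by have := ok.S.two; omega) ?_
      intro j hj
      obtain rfl : j = 0 := by omega
      exact hZ z hz
    have hcol : ∀ z ∈ poss T, colT T z.1 z.2 ∈ colors T := fun z hz =>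
      mem_colors.2 (occ_col (mem_poss.1 hz))
    have two := ok.S.two
    intro h hh
    rcases hubs_cases hh with rfl | ⟨a, ha, n, hn, rfl⟩ | ⟨z, hz, n, hn, rfl⟩ |
      ⟨z, hz, n, hn, -, rfl⟩ | ⟨z, hz, n, hn, -, rfl⟩ | ⟨z, hz, n, hn, -, rfl⟩
    · exact hV
    · exact hYn a ha n hn
    · exact hZn z hz n hn
    · refine GSol_exact ok.G.ok (iG ok hz) hs ht h1 h2 ok.G.ex ok.G.five ?_ n hn
      intro j hj
      interval_cases j
      · exact hYn _ (hcol z hz) 0 (by omega)
      · exact hYn _ (hcol z hz) 1 (by omega)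
      · exact hZn z hz 0 (by omega)
      · exact hZn z hz 1 (by omega)
      · exact hV
    · obtain ⟨e1, e2, e3⟩ := half_lt hT hz
      refine GSol_exact ok.B.ok (iB ok hT hz) hs ht h1 h2 ok.B.ex ok.B.five ?_ n hn
      intro j hj
      interval_cases j
      · exact hZn (z.1, 2 * z.2) (mem_poss.2 (by simp only; omega)) 0 (by omega)
      · exact hZn (z.1, 2 * z.2) (mem_poss.2 (by simp only; omega)) 1 (by omega)
      · exact hZn (z.1, 2 * z.2 + 1) (mem_poss.2 e1) 0 (by omega)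
      · exact hZn (z.1, 2 * z.2 + 1) (mem_poss.2 e1) 1 (by omega)
      · exact hV
    · obtain ⟨e1, e2, e3⟩ := half_lt hT hz
      refine GSol_exact ok.C.ok (iC ok hT hz) hs ht h1 h2 ok.C.ex ok.C.five ?_ n hn
      intro j hj
      interval_cases j
      · exact hZn (z.1, 2 * z.2 + 1) (mem_poss.2 e1) 0 (by omega)
      · exact hZn (z.1, 2 * z.2 + 1) (mem_poss.2 e1) 1 (by omega)
      · exact hZn (z.1, nxt T z.1 z.2) (mem_poss.2 e2) 0 (by omega)
      · exact hZn (z.1, nxt T z.1 z.2) (mem_poss.2 e2) 1 (by omega)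
      · exact hV
  -- the omitted point of `V₀`
  have hV0 : ((0, 0, 0, 0) : Hb) ∈ hubsG g T := by
    unfold hubsG
    simp
  have hI := h1 _ hV0
  have hr1 : rG g (0, 0, 0, 0) = 1 := by
    change (omW [1, 2, 4] 0).card = 1
    decide
  have hr2 : (wdH g (0, 0, 0, 0)).length - rG g (0, 0, 0, 0) = 2 := by
    rw [hr1]
    rfl
  have hI' : Incr 3 2 (y (0, 0, 0, 0)) := by
    rw [hr2] at hI
    exact hI
  obtain ⟨o, ho, hou⟩ := GSol_pair hI'
  have hVat : ∀ t : St, clV t = o → GSol_At g T y t (0, 0, 0, 0) := by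
    intro t ht l hl
    have e1 : DG g T t (0, 0, 0, 0) = {o} := by
      change omW [1, 2, 4] (clV t) = {o}
      rw [ht]
      exact GSol_om3 o ho
    rw [e1, Finset.mem_singleton]
    exact (hou o ho).2 rfl l (hr2 ▸ hl)
  -- the first hubs
  have hYc : ∀ a ∈ colors T, ∃ c < 4, (if c = 2 then 1 else if c = 3 then 2 else 0) = o ∧
      ∀ l < 3, y (1, a, 0, 0) l ≠ c := by
    intro a ha
    obtain ⟨c, hc, h3, h4⟩ := GSol_tmL _ (inst_sol tmL_ok (iL ok ha) hs h1 h2)
    exact ⟨c, hc, (hou _ (by split_ifs <;> omega)).1 h3, h4⟩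
  have hZc : ∀ z ∈ poss T, ∃ c < 4, (if c = 2 then 1 else if c = 3 then 0 else 2) = o ∧
      ∀ l < 3, y (2, z.1, z.2, 0) l ≠ c := by
    intro z hz
    obtain ⟨c, hc, h3, h4⟩ := GSol_tmL' _ (inst_sol tmL'_ok (iL' ok hz) hs h1 h2)
    exact ⟨c, hc, (hou _ (by split_ifs <;> omega)).1 h3, h4⟩
  have hYat : ∀ t : St, ∀ a, (∀ l < 3, y (1, a, 0, 0) l ≠ clY a t) → clY a t < 4 →
      GSol_At g T y t (1, a, 0, 0) := fun t a h3 h4 => GSol_first ok rfl h4 rfl h3
  have hZat : ∀ t : St, ∀ z : ℕ × ℕ, (∀ l < 3, y (2, z.1, z.2, 0) l ≠ clZ z.1 z.2 t) →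
      clZ z.1 z.2 t < 4 → GSol_At g T y t (2, z.1, z.2, 0) :=
    fun t z h3 h4 => GSol_first ok rfl h4 rfl h3
  have fin : ∀ t ∈ EG T, clV t = o →
      (∀ a ∈ colors T, (∀ l < 3, y (1, a, 0, 0) l ≠ clY a t) ∧ clY a t < 4) →
      (∀ z ∈ poss T, (∀ l < 3, y (2, z.1, z.2, 0) l ≠ clZ z.1 z.2 t) ∧ clZ z.1 z.2 t < 4) →
      ∃ t ∈ EG T, ∀ h ∈ hubsG g T, ∀ l < (wdH g h).length - rG g h, y h l ∉ DG g T t h :=
    fun t ht h3 h4 h5 => ⟨t, ht, key t ht (hVat t h3)
      (fun a ha => hYat t a (h4 a ha).1 (h4 a ha).2)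
      (fun z hz => hZat t z (h5 z hz).1 (h5 z hz).2)⟩
  interval_cases o
  · -- the `y`-states
    have hZ3 : ∀ z ∈ poss T, ∀ l < 3, y (2, z.1, z.2, 0) l ≠ 3 := by
      intro z hz
      obtain ⟨c, hc, h3, h4⟩ := hZc z hz
      have : c = 3 := by
        split_ifs at h3 <;> omega
      rw [this] at h4
      exact h4
    by_cases hex : ∃ a ∈ colors T, ∀ l < 3, y (1, a, 0, 0) l ≠ 0
    · obtain ⟨a, ha, h3⟩ := hex
      refine fin (.y a) (mem_EG.2 (Or.inr (Or.inr (Or.inr (Or.inl ⟨a, ha, rfl⟩))))) rfl ?_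
        (fun z hz => ⟨hZ3 z hz, by change 3 < 4; norm_num⟩)
      intro b hb
      by_cases hab : a = b
      · subst hab
        have : clY a (.y a) = 0 := if_pos rfl
        rw [this]
        exact ⟨h3, by norm_num⟩
      · have : clY b (.y a) = 1 := if_neg hab
        rw [this]
        refine ⟨?_, by norm_num⟩
        obtain ⟨c, hc, h4, h5⟩ := hYc b hb
        have hc' : c = 0 ∨ c = 1 := by
          split_ifs at h4 <;> omega
        rcases hc' with rfl | rfl
        · exfalso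
          have h6 := GSol_second ok (iSY ok hb) hs h1 h2 h5
          exact GSol_tmX _ (inst_sol tmX_ok (iXY ok ha hb hab) hs h1 h2) h3 h6
        · exact h5
    · refine fin .ys (mem_EG.2 (Or.inr (Or.inl rfl))) rfl ?_
        (fun z hz => ⟨hZ3 z hz, by change 3 < 4; norm_num⟩)
      intro b hb
      obtain ⟨c, hc, h4, h5⟩ := hYc b hb
      have hc' : c = 0 ∨ c = 1 := by
        split_ifs at h4 <;> omega
      rcases hc' with rfl | rfl
      · exact absurd ⟨b, hb, h5⟩ hex
      · exact ⟨h5, by change 1 < 4; norm_num⟩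
  · -- the state `x`
    refine fin .x (mem_EG.2 (Or.inl rfl)) rfl ?_ ?_
    · intro a ha
      obtain ⟨c, hc, h3, h4⟩ := hYc a ha
      have : c = 2 := by
        split_ifs at h3 <;> omega
      subst this
      exact ⟨h4, hc⟩
    · intro z hz
      obtain ⟨c, hc, h3, h4⟩ := hZc z hz
      have : c = 2 := by
        split_ifs at h3 <;> omega
      subst this
      exact ⟨h4, hc⟩
  · -- the `z`-states
    have hY3 : ∀ a ∈ colors T, ∀ l < 3, y (1, a, 0, 0) l ≠ 3 := by
      intro a ha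
      obtain ⟨c, hc, h3, h4⟩ := hYc a ha
      have : c = 3 := by
        split_ifs at h3 <;> omega
      rw [this] at h4
      exact h4
    by_cases hex : ∃ z ∈ poss T, ∀ l < 3, y (2, z.1, z.2, 0) l ≠ 0
    · obtain ⟨z, hz, h3⟩ := hex
      refine fin (.z z.1 z.2) (mem_EG.2 (Or.inr (Or.inr (Or.inr (Or.inr ⟨z, hz, rfl⟩))))) rfl
        (fun a ha => ⟨hY3 a ha, by change 3 < 4; norm_num⟩) ?_
      intro w hw
      by_cases hzw : z = w
      · subst hzw
        have : clZ z.1 z.2 (.z z.1 z.2) = 0 := if_pos ⟨rfl, rfl⟩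
        rw [this]
        exact ⟨h3, by norm_num⟩
      · have : clZ w.1 w.2 (.z z.1 z.2) = 1 := by
          refine if_neg ?_
          rintro ⟨e1, e2⟩
          exact hzw (Prod.ext e1 e2)
        rw [this]
        refine ⟨?_, by norm_num⟩
        obtain ⟨c, hc, h4, h5⟩ := hZc w hw
        have hc' : c = 0 ∨ c = 1 := by
          split_ifs at h4 <;> omega
        rcases hc' with rfl | rfl
        · exfalso
          have h6 := GSol_second ok (iSZ ok hw) hs h1 h2 h5
          exact GSol_tmX _ (inst_sol tmX_ok (iXZ ok hz hw hzw) hs h1 h2) h3 h6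
        · exact h5
    · refine fin .zs (mem_EG.2 (Or.inr (Or.inr (Or.inl rfl)))) rfl
        (fun a ha => ⟨hY3 a ha, by change 3 < 4; norm_num⟩) ?_
      intro w hw
      obtain ⟨c, hc, h4, h5⟩ := hZc w hw
      have hc' : c = 0 ∨ c = 1 := by
        split_ifs at h4 <;> omega
      rcases hc' with rfl | rfl
      · exact absurd ⟨w, hw, h5⟩ hex
      · exact ⟨h5, by change 1 < 4; norm_num⟩

end PPI
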