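import Mathlib
import Pool.Agent.PPI.GSol
import Pool.Agent.PPI.GBox
import Pool.Agent.PPI.GSep

/-!
# The network of a list of alternating words satisfies the hypotheses of the network theorem
-/

namespace PPI

open CT
open scoped ContinuousMap

variable {g : Gates} {T : List (List ℕ)}

/-- every hub other than `V₀` belongs to an instance of a well-formed template -/
theorem GMain_inst (ok : g.OK) (hT : GoodT T) {h : Hb} (hh : h ∈ hubsG g T) :
    h = (0, 0, 0, 0) ∨ ∃ τ K faces φ cl, Tm.OK τ K faces ∧ Inst g T τ K φ cl ∧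
      ∃ n < τ.W.length, h = φ n := by
  rcases hubs_cases hh with h0 | ⟨a, ha, n, hn, rfl⟩ | ⟨z, hz, n, hn, rfl⟩ |
    ⟨z, hz, n, hn, -, rfl⟩ | ⟨z, hz, n, hn, -, rfl⟩ | ⟨z, hz, n, hn, -, rfl⟩
  · exact Or.inl h0
  · exact Or.inr ⟨_, _, _, _, _, ok.S.ok, iSY ok ha, n, hn, rfl⟩
  · exact Or.inr ⟨_, _, _, _, _, ok.S.ok, iSZ ok hz, n, hn, rfl⟩
  · exact Or.inr ⟨_, _, _, _, _, ok.G.ok, iG ok hz, n, hn, rfl⟩
  · exact Or.inr ⟨_, _, _, _, _, ok.B.ok, iB ok hT hz, n, hn, rfl⟩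
  · exact Or.inr ⟨_, _, _, _, _, ok.C.ok, iC ok hT hz, n, hn, rfl⟩

theorem GMain_clV (s : St) : clV s = 0 ∨ clV s = 1 ∨ clV s = 2 := by
  cases s <;> simp [clV]

theorem GMain_V0 : ((0, 0, 0, 0) : Hb) ∈ hubsG g T := by
  simp [hubsG]

theorem GMain_om (c : ℕ) (hc : c = 0 ∨ c = 1 ∨ c = 2) : (omW [1, 2, 4] c).card = 1 := by
  rcases hc with rfl | rfl | rfl <;> decide

theorem GMain_r0 : rG g (0, 0, 0, 0) = 1 := GMain_om 0 (Or.inl rfl)

theorem netG_ok (ok : g.OK) (hT : GoodT T) : NetOK (netG g T) (EG T) (DG g T) (rG g) where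
  ne := ⟨Vs.x, mem_EG.2 (Or.inl rfl)⟩
  hn := hubsG_nodup
  cn := by
    intro c hc
    obtain ⟨τ, K, faces, φ, cl, hok, I, col, hcol, rfl⟩ := cols_cases ok hT hc
    exact inst_nodup hok I hcol
  ce := by
    intro c hc e he
    obtain ⟨τ, K, faces, φ, cl, hok, I, col, hcol, rfl⟩ := cols_cases ok hT hc
    obtain ⟨e0, he0, rfl⟩ := List.mem_map.1 he
    obtain ⟨h1, h2⟩ := hok.ent col hcol e0 he0
    exact ⟨I.hub _ h1, by
      show e0.2.2 < (wdH g (φ e0.1)).length
      rw [I.N _ h1]; exact h2⟩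
  Dsub := by
    intro s _ h _ p hp
    have : p ∈ omW (wdH g h) (clH T h s) := hp
    unfold omW at this
    exact Finset.mem_range.1 (Finset.mem_filter.1 this).1
  Dcard := by
    intro s hs h hh
    rcases GMain_inst ok hT hh with rfl | ⟨τ, K, faces, φ, cl, hok, I, n, hn, rfl⟩
    · rw [GMain_r0]
      exact GMain_om _ (GMain_clV s)
    · rw [I.D s hs n hn, I.r n hn]
      exact hok.card n hn _ (I.lt s hs)
  rlt := by
    intro h hh
    rcases GMain_inst ok hT hh with rfl | ⟨τ, K, faces, φ, cl, hok, I, n, hn, rfl⟩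
    · rw [GMain_r0]
      show 1 < [1, 2, 4].length
      decide
    · show rG g (φ n) < (wdH g (φ n)).length
      rw [I.N n hn, I.r n hn]
      exact hok.lt n hn
  pc := by
    intro s hs t ht c hc
    obtain ⟨τ, K, faces, φ, cl, hok, I, col, hcol, rfl⟩ := cols_cases ok hT hc
    rw [inst_pat hok I hcol hs, inst_pat hok I hcol ht]
  sol := by
    intro s hs y h1 h2
    exact netG_sol ok hT hs y h1 h2
  box := by
    intro h hh s hs p hp
    exact netG_box ok hT hh hs hp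
  sep := by
    intro S hS h2 hex
    refine netG_sep ok hT hS h2 ?_
    rw [← netG_nerve ok hT]
    exact ⟨Finset.card_pos.1 (by omega), hS, hex⟩
  one := ⟨(0, 0, 0, 0), GMain_V0, GMain_r0⟩

/-- **the interval of a list of words has the homotopy type of the nerve complex** -/
theorem glob_equiv {P : Type} [PartialOrder P] {pd : Finset (Pt Hb) → P} (ok : g.OK)
    (hT : GoodT T)
    (B : PD (netG g T).pk (netG g T).V (EG T) (fun s => DP (netG g T) (DG g T s)) pd) :
    Nonempty (Rz (OC (Set.Ioo (pd (DP (netG g T) (DG g T .x))) (pd ∅))) ≃ₕ Rz (NCs T)) := by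
  have hx : (Vs.x : St) ∈ EG T := mem_EG.2 (Or.inl rfl)
  obtain ⟨e⟩ := net_equiv (netG_ok ok hT) B hx
  rw [netG_nerve ok hT] at e
  exact ⟨e⟩

end PPI
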