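import Mathlib
import Pool.Agent.PPI.GMain
import Pool.Agent.PP.BoardV
import Pool.Agent.PP.Undec

/-!
# The two permutations of a list of alternating words
-/

namespace PPI

open CT
open scoped ContinuousMap

variable (g : Gates) (T : List (List ℕ))

/-- the radius of the board -/
def rad : ℕ := numOm (netG g T) (rG g)

/-- column, row and positions of a point -/
def qd (a : Pt Hb) : ℕ × ℕ × ℕ × ℕ :=
  PP.quad (netG g T).pk.col (netG g T).pk.row (netG g T).pk.kx (netG g T).pk.ky a

/-- the points which are not omitted by the state `x` -/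
def kept : List (Pt Hb) := (netG g T).pts.filter fun a => !Om (DG g T .x) a

/-- the small permutation -/
def sL : List ℕ :=
  PP.bd (rad g T, (netG g T).pts.map (qd g T), (kept g T).map (qd g T))

/-- the large permutation -/
def pL : List ℕ :=
  PP.bd (rad g T, (netG g T).pts.map (qd g T), (netG g T).pts.map (qd g T))

/-- the elements of the pattern poset given by sets of points -/
noncomputable def pdG (Q : Finset (Pt Hb)) : PP.PPerm :=
  PP.pd (netG g T).V (netG g T).pk.col (netG g T).pk.row (netG g T).pk.kx (netG g T).pk.ky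
    (rad g T) Q

variable {g T}

/-- board: general version -/
theorem board_PD {α ι : Type} [DecidableEq α] {k : Keys α} {V : Finset α} {E : Finset ι}
    {D : ι → Finset α} (hk : k.Inj V) (hD : ∀ s ∈ E, D s ⊆ V) {r : ℕ}
    (hr : ∀ s ∈ E, (D s).card ≤ r) :
    PD k V E D (PP.pd V k.col k.row k.kx k.ky r) := by
  have hc : ∀ x ∈ V, ∀ y ∈ V, k.col x = k.col y → k.kx x = k.kx y → x = y := hk.x
  have hr' : ∀ x ∈ V, ∀ y ∈ V, k.row x = k.row y → k.ky x = k.ky y → x = y := hk.y
  refine ⟨?_, ?_, ?_⟩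
  · intro s hs Q hQ Q' hQ'
    rw [PP.pd_eq_iff hc hr' ((Finset.card_le_card hQ).trans (hr s hs)) (hQ.trans (hD s hs))]
    constructor
    · rintro ⟨θ, h⟩
      exact ⟨θ, h.bij, h.hcol, h.hrow, h.hx, h.hy⟩
    · rintro ⟨θ, h⟩
      exact ⟨θ, h.bij, h.col, h.row, h.x, h.y⟩
  · intro Q Q' h _
    exact PP.pd_anti hc hr' r h
  · intro s hs Q hQ τ h1 h2
    exact PP.exists_pd hc hr' (hr s hs) (hD s hs) hQ h1 h2

theorem pdG_PD (ok : g.OK) (hT : GoodT T) : PD (netG g T).pk (netG g T).V (EG T)
    (fun s => DP (netG g T) (DG g T s)) (pdG g T) :=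
  board_PD (pk_inj (netG_ok ok hT)) (fun _ _ => Finset.filter_subset _ _)
    (fun _ hs => DP_card (netG_ok ok hT) hs)

theorem sL_spec (ok : g.OK) (hT : GoodT T) : PP.IsPerm (sL g T) ∧
    PP.permOf (sL g T) = pdG g T (DP (netG g T) (DG g T .x)) := by
  have hk := pk_inj (netG_ok ok hT)
  have hnd := pts_nodup (netG_ok ok hT)
  refine PP.bd_spec hk.x hk.y (rad g T) (DP (netG g T) (DG g T .x)) (netG g T).pts (kept g T)
    hnd (hnd.filter _) (fun x => (List.mem_toFinset).symm) ?_
  intro x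
  unfold kept DP Net.V
  rw [List.mem_filter, Finset.mem_sdiff, Finset.mem_filter, List.mem_toFinset]
  cases Om (DG g T .x) x <;> simp

theorem pL_spec (ok : g.OK) (hT : GoodT T) : PP.IsPerm (pL g T) ∧
    PP.permOf (pL g T) = pdG g T ∅ := by
  have hk := pk_inj (netG_ok ok hT)
  have hnd := pts_nodup (netG_ok ok hT)
  refine PP.bd_spec hk.x hk.y (rad g T) ∅ (netG g T).pts (netG g T).pts
    hnd hnd (fun x => (List.mem_toFinset).symm) ?_
  intro x
  rw [Finset.sdiff_empty]
  exact (List.mem_toFinset).symm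

theorem realises (ok : g.OK) : PP.Realises (sL g) (pL g) := by
  intro T hT
  obtain ⟨h1, h2⟩ := sL_spec ok hT
  obtain ⟨h3, h4⟩ := pL_spec ok hT
  have B := pdG_PD ok hT
  obtain ⟨e⟩ := glob_equiv ok hT B
  refine ⟨h1, h3, ?_, ?_, ?_⟩
  · rw [h2, h4]
    exact B.anti _ _ (Finset.empty_subset _) (Finset.filter_subset _ _)
  · rintro ⟨h5, -⟩
    unfold PP.Delta
    rw [h2, h4]
    exact isWedge_of_equiv e.symm h5
  · intro h5
    unfold PP.Delta
    rw [h2, h4]
    exact not_isWedge (hasZ2_of_equiv e.symm h5)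

end PPI
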