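import Mathlib
import Pool.Agent.PPI.Fin

/-!
# The two permutations are primitive recursive functions of the list of words
-/

namespace PPI

open CT

/-! ### general facts -/

theorem pr_pow : Primrec₂ (fun a b : ℕ => a ^ b) := Primrec₂.unpaired'.1 Nat.Primrec.pow

theorem pr_testBit : Primrec₂ (fun a b : ℕ => Nat.testBit a b) := by
  have h : PrimrecRel (fun a b : ℕ => a / 2 ^ b % 2 = 1) := by
    refine Primrec.eq.comp ?_ (Primrec.const 1)
    exact Primrec.nat_mod.comp (Primrec.nat_div.comp Primrec.fst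
      (pr_pow.comp (Primrec.const 2) Primrec.snd)) (Primrec.const 2)
  refine h.decide.of_eq ?_
  intro a b
  rw [Nat.testBit_eq_decide_div_mod_eq]

theorem pr_sum : Primrec (fun l : List ℕ => l.sum) := by
  have h4 : Primrec₂ (fun (_ : List ℕ) (z : ℕ × ℕ) => z.1 + z.2) :=
    Primrec.nat_add.comp (Primrec.fst.comp Primrec.snd) (Primrec.snd.comp Primrec.snd)
  exact (Primrec.list_foldr (Primrec.id (α := List ℕ)) (Primrec.const 0) h4).of_eq
    fun l => rfl

theorem pr_mem {α : Type} [Primcodable α] [DecidableEq α] :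
    PrimrecRel (fun (a : α) (l : List α) => a ∈ l) := by
  have h : PrimrecRel (fun (a : α) (l : List α) => l.idxOf a < l.length) :=
    Primrec.nat_lt.comp (Primrec.list_idxOf.comp Primrec.fst Primrec.snd)
      (Primrec.list_length.comp Primrec.snd)
  refine h.of_eq fun a l => ?_
  exact List.idxOf_lt_length_iff

theorem idxOf_inst {α : Type} (b1 b2 : BEq α) [@LawfulBEq α b1] [@LawfulBEq α b2] (a : α)
    (l : List α) : @List.idxOf α b1 a l = @List.idxOf α b2 a l := by
  rw [lawful_beq_subsingleton b1 b2]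

/-- filtering with a parameter -/
theorem pr_filter {α β : Type} [Primcodable α] [Primcodable β] {f : β → List α}
    {p : β → α → Bool} (hf : Primrec f) (hp : Primrec₂ p) :
    Primrec (fun b => (f b).filter (p b)) := by
  have h : PrimrecRel (fun (a : α) (b : β) => p b a = true) :=
    Primrec.eq.comp (hp.comp Primrec.snd Primrec.fst) (Primrec.const true)
  refine (h.listFilter.comp hf Primrec.id).of_eq ?_
  intro b
  simp

variable (g : Gates)

theorem pr_lenT : Primrec₂ lenT :=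
  Primrec.list_length.comp ((Primrec.list_getD []).comp Primrec.fst Primrec.snd)

theorem pr_colT : Primrec₂ (fun (T : List (List ℕ)) (z : ℕ × ℕ) => colT T z.1 z.2) :=
  (Primrec.list_getD 0).comp ((Primrec.list_getD []).comp Primrec.fst
    (Primrec.fst.comp Primrec.snd)) (Primrec.snd.comp Primrec.snd)

theorem pr_nxt : Primrec₂ (fun (T : List (List ℕ)) (z : ℕ × ℕ) => nxt T z.1 z.2) := by
  refine Primrec.nat_mod.comp ?_ (pr_lenT.comp Primrec.fst (Primrec.fst.comp Primrec.snd))
  exact Primrec.nat_add.comp (Primrec.nat_mul.comp (Primrec.const 2)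
    (Primrec.snd.comp Primrec.snd)) (Primrec.const 2)

theorem primrec_colors : Primrec colors := by
  unfold colors
  refine pr_filter (Primrec.list_range.comp (Primrec.succ.comp
    (pr_sum.comp Primrec.list_flatten))) ?_
  exact (pr_mem.comp Primrec.snd (Primrec.list_flatten.comp Primrec.fst)).decide

theorem primrec_poss : Primrec poss := by
  unfold poss
  refine Primrec.list_flatMap (Primrec.list_range.comp Primrec.list_length) ?_
  refine Primrec.list_map (Primrec.list_range.comp (pr_lenT.comp Primrec.fst Primrec.snd)) ?_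
  exact (Primrec.snd.comp Primrec.fst).pair Primrec.snd

theorem primrec_halfs : Primrec halfs := by
  unfold halfs
  refine Primrec.list_flatMap (Primrec.list_range.comp Primrec.list_length) ?_
  refine Primrec.list_map (Primrec.list_range.comp (Primrec.nat_div.comp
    (pr_lenT.comp Primrec.fst Primrec.snd) (Primrec.const 2))) ?_
  exact (Primrec.snd.comp Primrec.fst).pair Primrec.snd

/-! ### hubs -/

theorem pr_hub1 (c m : ℕ) (f : List (List ℕ) → List ℕ) (hf : Primrec f) :
    Primrec (fun T => ((f T).flatMap fun a => (List.range m).map fun n =>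
      ((c, a, 0, n) : Hb))) := by
  refine Primrec.list_flatMap hf ?_
  refine Primrec.list_map (Primrec.const _) ?_
  exact (Primrec.const c).pair ((Primrec.snd.comp Primrec.fst).pair
    ((Primrec.const 0).pair Primrec.snd))

theorem pr_hub2 (c m d : ℕ) (f : List (List ℕ) → List (ℕ × ℕ)) (hf : Primrec f) :
    Primrec (fun T => ((f T).flatMap fun z => (List.range m).map fun n =>
      ((c, z.1, z.2, n + d) : Hb))) := by
  refine Primrec.list_flatMap hf ?_
  refine Primrec.list_map (Primrec.const _) ?_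
  have hz : Primrec (fun w : (List (List ℕ) × (ℕ × ℕ)) × ℕ => w.1.2) :=
    Primrec.snd.comp Primrec.fst
  exact (Primrec.const c).pair ((Primrec.fst.comp hz).pair
    ((Primrec.snd.comp hz).pair (Primrec.nat_add.comp Primrec.snd (Primrec.const d))))

theorem primrec_hubsG : Primrec (hubsG g) := by
  unfold hubsG
  refine Primrec.list_append.comp (Primrec.list_append.comp (Primrec.list_append.comp
    (Primrec.list_append.comp (Primrec.list_append.comp (Primrec.const _) ?_) ?_) ?_) ?_) ?_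
  · exact pr_hub1 1 _ _ primrec_colors
  · exact pr_hub2 2 _ 0 _ primrec_poss
  · exact pr_hub2 3 _ 5 _ primrec_poss
  · exact pr_hub2 4 _ 5 _ primrec_halfs
  · exact pr_hub2 5 _ 5 _ primrec_halfs

theorem wdH_eq (h : Hb) : wdH g h = if h.1 = 0 then [1, 2, 4] else if h.1 = 1 then
    g.S.wd h.2.2.2 else if h.1 = 2 then g.S.wd h.2.2.2 else if h.1 = 3 then g.G.wd h.2.2.2
    else if h.1 = 4 then g.B.wd h.2.2.2 else g.C.wd h.2.2.2 := by
  obtain ⟨k, a, b, n⟩ := h
  match k with
  | 0 => rfl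
  | 1 => rfl
  | 2 => rfl
  | 3 => rfl
  | 4 => rfl
  | k + 5 => simp [wdH]

theorem pr_wd (τ : Tm) : Primrec τ.wd := (Primrec.list_getD []).comp (Primrec.const _) Primrec.id

theorem primrec_wdH : Primrec (wdH g) := by
  have h4 : Primrec (fun h : Hb => h.2.2.2) := Primrec.snd.comp (Primrec.snd.comp Primrec.snd)
  have e : ∀ c : ℕ, PrimrecPred (fun h : Hb => h.1 = c) := fun c =>
    Primrec.eq.comp Primrec.fst (Primrec.const c)
  have h := Primrec.ite (e 0) (Primrec.const [1, 2, 4]) (Primrec.ite (e 1)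
    ((pr_wd g.S).comp h4) (Primrec.ite (e 2) ((pr_wd g.S).comp h4) (Primrec.ite (e 3)
      ((pr_wd g.G).comp h4) (Primrec.ite (e 4) ((pr_wd g.B).comp h4) ((pr_wd g.C).comp h4)))))
  exact h.of_eq fun a => (wdH_eq g a).symm

/-! ### columns -/

theorem pr_ren {σ : Type} [Primcodable σ] {φ : σ → ℕ → Hb} (hφ : Primrec₂ φ)
    (cols : List (List (Ent ℕ))) : Primrec (fun s => ren (φ s) cols) := by
  unfold ren
  refine Primrec.list_map (Primrec.const _) ?_
  refine Primrec.list_map Primrec.snd ?_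
  have h1 : Primrec (fun w : (σ × List (Ent ℕ)) × Ent ℕ => w.1.1) :=
    Primrec.fst.comp Primrec.fst
  have h2 : Primrec (fun w : (σ × List (Ent ℕ)) × Ent ℕ => w.2.1) := Primrec.fst.comp Primrec.snd
  have h3 : Primrec (fun w : (σ × List (Ent ℕ)) × Ent ℕ => w.2.2) := Primrec.snd.comp Primrec.snd
  exact (hφ.comp h1 h2).pair h3

theorem pr_ite_n {σ : Type} [Primcodable σ] (c : ℕ) {f e : σ → ℕ → Hb} (hf : Primrec₂ f)
    (he : Primrec₂ e) : Primrec₂ (fun s n => if n = c then f s n else e s n) :=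
  Primrec.ite (Primrec.eq.comp Primrec.snd (Primrec.const c)) hf he

theorem pr_hb {σ : Type} [Primcodable σ] {a b c d : σ → ℕ → ℕ} (ha : Primrec₂ a)
    (hb : Primrec₂ b) (hc : Primrec₂ c) (hd : Primrec₂ d) :
    Primrec₂ (fun s n => ((a s n, b s n, c s n, d s n) : Hb)) :=
  Primrec.pair ha (Primrec.pair hb (Primrec.pair hc hd))

theorem pr_cst {σ : Type} [Primcodable σ] (c : ℕ) : Primrec₂ (fun (_ : σ) (_ : ℕ) => c) :=
  Primrec.const c

theorem pr_snd {σ : Type} [Primcodable σ] : Primrec₂ (fun (_ : σ) (n : ℕ) => n) :=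
  Primrec.snd

/-- the parameters -/
theorem pr_P1 : Primrec₂ (fun (s : List (List ℕ) × (ℕ × ℕ)) (_ : ℕ) => s.2.1) :=
  Primrec.fst.comp (Primrec.snd.comp Primrec.fst)

theorem pr_P2 : Primrec₂ (fun (s : List (List ℕ) × (ℕ × ℕ)) (_ : ℕ) => s.2.2) :=
  Primrec.snd.comp (Primrec.snd.comp Primrec.fst)

theorem pr_P2a : Primrec₂ (fun (s : List (List ℕ) × (ℕ × ℕ)) (_ : ℕ) => 2 * s.2.2) :=
  Primrec.nat_mul.comp (Primrec.const 2) pr_P2

theorem pr_P2b : Primrec₂ (fun (s : List (List ℕ) × (ℕ × ℕ)) (_ : ℕ) => 2 * s.2.2 + 1) :=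
  Primrec.succ.comp pr_P2a

theorem pr_PC : Primrec₂ (fun (s : List (List ℕ) × (ℕ × ℕ)) (_ : ℕ) =>
    colT s.1 s.2.1 s.2.2) :=
  (pr_colT.comp Primrec.fst Primrec.snd).comp Primrec.fst

theorem pr_PN : Primrec₂ (fun (s : List (List ℕ) × (ℕ × ℕ)) (_ : ℕ) =>
    nxt s.1 s.2.1 s.2.2) :=
  (pr_nxt.comp Primrec.fst Primrec.snd).comp Primrec.fst

theorem primrec_colsG : Primrec (colsG g) := by
  unfold colsG
  have hp1 : Primrec₂ (fun (s : List (List ℕ) × ℕ) (_ : ℕ) => s.2) :=
    Primrec.snd.comp Primrec.fst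
  refine Primrec.list_append.comp (Primrec.list_append.comp (Primrec.list_append.comp
    (Primrec.list_append.comp (Primrec.list_append.comp (Primrec.list_append.comp
      (Primrec.list_append.comp (Primrec.list_append.comp ?_ ?_) ?_) ?_) ?_) ?_) ?_) ?_) ?_
  · refine Primrec.list_flatMap primrec_colors (pr_ren ?_ _)
    exact pr_ite_n 0 (pr_hb (pr_cst 0) (pr_cst 0) (pr_cst 0) (pr_cst 0))
      (pr_hb (pr_cst 1) hp1 (pr_cst 0) (pr_cst 0))
  · refine Primrec.list_flatMap primrec_poss (pr_ren ?_ _)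
    exact pr_ite_n 0 (pr_hb (pr_cst 0) (pr_cst 0) (pr_cst 0) (pr_cst 0))
      (pr_hb (pr_cst 2) pr_P1 pr_P2 (pr_cst 0))
  · refine Primrec.list_flatMap primrec_colors ?_
    refine Primrec.list_flatMap (primrec_colors.comp Primrec.fst) ?_
    refine Primrec.ite (Primrec.eq.comp (Primrec.snd.comp Primrec.fst) Primrec.snd)
      (Primrec.const []) (pr_ren ?_ _)
    exact pr_ite_n 0 (pr_hb (pr_cst 1) (Primrec.snd.comp (Primrec.fst.comp Primrec.fst))
      (pr_cst 0) (pr_cst 0)) (pr_hb (pr_cst 1) (Primrec.snd.comp Primrec.fst) (pr_cst 0)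
        (pr_cst 1))
  · refine Primrec.list_flatMap primrec_poss ?_
    refine Primrec.list_flatMap (primrec_poss.comp Primrec.fst) ?_
    refine Primrec.ite (Primrec.eq.comp (Primrec.snd.comp Primrec.fst) Primrec.snd)
      (Primrec.const []) (pr_ren ?_ _)
    have hz : Primrec (fun w : ((List (List ℕ) × (ℕ × ℕ)) × (ℕ × ℕ)) × ℕ => w.1.1.2) :=
      Primrec.snd.comp (Primrec.fst.comp Primrec.fst)
    have hw : Primrec (fun w : ((List (List ℕ) × (ℕ × ℕ)) × (ℕ × ℕ)) × ℕ => w.1.2) :=
      Primrec.snd.comp Primrec.fst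
    exact pr_ite_n 0 (pr_hb (pr_cst 2) (Primrec.fst.comp hz) (Primrec.snd.comp hz) (pr_cst 0))
      (pr_hb (pr_cst 2) (Primrec.fst.comp hw) (Primrec.snd.comp hw) (pr_cst 1))
  · refine Primrec.list_flatMap primrec_colors (pr_ren ?_ _)
    exact pr_hb (pr_cst 1) hp1 (pr_cst 0) pr_snd
  · refine Primrec.list_flatMap primrec_poss (pr_ren ?_ _)
    exact pr_hb (pr_cst 2) pr_P1 pr_P2 pr_snd
  · refine Primrec.list_flatMap primrec_poss (pr_ren ?_ _)
    exact pr_ite_n 0 (pr_hb (pr_cst 1) pr_PC (pr_cst 0) (pr_cst 0))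
      (pr_ite_n 1 (pr_hb (pr_cst 1) pr_PC (pr_cst 0) (pr_cst 1))
      (pr_ite_n 2 (pr_hb (pr_cst 2) pr_P1 pr_P2 (pr_cst 0))
      (pr_ite_n 3 (pr_hb (pr_cst 2) pr_P1 pr_P2 (pr_cst 1))
      (pr_ite_n 4 (pr_hb (pr_cst 0) (pr_cst 0) (pr_cst 0) (pr_cst 0))
        (pr_hb (pr_cst 3) pr_P1 pr_P2 pr_snd)))))
  · refine Primrec.list_flatMap primrec_halfs (pr_ren ?_ _)
    exact pr_ite_n 0 (pr_hb (pr_cst 2) pr_P1 pr_P2a (pr_cst 0))
      (pr_ite_n 1 (pr_hb (pr_cst 2) pr_P1 pr_P2a (pr_cst 1))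
      (pr_ite_n 2 (pr_hb (pr_cst 2) pr_P1 pr_P2b (pr_cst 0))
      (pr_ite_n 3 (pr_hb (pr_cst 2) pr_P1 pr_P2b (pr_cst 1))
      (pr_ite_n 4 (pr_hb (pr_cst 0) (pr_cst 0) (pr_cst 0) (pr_cst 0))
        (pr_hb (pr_cst 4) pr_P1 pr_P2 pr_snd)))))
  · refine Primrec.list_flatMap primrec_halfs (pr_ren ?_ _)
    exact pr_ite_n 0 (pr_hb (pr_cst 2) pr_P1 pr_P2b (pr_cst 0))
      (pr_ite_n 1 (pr_hb (pr_cst 2) pr_P1 pr_P2b (pr_cst 1))
      (pr_ite_n 2 (pr_hb (pr_cst 2) pr_P1 pr_PN (pr_cst 0))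
      (pr_ite_n 3 (pr_hb (pr_cst 2) pr_P1 pr_PN (pr_cst 1))
      (pr_ite_n 4 (pr_hb (pr_cst 0) (pr_cst 0) (pr_cst 0) (pr_cst 0))
        (pr_hb (pr_cst 5) pr_P1 pr_P2 pr_snd)))))

/-! ### points -/

theorem pr_getcol : Primrec₂ (fun (T : List (List ℕ)) (k : ℕ) => (colsG g T).getD k []) :=
  (Primrec.list_getD []).comp ((primrec_colsG g).comp Primrec.fst) Primrec.snd

theorem primrec_pts : Primrec (fun T => (netG g T).pts) := by
  unfold Net.pts netG
  simp only
  refine Primrec.list_append.comp ?_ ?_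
  · refine Primrec.list_flatMap (primrec_hubsG g) ?_
    refine Primrec.list_flatMap (Primrec.const _) ?_
    refine Primrec.list_map (Primrec.list_range.comp (Primrec.list_length.comp
      ((primrec_wdH g).comp (Primrec.snd.comp Primrec.fst)))) ?_
    have h1 : Primrec (fun w : ((List (List ℕ) × Hb) × ℕ) × ℕ => w.1.1.2) :=
      Primrec.snd.comp (Primrec.fst.comp Primrec.fst)
    have h2 : Primrec (fun w : ((List (List ℕ) × Hb) × ℕ) × ℕ => w.1.2) :=
      Primrec.snd.comp Primrec.fst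
    exact Primrec.sumInl.comp (h1.pair (h2.pair Primrec.snd))
  · refine Primrec.list_flatMap (Primrec.list_range.comp (Primrec.list_length.comp
      (primrec_colsG g))) ?_
    refine Primrec.list_map (pr_getcol g) ?_
    have h1 : Primrec (fun w : (List (List ℕ) × ℕ) × Ent Hb => w.1.2) :=
      Primrec.snd.comp Primrec.fst
    exact Primrec.sumInr.comp (h1.pair Primrec.snd)

/-- the class of the state `x` at a hub -/
def cx (h : Hb) : ℕ :=
  if h.1 = 0 then 1 else if h.1 = 1 then 2 else if h.1 = 2 then 2 else if h.1 = 3 then 0 else 1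

theorem cx_eq (T : List (List ℕ)) (h : Hb) : clH T h .x = cx h := by
  obtain ⟨k, a, b, n⟩ := h
  match k with
  | 0 => rfl
  | 1 => rfl
  | 2 => rfl
  | 3 => rfl
  | 4 => rfl
  | k + 5 => simp [clH, cx, clB]

theorem pr_cx : Primrec cx := by
  have e : ∀ c : ℕ, PrimrecPred (fun h : Hb => h.1 = c) := fun c =>
    Primrec.eq.comp Primrec.fst (Primrec.const c)
  exact Primrec.ite (e 0) (Primrec.const 1) (Primrec.ite (e 1) (Primrec.const 2)
    (Primrec.ite (e 2) (Primrec.const 2) (Primrec.ite (e 3) (Primrec.const 0)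
      (Primrec.const 1))))

theorem pr_om : PrimrecRel (fun (h : Hb) (p : ℕ) => p < (wdH g h).length ∧
    ((wdH g h).getD p 0).testBit (cx h) = true) := by
  refine PrimrecPred.and ?_ ?_
  · exact Primrec.nat_lt.comp Primrec.snd (Primrec.list_length.comp
      ((primrec_wdH g).comp Primrec.fst))
  · refine Primrec.eq.comp ?_ (Primrec.const true)
    exact pr_testBit.comp ((Primrec.list_getD 0).comp ((primrec_wdH g).comp Primrec.fst)
      Primrec.snd) (pr_cx.comp Primrec.fst)

theorem om_iff (T : List (List ℕ)) (h : Hb) (p : ℕ) : p ∈ DG g T .x h ↔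
    p < (wdH g h).length ∧ ((wdH g h).getD p 0).testBit (cx h) = true := by
  unfold DG omW
  rw [Finset.mem_filter, Finset.mem_range, cx_eq]

theorem pr_Om : Primrec (fun a : Pt Hb => Sum.casesOn (motive := fun _ => Bool) a
    (fun b => decide (b.2.2 < (wdH g b.1).length ∧
      ((wdH g b.1).getD b.2.2 0).testBit (cx b.1) = true))
    (fun b => decide (b.2.2.2 < (wdH g b.2.1).length ∧
      ((wdH g b.2.1).getD b.2.2.2 0).testBit (cx b.2.1) = true))) := by
  refine Primrec.sumCasesOn Primrec.id ?_ ?_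
  · exact ((pr_om g).comp (Primrec.fst.comp Primrec.snd)
      (Primrec.snd.comp (Primrec.snd.comp Primrec.snd))).decide
  · exact ((pr_om g).comp (Primrec.fst.comp (Primrec.snd.comp Primrec.snd))
      (Primrec.snd.comp (Primrec.snd.comp (Primrec.snd.comp Primrec.snd)))).decide

theorem primrec_kept : Primrec (kept g) := by
  unfold kept
  refine pr_filter (primrec_pts g) ?_
  refine Primrec.not.comp ?_
  refine ((pr_Om g).comp Primrec.snd).of_eq ?_
  rintro ⟨T, ⟨h, a, p⟩ | ⟨k, h, b, p⟩⟩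
  · exact decide_eq_decide.2 (om_iff g T h p).symm
  · exact decide_eq_decide.2 (om_iff g T h p).symm

/-- position in the list of hubs -/
def ix (T : List (List ℕ)) (h : Hb) : ℕ := @List.idxOf Hb instBEqOfDecidableEq h (hubsG g T)

theorem pr_idx : Primrec₂ (ix g) :=
  Primrec.list_idxOf.comp Primrec.snd ((primrec_hubsG g).comp Primrec.fst)

theorem pr_col : Primrec₂ (fun (T : List (List ℕ)) (a : Pt Hb) => (netG g T).pk.col a) := by
  have hl : Primrec₂ (fun (z : List (List ℕ) × Pt Hb) (w : Hb × ℕ × ℕ) =>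
      if w.2.1 = 2 ∨ w.2.1 = 3 then 2 * ix g z.1 w.1 + 1
        else 2 * ix g z.1 w.1) := by
    have h1 : Primrec (fun q : (List (List ℕ) × Pt Hb) × (Hb × ℕ × ℕ) =>
        ix g q.1.1 q.2.1) :=
      (pr_idx g).comp (Primrec.fst.comp Primrec.fst) (Primrec.fst.comp Primrec.snd)
    have h2 : Primrec (fun q : (List (List ℕ) × Pt Hb) × (Hb × ℕ × ℕ) => q.2.2.1) :=
      Primrec.fst.comp (Primrec.snd.comp Primrec.snd)
    exact Primrec.ite (PrimrecPred.or (Primrec.eq.comp h2 (Primrec.const 2))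
      (Primrec.eq.comp h2 (Primrec.const 3)))
      (Primrec.succ.comp (Primrec.nat_mul.comp (Primrec.const 2) h1))
      (Primrec.nat_mul.comp (Primrec.const 2) h1)
  have hr : Primrec₂ (fun (z : List (List ℕ) × Pt Hb) (w : ℕ × Ent Hb) =>
      2 * (hubsG g z.1).length + w.1) :=
    Primrec.nat_add.comp (Primrec.nat_mul.comp (Primrec.const 2) (Primrec.list_length.comp
      ((primrec_hubsG g).comp (Primrec.fst.comp Primrec.fst)))) (Primrec.fst.comp Primrec.snd)
  refine (Primrec.sumCasesOn Primrec.snd hl hr).of_eq ?_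
  rintro ⟨T, ⟨h, a, p⟩ | ⟨k, h, b, p⟩⟩ <;> rfl

theorem pr_row : Primrec₂ (fun (T : List (List ℕ)) (a : Pt Hb) => (netG g T).pk.row a) := by
  have hl : Primrec₂ (fun (z : List (List ℕ) × Pt Hb) (w : Hb × ℕ × ℕ) =>
      if w.2.1 = 3 ∨ w.2.1 = 4 then 2 * ix g z.1 w.1 + 1
        else 2 * ix g z.1 w.1) := by
    have h1 : Primrec (fun q : (List (List ℕ) × Pt Hb) × (Hb × ℕ × ℕ) =>
        ix g q.1.1 q.2.1) :=
      (pr_idx g).comp (Primrec.fst.comp Primrec.fst) (Primrec.fst.comp Primrec.snd)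
    have h2 : Primrec (fun q : (List (List ℕ) × Pt Hb) × (Hb × ℕ × ℕ) => q.2.2.1) :=
      Primrec.fst.comp (Primrec.snd.comp Primrec.snd)
    exact Primrec.ite (PrimrecPred.or (Primrec.eq.comp h2 (Primrec.const 3))
      (Primrec.eq.comp h2 (Primrec.const 4)))
      (Primrec.succ.comp (Primrec.nat_mul.comp (Primrec.const 2) h1))
      (Primrec.nat_mul.comp (Primrec.const 2) h1)
  have hr : Primrec₂ (fun (z : List (List ℕ) × Pt Hb) (w : ℕ × Ent Hb) =>
      if w.2.2.1 = true then 2 * ix g z.1 w.2.1 + 1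
        else 2 * ix g z.1 w.2.1) := by
    have h1 : Primrec (fun q : (List (List ℕ) × Pt Hb) × (ℕ × Ent Hb) =>
        ix g q.1.1 q.2.2.1) :=
      (pr_idx g).comp (Primrec.fst.comp Primrec.fst)
        (Primrec.fst.comp (Primrec.snd.comp Primrec.snd))
    have h2 : Primrec (fun q : (List (List ℕ) × Pt Hb) × (ℕ × Ent Hb) => q.2.2.2.1) :=
      Primrec.fst.comp (Primrec.snd.comp (Primrec.snd.comp Primrec.snd))
    exact Primrec.ite (Primrec.eq.comp h2 (Primrec.const true))
      (Primrec.succ.comp (Primrec.nat_mul.comp (Primrec.const 2) h1))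
      (Primrec.nat_mul.comp (Primrec.const 2) h1)
  refine (Primrec.sumCasesOn Primrec.snd hl hr).of_eq ?_
  rintro ⟨T, ⟨h, a, p⟩ | ⟨k, h, b, p⟩⟩ <;> rfl

theorem pr_kx : Primrec₂ (fun (T : List (List ℕ)) (a : Pt Hb) => (netG g T).pk.kx a) := by
  have hl : Primrec₂ (fun (_ : List (List ℕ) × Pt Hb) (w : Hb × ℕ × ℕ) =>
      3 * w.2.2 + (if w.2.1 = 4 ∨ w.2.1 = 2 then 0 else if w.2.1 = 0 ∨ w.2.1 = 3 then 1
        else 2)) := by
    have h1 : Primrec (fun q : (List (List ℕ) × Pt Hb) × (Hb × ℕ × ℕ) => q.2.2.2) :=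
      Primrec.snd.comp (Primrec.snd.comp Primrec.snd)
    have h2 : Primrec (fun q : (List (List ℕ) × Pt Hb) × (Hb × ℕ × ℕ) => q.2.2.1) :=
      Primrec.fst.comp (Primrec.snd.comp Primrec.snd)
    refine Primrec.nat_add.comp (Primrec.nat_mul.comp (Primrec.const 3) h1) ?_
    exact Primrec.ite (PrimrecPred.or (Primrec.eq.comp h2 (Primrec.const 4))
      (Primrec.eq.comp h2 (Primrec.const 2))) (Primrec.const 0)
      (Primrec.ite (PrimrecPred.or (Primrec.eq.comp h2 (Primrec.const 0))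
      (Primrec.eq.comp h2 (Primrec.const 3))) (Primrec.const 1) (Primrec.const 2))
  have hr : Primrec₂ (fun (z : List (List ℕ) × Pt Hb) (w : ℕ × Ent Hb) =>
      @List.idxOf (Ent Hb) instBEqOfDecidableEq w.2 ((colsG g z.1).getD w.1 [])) :=
    Primrec.list_idxOf.comp (Primrec.snd.comp Primrec.snd) ((pr_getcol g).comp
      (Primrec.fst.comp Primrec.fst) (Primrec.fst.comp Primrec.snd))
  refine (Primrec.sumCasesOn Primrec.snd hl hr).of_eq ?_
  rintro ⟨T, ⟨h, a, p⟩ | ⟨k, e⟩⟩
  · rfl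
  · exact @idxOf_inst (Ent Hb) instBEqOfDecidableEq (@instBEqProd Hb (Bool × ℕ)
      instBEqOfDecidableEq inferInstance) inferInstance inferInstance e
      ((colsG g T).getD k [])

theorem pr_ky : Primrec₂ (fun (T : List (List ℕ)) (a : Pt Hb) => (netG g T).pk.ky a) := by
  have hlen : Primrec (fun T : List (List ℕ) => (colsG g T).length) :=
    Primrec.list_length.comp (primrec_colsG g)
  have hl : Primrec₂ (fun (z : List (List ℕ) × Pt Hb) (w : Hb × ℕ × ℕ) =>
      ((colsG g z.1).length + 3) * w.2.2 + (if w.2.1 = 0 ∨ w.2.1 = 3 then 0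
        else if w.2.1 = 1 then 1 else (colsG g z.1).length + 2)) := by
    have h0 : Primrec (fun q : (List (List ℕ) × Pt Hb) × (Hb × ℕ × ℕ) =>
        (colsG g q.1.1).length) := hlen.comp (Primrec.fst.comp Primrec.fst)
    have h1 : Primrec (fun q : (List (List ℕ) × Pt Hb) × (Hb × ℕ × ℕ) => q.2.2.2) :=
      Primrec.snd.comp (Primrec.snd.comp Primrec.snd)
    have h2 : Primrec (fun q : (List (List ℕ) × Pt Hb) × (Hb × ℕ × ℕ) => q.2.2.1) :=
      Primrec.fst.comp (Primrec.snd.comp Primrec.snd)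
    refine Primrec.nat_add.comp (Primrec.nat_mul.comp (Primrec.nat_add.comp h0
      (Primrec.const 3)) h1) ?_
    exact Primrec.ite (PrimrecPred.or (Primrec.eq.comp h2 (Primrec.const 0))
      (Primrec.eq.comp h2 (Primrec.const 3))) (Primrec.const 0)
      (Primrec.ite (Primrec.eq.comp h2 (Primrec.const 1)) (Primrec.const 1)
        (Primrec.nat_add.comp h0 (Primrec.const 2)))
  have hr : Primrec₂ (fun (z : List (List ℕ) × Pt Hb) (w : ℕ × Ent Hb) =>
      ((colsG g z.1).length + 3) * w.2.2.2 + 2 + w.1) := by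
    have h0 : Primrec (fun q : (List (List ℕ) × Pt Hb) × (ℕ × Ent Hb) =>
        (colsG g q.1.1).length) := hlen.comp (Primrec.fst.comp Primrec.fst)
    have h1 : Primrec (fun q : (List (List ℕ) × Pt Hb) × (ℕ × Ent Hb) => q.2.2.2.2) :=
      Primrec.snd.comp (Primrec.snd.comp (Primrec.snd.comp Primrec.snd))
    exact Primrec.nat_add.comp (Primrec.nat_add.comp (Primrec.nat_mul.comp
      (Primrec.nat_add.comp h0 (Primrec.const 3)) h1) (Primrec.const 2))
      (Primrec.fst.comp Primrec.snd)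
  refine (Primrec.sumCasesOn Primrec.snd hl hr).of_eq ?_
  rintro ⟨T, ⟨h, a, p⟩ | ⟨k, h, b, p⟩⟩ <;> rfl

theorem primrec_qd : Primrec₂ (qd g) :=
  Primrec.pair (pr_col g) (Primrec.pair (pr_row g) (Primrec.pair (pr_kx g) (pr_ky g)))

theorem rG_eq (h : Hb) : rG g h =
    ((List.range (wdH g h).length).filter fun p => ((wdH g h).getD p 0).testBit 0).length := by
  unfold rG omW
  have h1 : ((Finset.range (wdH g h).length).filter fun p =>
      ((wdH g h).getD p 0).testBit 0 = true) = ((List.range (wdH g h).length).filter fun p =>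
        ((wdH g h).getD p 0).testBit 0).toFinset := by
    ext p
    simp
  rw [h1, List.toFinset_card_of_nodup (List.nodup_range.filter _)]

theorem pr_rG : Primrec (rG g) := by
  have h1 : Primrec (fun h : Hb => (List.range (wdH g h).length).filter fun p =>
      ((wdH g h).getD p 0).testBit 0) := by
    refine pr_filter (Primrec.list_range.comp (Primrec.list_length.comp (primrec_wdH g))) ?_
    exact pr_testBit.comp ((Primrec.list_getD 0).comp ((primrec_wdH g).comp Primrec.fst)
      Primrec.snd) (Primrec.const 0)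
  exact (Primrec.list_length.comp h1).of_eq fun h => (rG_eq g h).symm

theorem primrec_rad : Primrec (rad g) := by
  unfold rad numOm netG
  simp only
  refine Primrec.nat_add.comp (pr_sum.comp (Primrec.list_map (primrec_hubsG g) ?_))
    (pr_sum.comp (Primrec.list_map (primrec_colsG g) ?_))
  · exact Primrec.nat_mul.comp (Primrec.const 5) ((pr_rG g).comp Primrec.snd)
  · exact Primrec.list_length.comp Primrec.snd

theorem primrec_sL : Primrec (sL g) :=
  PP.primrec_bd.comp ((primrec_rad g).pair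
    ((Primrec.list_map (primrec_pts g) (primrec_qd g)).pair
      (Primrec.list_map (primrec_kept g) (primrec_qd g))))

theorem primrec_pL : Primrec (pL g) :=
  PP.primrec_bd.comp ((primrec_rad g).pair
    ((Primrec.list_map (primrec_pts g) (primrec_qd g)).pair
      (Primrec.list_map (primrec_pts g) (primrec_qd g))))

end PPI
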