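import Mathlib
import Pool.Agent.PPI.TmCheck

/-!
# the gate `B`
-/

namespace PPI

/-- the gate `B` -/
def tmB : Tm where
  W := [[4, 24, 2, 1], [24, 4, 2, 1], [8, 20, 2, 1], [20, 8, 2, 1], [1, 2, 28], [24, 6, 1], [24, 24, 6, 24, 6, 6, 1, 1, 1], [24, 24, 24, 6, 1, 4, 6, 2, 1, 1], [20, 10, 1], [20, 20, 10, 20, 10, 10, 1, 1, 1], [20, 20, 20, 10, 1, 8, 10, 2, 1, 1], [5, 2, 24], [1, 1, 2, 6, 4, 5, 2, 24, 24, 24], [1, 1, 1, 6, 6, 28, 2, 24, 24], [1, 1, 2, 2, 4, 5, 6, 24, 24, 24], [1, 1, 1, 2, 2, 28, 6, 28, 24], [24, 24, 5, 6, 2, 1], [24, 24, 5, 2, 6, 1], [1, 1, 28, 2, 6, 24], [1, 1, 28, 6, 2, 24], [9, 2, 20], [1, 1, 2, 10, 8, 9, 2, 20, 20, 20], [1, 1, 1, 10, 10, 28, 2, 20, 20], [1, 1, 2, 2, 8, 9, 10, 20, 20, 20], [1, 1, 1, 2, 2, 28, 10, 28, 20], [20, 20, 9, 10, 2, 1], [20, 20, 9, 2, 10, 1], [1, 1, 28, 2, 10, 20], [1, 1, 28, 10, 2, 20], [1, 5, 6, 10, 16, 24], [5, 2, 2, 13, 24, 16], [1, 1, 5, 6, 6, 24, 10, 24, 16], [5, 10, 24, 16, 6, 1], [5, 2, 10, 13, 16, 16], [5, 13, 10, 13, 2, 2, 16, 16, 16], [9, 6, 16], [13, 2, 16], [5, 10, 2, 13, 16, 16]]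
  cols := [
    [(6, false, 0), (5, false, 0), (6, false, 2), (6, false, 3), (5, false, 1), (6, false, 5), (6, false, 6), (5, false, 2), (6, false, 8)],
    [(6, false, 0), (7, false, 0), (7, false, 1), (6, false, 2), (7, false, 3), (6, false, 3), (7, false, 4), (6, false, 5), (7, false, 6), (6, false, 6), (6, false, 8), (7, false, 8)],
    [(7, false, 0), (7, false, 1), (7, false, 3), (7, false, 4), (6, false, 0), (7, false, 6), (6, false, 2), (7, false, 8), (6, false, 3), (6, false, 5), (6, false, 6), (6, false, 8)],
    [(1, false, 0), (6, false, 0), (1, false, 1), (6, false, 2), (1, false, 2), (6, false, 3), (6, false, 5), (1, false, 3), (6, false, 6), (6, false, 8)],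
    [(7, false, 0), (7, false, 1), (1, false, 0), (7, false, 3), (7, false, 4), (1, false, 1), (7, false, 6), (1, false, 2), (7, false, 8), (1, false, 3)],
    [(9, false, 0), (8, false, 0), (9, false, 2), (9, false, 3), (8, false, 1), (9, false, 5), (9, false, 6), (8, false, 2), (9, false, 8)],
    [(9, false, 0), (10, false, 0), (10, false, 1), (9, false, 2), (10, false, 3), (9, false, 3), (10, false, 4), (9, false, 5), (10, false, 6), (9, false, 6), (9, false, 8), (10, false, 8)],
    [(10, false, 0), (10, false, 1), (10, false, 3), (10, false, 4), (9, false, 0), (10, false, 6), (9, false, 2), (10, false, 8), (9, false, 3), (9, false, 5), (9, false, 6), (9, false, 8)],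
    [(3, false, 0), (9, false, 0), (3, false, 1), (9, false, 2), (3, false, 2), (9, false, 3), (9, false, 5), (3, false, 3), (9, false, 6), (9, false, 8)],
    [(10, false, 0), (10, false, 1), (3, false, 0), (10, false, 3), (10, false, 4), (3, false, 1), (10, false, 6), (3, false, 2), (10, false, 8), (3, false, 3)],
    [(12, false, 1), (11, false, 0), (12, false, 3), (12, false, 5), (11, false, 1), (12, false, 6), (12, false, 8), (11, false, 2), (12, false, 9)],
    [(13, false, 0), (13, false, 2), (13, false, 3), (13, false, 5), (11, false, 0), (13, false, 6), (11, false, 1), (13, false, 8), (11, false, 2)],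
    [(1, false, 3), (14, false, 1), (1, false, 2), (14, false, 3), (1, false, 1), (14, false, 5), (14, false, 6), (1, false, 0), (14, false, 8), (14, false, 9)],
    [(14, false, 1), (15, false, 0), (15, false, 2), (14, false, 3), (15, false, 3), (14, false, 5), (15, false, 5), (14, false, 6), (15, false, 6), (14, false, 8), (14, false, 9), (15, false, 8)],
    [(16, false, 0), (14, false, 8), (16, true, 0), (16, false, 1), (14, false, 9), (16, true, 1), (16, false, 2), (14, false, 5), (16, true, 2), (16, false, 3), (14, false, 6), (16, true, 3), (16, false, 4), (14, false, 3), (16, true, 4), (16, false, 5), (14, false, 1), (16, true, 5)],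
    [(15, false, 0), (1, false, 3), (15, false, 2), (15, false, 3), (1, false, 2), (15, false, 5), (15, false, 6), (1, false, 1), (15, false, 8), (1, false, 0)],
    [(15, false, 0), (15, false, 2), (15, false, 3), (15, false, 5), (12, false, 1), (15, false, 6), (12, false, 3), (15, false, 8), (12, false, 5), (12, false, 6), (12, false, 8), (12, false, 9)],
    [(12, false, 1), (13, false, 0), (13, false, 2), (12, false, 3), (13, false, 3), (12, false, 5), (13, false, 5), (12, false, 6), (13, false, 6), (12, false, 8), (12, false, 9), (13, false, 8)],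
    [(17, false, 0), (12, false, 8), (17, true, 0), (17, false, 1), (12, false, 9), (17, true, 1), (17, false, 2), (12, false, 5), (17, true, 2), (17, false, 3), (12, false, 6), (17, true, 3), (17, false, 4), (12, false, 3), (17, true, 4), (17, false, 5), (12, false, 1), (17, true, 5)],
    [(18, false, 0), (15, false, 2), (18, true, 0), (18, false, 1), (15, false, 0), (18, true, 1), (18, false, 2), (15, false, 5), (18, true, 2), (18, false, 3), (15, false, 3), (18, true, 3), (18, false, 4), (15, false, 6), (18, true, 4), (18, false, 5), (15, false, 8), (18, true, 5)],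
    [(19, false, 0), (13, false, 2), (19, true, 0), (19, false, 1), (13, false, 0), (19, true, 1), (19, false, 2), (13, false, 5), (19, true, 2), (19, false, 3), (13, false, 3), (19, true, 3), (19, false, 4), (13, false, 6), (19, true, 4), (19, false, 5), (13, false, 8), (19, true, 5)],
    [(18, false, 0), (19, false, 0), (18, false, 1), (19, false, 1), (18, false, 2), (19, false, 2), (18, false, 3), (19, false, 3), (18, false, 4), (19, false, 4), (18, false, 5), (19, false, 5)],
    [(17, false, 0), (16, false, 0), (17, false, 1), (16, false, 1), (17, false, 2), (16, false, 2), (17, false, 3), (16, false, 3), (17, false, 4), (16, false, 4), (17, false, 5), (16, false, 5)],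
    [(21, false, 1), (20, false, 0), (21, false, 3), (21, false, 5), (20, false, 1), (21, false, 6), (21, false, 8), (20, false, 2), (21, false, 9)],
    [(22, false, 0), (22, false, 2), (22, false, 3), (22, false, 5), (20, false, 0), (22, false, 6), (20, false, 1), (22, false, 8), (20, false, 2)],
    [(3, false, 3), (23, false, 1), (3, false, 2), (23, false, 3), (3, false, 1), (23, false, 5), (23, false, 6), (3, false, 0), (23, false, 8), (23, false, 9)],
    [(23, false, 1), (24, false, 0), (24, false, 2), (23, false, 3), (24, false, 3), (23, false, 5), (24, false, 5), (23, false, 6), (24, false, 6), (23, false, 8), (23, false, 9), (24, false, 8)],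
    [(25, false, 0), (23, false, 8), (25, true, 0), (25, false, 1), (23, false, 9), (25, true, 1), (25, false, 2), (23, false, 5), (25, true, 2), (25, false, 3), (23, false, 6), (25, true, 3), (25, false, 4), (23, false, 3), (25, true, 4), (25, false, 5), (23, false, 1), (25, true, 5)],
    [(24, false, 0), (3, false, 3), (24, false, 2), (24, false, 3), (3, false, 2), (24, false, 5), (24, false, 6), (3, false, 1), (24, false, 8), (3, false, 0)],
    [(24, false, 0), (24, false, 2), (24, false, 3), (24, false, 5), (21, false, 1), (24, false, 6), (21, false, 3), (24, false, 8), (21, false, 5), (21, false, 6), (21, false, 8), (21, false, 9)],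
    [(21, false, 1), (22, false, 0), (22, false, 2), (21, false, 3), (22, false, 3), (21, false, 5), (22, false, 5), (21, false, 6), (22, false, 6), (21, false, 8), (21, false, 9), (22, false, 8)],
    [(26, false, 0), (21, false, 8), (26, true, 0), (26, false, 1), (21, false, 9), (26, true, 1), (26, false, 2), (21, false, 5), (26, true, 2), (26, false, 3), (21, false, 6), (26, true, 3), (26, false, 4), (21, false, 3), (26, true, 4), (26, false, 5), (21, false, 1), (26, true, 5)],
    [(27, false, 0), (24, false, 2), (27, true, 0), (27, false, 1), (24, false, 0), (27, true, 1), (27, false, 2), (24, false, 5), (27, true, 2), (27, false, 3), (24, false, 3), (27, true, 3), (27, false, 4), (24, false, 6), (27, true, 4), (27, false, 5), (24, false, 8), (27, true, 5)],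
    [(28, false, 0), (22, false, 2), (28, true, 0), (28, false, 1), (22, false, 0), (28, true, 1), (28, false, 2), (22, false, 5), (28, true, 2), (28, false, 3), (22, false, 3), (28, true, 3), (28, false, 4), (22, false, 6), (28, true, 4), (28, false, 5), (22, false, 8), (28, true, 5)],
    [(27, false, 0), (28, false, 0), (27, false, 1), (28, false, 1), (27, false, 2), (28, false, 2), (27, false, 3), (28, false, 3), (27, false, 4), (28, false, 4), (27, false, 5), (28, false, 5)],
    [(26, false, 0), (25, false, 0), (26, false, 1), (25, false, 1), (26, false, 2), (25, false, 2), (26, false, 3), (25, false, 3), (26, false, 4), (25, false, 4), (26, false, 5), (25, false, 5)],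
    [(12, false, 1), (17, false, 5), (12, true, 1), (12, false, 3), (17, false, 4), (12, true, 3), (12, false, 5), (17, false, 2), (12, true, 5), (12, false, 6), (17, false, 3), (12, true, 6), (12, false, 8), (17, false, 0), (12, true, 8), (12, false, 9), (17, false, 1), (12, true, 9)],
    [(29, false, 0), (17, false, 5), (29, false, 1), (29, false, 2), (17, false, 4), (29, false, 3), (29, false, 4), (17, false, 3), (17, false, 2), (29, false, 5), (17, false, 1), (17, false, 0)],
    [(17, false, 5), (30, false, 0), (17, false, 4), (30, false, 1), (17, false, 3), (30, false, 2), (17, false, 2), (30, false, 3), (17, false, 1), (30, false, 4), (17, false, 0), (30, false, 5)],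
    [(12, false, 1), (31, false, 0), (31, false, 2), (12, false, 3), (31, false, 3), (12, false, 5), (31, false, 5), (12, false, 6), (31, false, 6), (12, false, 8), (12, false, 9), (31, false, 8)],
    [(31, false, 0), (29, false, 0), (29, false, 1), (31, false, 2), (31, false, 3), (29, false, 2), (29, false, 3), (31, false, 5), (31, false, 6), (29, false, 4), (29, false, 5), (31, false, 8)],
    [(32, false, 0), (29, false, 1), (32, true, 0), (32, false, 1), (29, false, 3), (32, true, 1), (32, false, 2), (29, false, 5), (32, true, 2), (32, false, 3), (29, false, 4), (32, true, 3), (32, false, 4), (29, false, 2), (32, true, 4), (32, false, 5), (29, false, 0), (32, true, 5)],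
    [(31, false, 0), (31, false, 2), (33, false, 0), (31, false, 3), (31, false, 5), (33, false, 1), (31, false, 6), (33, false, 2), (33, false, 3), (31, false, 8), (33, false, 4), (33, false, 5)],
    [(31, false, 0), (31, false, 2), (31, false, 3), (31, false, 5), (32, false, 0), (31, false, 6), (32, false, 1), (31, false, 8), (32, false, 2), (32, false, 3), (32, false, 4), (32, false, 5)],
    [(31, false, 0), (31, false, 2), (34, false, 0), (31, false, 3), (31, false, 5), (34, false, 2), (34, false, 3), (31, false, 6), (34, false, 5), (34, false, 6), (31, false, 8), (34, false, 8)],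
    [(20, false, 0), (35, false, 0), (20, false, 1), (35, false, 1), (20, false, 2), (35, false, 2)],
    [(35, false, 0), (36, false, 0), (35, false, 1), (36, false, 1), (35, false, 2), (36, false, 2)],
    [(30, false, 0), (33, false, 0), (30, false, 1), (33, false, 1), (30, false, 2), (33, false, 2), (30, false, 3), (33, false, 3), (30, false, 4), (33, false, 4), (30, false, 5), (33, false, 5)],
    [(11, false, 0), (30, false, 0), (11, false, 1), (30, false, 1), (11, false, 2), (30, false, 2), (30, false, 3), (30, false, 4), (30, false, 5)],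
    [(33, false, 0), (11, false, 0), (33, false, 1), (11, false, 1), (33, false, 2), (33, false, 3), (11, false, 2), (33, false, 4), (33, false, 5)],
    [(33, false, 0), (37, false, 0), (33, false, 1), (37, false, 1), (33, false, 2), (37, false, 2), (33, false, 3), (37, false, 3), (33, false, 4), (37, false, 4), (33, false, 5), (37, false, 5)],
    [(34, false, 0), (37, false, 0), (34, true, 0), (34, false, 2), (37, false, 1), (34, true, 2), (34, false, 3), (37, false, 3), (34, true, 3), (34, false, 5), (37, false, 2), (34, true, 5), (34, false, 6), (37, false, 5), (34, true, 6), (34, false, 8), (37, false, 4), (34, true, 8)],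
    [(32, false, 0), (32, false, 1), (32, false, 2), (2, false, 0), (32, false, 3), (2, false, 1), (32, false, 4), (2, false, 2), (32, false, 5), (2, false, 3)],
    [(34, false, 0), (36, false, 0), (34, false, 2), (34, false, 3), (36, false, 1), (34, false, 5), (34, false, 6), (36, false, 2), (34, false, 8)],
    [(5, false, 0), (6, false, 1), (5, true, 0), (5, false, 1), (6, false, 4), (5, true, 1), (5, false, 2), (6, false, 7), (5, true, 2)],
    [(1, false, 0), (7, false, 2), (1, true, 0), (1, false, 1), (7, false, 5), (1, true, 1), (1, false, 2), (7, false, 7), (1, true, 2), (1, false, 3), (7, false, 9), (1, true, 3)],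
    [(8, false, 0), (9, false, 1), (8, true, 0), (8, false, 1), (9, false, 4), (8, true, 1), (8, false, 2), (9, false, 7), (8, true, 2)],
    [(3, false, 0), (10, false, 2), (3, true, 0), (3, false, 1), (10, false, 5), (3, true, 1), (3, false, 2), (10, false, 7), (3, true, 2), (3, false, 3), (10, false, 9), (3, true, 3)],
    [(1, false, 3), (12, false, 0), (1, true, 3), (1, false, 2), (12, false, 2), (1, true, 2), (1, false, 1), (12, false, 4), (1, true, 1), (1, false, 0), (12, false, 7), (1, true, 0)],
    [(5, false, 2), (13, false, 1), (5, true, 2), (5, false, 1), (13, false, 4), (5, true, 1), (5, false, 0), (13, false, 7), (5, true, 0)],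
    [(1, false, 3), (14, false, 0), (1, true, 3), (1, false, 2), (14, false, 2), (1, true, 2), (1, false, 1), (14, false, 4), (1, true, 1), (1, false, 0), (14, false, 7), (1, true, 0)],
    [(4, false, 0), (15, false, 1), (4, true, 0), (4, false, 1), (15, false, 4), (4, true, 1), (4, false, 2), (15, false, 7), (4, true, 2)],
    [(3, false, 3), (21, false, 0), (3, true, 3), (3, false, 2), (21, false, 2), (3, true, 2), (3, false, 1), (21, false, 4), (3, true, 1), (3, false, 0), (21, false, 7), (3, true, 0)],
    [(8, false, 2), (22, false, 1), (8, true, 2), (8, false, 1), (22, false, 4), (8, true, 1), (8, false, 0), (22, false, 7), (8, true, 0)],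
    [(3, false, 3), (23, false, 0), (3, true, 3), (3, false, 2), (23, false, 2), (3, true, 2), (3, false, 1), (23, false, 4), (3, true, 1), (3, false, 0), (23, false, 7), (3, true, 0)],
    [(4, false, 0), (24, false, 1), (4, true, 0), (4, false, 1), (24, false, 4), (4, true, 1), (4, false, 2), (24, false, 7), (4, true, 2)],
    [(5, false, 2), (31, false, 1), (5, true, 2), (5, false, 1), (31, false, 4), (5, true, 1), (5, false, 0), (31, false, 7), (5, true, 0)],
    [(36, false, 0), (34, false, 1), (36, true, 0), (36, false, 1), (34, false, 4), (36, true, 1), (36, false, 2), (34, false, 7), (36, true, 2)]]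

/-- the patterns of the columns -/
def ptsB : List (List (Ent ℕ)) := [
    [(6, false, 0), (5, false, 0), (6, false, 2), (6, false, 3), (5, false, 1), (6, false, 5)],
    [(6, false, 0), (7, false, 0), (7, false, 1), (6, false, 2), (7, false, 3), (6, false, 3), (6, false, 5), (7, false, 5)],
    [(7, false, 0), (7, false, 1), (7, false, 3), (6, false, 0), (7, false, 5), (6, false, 2), (6, false, 3), (6, false, 5)],
    [(1, false, 0), (6, false, 0), (1, false, 1), (6, false, 2), (1, false, 2), (6, false, 3), (6, false, 5)],
    [(7, false, 0), (7, false, 1), (1, false, 0), (7, false, 3), (1, false, 1), (7, false, 5), (1, false, 2)],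
    [(9, false, 0), (8, false, 0), (9, false, 2), (9, false, 3), (8, false, 1), (9, false, 5)],
    [(9, false, 0), (10, false, 0), (10, false, 1), (9, false, 2), (10, false, 3), (9, false, 3), (9, false, 5), (10, false, 5)],
    [(10, false, 0), (10, false, 1), (10, false, 3), (9, false, 0), (10, false, 5), (9, false, 2), (9, false, 3), (9, false, 5)],
    [(3, false, 0), (9, false, 0), (3, false, 1), (9, false, 2), (3, false, 2), (9, false, 3), (9, false, 5)],
    [(10, false, 0), (10, false, 1), (3, false, 0), (10, false, 3), (3, false, 1), (10, false, 5), (3, false, 2)],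
    [(12, false, 1), (11, false, 0), (12, false, 3), (12, false, 5), (11, false, 1), (12, false, 6)],
    [(13, false, 0), (13, false, 2), (13, false, 3), (11, false, 0), (13, false, 5), (11, false, 1)],
    [(1, false, 2), (14, false, 1), (1, false, 1), (14, false, 3), (1, false, 0), (14, false, 5), (14, false, 6)],
    [(14, false, 1), (15, false, 0), (15, false, 2), (14, false, 3), (15, false, 3), (14, false, 5), (14, false, 6), (15, false, 5)],
    [(16, false, 0), (14, false, 5), (16, true, 0), (16, false, 1), (14, false, 6), (16, true, 1), (16, false, 2), (14, false, 3), (16, true, 2), (16, false, 3), (14, false, 1), (16, true, 3)],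
    [(15, false, 0), (1, false, 2), (15, false, 2), (15, false, 3), (1, false, 1), (15, false, 5), (1, false, 0)],
    [(15, false, 0), (15, false, 2), (15, false, 3), (12, false, 1), (15, false, 5), (12, false, 3), (12, false, 5), (12, false, 6)],
    [(12, false, 1), (13, false, 0), (13, false, 2), (12, false, 3), (13, false, 3), (12, false, 5), (12, false, 6), (13, false, 5)],
    [(17, false, 0), (12, false, 5), (17, true, 0), (17, false, 1), (12, false, 6), (17, true, 1), (17, false, 2), (12, false, 3), (17, true, 2), (17, false, 3), (12, false, 1), (17, true, 3)],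
    [(18, false, 0), (15, false, 2), (18, true, 0), (18, false, 1), (15, false, 0), (18, true, 1), (18, false, 2), (15, false, 3), (18, true, 2), (18, false, 3), (15, false, 5), (18, true, 3)],
    [(19, false, 0), (13, false, 2), (19, true, 0), (19, false, 1), (13, false, 0), (19, true, 1), (19, false, 2), (13, false, 3), (19, true, 2), (19, false, 3), (13, false, 5), (19, true, 3)],
    [(18, false, 0), (19, false, 0), (18, false, 1), (19, false, 1), (18, false, 2), (19, false, 2), (18, false, 3), (19, false, 3)],
    [(17, false, 0), (16, false, 0), (17, false, 1), (16, false, 1), (17, false, 2), (16, false, 2), (17, false, 3), (16, false, 3)],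
    [(21, false, 1), (20, false, 0), (21, false, 3), (21, false, 5), (20, false, 1), (21, false, 6)],
    [(22, false, 0), (22, false, 2), (22, false, 3), (20, false, 0), (22, false, 5), (20, false, 1)],
    [(3, false, 2), (23, false, 1), (3, false, 1), (23, false, 3), (3, false, 0), (23, false, 5), (23, false, 6)],
    [(23, false, 1), (24, false, 0), (24, false, 2), (23, false, 3), (24, false, 3), (23, false, 5), (23, false, 6), (24, false, 5)],
    [(25, false, 0), (23, false, 5), (25, true, 0), (25, false, 1), (23, false, 6), (25, true, 1), (25, false, 2), (23, false, 3), (25, true, 2), (25, false, 3), (23, false, 1), (25, true, 3)],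
    [(24, false, 0), (3, false, 2), (24, false, 2), (24, false, 3), (3, false, 1), (24, false, 5), (3, false, 0)],
    [(24, false, 0), (24, false, 2), (24, false, 3), (21, false, 1), (24, false, 5), (21, false, 3), (21, false, 5), (21, false, 6)],
    [(21, false, 1), (22, false, 0), (22, false, 2), (21, false, 3), (22, false, 3), (21, false, 5), (21, false, 6), (22, false, 5)],
    [(26, false, 0), (21, false, 5), (26, true, 0), (26, false, 1), (21, false, 6), (26, true, 1), (26, false, 2), (21, false, 3), (26, true, 2), (26, false, 3), (21, false, 1), (26, true, 3)],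
    [(27, false, 0), (24, false, 2), (27, true, 0), (27, false, 1), (24, false, 0), (27, true, 1), (27, false, 2), (24, false, 3), (27, true, 2), (27, false, 3), (24, false, 5), (27, true, 3)],
    [(28, false, 0), (22, false, 2), (28, true, 0), (28, false, 1), (22, false, 0), (28, true, 1), (28, false, 2), (22, false, 3), (28, true, 2), (28, false, 3), (22, false, 5), (28, true, 3)],
    [(27, false, 0), (28, false, 0), (27, false, 1), (28, false, 1), (27, false, 2), (28, false, 2), (27, false, 3), (28, false, 3)],
    [(26, false, 0), (25, false, 0), (26, false, 1), (25, false, 1), (26, false, 2), (25, false, 2), (26, false, 3), (25, false, 3)],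
    [(12, false, 1), (17, false, 3), (12, true, 1), (12, false, 3), (17, false, 2), (12, true, 3), (12, false, 5), (17, false, 0), (12, true, 5), (12, false, 6), (17, false, 1), (12, true, 6)],
    [(29, false, 0), (17, false, 3), (29, false, 1), (29, false, 2), (17, false, 2), (29, false, 3), (17, false, 1), (17, false, 0)],
    [(17, false, 3), (30, false, 0), (17, false, 2), (30, false, 1), (17, false, 1), (30, false, 2), (17, false, 0), (30, false, 3)],
    [(12, false, 1), (31, false, 0), (31, false, 2), (12, false, 3), (31, false, 3), (12, false, 5), (12, false, 6), (31, false, 5)],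
    [(31, false, 0), (29, false, 0), (29, false, 1), (31, false, 2), (31, false, 3), (29, false, 2), (29, false, 3), (31, false, 5)],
    [(32, false, 0), (29, false, 1), (32, true, 0), (32, false, 1), (29, false, 3), (32, true, 1), (32, false, 2), (29, false, 2), (32, true, 2), (32, false, 3), (29, false, 0), (32, true, 3)],
    [(31, false, 0), (31, false, 2), (33, false, 0), (31, false, 3), (33, false, 1), (31, false, 5), (33, false, 2), (33, false, 3)],
    [(31, false, 0), (31, false, 2), (31, false, 3), (32, false, 0), (31, false, 5), (32, false, 1), (32, false, 2), (32, false, 3)],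
    [(31, false, 0), (31, false, 2), (34, false, 0), (31, false, 3), (34, false, 2), (34, false, 3), (31, false, 5), (34, false, 5)],
    [(20, false, 0), (35, false, 0), (20, false, 1), (35, false, 1)],
    [(35, false, 0), (36, false, 0), (35, false, 1), (36, false, 1)],
    [(30, false, 0), (33, false, 0), (30, false, 1), (33, false, 1), (30, false, 2), (33, false, 2), (30, false, 3), (33, false, 3)],
    [(11, false, 0), (30, false, 0), (11, false, 1), (30, false, 1), (30, false, 2), (30, false, 3)],
    [(33, false, 0), (11, false, 0), (33, false, 1), (11, false, 1), (33, false, 2), (33, false, 3)],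
    [(33, false, 0), (37, false, 0), (33, false, 1), (37, false, 1), (33, false, 2), (37, false, 2), (33, false, 3), (37, false, 3)],
    [(34, false, 0), (37, false, 0), (34, true, 0), (34, false, 2), (37, false, 1), (34, true, 2), (34, false, 3), (37, false, 3), (34, true, 3), (34, false, 5), (37, false, 2), (34, true, 5)],
    [(32, false, 0), (32, false, 1), (2, false, 0), (32, false, 2), (2, false, 1), (32, false, 3), (2, false, 2)],
    [(34, false, 0), (36, false, 0), (34, false, 2), (34, false, 3), (36, false, 1), (34, false, 5)],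
    [(5, false, 0), (6, false, 1), (5, true, 0), (5, false, 1), (6, false, 4), (5, true, 1)],
    [(1, false, 0), (7, false, 2), (1, true, 0), (1, false, 1), (7, false, 4), (1, true, 1), (1, false, 2), (7, false, 6), (1, true, 2)],
    [(8, false, 0), (9, false, 1), (8, true, 0), (8, false, 1), (9, false, 4), (8, true, 1)],
    [(3, false, 0), (10, false, 2), (3, true, 0), (3, false, 1), (10, false, 4), (3, true, 1), (3, false, 2), (10, false, 6), (3, true, 2)],
    [(1, false, 2), (12, false, 0), (1, true, 2), (1, false, 1), (12, false, 2), (1, true, 1), (1, false, 0), (12, false, 4), (1, true, 0)],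
    [(5, false, 1), (13, false, 1), (5, true, 1), (5, false, 0), (13, false, 4), (5, true, 0)],
    [(1, false, 2), (14, false, 0), (1, true, 2), (1, false, 1), (14, false, 2), (1, true, 1), (1, false, 0), (14, false, 4), (1, true, 0)],
    [(4, false, 0), (15, false, 1), (4, true, 0), (4, false, 1), (15, false, 4), (4, true, 1)],
    [(3, false, 2), (21, false, 0), (3, true, 2), (3, false, 1), (21, false, 2), (3, true, 1), (3, false, 0), (21, false, 4), (3, true, 0)],
    [(8, false, 1), (22, false, 1), (8, true, 1), (8, false, 0), (22, false, 4), (8, true, 0)],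
    [(3, false, 2), (23, false, 0), (3, true, 2), (3, false, 1), (23, false, 2), (3, true, 1), (3, false, 0), (23, false, 4), (3, true, 0)],
    [(4, false, 0), (24, false, 1), (4, true, 0), (4, false, 1), (24, false, 4), (4, true, 1)],
    [(5, false, 1), (31, false, 1), (5, true, 1), (5, false, 0), (31, false, 4), (5, true, 0)],
    [(36, false, 0), (34, false, 1), (36, true, 0), (36, false, 1), (34, false, 4), (36, true, 1)]]

/-- the revisions -/
def stepsB : List (List (ℕ × ℕ × ℕ)) := [
    [(52, 32, 2), (41, 32, 29), (41, 29, 32), (37, 17, 29), (22, 16, 17), (38, 30, 17), (48, 30, 11), (48, 11, 30), (47, 33, 30), (49, 11, 33), (49, 33, 11), (50, 37, 33), (8, 9, 3), (56, 9, 8), (56, 8, 9), (3, 6, 1), (0, 5, 6), (54, 6, 5), (61, 15, 4), (15, 15, 1), (19, 18, 15), (19, 15, 18), (21, 19, 18), (65, 24, 4), (28, 24, 3), (32, 27, 24), (32, 24, 27), (34, 28, 27), (33, 22, 28), (63, 8, 22), (24, 20, 22), (45, 35, 20), (46, 36, 35), (56, 9, 8), (67, 34, 36), (53, 34, 36), (51, 34, 37), (51, 37, 34), (50, 33, 37), (47, 30, 33), (38, 17, 30), (22, 16, 17), (44,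 31, 34), (40, 31, 29), (66, 31, 5), (11, 13, 11), (20, 13, 19), (59, 5, 13), (66, 31, 5), (54, 6, 5), (25, 23, 3), (64, 23, 3), (26, 23, 24), (27, 25, 23), (35, 26, 25), (17, 12, 13), (18, 12, 17), (58, 12, 1), (39, 31, 12), (9, 10, 3), (57, 10, 3), (6, 10, 9), (6, 9, 10), (62, 21, 3), (23, 21, 20), (31, 26, 21), (60, 14, 1), (13, 14, 15), (14, 16, 14), (55, 7, 1), (1, 7, 6), (1, 6, 7)],
    [(52, 32, 2), (48, 30, 11), (49, 33, 11), (8, 9, 3), (56, 9, 8), (56, 8, 9), (3, 6, 1), (0, 5, 6), (54, 6, 5), (61, 15, 4), (15, 15, 1), (65, 24, 4), (28, 24, 3), (19, 18, 15), (19, 15, 18), (21, 19, 18), (32, 27, 24), (32, 24, 27), (34, 28, 27), (41, 32, 29), (41, 29, 32), (37, 17, 29), (38, 30, 17), (47, 33, 30), (49, 11, 33), (22, 16, 17), (50, 37, 33), (25, 23, 3), (64, 23, 3), (26, 23, 24), (26, 24, 23), (32, 27, 24), (34, 28, 27), (27, 25, 23), (35, 26, 25), (9, 10, 3), (57, 10, 3), (6, 10, 9), (7, 9, 10), (6, 10, 9), (6, 9, 10), (56, 8, 9), (63, 22, 8), (24, 20, 22), (45, 35, 20), (46, 36, 35), (24, 22, 20), (33, 22, 28), (33, 28, 22), (62, 21, 3), (23, 21, 20),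 (30, 22, 21), (33, 28, 22), (30, 21, 22), (29, 24, 21), (26, 23, 24), (32, 27, 24), (27, 25, 23), (35, 26, 25), (31, 26, 21), (31, 21, 26), (23, 20, 21), (24, 22, 20), (33, 28, 22), (60, 14, 1), (12, 14, 1), (13, 14, 15), (13, 15, 14), (19, 18, 15), (21, 19, 18), (14, 16, 14), (58, 12, 1), (16, 12, 15), (10, 12, 11), (18, 17, 12), (55, 7, 1), (4, 7, 1), (1, 7, 6), (2, 6, 7), (1, 7, 6), (1, 6, 7), (0, 5, 6), (59, 13, 5), (11, 13, 11), (17, 12, 13), (16, 15, 12), (19, 18, 15), (13, 14, 15), (14, 16, 14), (22, 17, 16), (18, 12, 17), (10, 11, 12), (37, 29, 17), (49, 33, 11), (38, 30, 17), (47, 33, 30), (47, 30, 33), (50, 37, 33), (21, 19, 18), (41, 32, 29), (11, 13, 11), (17, 13, 12), (20, 19, 13), (20, 13, 19), (42, 31, 33), (66, 31, 5), (39, 31, 12), (40, 29, 31), (41, 32, 29), (43, 31, 32), (44, 34, 31), (67, 34, 36), (51, 34, 37), (67, 36, 34), (46, 35, 36), (51, 37, 34)],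
    [(52, 32, 2), (48, 30, 11), (49, 33, 11), (8, 9, 3), (56, 9, 8), (56, 8, 9), (3, 6, 1), (0, 5, 6), (54, 6, 5), (63, 22, 8), (24, 22, 20), (33, 28, 22), (34, 27, 28), (61, 15, 4), (15, 15, 1), (19, 18, 15), (19, 15, 18), (21, 19, 18), (65, 24, 4), (28, 24, 3), (32, 27, 24), (32, 24, 27), (41, 32, 29), (41, 29, 32), (37, 17, 29), (25, 23, 3), (64, 23, 3), (26, 23, 24), (27, 25, 23), (35, 26, 25), (7, 10, 9), (9, 10, 3), (57, 10, 3), (6, 10, 9), (62, 21, 3), (29, 21, 24), (23, 20, 21), (23, 21, 20), (31, 26, 21), (31, 21, 26), (23, 20, 21), (24, 22, 20), (33, 28, 22), (45, 35, 20), (60, 14, 1), (12, 14, 1), (13, 14, 15), (13, 15, 14), (19, 18, 15), (21, 19, 18), (14, 16, 14), (22, 17, 16), (38, 30, 17), (47, 33, 30), (50, 37, 33), (58, 12, 1), (16, 12, 15), (18, 17, 12), (10, 11, 12), (37, 29, 17), (48, 30, 11), (41, 32, 29), (47, 33, 30), (50, 37, 33), (55, 7, 1), (4, 7, 1), (1, 7, 6), (1, 6, 7), (2, 7, 6), (1, 6, 7), (0, 5, 6), (59, 13, 5), (11, 13, 11), (17, 13, 12), (20, 19, 13), (20, 13, 19), (11, 11, 13), (10, 12, 11), (18, 17, 12), (48, 30, 11), (47,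 33, 30), (50, 37, 33), (66, 31, 5), (39, 31, 12), (43, 32, 31), (41, 29, 32), (40, 31, 29), (44, 34, 31), (67, 34, 36), (51, 34, 37), (67, 36, 34), (46, 35, 36), (51, 37, 34), (50, 33, 37), (47, 30, 33)],
    [(52, 32, 2), (48, 30, 11), (49, 33, 11), (8, 9, 3), (56, 9, 8), (56, 8, 9), (3, 6, 1), (0, 5, 6), (54, 6, 5), (61, 15, 4), (15, 15, 1), (19, 18, 15), (19, 15, 18), (21, 19, 18), (65, 24, 4), (28, 24, 3), (32, 27, 24), (32, 24, 27), (34, 28, 27), (59, 13, 5), (11, 13, 11), (20, 19, 13), (66, 31, 5), (43, 32, 31), (43, 31, 32), (42, 33, 31), (40, 29, 31), (41, 32, 29), (41, 29, 32), (37, 17, 29), (47, 30, 33), (48, 11, 30), (25, 23, 3), (64, 23, 3), (26, 23, 24), (26, 24, 23), (32, 27, 24), (34, 28, 27), (27, 25, 23), (35, 26, 25), (9, 10, 3), (57, 10, 3), (6, 10, 9), (6, 9, 10), (7, 10, 9), (6, 9, 10), (56, 8, 9), (63, 22, 8), (24, 20, 22), (45, 35, 20), (46, 36, 35), (24, 22, 20), (33, 22, 28), (33, 28, 22), (62, 21, 3), (29, 21, 24), (30, 22, 21), (33, 28, 22), (24, 20, 22), (23, 21, 20), (45, 35, 20), (46, 36, 35), (31, 26, 21), (67, 34, 36), (53,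 34, 36), (44, 31, 34), (43, 32, 31), (44, 34, 31), (41, 29, 32), (42, 33, 31), (51, 37, 34), (50, 33, 37), (47, 30, 33), (38, 17, 30), (22, 16, 17), (60, 14, 1), (13, 14, 15), (14, 16, 14), (22, 17, 16), (37, 29, 17), (41, 32, 29), (38, 30, 17), (48, 11, 30), (11, 13, 11), (20, 19, 13), (49, 33, 11), (17, 12, 13), (18, 17, 12), (38, 30, 17), (1, 7, 6)],
    [(52, 32, 2), (48, 30, 11), (49, 33, 11), (8, 9, 3), (56, 9, 8), (56, 8, 9), (3, 6, 1), (0, 5, 6), (54, 6, 5), (63, 22, 8), (24, 22, 20), (33, 28, 22), (34, 27, 28), (61, 15, 4), (15, 15, 1), (19, 18, 15), (19, 15, 18), (21, 19, 18), (65, 24, 4), (28, 24, 3), (32, 27, 24), (32, 24, 27), (59, 13, 5), (11, 13, 11), (20, 19, 13), (66, 31, 5), (43, 31, 32), (42, 33, 31), (40, 29, 31), (41, 32, 29), (41, 29, 32), (37, 17, 29), (47, 30, 33), (48, 11, 30), (25, 23, 3), (64, 23, 3), (26, 23, 24), (27, 25, 23), (35, 26, 25), (7, 10, 9), (9, 10, 3), (57, 10, 3), (6, 10, 9), (62, 21, 3), (29, 21, 24), (23, 20, 21), (23, 21, 20), (31, 26, 21), (31, 21, 26), (23, 20, 21), (24, 22, 20), (33, 28, 22), (45, 35, 20), (60,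 14, 1), (13, 14, 15), (14, 16, 14), (22, 17, 16), (37, 29, 17), (41, 32, 29), (43, 31, 32), (42, 33, 31), (38, 30, 17), (48, 11, 30), (11, 13, 11), (20, 19, 13), (44, 34, 31), (67, 34, 36), (67, 36, 34), (51, 34, 37), (67, 36, 34), (46, 35, 36), (51, 37, 34), (50, 33, 37), (47, 30, 33), (38, 17, 30), (17, 12, 13), (1, 7, 6)]]

theorem tmB_gate : GateB tmB where
  ok := TmCheck.ok_of_check (by decide +kernel)
  five := by decide
  w0 := rfl
  w1 := rfl
  w2 := rfl
  w3 := rfl
  w4 := rfl
  ex := TmCheck.exact_of_check ptsB stepsB (by decide +kernel)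
  sep1 := TmCheck.sep_of_check 46 (36, false, 0) (by decide +kernel)
  sep2 := TmCheck.sep_of_check 53 (36, false, 0) (by decide +kernel)

end PPI
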