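import Mathlib
import Pool.Agent.PPI.TmCheck

/-!
# the gate `C`
-/

namespace PPI

/-- the gate `C` -/
def tmC : Tm where
  W := [[4, 24, 2, 1], [24, 4, 2, 1], [8, 20, 2, 1], [20, 8, 2, 1], [1, 2, 28], [24, 6, 1], [24, 24, 6, 24, 6, 6, 1, 1, 1], [24, 24, 24, 6, 6, 1, 6, 1, 1], [20, 10, 1], [20, 20, 10, 20, 10, 10, 1, 1, 1], [20, 20, 20, 10, 10, 1, 10, 1, 1], [1, 1, 6, 1, 6, 14, 24, 24, 16], [1, 1, 1, 6, 6, 24, 14, 24, 16], [1, 1, 6, 14, 16, 24], [1, 14, 16], [1, 14, 24, 16, 6, 1]]
  cols := [
    [(6, false, 0), (5, false, 0), (6, false, 2), (6, false, 3), (5, false, 1), (6, false, 5), (6, false, 6), (5, false, 2), (6, false, 8)],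
    [(6, false, 0), (7, false, 0), (7, false, 2), (6, false, 2), (7, false, 3), (6, false, 3), (7, false, 5), (6, false, 5), (7, false, 6), (6, false, 6), (6, false, 8), (7, false, 8)],
    [(7, false, 0), (7, false, 2), (7, false, 3), (7, false, 5), (6, false, 0), (7, false, 6), (6, false, 2), (7, false, 8), (6, false, 3), (6, false, 5), (6, false, 6), (6, false, 8)],
    [(1, false, 0), (6, false, 0), (1, false, 1), (6, false, 2), (1, false, 2), (6, false, 3), (6, false, 5), (1, false, 3), (6, false, 6), (6, false, 8)],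
    [(7, false, 0), (7, false, 2), (1, false, 0), (7, false, 3), (7, false, 5), (1, false, 1), (7, false, 6), (1, false, 2), (7, false, 8), (1, false, 3)],
    [(9, false, 0), (8, false, 0), (9, false, 2), (9, false, 3), (8, false, 1), (9, false, 5), (9, false, 6), (8, false, 2), (9, false, 8)],
    [(9, false, 0), (10, false, 0), (10, false, 2), (9, false, 2), (10, false, 3), (9, false, 3), (10, false, 5), (9, false, 5), (10, false, 6), (9, false, 6), (9, false, 8), (10, false, 8)],
    [(10, false, 0), (10, false, 2), (10, false, 3), (10, false, 5), (9, false, 0), (10, false, 6), (9, false, 2), (10, false, 8), (9, false, 3), (9, false, 5), (9, false, 6), (9, false, 8)],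
    [(3, false, 0), (9, false, 0), (3, false, 1), (9, false, 2), (3, false, 2), (9, false, 3), (9, false, 5), (3, false, 3), (9, false, 6), (9, false, 8)],
    [(10, false, 0), (10, false, 2), (3, false, 0), (10, false, 3), (10, false, 5), (3, false, 1), (10, false, 6), (3, false, 2), (10, false, 8), (3, false, 3)],
    [(1, false, 3), (11, false, 0), (1, false, 2), (11, false, 2), (1, false, 1), (11, false, 3), (11, false, 5), (1, false, 0), (11, false, 6), (11, false, 8)],
    [(12, false, 0), (12, false, 2), (8, false, 2), (12, false, 3), (12, false, 5), (8, false, 1), (12, false, 6), (8, false, 0), (12, false, 8)],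
    [(11, false, 0), (12, false, 0), (12, false, 2), (11, false, 2), (12, false, 3), (11, false, 3), (12, false, 5), (11, false, 5), (12, false, 6), (11, false, 6), (11, false, 8), (12, false, 8)],
    [(11, false, 0), (13, false, 0), (13, false, 1), (11, false, 2), (11, false, 3), (13, false, 2), (13, false, 3), (11, false, 5), (11, false, 6), (13, false, 4), (13, false, 5), (11, false, 8)],
    [(13, false, 0), (11, false, 0), (13, false, 1), (13, false, 2), (11, false, 2), (13, false, 3), (13, false, 4), (11, false, 3), (11, false, 5), (13, false, 5), (11, false, 6), (11, false, 8)],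
    [(12, false, 0), (12, false, 2), (12, false, 3), (12, false, 5), (14, false, 0), (12, false, 6), (14, false, 1), (12, false, 8), (14, false, 2)],
    [(12, false, 0), (14, false, 0), (12, false, 2), (12, false, 3), (14, false, 1), (12, false, 5), (12, false, 6), (14, false, 2), (12, false, 8)],
    [(15, false, 0), (13, false, 1), (15, true, 0), (15, false, 1), (13, false, 3), (15, true, 1), (15, false, 2), (13, false, 5), (15, true, 2), (15, false, 3), (13, false, 4), (15, true, 3), (15, false, 4), (13, false, 2), (15, true, 4), (15, false, 5), (13, false, 0), (15, true, 5)],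
    [(14, false, 0), (15, false, 0), (14, false, 1), (15, false, 1), (14, false, 2), (15, false, 2), (15, false, 3), (15, false, 4), (15, false, 5)],
    [(15, false, 0), (15, false, 1), (15, false, 2), (2, false, 0), (15, false, 3), (2, false, 1), (15, false, 4), (2, false, 2), (15, false, 5), (2, false, 3)],
    [(5, false, 0), (6, false, 1), (5, true, 0), (5, false, 1), (6, false, 4), (5, true, 1), (5, false, 2), (6, false, 7), (5, true, 2)],
    [(5, false, 0), (7, false, 1), (5, true, 0), (5, false, 1), (7, false, 4), (5, true, 1), (5, false, 2), (7, false, 7), (5, true, 2)],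
    [(8, false, 0), (9, false, 1), (8, true, 0), (8, false, 1), (9, false, 4), (8, true, 1), (8, false, 2), (9, false, 7), (8, true, 2)],
    [(8, false, 0), (10, false, 1), (8, true, 0), (8, false, 1), (10, false, 4), (8, true, 1), (8, false, 2), (10, false, 7), (8, true, 2)],
    [(5, false, 2), (11, false, 1), (5, true, 2), (5, false, 1), (11, false, 4), (5, true, 1), (5, false, 0), (11, false, 7), (5, true, 0)],
    [(5, false, 2), (12, false, 1), (5, true, 2), (5, false, 1), (12, false, 4), (5, true, 1), (5, false, 0), (12, false, 7), (5, true, 0)],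
    [(4, false, 0), (14, false, 0), (4, false, 1), (14, false, 1), (4, false, 2), (14, false, 2)]]

/-- the patterns of the columns -/
def ptsC : List (List (Ent ℕ)) := [
    [(6, false, 0), (5, false, 0), (6, false, 2), (6, false, 3), (5, false, 1), (6, false, 5)],
    [(6, false, 0), (7, false, 0), (7, false, 2), (6, false, 2), (7, false, 3), (6, false, 3), (6, false, 5), (7, false, 5)],
    [(7, false, 0), (7, false, 2), (7, false, 3), (6, false, 0), (7, false, 5), (6, false, 2), (6, false, 3), (6, false, 5)],
    [(1, false, 0), (6, false, 0), (1, false, 1), (6, false, 2), (1, false, 2), (6, false, 3), (6, false, 5)],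
    [(7, false, 0), (7, false, 2), (1, false, 0), (7, false, 3), (1, false, 1), (7, false, 5), (1, false, 2)],
    [(9, false, 0), (8, false, 0), (9, false, 2), (9, false, 3), (8, false, 1), (9, false, 5)],
    [(9, false, 0), (10, false, 0), (10, false, 2), (9, false, 2), (10, false, 3), (9, false, 3), (9, false, 5), (10, false, 5)],
    [(10, false, 0), (10, false, 2), (10, false, 3), (9, false, 0), (10, false, 5), (9, false, 2), (9, false, 3), (9, false, 5)],
    [(3, false, 0), (9, false, 0), (3, false, 1), (9, false, 2), (3, false, 2), (9, false, 3), (9, false, 5)],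
    [(10, false, 0), (10, false, 2), (3, false, 0), (10, false, 3), (3, false, 1), (10, false, 5), (3, false, 2)],
    [(1, false, 2), (11, false, 0), (1, false, 1), (11, false, 2), (1, false, 0), (11, false, 3), (11, false, 5)],
    [(12, false, 0), (12, false, 2), (8, false, 1), (12, false, 3), (8, false, 0), (12, false, 5)],
    [(11, false, 0), (12, false, 0), (12, false, 2), (11, false, 2), (12, false, 3), (11, false, 3), (11, false, 5), (12, false, 5)],
    [(11, false, 0), (13, false, 0), (13, false, 1), (11, false, 2), (11, false, 3), (13, false, 2), (13, false, 3), (11, false, 5)],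
    [(13, false, 0), (11, false, 0), (13, false, 1), (13, false, 2), (11, false, 2), (13, false, 3), (11, false, 3), (11, false, 5)],
    [(12, false, 0), (12, false, 2), (12, false, 3), (14, false, 0), (12, false, 5), (14, false, 1)],
    [(12, false, 0), (14, false, 0), (12, false, 2), (12, false, 3), (14, false, 1), (12, false, 5)],
    [(15, false, 0), (13, false, 1), (15, true, 0), (15, false, 1), (13, false, 3), (15, true, 1), (15, false, 2), (13, false, 2), (15, true, 2), (15, false, 3), (13, false, 0), (15, true, 3)],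
    [(14, false, 0), (15, false, 0), (14, false, 1), (15, false, 1), (15, false, 2), (15, false, 3)],
    [(15, false, 0), (15, false, 1), (2, false, 0), (15, false, 2), (2, false, 1), (15, false, 3), (2, false, 2)],
    [(5, false, 0), (6, false, 1), (5, true, 0), (5, false, 1), (6, false, 4), (5, true, 1)],
    [(5, false, 0), (7, false, 1), (5, true, 0), (5, false, 1), (7, false, 4), (5, true, 1)],
    [(8, false, 0), (9, false, 1), (8, true, 0), (8, false, 1), (9, false, 4), (8, true, 1)],
    [(8, false, 0), (10, false, 1), (8, true, 0), (8, false, 1), (10, false, 4), (8, true, 1)],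
    [(5, false, 1), (11, false, 1), (5, true, 1), (5, false, 0), (11, false, 4), (5, true, 0)],
    [(5, false, 1), (12, false, 1), (5, true, 1), (5, false, 0), (12, false, 4), (5, true, 0)],
    [(4, false, 0), (14, false, 0), (4, false, 1), (14, false, 1)]]

/-- the revisions -/
def stepsC : List (List (ℕ × ℕ × ℕ)) := [
    [(26, 14, 4), (19, 15, 2), (18, 15, 14), (17, 13, 15), (8, 9, 3), (22, 8, 9), (22, 9, 8), (13, 11, 13), (10, 11, 1), (24, 5, 11), (24, 11, 5), (12, 12, 11), (11, 8, 12), (5, 9, 8), (22, 9, 8), (23, 10, 8), (9, 10, 3), (6, 9, 10), (3, 6, 1), (20, 6, 5), (21, 7, 5), (4, 7, 1), (1, 6, 7)],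
    [(26, 14, 4), (19, 15, 2), (18, 15, 14), (17, 15, 13), (17, 13, 15), (8, 9, 3), (22, 8, 9), (22, 9, 8), (3, 6, 1), (20, 5, 6), (20, 6, 5), (9, 10, 3), (23, 10, 8), (23, 8, 10), (22, 9, 8), (7, 9, 10), (6, 10, 9), (6, 9, 10), (10, 11, 1), (24, 5, 11), (20, 6, 5), (24, 11, 5), (14, 13, 11), (17, 15, 13), (25, 12, 5), (11, 12, 8), (12, 12, 11), (16, 14, 12), (15, 12, 14), (12, 11, 12), (13, 13, 11), (17, 15, 13), (21, 7, 5), (4, 7, 1), (1, 6, 7), (2, 6, 7), (1, 7, 6)],
    [(26, 14, 4), (19, 15, 2), (8, 9, 3), (22, 8, 9), (22, 9, 8), (23, 10, 8), (7, 10, 9), (6, 10, 9), (3, 6, 1), (20, 5, 6), (20, 6, 5), (10, 11, 1), (24, 5, 11), (20, 6, 5), (24, 11, 5), (14, 13, 11), (13, 13, 11), (14, 11, 13), (17, 15, 13), (17, 13, 15), (25, 12, 5), (11, 12, 8), (15, 14, 12), (12, 12, 11), (12, 11, 12), (13, 13, 11), (17, 15, 13), (21, 7, 5), (4, 7, 1), (2, 7, 6), (1, 6, 7), (1, 7, 6)],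
    [(26, 14, 4), (19, 15, 2), (18, 15, 14), (17, 15, 13), (17, 13, 15), (8, 9, 3), (22, 8, 9), (22, 9, 8), (3, 6, 1), (20, 5, 6), (20, 6, 5), (24, 11, 5), (10, 11, 1), (14, 13, 11), (17, 15, 13), (9, 10, 3), (23, 10, 8), (23, 8, 10), (5, 9, 8), (22, 9, 8), (7, 10, 9), (6, 10, 9), (6, 9, 10), (2, 7, 6), (21, 7, 5), (1, 7, 6), (25, 12, 5), (11, 12, 8), (15, 14, 12), (18, 15, 14), (17, 13, 15), (13, 11, 13)],
    [(26, 14, 4), (19, 15, 2), (8, 9, 3), (22, 8, 9), (22, 9, 8), (23, 10, 8), (7, 10, 9), (6, 10, 9), (3, 6, 1), (20, 5, 6), (20, 6, 5), (24, 11, 5), (10, 11, 1), (14, 13, 11), (17, 15, 13), (17, 13, 15), (18, 14, 15), (2, 7, 6), (21, 7, 5), (1, 7, 6), (25, 12, 5), (16, 12, 14), (11, 12, 8), (15, 12, 14), (12, 11, 12)]]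

theorem tmC_gate : GateC tmC where
  ok := TmCheck.ok_of_check (by decide +kernel)
  five := by decide
  w0 := rfl
  w1 := rfl
  w2 := rfl
  w3 := rfl
  w4 := rfl
  ex := TmCheck.exact_of_check ptsC stepsC (by decide +kernel)
  sep1 := TmCheck.sep_of_check 26 (14, false, 1) (by decide +kernel)
  sep2 := TmCheck.sep_of_check 16 (14, false, 1) (by decide +kernel)

end PPI
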