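import Mathlib
import Pool.Agent.PPI.TmCheck

/-!
# the gate `G`
-/

namespace PPI

/-- the gate `G` -/
def tmG : Tm where
  W := [[2, 4, 1, 24], [4, 2, 1, 24], [8, 16, 1, 6], [16, 8, 1, 6], [6, 1, 24], [6, 6, 9, 6, 9, 9, 16, 16, 16], [4, 4, 3, 4, 3, 3, 24, 24, 24], [6, 6, 6, 9, 9, 16, 9, 16, 16], [4, 4, 11, 4, 11, 11, 16, 16, 16], [6, 9, 16], [4, 3, 24], [4, 4, 4, 3, 3, 24, 3, 24, 24], [4, 11, 16], [4, 4, 4, 11, 11, 16, 11, 16, 16]]
  cols := [
    [(3, false, 3), (5, false, 0), (3, false, 2), (5, false, 2), (3, false, 1), (5, false, 3), (5, false, 5), (3, false, 0), (5, false, 6), (5, false, 8)],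
    [(6, false, 0), (3, false, 3), (6, false, 2), (3, false, 2), (6, false, 3), (6, false, 5), (3, false, 1), (6, false, 6), (6, false, 8), (3, false, 0)],
    [(5, false, 0), (7, false, 0), (7, false, 2), (5, false, 2), (7, false, 3), (5, false, 3), (7, false, 5), (5, false, 5), (7, false, 6), (5, false, 6), (5, false, 8), (7, false, 8)],
    [(7, false, 0), (7, false, 2), (7, false, 3), (7, false, 5), (5, false, 0), (7, false, 6), (5, false, 2), (7, false, 8), (5, false, 3), (5, false, 5), (5, false, 6), (5, false, 8)],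
    [(8, false, 0), (5, false, 0), (8, false, 2), (5, false, 2), (8, false, 3), (8, false, 5), (5, false, 3), (5, false, 5), (8, false, 6), (8, false, 8), (5, false, 6), (5, false, 8)],
    [(7, false, 0), (9, false, 0), (7, false, 2), (7, false, 3), (9, false, 1), (7, false, 5), (7, false, 6), (9, false, 2), (7, false, 8)],
    [(1, false, 0), (7, false, 0), (7, false, 2), (1, false, 1), (7, false, 3), (7, false, 5), (1, false, 2), (7, false, 6), (1, false, 3), (7, false, 8)],
    [(10, false, 0), (6, false, 0), (10, false, 1), (6, false, 2), (10, false, 2), (6, false, 3), (6, false, 5), (6, false, 6), (6, false, 8)],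
    [(11, false, 0), (11, false, 2), (11, false, 3), (11, false, 5), (10, false, 0), (11, false, 6), (10, false, 1), (11, false, 8), (10, false, 2)],
    [(6, false, 0), (11, false, 0), (11, false, 2), (6, false, 2), (11, false, 3), (6, false, 3), (11, false, 5), (6, false, 5), (11, false, 6), (6, false, 6), (6, false, 8), (11, false, 8)],
    [(8, false, 0), (12, false, 0), (8, false, 2), (8, false, 3), (12, false, 1), (8, false, 5), (8, false, 6), (12, false, 2), (8, false, 8)],
    [(8, false, 0), (13, false, 0), (13, false, 2), (8, false, 2), (13, false, 3), (8, false, 3), (13, false, 5), (8, false, 5), (13, false, 6), (8, false, 6), (8, false, 8), (13, false, 8)],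
    [(13, false, 0), (13, false, 2), (13, false, 3), (13, false, 5), (8, false, 0), (13, false, 6), (8, false, 2), (13, false, 8), (8, false, 3), (8, false, 5), (8, false, 6), (8, false, 8)],
    [(11, false, 0), (11, false, 2), (13, false, 0), (13, false, 2), (11, false, 3), (11, false, 5), (13, false, 3), (13, false, 5), (11, false, 6), (13, false, 6), (11, false, 8), (13, false, 8)],
    [(11, false, 0), (11, false, 2), (1, false, 0), (11, false, 3), (11, false, 5), (1, false, 1), (11, false, 6), (1, false, 2), (11, false, 8), (1, false, 3)],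
    [(9, false, 0), (5, false, 1), (9, true, 0), (9, false, 1), (5, false, 4), (9, true, 1), (9, false, 2), (5, false, 7), (9, true, 2)],
    [(10, false, 0), (6, false, 1), (10, true, 0), (10, false, 1), (6, false, 4), (10, true, 1), (10, false, 2), (6, false, 7), (10, true, 2)],
    [(9, false, 0), (7, false, 1), (9, true, 0), (9, false, 1), (7, false, 4), (9, true, 1), (9, false, 2), (7, false, 7), (9, true, 2)],
    [(12, false, 0), (8, false, 1), (12, true, 0), (12, false, 1), (8, false, 4), (12, true, 1), (12, false, 2), (8, false, 7), (12, true, 2)],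
    [(10, false, 0), (11, false, 1), (10, true, 0), (10, false, 1), (11, false, 4), (10, true, 1), (10, false, 2), (11, false, 7), (10, true, 2)],
    [(12, false, 0), (13, false, 1), (12, true, 0), (12, false, 1), (13, false, 4), (12, true, 1), (12, false, 2), (13, false, 7), (12, true, 2)],
    [(12, false, 0), (9, false, 0), (12, false, 1), (9, false, 1), (12, false, 2), (9, false, 2)]]

/-- the patterns of the columns -/
def ptsG : List (List (Ent ℕ)) := [
    [(3, false, 2), (5, false, 0), (3, false, 1), (5, false, 2), (3, false, 0), (5, false, 3), (5, false, 5)],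
    [(6, false, 0), (3, false, 2), (6, false, 2), (3, false, 1), (6, false, 3), (6, false, 5), (3, false, 0)],
    [(5, false, 0), (7, false, 0), (7, false, 2), (5, false, 2), (7, false, 3), (5, false, 3), (5, false, 5), (7, false, 5)],
    [(7, false, 0), (7, false, 2), (7, false, 3), (5, false, 0), (7, false, 5), (5, false, 2), (5, false, 3), (5, false, 5)],
    [(8, false, 0), (5, false, 0), (8, false, 2), (5, false, 2), (8, false, 3), (8, false, 5), (5, false, 3), (5, false, 5)],
    [(7, false, 0), (9, false, 0), (7, false, 2), (7, false, 3), (9, false, 1), (7, false, 5)],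
    [(1, false, 0), (7, false, 0), (7, false, 2), (1, false, 1), (7, false, 3), (1, false, 2), (7, false, 5)],
    [(10, false, 0), (6, false, 0), (10, false, 1), (6, false, 2), (6, false, 3), (6, false, 5)],
    [(11, false, 0), (11, false, 2), (11, false, 3), (10, false, 0), (11, false, 5), (10, false, 1)],
    [(6, false, 0), (11, false, 0), (11, false, 2), (6, false, 2), (11, false, 3), (6, false, 3), (6, false, 5), (11, false, 5)],
    [(8, false, 0), (12, false, 0), (8, false, 2), (8, false, 3), (12, false, 1), (8, false, 5)],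
    [(8, false, 0), (13, false, 0), (13, false, 2), (8, false, 2), (13, false, 3), (8, false, 3), (8, false, 5), (13, false, 5)],
    [(13, false, 0), (13, false, 2), (13, false, 3), (8, false, 0), (13, false, 5), (8, false, 2), (8, false, 3), (8, false, 5)],
    [(11, false, 0), (11, false, 2), (13, false, 0), (13, false, 2), (11, false, 3), (13, false, 3), (11, false, 5), (13, false, 5)],
    [(11, false, 0), (11, false, 2), (1, false, 0), (11, false, 3), (1, false, 1), (11, false, 5), (1, false, 2)],
    [(9, false, 0), (5, false, 1), (9, true, 0), (9, false, 1), (5, false, 4), (9, true, 1)],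
    [(10, false, 0), (6, false, 1), (10, true, 0), (10, false, 1), (6, false, 4), (10, true, 1)],
    [(9, false, 0), (7, false, 1), (9, true, 0), (9, false, 1), (7, false, 4), (9, true, 1)],
    [(12, false, 0), (8, false, 1), (12, true, 0), (12, false, 1), (8, false, 4), (12, true, 1)],
    [(10, false, 0), (11, false, 1), (10, true, 0), (10, false, 1), (11, false, 4), (10, true, 1)],
    [(12, false, 0), (13, false, 1), (12, true, 0), (12, false, 1), (13, false, 4), (12, true, 1)],
    [(12, false, 0), (9, false, 0), (12, false, 1), (9, false, 1)]]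

/-- the revisions -/
def stepsG : List (List (ℕ × ℕ × ℕ)) := [
    [(0, 5, 3), (15, 5, 9), (15, 9, 5), (1, 6, 3), (16, 10, 6), (7, 10, 6), (16, 6, 10), (7, 6, 10), (8, 11, 10), (19, 11, 10), (14, 11, 1), (9, 11, 6), (9, 6, 11), (13, 13, 11), (20, 13, 12), (20, 12, 13), (6, 7, 1), (17, 9, 7), (15, 5, 9), (17, 7, 9), (3, 7, 5), (2, 5, 7), (2, 7, 5), (4, 8, 5), (10, 12, 8), (20, 13, 12), (18, 8, 12), (12, 13, 8), (11, 8, 13), (12, 8, 13), (11, 13, 8)],
    [(0, 5, 3), (15, 5, 9), (15, 9, 5), (21, 12, 9), (3, 7, 5), (5, 7, 9), (2, 7, 5), (1, 6, 3), (16, 10, 6), (16, 6, 10), (4, 8, 5), (18, 8, 12), (14, 11, 1), (19, 11, 10), (19, 10, 11), (8, 11, 10), (16, 6, 10), (9, 11, 6), (9, 6, 11), (13, 13, 11), (20, 13, 12), (20, 12, 13), (18, 8, 12), (12, 13, 8), (11, 8, 13), (11, 13, 8)],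
    [(0, 5, 3), (15, 5, 9), (15, 9, 5), (21, 12, 9), (3, 7, 5), (5, 7, 9), (2, 7, 5), (1, 6, 3), (16, 10, 6), (16, 6, 10), (4, 8, 5), (18, 8, 12), (14, 11, 1), (19, 11, 10), (8, 10, 11), (16, 6, 10), (7, 6, 10), (9, 11, 6), (13, 13, 11), (20, 12, 13), (11, 8, 13), (18, 8, 12), (12, 8, 13)],
    [(0, 5, 3), (15, 5, 9), (15, 9, 5), (1, 6, 3), (16, 10, 6), (7, 10, 6), (16, 6, 10), (8, 11, 10), (19, 11, 10), (9, 6, 11), (13, 13, 11), (20, 13, 12), (20, 12, 13), (6, 7, 1), (5, 7, 9), (17, 9, 7), (15, 5, 9), (17, 7, 9), (2, 5, 7), (3, 5, 7), (2, 7, 5), (4, 8, 5), (10, 12, 8), (20, 13, 12), (18, 8, 12), (11, 8, 13), (12, 8, 13), (11, 13, 8)],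
    [(0, 5, 3), (15, 5, 9), (15, 9, 5), (21, 12, 9), (1, 6, 3), (16, 10, 6), (9, 11, 6), (8, 11, 10), (19, 11, 10), (13, 13, 11), (20, 13, 12), (6, 7, 1), (17, 7, 9), (3, 7, 5), (17, 9, 7), (21, 12, 9), (20, 13, 12), (2, 5, 7), (4, 8, 5), (12, 13, 8)]]

theorem tmG_gate : GateG tmG where
  ok := TmCheck.ok_of_check (by decide +kernel)
  five := by decide
  w0 := rfl
  w1 := rfl
  w2 := rfl
  w3 := rfl
  w4 := rfl
  ex := TmCheck.exact_of_check ptsG stepsG (by decide +kernel)
  sep := TmCheck.sep_of_check 21 (12, false, 1) (by decide +kernel)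

end PPI
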