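import Mathlib
import Pool.Agent.PPI.TmCheck

/-!
# the end swap
-/

namespace PPI

/-- the end swap -/
def tmS : Tm where
  W := [[1, 2, 4, 8], [2, 1, 4, 8], [3, 4, 8], [1, 3, 2, 3, 4, 4, 8, 4, 8, 8], [3, 1, 2, 4, 4, 8, 8], [2, 1, 3, 4, 3, 4, 4, 8, 8, 8], [3, 2, 1, 4, 4, 8, 8], [8, 4, 2, 3, 1, 4, 8]]
  cols := [
    [(0, false, 0), (2, false, 0), (0, false, 1), (2, false, 1), (0, false, 2), (2, false, 2), (0, false, 3)],
    [(0, false, 0), (0, false, 1), (2, false, 0), (0, false, 2), (2, false, 1), (0, false, 3), (2, false, 2)],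
    [(3, false, 1), (3, false, 3), (4, false, 0), (3, false, 4), (3, false, 6), (4, false, 1), (4, false, 2), (3, false, 7), (4, false, 3), (4, false, 4), (3, false, 9), (4, false, 5), (4, false, 6)],
    [(5, false, 0), (5, false, 1), (3, false, 1), (3, false, 3), (5, false, 3), (3, false, 4), (5, false, 4), (3, false, 6), (5, false, 6), (3, false, 7), (5, false, 7), (5, false, 9), (3, false, 9)],
    [(4, false, 0), (6, false, 0), (4, true, 0), (4, false, 1), (6, false, 2), (4, true, 1), (4, false, 2), (6, false, 1), (4, true, 2), (4, false, 3), (6, false, 4), (4, true, 3), (4, false, 4), (6, false, 3), (4, true, 4), (4, false, 5), (6, false, 6), (4, true, 5), (4, false, 6), (6, false, 5), (4, true, 6)],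
    [(1, false, 0), (6, false, 0), (6, false, 1), (1, false, 1), (6, false, 2), (6, false, 3), (1, false, 2), (6, false, 4), (6, false, 5), (1, false, 3), (6, false, 6)],
    [(7, false, 0), (4, false, 6), (7, true, 0), (7, false, 1), (4, false, 4), (7, true, 1), (7, false, 2), (4, false, 2), (7, true, 2), (7, false, 3), (4, false, 0), (7, true, 3), (7, false, 4), (4, false, 1), (7, true, 4), (7, false, 5), (4, false, 3), (7, true, 5), (7, false, 6), (4, false, 5), (7, true, 6)],
    [(0, false, 0), (4, false, 0), (4, false, 1), (0, false, 1), (4, false, 2), (4, false, 3), (0, false, 2), (4, false, 4), (4, false, 5), (0, false, 3), (4, false, 6)],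
    [(0, false, 3), (7, false, 0), (0, false, 2), (7, false, 1), (0, false, 1), (7, false, 2), (0, false, 0), (7, false, 3), (7, false, 4), (7, false, 5), (7, false, 6)],
    [(7, false, 0), (7, false, 1), (7, false, 2), (7, false, 3), (5, false, 0), (7, false, 4), (5, false, 1), (7, false, 5), (5, false, 3), (7, false, 6), (5, false, 4), (5, false, 6), (5, false, 7), (5, false, 9)],
    [(5, false, 0), (1, false, 0), (5, false, 1), (1, false, 1), (5, false, 3), (1, false, 2), (5, false, 4), (5, false, 6), (1, false, 3), (5, false, 7), (5, false, 9)],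
    [(0, false, 0), (3, false, 0), (0, true, 0), (0, false, 1), (3, false, 2), (0, true, 1), (0, false, 2), (3, false, 5), (0, true, 2), (0, false, 3), (3, false, 8), (0, true, 3)],
    [(2, false, 0), (5, false, 2), (2, true, 0), (2, false, 1), (5, false, 5), (2, true, 1), (2, false, 2), (5, false, 8), (2, true, 2)]]

/-- the patterns of the columns -/
def ptsS : List (List (Ent ℕ)) := [
    [(0, false, 0), (2, false, 0), (0, false, 1), (2, false, 1), (0, false, 2)],
    [(0, false, 0), (0, false, 1), (2, false, 0), (0, false, 2), (2, false, 1)],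
    [(3, false, 1), (3, false, 3), (4, false, 0), (3, false, 4), (4, false, 1), (4, false, 2), (3, false, 6), (4, false, 3), (4, false, 4)],
    [(5, false, 0), (5, false, 1), (3, false, 1), (3, false, 3), (5, false, 3), (3, false, 4), (5, false, 4), (5, false, 6), (3, false, 6)],
    [(4, false, 0), (6, false, 0), (4, true, 0), (4, false, 1), (6, false, 2), (4, true, 1), (4, false, 2), (6, false, 1), (4, true, 2), (4, false, 3), (6, false, 4), (4, true, 3), (4, false, 4), (6, false, 3), (4, true, 4)],
    [(1, false, 0), (6, false, 0), (6, false, 1), (1, false, 1), (6, false, 2), (6, false, 3), (1, false, 2), (6, false, 4)],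
    [(7, false, 0), (4, false, 4), (7, true, 0), (7, false, 1), (4, false, 2), (7, true, 1), (7, false, 2), (4, false, 0), (7, true, 2), (7, false, 3), (4, false, 1), (7, true, 3), (7, false, 4), (4, false, 3), (7, true, 4)],
    [(0, false, 0), (4, false, 0), (4, false, 1), (0, false, 1), (4, false, 2), (4, false, 3), (0, false, 2), (4, false, 4)],
    [(0, false, 2), (7, false, 0), (0, false, 1), (7, false, 1), (0, false, 0), (7, false, 2), (7, false, 3), (7, false, 4)],
    [(7, false, 0), (7, false, 1), (7, false, 2), (5, false, 0), (7, false, 3), (5, false, 1), (7, false, 4), (5, false, 3), (5, false, 4), (5, false, 6)],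
    [(5, false, 0), (1, false, 0), (5, false, 1), (1, false, 1), (5, false, 3), (1, false, 2), (5, false, 4), (5, false, 6)],
    [(0, false, 0), (3, false, 0), (0, true, 0), (0, false, 1), (3, false, 2), (0, true, 1), (0, false, 2), (3, false, 5), (0, true, 2)],
    [(2, false, 0), (5, false, 2), (2, true, 0), (2, false, 1), (5, false, 5), (2, true, 1)]]

/-- the revisions -/
def stepsS : List (List (ℕ × ℕ × ℕ)) := [
    [(0, 2, 0), (7, 4, 0), (4, 6, 4), (5, 1, 6), (6, 7, 4), (9, 5, 7), (10, 5, 1), (12, 5, 2), (3, 3, 5), (11, 3, 0)],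
    [(0, 2, 0), (1, 2, 0), (7, 4, 0), (8, 7, 0), (6, 4, 7), (6, 7, 4), (4, 6, 4), (4, 4, 6), (6, 7, 4), (5, 1, 6), (12, 5, 2), (9, 5, 7), (11, 3, 0), (3, 3, 5), (2, 4, 3), (4, 6, 4), (6, 7, 4), (9, 5, 7), (10, 1, 5)],
    [(0, 2, 0), (1, 2, 0), (7, 4, 0), (8, 7, 0), (6, 4, 7), (6, 7, 4), (4, 6, 4), (4, 4, 6), (6, 7, 4), (5, 1, 6), (9, 5, 7), (10, 5, 1), (12, 5, 2), (11, 3, 0), (2, 3, 4), (3, 3, 5), (3, 5, 3)],
    [(0, 2, 0), (7, 4, 0), (8, 7, 0), (6, 4, 7), (6, 7, 4), (4, 6, 4), (5, 1, 6), (9, 5, 7), (10, 5, 1), (12, 5, 2), (11, 3, 0), (2, 3, 4), (3, 5, 3)]]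

theorem tmS_gate : GateS tmS where
  ok := TmCheck.ok_of_check (by decide +kernel)
  two := by decide
  w0 := rfl
  w1 := rfl
  ex := TmCheck.exact_of_check ptsS stepsS (by decide +kernel)

end PPI
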