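import Mathlib
import Pool.Agent.PPI.Glob
import Pool.Agent.PPI.TmS
import Pool.Agent.PPI.TmG
import Pool.Agent.PPI.TmB
import Pool.Agent.PPI.TmC

/-!
# The four gates
-/

namespace PPI

/-- the four gates -/
def gates : Gates := ⟨tmS, tmG, tmB, tmC⟩

theorem gates_ok : gates.OK := ⟨tmS_gate, tmG_gate, tmB_gate, tmC_gate⟩

end PPI
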