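import Mathlib
import Pool.Agent.PPI.Comp
import Pool.Agent.PPI.Gates

/-!
# Undecidability of the wedge property of intervals of permutations
-/

namespace PPI

open Nat.Partrec (Code)
open CT PP

/-- the halting problem `hf` is complete for recursively enumerable predicates -/
theorem hf_complete {A : ℕ → Prop} (hA : REPred A) :
    ∃ g : ℕ → ℕ, Primrec g ∧ ∀ n, (NB.hf (g n)).Dom ↔ A n := by
  have h1 : Partrec (fun n : ℕ => (Part.assert (A n) fun _ => Part.some ()).map fun _ => 0) :=
    Partrec.map hA (Computable.const 0).to₂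
  have h2 : Nat.Partrec (fun n : ℕ => (Part.assert (A n) fun _ => Part.some ()).map fun _ => 0) :=
    Partrec.nat_iff.1 h1
  obtain ⟨c, hc⟩ := Code.exists_code.1 h2
  refine ⟨fun n => Encodable.encode (Code.curry (Code.comp c Code.left) n), ?_, ?_⟩
  · exact Primrec.encode.comp (Code.primrec₂_curry.comp (Primrec.const _) Primrec.id)
  · intro n
    unfold NB.hf
    rw [Denumerable.ofNat_encode, Code.eval_curry]
    have h3 : Code.eval (Code.comp c Code.left) (Nat.pair n 0) = Code.eval c n := by
      have h4 : Code.eval (Code.comp c Code.left) (Nat.pair n 0) =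
          (Part.some (Nat.unpair (Nat.pair n 0)).1).bind (fun x => Code.eval c x) := rfl
      rw [h4, Nat.unpair_pair]
      exact Part.bind_some _ _
    rw [h3, hc]
    exact ⟨fun h => h.1, fun h => ⟨h, trivial⟩⟩

/-- every recursively enumerable predicate is reducible to the wedge property -/
theorem wedge_hard {A : ℕ → Prop} (hA : REPred A) :
    ∃ s t : ℕ → List ℕ, Primrec s ∧ Primrec t ∧ ∀ n, IsPerm (s n) ∧ IsPerm (t n) ∧
      permOf (s n) ≤ permOf (t n) ∧
      (IsWedge (Delta (permOf (s n)) (permOf (t n))) ↔ A n) := by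
  obtain ⟨g, hg, h⟩ := hf_complete hA
  obtain ⟨s, t, hs, ht, H⟩ := halting_family (primrec_sL gates) (primrec_pL gates)
    (realises gates_ok)
  refine ⟨fun n => s (g n), fun n => t (g n), hs.comp hg, ht.comp hg, fun n => ?_⟩
  obtain ⟨a, b, c, d⟩ := H (g n)
  exact ⟨a, b, c, d.trans (h n)⟩

theorem wedge_undecidable : ¬ ∃ f : List ℕ × List ℕ → Bool, Computable f ∧
    ∀ σ π : List ℕ, IsPerm σ → IsPerm π → permOf σ ≤ permOf π →
      (f (σ, π) = true ↔ IsWedge (Delta (permOf σ) (permOf π))) :=
  undecidable (primrec_sL gates) (primrec_pL gates) (realises gates_ok)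

theorem nonwedge_not_re : ¬ REPred (fun q : List ℕ × List ℕ =>
    IsPerm q.1 ∧ IsPerm q.2 ∧ permOf q.1 ≤ permOf q.2 ∧
      ¬ IsWedge (Delta (permOf q.1) (permOf q.2))) :=
  not_re (primrec_sL gates) (primrec_pL gates) (realises gates_ok)

end PPI
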